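import Pool.Agent.Run7.h333.VanT

/-! Elementary abelian Artin-Schreier covers and the hyperplane count. -/

set_option autoImplicit false
set_option linter.style.haveILetI false
set_option linter.unusedSectionVars false

namespace Run7.h333

section count

variable {p : ℕ} [Fact p.Prime] {J : Type} [Fintype J]

/-- the pairing -/
def dot (χ c : J → ZMod p) : ZMod p := ∑ j, χ j * c j

lemma dot_add (χ c c' : J → ZMod p) : dot χ (c + c') = dot χ c + dot χ c' := by
  unfold dot
  rw [← Finset.sum_add_distrib]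
  exact Finset.sum_congr rfl fun j _ => mul_add _ _ _

lemma dot_add_left (χ χ' c : J → ZMod p) : dot (χ + χ') c = dot χ c + dot χ' c := by
  unfold dot
  rw [← Finset.sum_add_distrib]
  exact Finset.sum_congr rfl fun j _ => add_mul _ _ _

lemma dot_smul_left (u : ZMod p) (χ c : J → ZMod p) : dot (u • χ) c = u * dot χ c := by
  unfold dot
  rw [Finset.mul_sum]
  exact Finset.sum_congr rfl fun j _ => mul_assoc _ _ _

lemma dot_zero (χ : J → ZMod p) : dot χ (0 : J → ZMod p) = 0 := by
  unfold dot
  simp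

open scoped LinearAlgebra.Projectivization

/-- counting nonzero vectors by lines -/
lemma card_proj (Q : (J → ZMod p) → Prop)
    (hQ : ∀ (u : (ZMod p)ˣ) (χ : J → ZMod p), Q χ → Q ((u : ZMod p) • χ)) :
    Nat.card {χ : J → ZMod p // χ ≠ 0 ∧ Q χ} =
      Nat.card {v : ℙ (ZMod p) (J → ZMod p) // Q v.rep} * (p - 1) := by
  classical
  let F : {v : ℙ (ZMod p) (J → ZMod p) // Q v.rep} × (ZMod p)ˣ → {χ : J → ZMod p // χ ≠ 0 ∧ Q χ} :=
    fun a => ⟨(a.2 : ZMod p) • a.1.1.rep, smul_ne_zero a.2.ne_zero a.1.1.rep_nonzero, hQ _ _ a.1.2⟩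
  have hF : Function.Bijective F := by
    constructor
    · rintro ⟨⟨v, hv⟩, u⟩ ⟨⟨v', hv'⟩, u'⟩ h
      have h1 : (u : ZMod p) • v.rep = (u' : ZMod p) • v'.rep := congrArg Subtype.val h
      have h2 : v = v' := by
        rw [← v.mk_rep, ← v'.mk_rep, Projectivization.mk_eq_mk_iff]
        refine ⟨u⁻¹ * u', ?_⟩
        rw [mul_smul, Units.smul_def u', ← h1, ← Units.smul_def, inv_smul_smul]
      subst h2
      have h3 : u = u' := by
        have h4 : ((u : ZMod p) - u') • v.rep = 0 := by rw [sub_smul, h1, sub_self]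
        rcases smul_eq_zero.1 h4 with h5 | h5
        · exact Units.ext (sub_eq_zero.1 h5)
        · exact absurd h5 v.rep_nonzero
      subst h3
      rfl
    · rintro ⟨χ, hχ, hQχ⟩
      obtain ⟨a, ha⟩ := Projectivization.exists_smul_eq_mk_rep (ZMod p) χ hχ
      refine ⟨⟨⟨Projectivization.mk (ZMod p) χ hχ, ?_⟩, a⁻¹⟩, Subtype.ext ?_⟩
      · rw [← ha]
        exact hQ a χ hQχ
      · change ((a⁻¹ : (ZMod p)ˣ) : ZMod p) • (Projectivization.mk (ZMod p) χ hχ).rep = χ
        rw [← ha, ← Units.smul_def, inv_smul_smul]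
  rw [← Nat.card_eq_of_bijective F hF, Nat.card_prod]
  congr 1
  rw [Nat.card_eq_fintype_card, ZMod.card_units]

lemma card_split (Q : (J → ZMod p) → Prop) (h0 : Q 0) :
    Nat.card {χ : J → ZMod p // Q χ} = Nat.card {χ : J → ZMod p // χ ≠ 0 ∧ Q χ} + 1 := by
  classical
  have e : {χ : J → ZMod p // Q χ} ≃ Option {χ : J → ZMod p // χ ≠ 0 ∧ Q χ} :=
    { toFun := fun χ => if h : χ.1 = 0 then none else some ⟨χ.1, h, χ.2⟩
      invFun := fun o => match o with
        | none => ⟨0, h0⟩
        | some χ => ⟨χ.1, χ.2.2⟩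
      left_inv := by
        rintro ⟨χ, hχ⟩
        by_cases h : χ = 0
        · subst h; simp
        · simp [h]
      right_inv := by
        rintro (_ | ⟨χ, h, hχ⟩)
        · simp
        · simp [h] }
  rw [Nat.card_congr e, Finite.card_option]

/-- number of lines, and of lines in a hyperplane -/
theorem hyper_count [Nonempty J] : ∃ n0 : ℕ,
    Nat.card (ℙ (ZMod p) (J → ZMod p)) = n0 + p ^ (Fintype.card J - 1) ∧
    ∀ c : J → ZMod p, c ≠ 0 →
      Nat.card {v : ℙ (ZMod p) (J → ZMod p) // dot v.rep c = 0} = n0 := by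
  classical
  have hp : p.Prime := Fact.out
  have hp1 : 0 < p - 1 := Nat.sub_pos_of_lt hp.one_lt
  set r := Fintype.card J with hr
  have hr0 : 0 < r := Fintype.card_pos
  have hV : Nat.card (J → ZMod p) = p ^ r := by
    rw [Nat.card_eq_fintype_card, Fintype.card_fun, ZMod.card]
  have htot : Nat.card (ℙ (ZMod p) (J → ZMod p)) * (p - 1) + 1 = p ^ r := by
    have h1 := Projectivization.card' (ZMod p) (J → ZMod p)
    rw [hV, Nat.card_zmod] at h1
    exact h1.symm
  have hW : ∀ c : J → ZMod p, c ≠ 0 → Nat.card {χ : J → ZMod p // dot χ c = 0} = p ^ (r - 1) := by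
    intro c hc
    let φ : (J → ZMod p) →+ ZMod p :=
      { toFun := fun χ => dot χ c
        map_zero' := by unfold dot; simp
        map_add' := fun χ χ' => dot_add_left χ χ' c }
    have hsurj : Function.Surjective φ := by
      obtain ⟨j, hj⟩ := Function.ne_iff.1 hc
      intro y
      refine ⟨Pi.single j (y * (c j)⁻¹), ?_⟩
      change dot _ c = y
      unfold dot
      rw [Finset.sum_eq_single j]
      · rw [Pi.single_eq_same, mul_assoc, inv_mul_cancel₀ hj, mul_one]
      · intro i _ hij
        rw [Pi.single_eq_of_ne hij, zero_mul]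
      · intro h; exact absurd (Finset.mem_univ _) h
    have h1 := AddSubgroup.card_mul_index φ.ker
    have h2 : φ.ker.index = p := by
      rw [AddSubgroup.index_ker, AddMonoidHom.range_eq_top.2 hsurj, AddSubgroup.card_top, Nat.card_zmod]
    rw [h2, hV] at h1
    have h3 : Nat.card φ.ker = Nat.card {χ : J → ZMod p // dot χ c = 0} := rfl
    rw [h3] at h1
    have h4 : p ^ r = p ^ (r - 1) * p := by
      rw [← pow_succ]
      congr 1
      omega
    rw [h4] at h1
    exact Nat.eq_of_mul_eq_mul_right hp.pos h1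
  have hline : ∀ c : J → ZMod p, c ≠ 0 →
      Nat.card {v : ℙ (ZMod p) (J → ZMod p) // dot v.rep c = 0} * (p - 1) + 1 = p ^ (r - 1) := by
    intro c hc
    rw [← card_proj (fun χ => dot χ c = 0) (fun u χ h => by
      change dot _ _ = 0
      rw [dot_smul_left, h, mul_zero]), ← card_split (fun χ => dot χ c = 0) (by unfold dot; simp), hW c hc]
  refine ⟨(p ^ (r - 1) - 1) / (p - 1), ?_, fun c hc => ?_⟩
  · -- use a nonzero vector
    obtain ⟨j⟩ := ‹Nonempty J›
    have hc : (Pi.single j 1 : J → ZMod p) ≠ 0 := by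
      intro h
      have := congrFun h j
      rw [Pi.single_eq_same] at this
      exact one_ne_zero this
    have h1 := hline _ hc
    have h2 : (p ^ (r - 1) - 1) / (p - 1) =
        Nat.card {v : ℙ (ZMod p) (J → ZMod p) // dot v.rep (Pi.single j 1) = 0} := by
      rw [← h1, Nat.add_sub_cancel, Nat.mul_div_cancel _ hp1]
    rw [h2]
    have h4 : p ^ r = p ^ (r - 1) * p := by
      rw [← pow_succ]
      congr 1
      omega
    have h5 : p ^ (r - 1) * p = p ^ (r - 1) * (p - 1) + p ^ (r - 1) := by
      have h7 : p = (p - 1) + 1 := (Nat.sub_add_cancel hp.one_lt.le).symm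
      refine (congrArg (fun t => p ^ (r - 1) * t) h7).trans ?_
      rw [mul_add, mul_one]
    refine Nat.eq_of_mul_eq_mul_right hp1 ?_
    have h6 := htot
    rw [h4, h5] at h6
    rw [add_mul]
    omega
  · have h1 := hline c hc
    rw [← h1, Nat.add_sub_cancel, Nat.mul_div_cancel _ hp1]

end count

section as

variable {G Ω : Type} [Group G] [Field Ω] [MulSemiringAction G Ω] (p : ℕ) [Fact p.Prime]
  [CharP Ω p]

/-- the prime field -/
def cst : ZMod p →+* Ω := ZMod.castHom (dvd_refl p) Ω

lemma cst_smul (g : G) (c : ZMod p) : g • (cst p c : Ω) = cst p c := by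
  have h1 : (MulSemiringAction.toRingHom G Ω g).comp (cst p) = (cst p : ZMod p →+* Ω) :=
    Subsingleton.elim _ _
  exact congrArg (fun f : ZMod p →+* Ω => f c) h1

lemma cst_pow (c : ZMod p) : (cst p c : Ω) ^ p = cst p c := by
  rw [← map_pow, ZMod.pow_card]

variable {J : Type} [Fintype J] (w : J → Ω) (hw : ∀ (j : J) (g : G), g • (w j ^ p - w j) = w j ^ p - w j)

include hw in
lemma exists_shift (g : G) (j : J) : ∃ c : ZMod p, g • w j = w j + cst p c := by
  haveI : ExpChar Ω p := ExpChar.prime Fact.out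
  have h1 : (g • w j - w j) ^ p = g • w j - w j := by
    have h2 := hw j g
    rw [smul_sub, smul_pow'] at h2
    rw [sub_pow_expChar]
    linear_combination h2
  rw [← Subfield.mem_bot_iff_pow_eq_self, ← ZMod.fieldRange_castHom_eq_bot p, RingHom.mem_fieldRange] at h1
  obtain ⟨c, hc⟩ := h1
  refine ⟨c, ?_⟩
  change _ = w j + ZMod.castHom (dvd_refl p) Ω c
  rw [hc]
  ring

/-- the shift -/
noncomputable def th (g : G) (j : J) : ZMod p := (exists_shift p w hw g j).choose

lemma th_spec (g : G) (j : J) : g • w j = w j + cst p (th p w hw g j) :=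
  (exists_shift p w hw g j).choose_spec

lemma th_unique {g : G} {j : J} {c : ZMod p} (h : g • w j = w j + cst p c) : th p w hw g j = c := by
  have h1 := th_spec p w hw g j
  rw [h] at h1
  exact (cst (Ω := Ω) p).injective (add_left_cancel h1).symm

lemma th_mul (g h : G) : th p w hw (g * h) = th p w hw g + th p w hw h := by
  funext j
  apply th_unique
  rw [mul_smul, th_spec p w hw h j, smul_add, cst_smul, th_spec p w hw g j, Pi.add_apply, map_add]
  ring

/-- the shifts as a homomorphism -/
noncomputable def thHom : G →* Multiplicative (J → ZMod p) where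
  toFun g := Multiplicative.ofAdd (th p w hw g)
  map_one' := by
    have h1 := th_mul p w hw 1 1
    rw [one_mul] at h1
    have h2 : th p w hw (1 : G) = 0 := left_eq_add.1 h1
    rw [h2]
    rfl
  map_mul' g h := by
    rw [th_mul]
    rfl

/-- the group of the cover -/
noncomputable def NN : Subgroup G := (thHom p w hw).ker

instance : (NN p w hw).Normal := MonoidHom.normal_ker _

lemma mem_NN {g : G} : g ∈ NN p w hw ↔ th p w hw g = 0 := by
  unfold NN
  rw [MonoidHom.mem_ker]
  rfl

lemma mem_NN' {g : G} : g ∈ NN p w hw ↔ ∀ j, g • w j = w j := by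
  rw [mem_NN]
  constructor
  · intro h j
    rw [th_spec p w hw g j, h, Pi.zero_apply, map_zero, add_zero]
  · intro h
    funext j
    apply th_unique
    rw [h j, Pi.zero_apply, map_zero, add_zero]

lemma NN_index : ∃ n : ℕ, (NN p w hw).index = p ^ n := by
  classical
  have hp : p.Prime := Fact.out
  have h1 : (NN p w hw).index ∣ p ^ Fintype.card J := by
    unfold NN
    rw [Subgroup.index_ker]
    have h2 := Subgroup.card_subgroup_dvd_card (thHom p w hw).range
    have h3 : Nat.card (Multiplicative (J → ZMod p)) = p ^ Fintype.card J := by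
      rw [Nat.card_congr Multiplicative.toAdd, Nat.card_eq_fintype_card, Fintype.card_fun, ZMod.card]
    rwa [h3] at h2
  obtain ⟨n, _, hn⟩ := (Nat.dvd_prime_pow hp).1 h1
  exact ⟨n, hn⟩

/-- the group of the subcover attached to a linear form -/
noncomputable def HH (χ : J → ZMod p) : Subgroup G where
  carrier := {g | dot χ (th p w hw g) = 0}
  one_mem' := by
    have h1 : th p w hw (1 : G) = 0 := (mem_NN p w hw).1 (Subgroup.one_mem _)
    change dot χ (th p w hw 1) = 0
    rw [h1, dot_zero]
  mul_mem' {a b} ha hb := by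
    change dot χ (th p w hw (a * b)) = 0
    rw [th_mul, dot_add, show dot χ (th p w hw a) = 0 from ha, show dot χ (th p w hw b) = 0 from hb,
      add_zero]
  inv_mem' {a} ha := by
    change dot χ (th p w hw a⁻¹) = 0
    have h1 : th p w hw (1 : G) = 0 := (mem_NN p w hw).1 (Subgroup.one_mem _)
    have h2 := th_mul p w hw a a⁻¹
    rw [mul_inv_cancel, h1] at h2
    have h3 := dot_add χ (th p w hw a) (th p w hw a⁻¹)
    rw [← h2, dot_zero, show dot χ (th p w hw a) = 0 from ha, zero_add] at h3
    exact h3.symm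

lemma mem_HH {χ : J → ZMod p} {g : G} : g ∈ HH p w hw χ ↔ dot χ (th p w hw g) = 0 := Iff.rfl

/-- the combination of the variables -/
noncomputable def ww (χ : J → ZMod p) : Ω := ∑ j, cst p (χ j) * w j

lemma smul_ww (χ : J → ZMod p) (g : G) :
    g • ww p w χ = ww p w χ + cst p (dot χ (th p w hw g)) := by
  unfold ww dot
  rw [Finset.smul_sum, map_sum, ← Finset.sum_add_distrib]
  refine Finset.sum_congr rfl fun j _ => ?_
  rw [smul_mul', cst_smul, th_spec p w hw g j, mul_add, map_mul]

lemma mem_HH' {χ : J → ZMod p} {g : G} : g ∈ HH p w hw χ ↔ g • ww p w χ = ww p w χ := by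
  rw [mem_HH, smul_ww p w hw]
  constructor
  · intro h
    rw [h, map_zero, add_zero]
  · intro h
    have h1 : (cst p (dot χ (th p w hw g)) : Ω) = 0 := left_eq_add.1 h.symm
    exact (map_eq_zero _).1 h1

lemma NN_le_HH (χ : J → ZMod p) : NN p w hw ≤ HH p w hw χ := by
  intro g hg
  rw [mem_HH, (mem_NN p w hw).1 hg, dot_zero]

lemma ww_pow (χ : J → ZMod p) : ww p w χ ^ p - ww p w χ = ∑ j, cst p (χ j) * (w j ^ p - w j) := by
  haveI : ExpChar Ω p := ExpChar.prime Fact.out
  unfold ww
  rw [sum_pow_char, ← Finset.sum_sub_distrib]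
  refine Finset.sum_congr rfl fun j _ => ?_
  rw [mul_pow, cst_pow]
  ring

end as

end Run7.h333
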