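import Mathlib

/-! Smooth homogeneous cochains on a group acting with finite orbits on a set. -/

set_option autoImplicit false

namespace Run7.h333

section agr

variable {G : Type} [Group G] {Y : Type} [MulAction G Y]

/-- two group elements act in the same way on a set -/
def Agr (S : Set Y) (x y : G) : Prop := ∀ s ∈ S, x • s = y • s

lemma Agr.refl (S : Set Y) (x : G) : Agr S x x := fun _ _ => rfl

lemma Agr.symm {S : Set Y} {x y : G} (h : Agr S x y) : Agr S y x := fun s hs => (h s hs).symm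

lemma Agr.trans {S : Set Y} {x y z : G} (h : Agr S x y) (h' : Agr S y z) : Agr S x z :=
  fun s hs => (h s hs).trans (h' s hs)

lemma Agr.mono {S T : Set Y} (hST : S ⊆ T) {x y : G} (h : Agr T x y) : Agr S x y :=
  fun s hs => h s (hST hs)

lemma Agr.mul_left {S : Set Y} {x y : G} (g : G) (h : Agr S x y) : Agr S (g * x) (g * y) := by
  intro s hs
  rw [mul_smul, mul_smul, h s hs]

lemma Agr.one_of {S : Set Y} {x y : G} (h : Agr S x y) : Agr S (x⁻¹ * y) 1 := by
  have := (h.mul_left x⁻¹).symm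
  rwa [inv_mul_cancel] at this

lemma agr_iff_one {S : Set Y} {x y : G} : Agr S x y ↔ Agr S (x⁻¹ * y) 1 := by
  refine ⟨Agr.one_of, fun h => ?_⟩
  have := h.mul_left x
  rw [mul_one, mul_inv_cancel_left] at this
  exact this.symm

variable (G) in
/-- finite stable subsets -/
def Stb (S : Set Y) : Prop := S.Finite ∧ ∀ g : G, ∀ s ∈ S, g • s ∈ S

lemma Agr.mul_right {S : Set Y} (hS : Stb G S) {x y : G} (g : G) (h : Agr S x y) :
    Agr S (x * g) (y * g) := by
  intro s hs
  rw [mul_smul, mul_smul]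
  exact h _ (hS.2 g s hs)

lemma Agr.mul {S : Set Y} (hS : Stb G S) {x y x' y' : G} (h : Agr S x y) (h' : Agr S x' y') :
    Agr S (x * x') (y * y') :=
  (h.mul_right hS x').trans (h'.mul_left y)

lemma Agr.inv {S : Set Y} (hS : Stb G S) {x y : G} (h : Agr S x y) : Agr S x⁻¹ y⁻¹ := by
  have h1 := (h.mul_left x⁻¹).mul_right hS y⁻¹
  rw [inv_mul_cancel, one_mul, mul_assoc, mul_inv_cancel, mul_one] at h1
  exact h1.symm

lemma Agr.cancel_right {S : Set Y} (hS : Stb G S) {x y g : G} (h : Agr S (x * g) (y * g)) :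
    Agr S x y := by
  have := h.mul_right hS g⁻¹
  rwa [mul_inv_cancel_right, mul_inv_cancel_right] at this

lemma Agr.cancel_left {S : Set Y} {x y g : G} (h : Agr S (g * x) (g * y)) :
    Agr S x y := by
  have := h.mul_left g⁻¹
  rwa [inv_mul_cancel_left, inv_mul_cancel_left] at this

lemma Stb.union {S T : Set Y} (hS : Stb G S) (hT : Stb G T) : Stb G (S ∪ T) := by
  refine ⟨hS.1.union hT.1, fun g s hs => ?_⟩
  rcases hs with h | h
  · exact Or.inl (hS.2 g s h)
  · exact Or.inr (hT.2 g s h)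

lemma Stb.empty : Stb G (∅ : Set Y) := ⟨Set.finite_empty, fun _ _ h => h.elim⟩

lemma Stb.restrict {S : Set Y} (hS : Stb G S) (D : Subgroup G) : Stb D S :=
  ⟨hS.1, fun g s hs => hS.2 (g : G) s hs⟩

variable (G Y) in
/-- finiteness of all orbits -/
def FinO : Prop := ∀ y : Y, (MulAction.orbit G y).Finite

lemma FinO.exists_stb (h : FinO G Y) {S : Set Y} (hS : S.Finite) : ∃ T : Set Y, S ⊆ T ∧ Stb G T := by
  refine ⟨⋃ s ∈ S, MulAction.orbit G s, ?_, hS.biUnion fun s _ => h s, ?_⟩
  · intro s hs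
    exact Set.mem_biUnion hs (MulAction.mem_orbit_self s)
  · intro g s hs
    obtain ⟨t, ht, hst⟩ := Set.mem_iUnion₂.1 hs
    refine Set.mem_biUnion ht ?_
    exact (MulAction.mem_orbit_of_mem_orbit g hst)

lemma FinO.restrict (h : FinO G Y) (D : Subgroup G) : FinO D Y := by
  intro y
  refine (h y).subset ?_
  rintro _ ⟨d, rfl⟩
  exact ⟨(d : G), rfl⟩

/-- the equivalence relation of agreeing on `S` -/
def agrSetoid (S : Set Y) : Setoid G where
  r := Agr S
  iseqv := ⟨Agr.refl S, Agr.symm, Agr.trans⟩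

/-- a chosen representative for the restriction of a group element to `S` -/
noncomputable def rp (S : Set Y) (x : G) : G := Quotient.out (s := agrSetoid S) (Quotient.mk _ x)

lemma rp_agr (S : Set Y) (x : G) : Agr S (rp S x) x := Quotient.mk_out (s := agrSetoid S) x

lemma rp_eq {S : Set Y} {x y : G} (h : Agr S x y) : rp S x = rp S y := by
  unfold rp
  rw [Quotient.sound (s := agrSetoid S) h]

lemma rp_finite {S : Set Y} (hS : Stb G S) : (Set.range (rp S : G → G)).Finite := by
  classical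
  have := hS.1.to_subtype
  let f : G → (S → S) := fun g s => ⟨g • (s : Y), hS.2 g s s.2⟩
  have h1 : ∀ g : G, rp S g = rp S (rp S g) := fun g => rp_eq (rp_agr S g).symm
  let h : (S → S) → G := fun φ =>
    if hφ : ∃ g : G, f g = φ then rp S hφ.choose else 1
  refine (Set.finite_range h).subset ?_
  rintro _ ⟨g, rfl⟩
  refine ⟨f g, ?_⟩
  have hex : ∃ g' : G, f g' = f g := ⟨g, rfl⟩
  change (if hφ : ∃ g' : G, f g' = f g then rp S hφ.choose else 1) = _
  rw [dif_pos hex]
  refine rp_eq fun s hs => ?_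
  exact congrArg Subtype.val (congrFun hex.choose_spec ⟨s, hs⟩)

end agr

section cochains

variable {G : Type} {A : Type} [AddCommGroup A]

/-- differential -/
def d1 (f : G → A) : G → G → A := fun x y => f y - f x
/-- differential -/
def d2 (f : G → G → A) : G → G → G → A := fun x y z => f y z - f x z + f x y
/-- differential -/
def d3 (f : G → G → G → A) : G → G → G → G → A :=
  fun x y z w => f y z w - f x z w + f x y w - f x y z
/-- differential -/
def d4 (f : G → G → G → G → A) : G → G → G → G → G → A :=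
  fun x y z w v => f y z w v - f x z w v + f x y w v - f x y z v + f x y z w

lemma d2_d1 (f : G → A) : d2 (d1 f) = 0 := by
  funext x y z; simp only [d2, d1, Pi.zero_apply]; abel

lemma d3_d2 (f : G → G → A) : d3 (d2 f) = 0 := by
  funext x y z w; simp only [d3, d2, Pi.zero_apply]; abel

lemma d4_d3 (f : G → G → G → A) : d4 (d3 f) = 0 := by
  funext x y z w v; simp only [d4, d3, Pi.zero_apply]; abel

end cochains

section levels

variable {G : Type} [Group G] {Y : Type} [MulAction G Y] {A : Type}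

/-- level of a function -/
def Lv1 (S : Set Y) (f : G → A) : Prop := ∀ x x', Agr S x x' → f x = f x'
/-- level of a function -/
def Lv2 (S : Set Y) (f : G → G → A) : Prop :=
  ∀ x x' y y', Agr S x x' → Agr S y y' → f x y = f x' y'
/-- level of a function -/
def Lv3 (S : Set Y) (f : G → G → G → A) : Prop :=
  ∀ x x' y y' z z', Agr S x x' → Agr S y y' → Agr S z z' → f x y z = f x' y' z'
/-- level of a function -/
def Lv4 (S : Set Y) (f : G → G → G → G → A) : Prop :=
  ∀ x x' y y' z z' w w', Agr S x x' → Agr S y y' → Agr S z z' → Agr S w w' →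
    f x y z w = f x' y' z' w'

lemma Lv1.mono {S T : Set Y} (h : S ⊆ T) {f : G → A} (hf : Lv1 S f) : Lv1 T f :=
  fun x x' hx => hf x x' (hx.mono h)
lemma Lv2.mono {S T : Set Y} (h : S ⊆ T) {f : G → G → A} (hf : Lv2 S f) : Lv2 T f :=
  fun x x' y y' hx hy => hf x x' y y' (hx.mono h) (hy.mono h)
lemma Lv3.mono {S T : Set Y} (h : S ⊆ T) {f : G → G → G → A} (hf : Lv3 S f) : Lv3 T f :=
  fun x x' y y' z z' hx hy hz => hf x x' y y' z z' (hx.mono h) (hy.mono h) (hz.mono h)
lemma Lv4.mono {S T : Set Y} (h : S ⊆ T) {f : G → G → G → G → A} (hf : Lv4 S f) : Lv4 T f :=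
  fun x x' y y' z z' w w' hx hy hz hw =>
    hf x x' y y' z z' w w' (hx.mono h) (hy.mono h) (hz.mono h) (hw.mono h)

variable (Y) in
/-- smoothness -/
def Sm1 (f : G → A) : Prop := ∃ S : Set Y, Stb G S ∧ Lv1 S f
variable (Y) in
/-- smoothness -/
def Sm2 (f : G → G → A) : Prop := ∃ S : Set Y, Stb G S ∧ Lv2 S f
variable (Y) in
/-- smoothness -/
def Sm3 (f : G → G → G → A) : Prop := ∃ S : Set Y, Stb G S ∧ Lv3 S f
variable (Y) in
/-- smoothness -/
def Sm4 (f : G → G → G → G → A) : Prop := ∃ S : Set Y, Stb G S ∧ Lv4 S f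

lemma Lv1.finite {S : Set Y} (hS : Stb G S) {f : G → A} (hf : Lv1 S f) :
    (Set.range f).Finite := by
  refine ((rp_finite hS).image f).subset ?_
  rintro _ ⟨x, rfl⟩
  exact ⟨rp S x, ⟨x, rfl⟩, hf _ _ (rp_agr S x)⟩

lemma Lv2.finite {S : Set Y} (hS : Stb G S) {f : G → G → A} (hf : Lv2 S f) :
    {a | ∃ x y, a = f x y}.Finite := by
  refine (Set.Finite.image2 f (rp_finite hS) (rp_finite hS)).subset ?_
  rintro _ ⟨x, y, rfl⟩
  exact ⟨rp S x, ⟨x, rfl⟩, rp S y, ⟨y, rfl⟩, hf _ _ _ _ (rp_agr S x) (rp_agr S y)⟩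

lemma Lv3.finite {S : Set Y} (hS : Stb G S) {f : G → G → G → A} (hf : Lv3 S f) :
    {a | ∃ x y z, a = f x y z}.Finite := by
  refine (Set.Finite.image2 (fun (p : G × G) z => f p.1 p.2 z)
    ((rp_finite hS).prod (rp_finite hS)) (rp_finite hS)).subset ?_
  rintro _ ⟨x, y, z, rfl⟩
  exact ⟨(rp S x, rp S y), ⟨⟨x, rfl⟩, ⟨y, rfl⟩⟩, rp S z, ⟨z, rfl⟩,
    hf _ _ _ _ _ _ (rp_agr S x) (rp_agr S y) (rp_agr S z)⟩

lemma Lv4.finite {S : Set Y} (hS : Stb G S) {f : G → G → G → G → A} (hf : Lv4 S f) :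
    {a | ∃ x y z w, a = f x y z w}.Finite := by
  refine (Set.Finite.image2 (fun (p : G × G) (q : G × G) => f p.1 p.2 q.1 q.2)
    ((rp_finite hS).prod (rp_finite hS)) ((rp_finite hS).prod (rp_finite hS))).subset ?_
  rintro _ ⟨x, y, z, w, rfl⟩
  exact ⟨(rp S x, rp S y), ⟨⟨x, rfl⟩, ⟨y, rfl⟩⟩, (rp S z, rp S w), ⟨⟨z, rfl⟩, ⟨w, rfl⟩⟩,
    hf _ _ _ _ _ _ _ _ (rp_agr S x) (rp_agr S y) (rp_agr S z) (rp_agr S w)⟩

end levels

section modules

variable {G : Type} [Group G] {Y : Type} [MulAction G Y] {A : Type} [AddCommGroup A]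
  [DistribMulAction G A]

variable (G Y A) in
/-- smooth modules -/
def SmA : Prop := ∀ a : A, ∃ S : Set Y, Stb G S ∧ ∀ g : G, Agr S g 1 → g • a = a

lemma SmA.exists_level (h : SmA G Y A) {F : Set A} (hF : F.Finite) :
    ∃ S : Set Y, Stb G S ∧ ∀ g : G, Agr S g 1 → ∀ a ∈ F, g • a = a := by
  classical
  refine Set.Finite.induction_on (motive := fun F _ => ∃ S : Set Y, Stb G S ∧ ∀ g : G, Agr S g 1 →
    ∀ a ∈ F, g • a = a) F hF ?_ ?_
  · exact ⟨∅, Stb.empty, by simp⟩
  · rintro a F _ _ ⟨S, hS, hS'⟩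
    obtain ⟨T, hT, hT'⟩ := h a
    refine ⟨S ∪ T, hS.union hT, fun g hg b hb => ?_⟩
    rcases Set.mem_insert_iff.1 hb with rfl | hb
    · exact hT' g (hg.mono Set.subset_union_right)
    · exact hS' g (hg.mono Set.subset_union_left) b hb

lemma smul_eq_of_agr {S : Set Y} {F : Set A} (h : ∀ g : G, Agr S g 1 → ∀ a ∈ F, g • a = a)
    {x y : G} (hxy : Agr S x y) {a : A} (ha : a ∈ F) : x • a = y • a := by
  have h1 := h _ hxy.one_of a ha
  rw [mul_smul, inv_smul_eq_iff] at h1
  exact h1.symm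

/-- equivariance -/
def Eq1 (J : Subgroup G) (f : G → A) : Prop := ∀ j ∈ J, ∀ x, f (j * x) = j • f x
/-- equivariance -/
def Eq2 (J : Subgroup G) (f : G → G → A) : Prop := ∀ j ∈ J, ∀ x y, f (j * x) (j * y) = j • f x y
/-- equivariance -/
def Eq3 (J : Subgroup G) (f : G → G → G → A) : Prop :=
  ∀ j ∈ J, ∀ x y z, f (j * x) (j * y) (j * z) = j • f x y z
/-- equivariance -/
def Eq4 (J : Subgroup G) (f : G → G → G → G → A) : Prop :=
  ∀ j ∈ J, ∀ x y z w, f (j * x) (j * y) (j * z) (j * w) = j • f x y z w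

end modules

section retraction

variable {G : Type} [Group G] {Y : Type} [MulAction G Y]

/-- approximate equivariant retraction onto a subgroup (or onto a group with a homomorphism) -/
theorem exists_retraction {J : Type} [Group J] (i : J →* G) {T : Set Y} (hT : Stb G T) :
    ∃ ρ : G → J, ρ 1 = 1 ∧ (∀ (j : J) (x : G), Agr T (i (ρ (i j * x))) (i (j * ρ x))) ∧
      ∀ x x' : G, Agr T x x' → Agr T (i (ρ x)) (i (ρ x')) := by
  let st : Setoid G :=
    { r := fun x y => ∃ j : J, Agr T y (i j * x)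
      iseqv := by
        refine ⟨fun x => ⟨1, by rw [map_one, one_mul]; exact Agr.refl _ _⟩, ?_, ?_⟩
        · rintro x y ⟨j, hj⟩
          refine ⟨j⁻¹, ?_⟩
          have := hj.mul_left (i j⁻¹)
          rw [← mul_assoc, ← map_mul, inv_mul_cancel, map_one, one_mul] at this
          exact this.symm
        · rintro x y z ⟨j, hj⟩ ⟨j', hj'⟩
          refine ⟨j' * j, ?_⟩
          rw [map_mul, mul_assoc]
          exact hj'.trans (hj.mul_left _) }
  let r : G → G := fun x => Quotient.out (Quotient.mk st x)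
  have hr : ∀ x, ∃ j : J, Agr T x (i j * r x) := fun x => Quotient.mk_out (s := st) x
  have hr' : ∀ x y, (∃ j : J, Agr T y (i j * x)) → r x = r y := by
    intro x y h
    change Quotient.out (Quotient.mk st x) = Quotient.out (Quotient.mk st y)
    rw [Quotient.sound (s := st) h]
  choose ρ₀ hρ₀ using hr
  have h1 : ∀ (j : J) (x : G), Agr T (i (ρ₀ (i j * x))) (i (j * ρ₀ x)) := by
    intro j x
    have e : r x = r (i j * x) := hr' _ _ ⟨j, Agr.refl _ _⟩
    have h2 := hρ₀ (i j * x)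
    have h3 := (hρ₀ x).mul_left (i j)
    rw [← e] at h2
    rw [← mul_assoc, ← map_mul] at h3
    exact (h2.symm.trans h3).cancel_right hT
  have h2 : ∀ x x' : G, Agr T x x' → Agr T (i (ρ₀ x)) (i (ρ₀ x')) := by
    intro x x' h
    have e : r x' = r x := (hr' x x' ⟨1, by rw [map_one, one_mul]; exact h.symm⟩).symm
    have h3 := hρ₀ x'
    rw [e] at h3
    exact ((hρ₀ x).symm.trans (h.trans h3)).cancel_right hT
  refine ⟨fun x => ρ₀ x * (ρ₀ 1)⁻¹, mul_inv_cancel _, fun j x => ?_, fun x x' h => ?_⟩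
  · change Agr T (i (ρ₀ (i j * x) * (ρ₀ 1)⁻¹)) (i (j * (ρ₀ x * (ρ₀ 1)⁻¹)))
    rw [← mul_assoc, map_mul _ _ (ρ₀ 1)⁻¹, map_mul _ _ (ρ₀ 1)⁻¹]
    exact (h1 j x).mul_right hT _
  · change Agr T (i (ρ₀ x * (ρ₀ 1)⁻¹)) (i (ρ₀ x' * (ρ₀ 1)⁻¹))
    rw [map_mul, map_mul]
    exact (h2 x x' h).mul_right hT _

end retraction

section lemmaA

variable {G : Type} [Group G] {Y : Type} [MulAction G Y] {A : Type} [AddCommGroup A]
  {J : Type} [Group J] [DistribMulAction J A]

/-- Lemma A in degree two: a cocycle on the big complex whose restriction is a coboundary -/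
theorem lemmaA2 (i : J →* G) {S T : Set Y} (hS : Stb G S) (hT : Stb G T) {f : G → G → G → A}
    (hf : Lv3 S f) (hfe : ∀ (j : J) x y z, f (i j * x) (i j * y) (i j * z) = j • f x y z)
    (hd : d3 f = 0) {b : J → J → A}
    (hb : ∀ x x' y y', Agr T (i x) (i x') → Agr T (i y) (i y') → b x y = b x' y')
    (hbe : ∀ j x y, b (j * x) (j * y) = j • b x y)
    (h : ∀ x y z, f (i x) (i y) (i z) = d2 b x y z) :
    ∃ β : G → G → A, Lv2 (S ∪ T) β ∧ (∀ (j : J) x y, β (i j * x) (i j * y) = j • β x y) ∧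
      f = d2 β := by
  obtain ⟨ρ, -, h1, h2⟩ := exists_retraction i (hS.union hT)
  have hd' : ∀ x y z w, f y z w - f x z w + f x y w - f x y z = 0 := fun x y z w => by
    have := congrFun (congrFun (congrFun (congrFun hd x) y) z) w
    simpa [d3] using this
  refine ⟨fun x y => b (ρ x) (ρ y) - (f x (i (ρ x)) (i (ρ y)) - f x y (i (ρ y))), ?_, ?_, ?_⟩
  · intro x x' y y' hx hy
    have hx1 := h2 _ _ hx
    have hy1 := h2 _ _ hy
    change b (ρ x) (ρ y) - _ = b (ρ x') (ρ y') - _
    rw [hb _ _ _ _ (hx1.mono Set.subset_union_right) (hy1.mono Set.subset_union_right),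
      hf _ _ _ _ _ _ (hx.mono Set.subset_union_left) (hx1.mono Set.subset_union_left)
        (hy1.mono Set.subset_union_left),
      hf _ _ _ _ _ _ (hx.mono Set.subset_union_left) (hy.mono Set.subset_union_left)
        (hy1.mono Set.subset_union_left)]
  · intro j x y
    have hx1 := h1 j x
    have hy1 := h1 j y
    change b (ρ (i j * x)) (ρ (i j * y)) - (f (i j * x) (i (ρ (i j * x))) (i (ρ (i j * y))) -
      f (i j * x) (i j * y) (i (ρ (i j * y)))) = _
    rw [hb _ _ _ _ (hx1.mono Set.subset_union_right) (hy1.mono Set.subset_union_right),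
      hf _ _ _ _ _ _ (Agr.refl _ _) (hx1.mono Set.subset_union_left)
        (hy1.mono Set.subset_union_left),
      hf _ _ _ _ _ _ (Agr.refl _ _) (Agr.refl _ _)
        (hy1.mono Set.subset_union_left), hbe, map_mul, map_mul, hfe, hfe, smul_sub, smul_sub]
  · funext x y z
    have e1 := hd' x (i (ρ x)) (i (ρ y)) (i (ρ z))
    have e2 := hd' x y (i (ρ y)) (i (ρ z))
    have e3 := hd' x y z (i (ρ z))
    have e4 := h (ρ x) (ρ y) (ρ z)
    simp only [d2] at e4 ⊢
    linear_combination (norm := abel) e4 - e3 + e2 - e1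

/-- Lemma A in degree three -/
theorem lemmaA3 (i : J →* G) {S T : Set Y} (hS : Stb G S) (hT : Stb G T) {f : G → G → G → G → A}
    (hf : Lv4 S f)
    (hfe : ∀ (j : J) x y z w, f (i j * x) (i j * y) (i j * z) (i j * w) = j • f x y z w)
    (hd : d4 f = 0) {b : J → J → J → A}
    (hb : ∀ x x' y y' z z', Agr T (i x) (i x') → Agr T (i y) (i y') → Agr T (i z) (i z') →
      b x y z = b x' y' z')
    (hbe : ∀ j x y z, b (j * x) (j * y) (j * z) = j • b x y z)
    (h : ∀ x y z w, f (i x) (i y) (i z) (i w) = d3 b x y z w) :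
    ∃ β : G → G → G → A, Lv3 (S ∪ T) β ∧
      (∀ (j : J) x y z, β (i j * x) (i j * y) (i j * z) = j • β x y z) ∧ f = d3 β := by
  obtain ⟨ρ, -, h1, h2⟩ := exists_retraction i (hS.union hT)
  have hd' : ∀ x y z w v, f y z w v - f x z w v + f x y w v - f x y z v + f x y z w = 0 :=
    fun x y z w v => by
      have := congrFun (congrFun (congrFun (congrFun (congrFun hd x) y) z) w) v
      simpa [d4] using this
  refine ⟨fun x y z => b (ρ x) (ρ y) (ρ z) - (f x (i (ρ x)) (i (ρ y)) (i (ρ z)) -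
    f x y (i (ρ y)) (i (ρ z)) + f x y z (i (ρ z))), ?_, ?_, ?_⟩
  · intro x x' y y' z z' hx hy hz
    have hx1 := h2 _ _ hx
    have hy1 := h2 _ _ hy
    have hz1 := h2 _ _ hz
    change b (ρ x) (ρ y) (ρ z) - _ = b (ρ x') (ρ y') (ρ z') - _
    rw [hb _ _ _ _ _ _ (hx1.mono Set.subset_union_right) (hy1.mono Set.subset_union_right)
        (hz1.mono Set.subset_union_right),
      hf _ _ _ _ _ _ _ _ (hx.mono Set.subset_union_left) (hx1.mono Set.subset_union_left)
        (hy1.mono Set.subset_union_left) (hz1.mono Set.subset_union_left),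
      hf _ _ _ _ _ _ _ _ (hx.mono Set.subset_union_left) (hy.mono Set.subset_union_left)
        (hy1.mono Set.subset_union_left) (hz1.mono Set.subset_union_left),
      hf _ _ _ _ _ _ _ _ (hx.mono Set.subset_union_left) (hy.mono Set.subset_union_left)
        (hz.mono Set.subset_union_left) (hz1.mono Set.subset_union_left)]
  · intro j x y z
    have hx1 := h1 j x
    have hy1 := h1 j y
    have hz1 := h1 j z
    change b (ρ (i j * x)) (ρ (i j * y)) (ρ (i j * z)) -
      (f (i j * x) (i (ρ (i j * x))) (i (ρ (i j * y))) (i (ρ (i j * z))) -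
      f (i j * x) (i j * y) (i (ρ (i j * y))) (i (ρ (i j * z))) +
      f (i j * x) (i j * y) (i j * z) (i (ρ (i j * z)))) = _
    rw [hb _ _ _ _ _ _ (hx1.mono Set.subset_union_right) (hy1.mono Set.subset_union_right)
        (hz1.mono Set.subset_union_right),
      hf _ _ _ _ _ _ _ _ (Agr.refl _ _) (hx1.mono Set.subset_union_left)
        (hy1.mono Set.subset_union_left) (hz1.mono Set.subset_union_left),
      hf _ _ _ _ _ _ _ _ (Agr.refl _ _) (Agr.refl _ _)
        (hy1.mono Set.subset_union_left) (hz1.mono Set.subset_union_left),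
      hf _ _ _ _ _ _ _ _ (Agr.refl _ _) (Agr.refl _ _) (Agr.refl _ _)
        (hz1.mono Set.subset_union_left), hbe, map_mul, map_mul, map_mul, hfe, hfe, hfe, smul_sub,
      smul_add, smul_sub]
  · funext x y z w
    have e1 := hd' x (i (ρ x)) (i (ρ y)) (i (ρ z)) (i (ρ w))
    have e2 := hd' x y (i (ρ y)) (i (ρ z)) (i (ρ w))
    have e3 := hd' x y z (i (ρ z)) (i (ρ w))
    have e4' := hd' x y z w (i (ρ w))
    have e4 := h (ρ x) (ρ y) (ρ z) (ρ w)
    simp only [d3] at e4 ⊢
    linear_combination (norm := abel) e4 + e4' - e3 + e2 - e1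

end lemmaA

end Run7.h333
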