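import Pool.Agent.Run7.h333.Tow

/-! Transcendence bookkeeping in a big field. -/

set_option autoImplicit false
set_option linter.style.haveILetI false
set_option linter.unusedSectionVars false

namespace Run7.h333

section acl

variable {Ω : Type} [Field Ω]

/-- relative algebraic closure -/
def acl (A : Subfield Ω) : Subfield Ω := (algebraicClosure A Ω).toSubfield

lemma mem_acl {A : Subfield Ω} {x : Ω} : x ∈ acl A ↔ IsAlgebraic A x := mem_algebraicClosure_iff

lemma le_acl (A : Subfield Ω) : A ≤ acl A := fun _ hx => mem_acl.2 (alg_self hx)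

lemma acl_le {A B : Subfield Ω} (h : A ≤ acl B) : acl A ≤ acl B := by
  intro x hx
  rw [mem_acl] at hx ⊢
  exact alg_trans (le_acl B) (fun b hb => mem_acl.1 hb) (alg_mono h hx)

lemma adj_comm (k : Subfield Ω) (y z : Ω) : adj (adj k y) z = adj (adj k z) y := by
  apply le_antisymm
  · exact adj_le (adj_le ((le_adj _ _).trans (le_adj _ _)) (mem_adj _ _)) (le_adj _ _ (mem_adj _ _))
  · exact adj_le (adj_le ((le_adj _ _).trans (le_adj _ _)) (mem_adj _ _)) (le_adj _ _ (mem_adj _ _))

lemma adj_mono {k k' : Subfield Ω} (h : k ≤ k') (z : Ω) : adj k z ≤ adj k' z :=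
  adj_le (h.trans (le_adj _ _)) (mem_adj _ _)

open scoped IntermediateField.algebraAdjoinAdjoin in
lemma not_span2 {F : Subfield Ω} (h3 : (3 : Cardinal.{0}) ≤ Algebra.trdeg F Ω) (a c : Ω) :
    ¬ ∀ ω : Ω, ω ∈ acl (adj (adj F a) c) := by
  intro h
  haveI h2 : Algebra.IsAlgebraic (Algebra.adjoin F ({a, c} : Set Ω)) Ω := by
    refine ⟨fun ω => ?_⟩
    rw [IsFractionRing.isAlgebraic_iff (Algebra.adjoin F ({a, c} : Set Ω))
      (IntermediateField.adjoin F ({a, c} : Set Ω)) Ω]
    have h1 : adj (adj F a) c ≤ (IntermediateField.adjoin F ({a, c} : Set Ω)).toSubfield := by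
      refine adj_le (adj_le ?_ ?_) ?_
      · intro x hx
        exact (IntermediateField.adjoin F ({a, c} : Set Ω)).algebraMap_mem ⟨x, hx⟩
      · exact IntermediateField.subset_adjoin F _ (by simp)
      · exact IntermediateField.subset_adjoin F _ (by simp)
    exact alg_mono h1 (mem_acl.1 (h ω))
  have h4 := Algebra.IsAlgebraic.trdeg_le_cardinalMk F ({a, c} : Set Ω)
  have h5 : Cardinal.mk ({a, c} : Set Ω) ≤ 2 := by
    refine (Cardinal.mk_insert_le).trans ?_
    rw [Cardinal.mk_singleton]
    norm_num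
  have h6 := (h3.trans h4).trans h5
  exact absurd h6 (by norm_num)

/-- building a tower from spanning elements -/
def Twr.of {K : Subfield Ω} (F0 k0 : Subfield Ω) (x y z : Ω) (fin : Finite F0) (hF : F0 ≤ k0)
    (hx : x ∈ k0) (algx : ∀ c ∈ k0, IsAlgebraic (adj F0 x) c)
    (h3 : (3 : Cardinal.{0}) ≤ Algebra.trdeg F0 Ω) (hK : K = adj (adj k0 y) z)
    (halg : ∀ ω : Ω, IsAlgebraic K ω) : Twr K :=
  have hall : ∀ ω : Ω, ω ∈ acl (adj (adj k0 y) z) := fun ω => mem_acl.2 (hK ▸ halg ω)
  have hk0 : k0 ≤ acl (adj F0 x) := fun c hc => mem_acl.2 (algx c hc)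
  have hmono : ∀ {A B : Subfield Ω}, A ≤ B → acl A ≤ acl B := fun h => acl_le (h.trans (le_acl _))
  { F0 := F0
    k0 := k0
    x := x
    y := y
    z := z
    fin := fin
    hF := hF
    hx := hx
    algx := algx
    trx := by
      intro h
      have h1 : k0 ≤ acl F0 := hk0.trans (acl_le (adj_le (le_acl _) (mem_acl.2 h)))
      refine not_span2 h3 y z fun ω => ?_
      refine acl_le ?_ (hall ω)
      refine adj_le (adj_le (h1.trans (hmono ((le_adj _ _).trans (le_adj _ _)))) ?_) ?_
      · exact le_acl _ (le_adj _ _ (mem_adj _ _))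
      · exact le_acl _ (mem_adj _ _)
    tr_y := by
      intro h
      refine not_span2 h3 x z fun ω => ?_
      refine acl_le ?_ (hall ω)
      have h1 : adj k0 y ≤ acl (adj F0 x) := adj_le hk0 (acl_le hk0 (mem_acl.2 h))
      exact adj_le (h1.trans (hmono (le_adj _ _))) (le_acl _ (mem_adj _ _))
    tr_zy := by
      intro h
      refine not_span2 h3 x y fun ω => ?_
      refine acl_le ?_ (hall ω)
      have h1 : adj k0 y ≤ acl (adj (adj F0 x) y) :=
        adj_le (hk0.trans (hmono (le_adj _ _))) (le_acl _ (mem_adj _ _))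
      exact adj_le h1 (acl_le h1 (mem_acl.2 h))
    tr_z := by
      intro h
      refine not_span2 h3 x y fun ω => ?_
      refine acl_le ?_ (hall ω)
      have h1 : z ∈ acl (adj F0 x) := acl_le hk0 (mem_acl.2 h)
      exact adj_le (adj_le (hk0.trans (hmono (le_adj _ _))) (le_acl _ (mem_adj _ _)))
        (hmono (le_adj _ _) h1)
    tr_yz := by
      intro h
      refine not_span2 h3 x z fun ω => ?_
      refine acl_le ?_ (hall ω)
      rw [adj_comm]
      have h1 : adj k0 z ≤ acl (adj (adj F0 x) z) :=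
        adj_le (hk0.trans (hmono (le_adj _ _))) (le_acl _ (mem_adj _ _))
      exact adj_le h1 (acl_le h1 (mem_acl.2 h))
    hK1 := hK
    hK2 := by rw [hK, adj_comm] }

end acl

end Run7.h333
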