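import Pool.Agent.Run7.h333.Nrm
import Pool.Agent.Run7.h333.Trd

/-! Discreteness of the valuation rings attached to closed points. -/

set_option autoImplicit false
set_option linter.style.haveILetI false
set_option linter.unusedSectionVars false

namespace Run7.h333

section dvr

/-- a rational valued function with bounded denominators gives a discrete valuation ring -/
theorem dvr_of_val {Kb : Type} [Field Kb] (A : ValuationSubring Kb) (v : Kb → ℚ)
    (hA : ∀ x, x ∈ A ↔ x = 0 ∨ 0 ≤ v x)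
    (hmul : ∀ x y, x ≠ 0 → y ≠ 0 → v (x * y) = v x + v y) (N : ℕ) (hN : 0 < N)
    (hint : ∀ x, x ≠ 0 → ∃ k : ℤ, (N : ℚ) * v x = k) (hnt : ∃ x, x ≠ 0 ∧ v x ≠ 0) :
    IsDiscreteValuationRing A := by
  have hN' : (0 : ℚ) < N := Nat.cast_pos.2 hN
  choose! w hw using hint
  have hwmul : ∀ x y, x ≠ 0 → y ≠ 0 → w (x * y) = w x + w y := by
    intro x y hx hy
    have h1 := hw (x * y) (mul_ne_zero hx hy)
    rw [hmul x y hx hy, mul_add, hw x hx, hw y hy] at h1
    exact_mod_cast h1.symm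
  have hwnn : ∀ x, x ≠ 0 → (0 ≤ v x ↔ 0 ≤ w x) := by
    intro x hx
    have h1 := hw x hx
    constructor
    · intro h
      have : (0 : ℚ) ≤ w x := by rw [← h1]; positivity
      exact_mod_cast this
    · intro h
      have h2 : (0 : ℚ) ≤ (N : ℚ) * v x := by rw [h1]; exact_mod_cast h
      exact nonneg_of_mul_nonneg_right h2 hN'
  have hw1 : w 1 = 0 := by
    have := hwmul 1 1 one_ne_zero one_ne_zero
    rw [mul_one] at this
    omega
  have hwinv : ∀ x, x ≠ 0 → w x⁻¹ = -w x := by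
    intro x hx
    have := hwmul x x⁻¹ hx (inv_ne_zero hx)
    rw [mul_inv_cancel₀ hx, hw1] at this
    omega
  have hwpow : ∀ x, x ≠ 0 → ∀ n : ℕ, w (x ^ n) = n * w x := by
    intro x hx n
    induction n with
    | zero => simp [hw1]
    | succ n ih =>
      rw [pow_succ, hwmul _ _ (pow_ne_zero n hx) hx, ih]
      push_cast
      ring
  have hA' : ∀ x, x ≠ 0 → (x ∈ A ↔ 0 ≤ w x) := by
    intro x hx
    rw [hA, ← hwnn x hx]
    simp [hx]
  obtain ⟨x0, hx0, hvx0⟩ := hnt
  have hex : ∃ n : ℕ, 0 < n ∧ ∃ x, x ≠ 0 ∧ w x = n := by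
    have hwx0 : w x0 ≠ 0 := by
      intro h
      have h1 := hw x0 hx0
      rw [h, Int.cast_zero] at h1
      rcases mul_eq_zero.1 h1 with h2 | h2
      · exact hN'.ne' h2
      · exact hvx0 h2
    rcases lt_or_gt_of_ne hwx0 with h | h
    · refine ⟨(w x0⁻¹).toNat, ?_, x0⁻¹, inv_ne_zero hx0, ?_⟩
      · rw [hwinv x0 hx0]; omega
      · rw [hwinv x0 hx0]; omega
    · exact ⟨(w x0).toNat, by omega, x0, hx0, by omega⟩
  classical
  let m := Nat.find hex
  obtain ⟨hm0, π, hπ, hwπ⟩ := Nat.find_spec hex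
  have hmin : ∀ x, x ≠ 0 → 0 < w x → (m : ℤ) ≤ w x := by
    intro x hx h
    have h1 := Nat.find_min' hex (m := (w x).toNat) ⟨by omega, x, hx, by omega⟩
    change m ≤ _ at h1
    omega
  have hm0' : 0 < m := hm0
  have hwπ' : w π = m := hwπ
  have hdvd : ∀ x, x ≠ 0 → (m : ℤ) ∣ w x := by
    intro x hx
    -- divide
    have hm' : (m : ℤ) ≠ 0 := by omega
    by_contra hcon
    have hr := Int.emod_nonneg (w x) hm'
    have hr' : w x % m ≠ 0 := fun h => hcon (Int.dvd_of_emod_eq_zero h)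
    have hlt := Int.emod_lt_of_pos (w x) (by omega : (0 : ℤ) < m)
    have hdiv := Int.mul_ediv_add_emod (w x) m
    -- the element x * π^(-q)
    set q := w x / m
    obtain ⟨y, hy, hwy⟩ : ∃ y, y ≠ 0 ∧ w y = w x % m := by
      rcases le_total 0 q with hq | hq
      · refine ⟨x * (π ^ q.toNat)⁻¹, mul_ne_zero hx (inv_ne_zero (pow_ne_zero _ hπ)), ?_⟩
        rw [hwmul _ _ hx (inv_ne_zero (pow_ne_zero _ hπ)), hwinv _ (pow_ne_zero _ hπ),
          hwpow π hπ, hwπ']
        have : ((q.toNat : ℕ) : ℤ) = q := Int.toNat_of_nonneg hq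
        rw [this]
        linarith
      · refine ⟨x * π ^ (-q).toNat, mul_ne_zero hx (pow_ne_zero _ hπ), ?_⟩
        rw [hwmul _ _ hx (pow_ne_zero _ hπ), hwpow π hπ, hwπ']
        have : (((-q).toNat : ℕ) : ℤ) = -q := Int.toNat_of_nonneg (by omega)
        rw [this]
        linarith
    have := hmin y hy (by omega)
    omega
  have hunit : ∀ a : A, (a : Kb) ≠ 0 → w a = 0 → IsUnit a := by
    intro a ha hwa
    have h1 : (a : Kb)⁻¹ ∈ A := by
      rw [hA' _ (inv_ne_zero ha), hwinv _ ha, hwa]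
      simp
    exact IsUnit.of_mul_eq_one ⟨_, h1⟩ (Subtype.ext (mul_inv_cancel₀ ha))
  have hπA : π ∈ A := by
    rw [hA' π hπ, hwπ']
    omega
  refine IsDiscreteValuationRing.ofHasUnitMulPowIrreducibleFactorization ⟨⟨π, hπA⟩, ?_, ?_⟩
  · rw [irreducible_iff]
    constructor
    · intro h
      obtain ⟨b, hb⟩ := h.exists_right_inv
      have hb' : π * (b : Kb) = 1 := congrArg Subtype.val hb
      have hb0 : (b : Kb) ≠ 0 := right_ne_zero_of_mul (by rw [hb']; exact one_ne_zero)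
      have h1 := hwmul π b hπ hb0
      rw [hb', hw1, hwπ'] at h1
      have h2 := (hA' _ hb0).1 b.2
      omega
    · intro a b hab
      have hab' : π = (a : Kb) * b := congrArg Subtype.val hab
      have ha0 : (a : Kb) ≠ 0 := left_ne_zero_of_mul (by rw [← hab']; exact hπ)
      have hb0 : (b : Kb) ≠ 0 := right_ne_zero_of_mul (by rw [← hab']; exact hπ)
      have h1 := hwmul a b ha0 hb0
      rw [← hab', hwπ'] at h1
      have h2 := (hA' _ ha0).1 a.2
      have h3 := (hA' _ hb0).1 b.2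
      by_cases hwa : w a = 0
      · exact Or.inl (hunit a ha0 hwa)
      · right
        refine hunit b hb0 ?_
        have := hmin a ha0 (by omega)
        omega
  · intro x hx
    have hx0 : (x : Kb) ≠ 0 := fun h => hx (Subtype.ext h)
    obtain ⟨k, hk⟩ := hdvd x hx0
    have h2 := (hA' _ hx0).1 x.2
    have hk0 : 0 ≤ k := by
      rw [hk] at h2
      exact nonneg_of_mul_nonneg_right h2 (by omega)
    refine ⟨k.toNat, ?_⟩
    have hπk : (π : Kb) ^ k.toNat ≠ 0 := pow_ne_zero _ hπ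
    have hu0 : (x : Kb) * (π ^ k.toNat)⁻¹ ≠ 0 := mul_ne_zero hx0 (inv_ne_zero hπk)
    have hwu : w ((x : Kb) * (π ^ k.toNat)⁻¹) = 0 := by
      rw [hwmul _ _ hx0 (inv_ne_zero hπk), hwinv _ hπk, hwpow π hπ, hwπ', hk,
        Int.toNat_of_nonneg hk0]
      ring
    have huA : (x : Kb) * (π ^ k.toNat)⁻¹ ∈ A := by rw [hA' _ hu0, hwu]
    obtain ⟨u, hu⟩ := hunit ⟨_, huA⟩ hu0 hwu
    refine ⟨u, Subtype.ext ?_⟩
    rw [hu]
    change π ^ k.toNat * ((x : Kb) * (π ^ k.toNat)⁻¹) = x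
    field_simp

end dvr

section orders

open Pool.Agent.TH952 Polynomial

variable {E : Type} [Field E]

/-- in a vanishing sum two terms have the same order -/
lemma exists_same_order {s : Finset ℕ} {t : ℕ → Hah E} (h0 : ∑ i ∈ s, t i = 0)
    (hne : ∃ i ∈ s, t i ≠ 0) :
    ∃ i ∈ s, ∃ j ∈ s, i ≠ j ∧ t i ≠ 0 ∧ t j ≠ 0 ∧ (t i).order = (t j).order := by
  classical
  by_contra hcon
  push Not at hcon
  obtain ⟨i1, hi1, hti1⟩ := hne
  obtain ⟨i0, hi0, hmin⟩ := (s.filter fun i => t i ≠ 0).exists_min_image (fun i => (t i).order)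
    ⟨i1, Finset.mem_filter.2 ⟨hi1, hti1⟩⟩
  obtain ⟨hi0s, hti0⟩ := Finset.mem_filter.1 hi0
  have h1 : (∑ i ∈ s, t i).coeff (t i0).order = (t i0).coeff (t i0).order := by
    rw [HahnSeries.coeff_sum]
    refine Finset.sum_eq_single i0 (fun j hj hji => ?_) fun h => absurd hi0s h
    by_cases htj : t j = 0
    · rw [htj, HahnSeries.coeff_zero]
    · refine HahnSeries.coeff_eq_zero_of_lt_order ?_
      exact lt_of_le_of_ne (hmin j (Finset.mem_filter.2 ⟨hj, htj⟩)) (hcon i0 hi0s j hj hji.symm hti0 htj)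
  rw [h0, HahnSeries.coeff_zero] at h1
  exact HahnSeries.coeff_order_eq_zero.not.2 hti0 h1.symm

/-- the order of a root of a polynomial -/
lemma exists_pair {R : Type} [Field R] {p : Polynomial R} (hp : p ≠ 0) (f : R →+* Hah E) {y : Hah E}
    (hy : y ≠ 0) (h : p.eval₂ f y = 0) :
    ∃ i j : ℕ, i < j ∧ j ≤ p.natDegree ∧ p.coeff i ≠ 0 ∧ p.coeff j ≠ 0 ∧
      ((j : ℚ) - i) * y.order = (f (p.coeff i)).order - (f (p.coeff j)).order := by
  rw [Polynomial.eval₂_eq_sum_range] at h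
  have hne : ∃ i ∈ Finset.range (p.natDegree + 1), f (p.coeff i) * y ^ i ≠ 0 := by
    refine ⟨p.natDegree, Finset.self_mem_range_succ _, mul_ne_zero ?_ (pow_ne_zero _ hy)⟩
    exact (map_ne_zero f).2 (Polynomial.leadingCoeff_ne_zero.2 hp)
  obtain ⟨i, hi, j, hj, hij, hti, htj, ho⟩ := exists_same_order h hne
  have key : ∀ i j : ℕ, i < j → j ∈ Finset.range (p.natDegree + 1) → f (p.coeff i) * y ^ i ≠ 0 →
      f (p.coeff j) * y ^ j ≠ 0 → (f (p.coeff i) * y ^ i).order = (f (p.coeff j) * y ^ j).order →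
      ∃ i j : ℕ, i < j ∧ j ≤ p.natDegree ∧ p.coeff i ≠ 0 ∧ p.coeff j ≠ 0 ∧
      ((j : ℚ) - i) * y.order = (f (p.coeff i)).order - (f (p.coeff j)).order := by
    intro i j hlt hj hti htj ho
    refine ⟨i, j, hlt, Nat.lt_succ_iff.1 (Finset.mem_range.1 hj), ?_, ?_, ?_⟩
    · intro h; rw [h, map_zero, zero_mul] at hti; exact hti rfl
    · intro h; rw [h, map_zero, zero_mul] at htj; exact htj rfl
    · rw [HahnSeries.order_mul (left_ne_zero_of_mul hti) (pow_ne_zero _ hy),
        HahnSeries.order_mul (left_ne_zero_of_mul htj) (pow_ne_zero _ hy), HahnSeries.order_pow,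
        HahnSeries.order_pow, nsmul_eq_mul, nsmul_eq_mul] at ho
      linarith
  rcases lt_or_gt_of_ne hij with hlt | hlt
  · exact key i j hlt hj hti htj ho
  · exact key j i hlt hi htj hti ho.symm

end orders

section kd

open Pool.Agent.TH952 Polynomial

variable {G E Ω M : Type} [Group G] [Field E] [IsAlgClosed E] [Field Ω] [IsAlgClosed Ω] [Algebra E Ω]
  [MulSemiringAction G E] [MulSemiringAction G Ω] [AddCommGroup M] [DistribMulAction G M]

namespace KD

variable {l : ℕ} (K : KD G E Ω M l)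

/-- orders of rational functions in the variable are integers -/
lemma order_int (a : E) {x : Ω} (hx : x ∈ IntermediateField.adjoin E {K.z}) (hx0 : x ≠ 0) :
    ∃ k : ℤ, ((K.ι a).f x).order = k := by
  obtain ⟨r, s, rfl⟩ := (IntermediateField.mem_adjoin_simple_iff E x).1 hx
  have hr : Polynomial.aeval K.z r ≠ 0 := fun h => hx0 (by rw [h, zero_div])
  have hs : Polynomial.aeval K.z s ≠ 0 := fun h => hx0 (by rw [h, div_zero])
  have hr0 : r ≠ 0 := by rintro rfl; exact hr (map_zero _)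
  have hs0 : s ≠ 0 := by rintro rfl; exact hs (map_zero _)
  refine ⟨r.rootMultiplicity a - s.rootMultiplicity a, ?_⟩
  have hr' : (K.ι a).f (Polynomial.aeval K.z r) ≠ 0 := (_root_.map_ne_zero _).2 hr
  have hs' : (K.ι a).f (Polynomial.aeval K.z s) ≠ 0 := (_root_.map_ne_zero _).2 hs
  rw [map_div₀, div_eq_mul_inv, HahnSeries.order_mul hr' (inv_ne_zero hs'), order_inv' hs',
    K.iota_aeval, K.iota_aeval, order_za a hr0, order_za a hs0]
  push_cast
  ring

/-- discreteness -/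
theorem B_dvr (a : E) {Kb : Type} [Field Kb] (j : Kb →+* Ω) {P : Subfield Ω}
    (hP : ∀ x ∈ P, x ∈ IntermediateField.adjoin E {K.z}) (n : ℕ)
    (hj : ∀ y : Kb, ∃ p : Polynomial P, p ≠ 0 ∧ p.natDegree ≤ n ∧ Polynomial.aeval (j y) p = 0)
    (halg : ∀ ω : Ω, ∃ p : Polynomial Kb, p ≠ 0 ∧ p.eval₂ j ω = 0) :
    IsDiscreteValuationRing ((K.B a).comap j) := by
  refine dvr_of_val _ (fun y => ((K.ι a).f (j y)).order) ?_ ?_ n.factorial n.factorial_pos ?_ ?_
  · intro y
    rw [ValuationSubring.mem_comap, K.mem_B, mem_oV, map_eq_zero, map_eq_zero]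
  · intro x y hx hy
    change ((K.ι a).f (j (x * y))).order = _
    rw [map_mul, map_mul, HahnSeries.order_mul]
    · exact (_root_.map_ne_zero _).2 ((_root_.map_ne_zero _).2 hx)
    · exact (_root_.map_ne_zero _).2 ((_root_.map_ne_zero _).2 hy)
  · intro y hy
    obtain ⟨p, hp, hpn, hpy⟩ := hj y
    have hy' : (K.ι a).f (j y) ≠ 0 := (_root_.map_ne_zero _).2 ((_root_.map_ne_zero _).2 hy)
    have h1 : p.eval₂ ((K.ι a).f.comp (algebraMap P Ω)) ((K.ι a).f (j y)) = 0 := by
      rw [← Polynomial.hom_eval₂]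
      exact (congrArg (K.ι a).f hpy).trans (map_zero _)
    obtain ⟨i, k, hik, hkn, hi, hk, ho⟩ := exists_pair hp _ hy' h1
    obtain ⟨e1, he1⟩ := K.order_int a (hP _ (p.coeff i).2) (fun h => hi (Subtype.ext h))
    obtain ⟨e2, he2⟩ := K.order_int a (hP _ (p.coeff k).2) (fun h => hk (Subtype.ext h))
    have h2 : ((k : ℚ) - i) * ((K.ι a).f (j y)).order = e1 - e2 := by
      rw [ho, ← he1, ← he2]
      rfl
    have hdvd : (k - i) ∣ n.factorial :=
      Nat.dvd_factorial (by omega) ((Nat.sub_le k i).trans (hkn.trans hpn))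
    obtain ⟨q, hq⟩ := hdvd
    refine ⟨q * (e1 - e2), ?_⟩
    have h3 : (n.factorial : ℚ) = ((k : ℚ) - i) * q := by
      rw [hq, Nat.cast_mul, Nat.cast_sub hik.le]
    rw [h3]
    push_cast
    rw [← h2]
    ring
  · by_contra hcon
    push Not at hcon
    let u : Ω := (K.z - algebraMap E Ω a)⁻¹
    have hz : (K.ι a).f (K.z - algebraMap E Ω a) = HahnSeries.single 1 1 := by
      rw [map_sub, (K.ι a).hz, (K.ι a).hE]
      unfold za
      rw [add_sub_cancel_left]
    have hz0 : (HahnSeries.single 1 1 : Hah E) ≠ 0 := by simp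
    have hu : (K.ι a).f u = (HahnSeries.single 1 1 : Hah E)⁻¹ := by
      rw [map_inv₀, hz]
    have hu0 : (K.ι a).f u ≠ 0 := by rw [hu]; exact inv_ne_zero hz0
    have huo : ((K.ι a).f u).order = -1 := by
      rw [hu, order_inv' hz0, HahnSeries.order_single one_ne_zero]
    obtain ⟨p, hp, hpu⟩ := halg u
    have h1 : p.eval₂ ((K.ι a).f.comp j) ((K.ι a).f u) = 0 := by
      rw [← Polynomial.hom_eval₂, hpu, map_zero]
    obtain ⟨i, k, hik, _, hi, hk, ho⟩ := exists_pair hp _ hu0 h1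
    have e1 := hcon _ hi
    have e2 := hcon _ hk
    rw [huo] at ho
    change ((k : ℚ) - i) * (-1) = ((K.ι a).f (j (p.coeff i))).order - ((K.ι a).f (j (p.coeff k))).order at ho
    rw [e1, e2] at ho
    have h3 : (i : ℚ) < k := by exact_mod_cast hik
    linarith

end KD

end kd

end Run7.h333
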