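import Pool.Agent.Run7.h333.Main

/-! Embeddings of finite extensions into an algebraic closure. -/

set_option autoImplicit false
set_option linter.style.haveILetI false
set_option linter.unusedSectionVars false

namespace Run7.h333

section emb

variable {K L Ω : Type} [Field K] [Field L] [Field Ω] [Algebra K L] [Algebra K Ω]

/-- two embeddings are conjugate -/
lemma exists_conj [Normal K Ω] (φ ψ : L →ₐ[K] Ω) : ∃ γ : Ω ≃ₐ[K] Ω, ∀ y, γ (φ y) = ψ y := by
  let χ : φ.fieldRange ≃ₐ[K] ψ.fieldRange :=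
    (AlgEquiv.ofInjectiveField φ).symm.trans (AlgEquiv.ofInjectiveField ψ)
  refine ⟨χ.liftNormal Ω, fun y => ?_⟩
  have h1 := χ.liftNormal_commutes Ω (AlgEquiv.ofInjectiveField φ y)
  have h2 : χ (AlgEquiv.ofInjectiveField φ y) = AlgEquiv.ofInjectiveField ψ y :=
    congrArg (AlgEquiv.ofInjectiveField ψ) ((AlgEquiv.ofInjectiveField φ).symm_apply_apply y)
  rw [h2] at h1
  exact h1

/-- the index of the stabilizer of an embedding divides the degree -/
lemma stab_index [IsAlgClosed Ω] [Normal K Ω] [FiniteDimensional K L] (φ : L →ₐ[K] Ω)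
    (R : Subgroup (Ω ≃ₐ[K] Ω)) (hR : ∀ γ, γ ∈ R ↔ ∀ y, γ (φ y) = φ y) :
    R.index ∣ Module.finrank K L := by
  have h1 : R.index = Field.finSepDegree K L := by
    rw [Field.finSepDegree, Nat.card_congr (Field.embEquivOfIsAlgClosed K L Ω), Subgroup.index]
    refine Nat.card_congr (Equiv.ofBijective
      (fun q : (Ω ≃ₐ[K] Ω) ⧸ R => ((q.out : Ω ≃ₐ[K] Ω) : Ω →ₐ[K] Ω).comp φ) ⟨?_, ?_⟩)
    · intro q q' h
      rw [← q.out_eq, ← q'.out_eq]
      refine Quotient.sound' ?_
      rw [QuotientGroup.leftRel_apply, hR]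
      intro y
      have h3 : q.out (φ y) = q'.out (φ y) := DFunLike.congr_fun h y
      rw [AlgEquiv.mul_apply, ← h3]
      exact (q.out).symm_apply_apply (φ y)
    · intro ψ
      obtain ⟨γ, hγ⟩ := exists_conj φ ψ
      refine ⟨QuotientGroup.mk γ, AlgHom.ext fun y => ?_⟩
      change (QuotientGroup.mk γ : (Ω ≃ₐ[K] Ω) ⧸ R).out (φ y) = ψ y
      obtain ⟨⟨r, hr⟩, hr'⟩ := QuotientGroup.mk_out_eq_mul R γ
      rw [hr', AlgEquiv.mul_apply]
      change γ (r (φ y)) = ψ y
      rw [(hR r).1 hr, hγ]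
  rw [h1]
  exact Field.finSepDegree_dvd_finrank K L

/-- the field generated by Artin-Schreier elements is algebraic -/
lemma alg_LL {F : Type} [Field F] [Algebra F Ω] {x : Fin 3 → Ω} {J : Type} {w : J → Ω} {p : ℕ}
    (hp : 1 < p) (hw : ∀ j, w j ^ p - w j ∈ PP F x) {b : Ω} (hb : b ∈ LL F x w) :
    IsAlgebraic (PP F x) b := by
  have h1 : ∀ y ∈ Set.range w, IsIntegral (PP F x) y := by
    rintro _ ⟨j, rfl⟩
    have hdeg : (Polynomial.X + Polynomial.C (⟨w j ^ p - w j, hw j⟩ : PP F x)).degree <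
        ((p : ℕ) : WithBot ℕ) := by
      rw [Polynomial.degree_X_add_C]
      exact_mod_cast hp
    refine ⟨Polynomial.X ^ p - (Polynomial.X + Polynomial.C (⟨w j ^ p - w j, hw j⟩ : PP F x)),
      Polynomial.monic_X_pow_sub hdeg, ?_⟩
    rw [Polynomial.eval₂_sub, Polynomial.eval₂_add, Polynomial.eval₂_X_pow, Polynomial.eval₂_X,
      Polynomial.eval₂_C]
    change w j ^ p - (w j + (w j ^ p - w j)) = 0
    ring
  haveI := IntermediateField.isAlgebraic_adjoin h1
  have h2 := Algebra.IsAlgebraic.isAlgebraic (R := PP F x)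
    (⟨b, hb⟩ : IntermediateField.adjoin (PP F x) (Set.range w))
  exact h2.algebraMap

end emb

end Run7.h333
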