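import Pool.Agent.Run7.h333.HI

/-! Groups acting as full automorphism groups, stable subfields and the Kummer data. -/

set_option autoImplicit false
set_option linter.style.haveILetI false

namespace Run7.h333

open Polynomial Pool.Agent.TH952

section subfields

variable {Ω : Type} [Field Ω]

/-- algebraicity over a bigger subfield -/
lemma alg_mono {A B : Subfield Ω} (h : A ≤ B) {x : Ω} (hx : IsAlgebraic A x) : IsAlgebraic B x := by
  letI := (Subfield.inclusion h).toAlgebra
  haveI : IsScalarTower A B Ω := IsScalarTower.of_algebraMap_eq fun _ => rfl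
  exact hx.extendScalars (Subfield.inclusion h).injective

/-- algebraicity is transitive -/
lemma alg_trans {A B : Subfield Ω} (h : A ≤ B) (hB : ∀ b ∈ B, IsAlgebraic A b) {x : Ω}
    (hx : IsAlgebraic B x) : IsAlgebraic A x := by
  letI := (Subfield.inclusion h).toAlgebra
  haveI : IsScalarTower A B Ω := IsScalarTower.of_algebraMap_eq fun _ => rfl
  haveI : Algebra.IsAlgebraic A B :=
    ⟨fun b => (isAlgebraic_algebraMap_iff (A := Ω) (algebraMap B Ω).injective).1 (hB b b.2)⟩
  exact IsAlgebraic.restrictScalars A hx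

lemma alg_self {A : Subfield Ω} {x : Ω} (hx : x ∈ A) : IsAlgebraic A x :=
  isAlgebraic_algebraMap (R := A) (A := Ω) ⟨x, hx⟩

/-- adjoining one element to a subfield -/
def adj (k : Subfield Ω) (z : Ω) : Subfield Ω := (IntermediateField.adjoin k {z}).toSubfield

lemma le_adj (k : Subfield Ω) (z : Ω) : k ≤ adj k z := fun x hx =>
  (IntermediateField.adjoin k {z}).algebraMap_mem ⟨x, hx⟩

lemma mem_adj (k : Subfield Ω) (z : Ω) : z ∈ adj k z := IntermediateField.mem_adjoin_simple_self k z

lemma adj_le {k L : Subfield Ω} {z : Ω} (h : k ≤ L) (hz : z ∈ L) : adj k z ≤ L := by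
  intro x hx
  have hx' : x ∈ IntermediateField.adjoin k {z} := hx
  obtain ⟨r, s, rfl⟩ := (IntermediateField.mem_adjoin_simple_iff k x).1 hx'
  have h1 : ∀ r : Polynomial k, Polynomial.aeval z r ∈ L := by
    intro r
    rw [Polynomial.aeval_eq_sum_range]
    refine L.sum_mem fun i _ => ?_
    rw [Algebra.smul_def]
    exact L.mul_mem (h (r.coeff i).2) (L.pow_mem hz i)
  exact L.div_mem (h1 r) (h1 s)

open scoped IntermediateField.algebraAdjoinAdjoin in
/-- algebraic equation with polynomial coefficients -/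
lemma exists_q {k : Subfield Ω} {z e : Ω} (he : IsAlgebraic (adj k z) e) :
    ∃ q : Polynomial (Polynomial k), q ≠ 0 ∧
      q.eval₂ ((Polynomial.aeval z : Polynomial k →ₐ[k] Ω) : Polynomial k →+* Ω) e = 0 := by
  have h1 : IsAlgebraic (IntermediateField.adjoin k {z}) e := he
  have h2 : IsAlgebraic (Algebra.adjoin k {z}) e :=
    (IsFractionRing.isAlgebraic_iff (Algebra.adjoin k {z}) (IntermediateField.adjoin k {z}) Ω).2 h1
  obtain ⟨p, hp, hpe⟩ := h2
  let φ : Polynomial k →+* Algebra.adjoin k {z} :=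
    ((Polynomial.aeval (⟨z, Algebra.self_mem_adjoin_singleton k z⟩ : Algebra.adjoin k {z}) :
      Polynomial k →ₐ[k] Algebra.adjoin k {z}) : Polynomial k →+* Algebra.adjoin k {z})
  have hφ : ∀ r : Polynomial k, ((φ r : Algebra.adjoin k {z}) : Ω) = Polynomial.aeval z r := fun r =>
    (Polynomial.aeval_algebraMap_apply Ω
      (⟨z, Algebra.self_mem_adjoin_singleton k z⟩ : Algebra.adjoin k {z}) r).symm
  have hsurj : Function.Surjective φ := by
    rintro ⟨y, hy⟩
    rw [Algebra.adjoin_singleton_eq_range_aeval] at hy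
    obtain ⟨r, hr⟩ := hy
    exact ⟨r, Subtype.ext ((hφ r).trans hr)⟩
  obtain ⟨q, hq⟩ := Polynomial.map_surjective φ hsurj p
  refine ⟨q, ?_, ?_⟩
  · rintro rfl
    apply hp
    rw [← hq, Polynomial.map_zero]
  · have h3 : (algebraMap (Algebra.adjoin k {z}) Ω).comp φ =
        ((Polynomial.aeval z : Polynomial k →ₐ[k] Ω) : Polynomial k →+* Ω) :=
      RingHom.ext fun r => hφ r
    rw [← h3, ← Polynomial.eval₂_map, hq]
    exact hpe

/-- transcendence over a bigger algebraic subfield -/
lemma tr_ext {A B : Subfield Ω} (h : A ≤ B) (hB : ∀ b ∈ B, IsAlgebraic A b) {x : Ω}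
    (hx : Transcendental A x) : Transcendental B x := fun h' => hx (alg_trans h hB h')

end subfields

section gal

variable {G Ω : Type} [Group G] [Field Ω] [MulSemiringAction G Ω]

/-- the group acts as the full group of automorphisms over a subfield -/
structure IsGal (G : Type) {Ω : Type} [Group G] [Field Ω] [MulSemiringAction G Ω]
    (K : Subfield Ω) : Prop where
  fix : ∀ (g : G) (c : Ω), c ∈ K → g • c = c
  ex : ∀ φ : Ω ≃+* Ω, (∀ c ∈ K, φ c = c) → ∃ g : G, ∀ x, g • x = φ x
  faithful : ∀ g h : G, (∀ x : Ω, g • x = h • x) → g = h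
  alg : ∀ x : Ω, IsAlgebraic K x

variable {K : Subfield Ω}

lemma smul_aeval_of_fix {k : Subfield Ω} (g : G) (hg : ∀ c ∈ k, g • c = c) (p : Polynomial k) (x : Ω) :
    g • Polynomial.aeval x p = Polynomial.aeval (g • x) p := by
  have h1 := Polynomial.hom_eval₂ p (algebraMap k Ω) (MulSemiringAction.toRingHom G Ω g) x
  have h2 : (MulSemiringAction.toRingHom G Ω g).comp (algebraMap k Ω) = algebraMap k Ω :=
    RingHom.ext fun c => hg c c.2
  rw [h2] at h1
  exact h1

lemma alg_smul {k : Subfield Ω} (g : G) (hg : ∀ c ∈ k, g • c = c) {x : Ω} (hx : IsAlgebraic k x) :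
    IsAlgebraic k (g • x) := by
  obtain ⟨p, hp, hpx⟩ := hx
  refine ⟨p, hp, ?_⟩
  rw [← smul_aeval_of_fix g hg, hpx, smul_zero]

lemma IsGal.finO (h : IsGal G K) : FinO G Ω := by
  intro y
  obtain ⟨p, hp, hpy⟩ := h.alg y
  refine (p.rootSet_finite Ω).subset ?_
  rintro _ ⟨g, rfl⟩
  rw [Polynomial.mem_rootSet]
  refine ⟨hp, ?_⟩
  change Polynomial.aeval (g • y) p = 0
  rw [← smul_aeval_of_fix g (h.fix g), hpy, smul_zero]

/-- stable subfields -/
structure SS (G Ω : Type) [Group G] [Field Ω] [MulSemiringAction G Ω] where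
  /-- the field -/
  F : Subfield Ω
  st : ∀ (g : G) (x : Ω), x ∈ F → g • x ∈ F

instance SS.act (X : SS G Ω) : MulSemiringAction G X.F where
  smul g x := ⟨g • (x : Ω), X.st g x x.2⟩
  one_smul x := Subtype.ext (one_smul G (x : Ω))
  mul_smul g h x := Subtype.ext (mul_smul g h (x : Ω))
  smul_zero g := Subtype.ext (smul_zero g)
  smul_add g x y := Subtype.ext (smul_add g (x : Ω) (y : Ω))
  smul_one g := Subtype.ext (smul_one g)
  smul_mul g x y := Subtype.ext (smul_mul' g (x : Ω) (y : Ω))

lemma SS.coe_smul (X : SS G Ω) (g : G) (x : X.F) : ((g • x : X.F) : Ω) = g • (x : Ω) := rfl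

lemma SS.finO (X : SS G Ω) (h : FinO G Ω) : FinO G X.F := by
  intro y
  refine Set.Finite.of_finite_image (f := (Subtype.val : X.F → Ω)) ((h y).subset ?_)
    Subtype.val_injective.injOn
  rintro _ ⟨_, ⟨g, rfl⟩, rfl⟩
  exact ⟨g, rfl⟩

/-- levels of a smaller stable subfield are levels of a bigger one -/
lemma SS.sub (X Y : SS G Ω) (h : Y.F ≤ X.F) : Sub G X.F Y.F := by
  intro S' hS'
  refine ⟨Subfield.inclusion h '' S', ⟨hS'.1.image _, ?_⟩, fun x x' hx s hs => ?_⟩
  · rintro g _ ⟨s, hs, rfl⟩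
    exact ⟨g • s, hS'.2 g s hs, rfl⟩
  · have h1 := hx _ ⟨s, hs, rfl⟩
    exact Subtype.ext (congrArg (Subtype.val : X.F → Ω) h1)

/-- the algebraic closure of a subfield -/
def SS.ac (hG : IsGal G K) (k : Subfield Ω) (hk : k ≤ K) : SS G Ω where
  F := (algebraicClosure k Ω).toSubfield
  st g x hx := by
    have h1 : IsAlgebraic k x := mem_algebraicClosure_iff.1 hx
    exact mem_algebraicClosure_iff.2 (alg_smul g (fun c hc => hG.fix g c (hk hc)) h1)

variable (hG : IsGal G K)

lemma SS.mem_ac {k : Subfield Ω} {hk : k ≤ K} {x : Ω} :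
    x ∈ (SS.ac hG k hk).F ↔ IsAlgebraic k x := mem_algebraicClosure_iff

lemma SS.le_ac {k : Subfield Ω} (hk : k ≤ K) : k ≤ (SS.ac hG k hk).F := fun _ hx =>
  (SS.mem_ac hG).2 (alg_self hx)

instance SS.ac_isAlgClosed [IsAlgClosed Ω] {k : Subfield Ω} {hk : k ≤ K} :
    IsAlgClosed (SS.ac hG k hk).F :=
  (algebraicClosure.isAlgClosure k Ω).isAlgClosed

lemma SS.ac_mono {k k' : Subfield Ω} {hk : k ≤ K} {hk' : k' ≤ K} (h : k ≤ k') :
    (SS.ac hG k hk).F ≤ (SS.ac hG k' hk').F := fun _ hx =>
  (SS.mem_ac hG).2 (alg_mono h ((SS.mem_ac hG).1 hx))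

lemma SS.tr {k : Subfield Ω} (hk : k ≤ K) {z : Ω} (hz : Transcendental k z) :
    Transcendental (SS.ac hG k hk).F z :=
  tr_ext (SS.le_ac hG hk) (fun _ hb => (SS.mem_ac hG).1 hb) hz

/-- algebraic equations with coefficients in the algebraic closure -/
lemma SS.exists_q {k : Subfield Ω} (hk : k ≤ K) {z e : Ω} (he : IsAlgebraic (adj k z) e) :
    ∃ q : Polynomial (Polynomial (SS.ac hG k hk).F), q ≠ 0 ∧
      q.eval₂ ((Polynomial.aeval z : Polynomial (SS.ac hG k hk).F →ₐ[(SS.ac hG k hk).F] Ω) :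
        Polynomial (SS.ac hG k hk).F →+* Ω) e = 0 := by
  refine Run7.h333.exists_q (alg_mono ?_ he)
  exact adj_le ((SS.le_ac hG hk).trans (le_adj _ _)) (mem_adj _ _)

/-- the full group in one more variable -/
lemma IsGal.full {k : Subfield Ω} {z : Ω} (hK : K = adj k z) (hk : k ≤ K)
    (hz : Transcendental k z) : Full G (SS.ac hG k hk).F z where
  tr := SS.tr hG hk hz
  alg e := SS.exists_q hG hk (hK ▸ hG.alg e)
  fix g := hG.fix g z (hK ▸ mem_adj k z)
  comp _ _ := rfl
  ex φ g hφ hφz := by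
    refine hG.ex φ ?_
    have h1 : ∀ c ∈ k, φ c = c := by
      intro c hc
      have h2 := hφ ⟨c, SS.le_ac hG hk hc⟩
      have h3 : g • c = c := hG.fix g c (hk hc)
      exact h2.trans h3
    let L : Subfield Ω :=
      { carrier := {c | φ c = c}
        mul_mem' := fun {a b} ha hb => by
          change φ (a * b) = a * b
          rw [map_mul, show φ a = a from ha, show φ b = b from hb]
        one_mem' := map_one φ
        add_mem' := fun {a b} ha hb => by
          change φ (a + b) = a + b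
          rw [map_add, show φ a = a from ha, show φ b = b from hb]
        zero_mem' := map_zero φ
        neg_mem' := fun {a} ha => by
          change φ (-a) = -a
          rw [map_neg, show φ a = a from ha]
        inv_mem' := fun a ha => by
          change φ a⁻¹ = a⁻¹
          rw [map_inv₀, show φ a = a from ha] }
    intro c hc
    rw [hK] at hc
    exact adj_le (L := L) h1 hφz hc
  faithful := hG.faithful

end gal

section cf

/-- the coefficients, seen as roots of unity -/
structure Cf (G Ω M : Type) [Group G] [Field Ω] [MulSemiringAction G Ω] [AddCommGroup M]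
    [DistribMulAction G M] (l : ℕ) where
  /-- the values -/
  v : M → Ω
  v_add : ∀ a b, v (a + b) = v a * v b
  v_inj : Function.Injective v
  v_sur : ∀ x : Ω, (∃ n : ℕ, x ^ (l ^ n) = 1) → ∃ m, v m = x
  v_tor : ∀ m, ∃ n : ℕ, v m ^ (l ^ n) = 1
  v_act : ∀ (g : G) (m : M), v (g • m) = g • (g • v m)

variable {G Ω M : Type} [Group G] [Field Ω] [MulSemiringAction G Ω] [IsAlgClosed Ω]
  [AddCommGroup M] [DistribMulAction G M] {K : Subfield Ω} (hG : IsGal G K)

omit [MulSemiringAction G Ω] [IsAlgClosed Ω] in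
lemma alg_of_pow_one (k : Subfield Ω) {x : Ω} {n : ℕ} (hn : 0 < n) (hx : x ^ n = 1) :
    IsAlgebraic k x := by
  refine IsAlgebraic.of_pow hn ?_
  rw [hx]
  exact isAlgebraic_one

/-- Kummer data in one more variable -/
noncomputable def Cf.kd {l : ℕ} (hl : l.Prime) (hl0 : (l : Ω) ≠ 0) (C : Cf G Ω M l)
    {k : Subfield Ω} {z : Ω} (hK : K = adj k z) (hk : k ≤ K) (hz : Transcendental k z) :
    KD G (SS.ac hG k hk).F Ω M l :=
  have hlE : (l : (SS.ac hG k hk).F) ≠ 0 := by
    intro h
    apply hl0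
    have := congrArg (Subtype.val : (SS.ac hG k hk).F → Ω) h
    simpa using this
  have hF := hG.full hK hk hz
  { z := z
    full := hF
    foΩ := hG.finO
    foE := SS.finO _ hG.finO
    pr := hl
    l0 := hlE
    v := fun m => ⟨C.v m, (SS.mem_ac hG).2 (by
      obtain ⟨n, hn⟩ := C.v_tor m
      exact alg_of_pow_one k (pow_pos hl.pos n) hn)⟩
    v_add := fun a b => Subtype.ext (C.v_add a b)
    v_inj := fun a b h => C.v_inj (congrArg Subtype.val h)
    v_sur := fun x hx => by
      obtain ⟨n, hn⟩ := hx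
      obtain ⟨m, hm⟩ := C.v_sur (x : Ω) ⟨n, by
        have := congrArg (Subtype.val : (SS.ac hG k hk).F → Ω) hn
        simpa using this⟩
      exact ⟨m, Subtype.ext hm⟩
    v_tor := fun m => by
      obtain ⟨n, hn⟩ := C.v_tor m
      exact ⟨n, Subtype.ext hn⟩
    v_act := fun g m => Subtype.ext (C.v_act g m)
    χ := (exists_addChar hl hlE).choose
    χ1 := (exists_addChar hl hlE).choose_spec.1
    χp := (exists_addChar hl hlE).choose_spec.2
    ι := fun a => (exists_iota z hF.tr hF.alg a).some }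

end cf

end Run7.h333
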