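import Pool.Agent.Run7.h333.AS

/-! Geometry: rational purely inseparable covers. -/

set_option autoImplicit false
set_option linter.style.haveILetI false
set_option linter.unusedSectionVars false

namespace Run7.h333

section geo

variable {G Ω : Type} [Group G] [Field Ω] [MulSemiringAction G Ω] [IsAlgClosed Ω]
  {P : Subfield Ω}

omit [IsAlgClosed Ω] in
lemma isGal_sub (hG : IsGal G P) (H : Subgroup G) {K0 : Subfield Ω} (hPK : P ≤ K0)
    (hfix : ∀ g ∈ H, ∀ x ∈ K0, g • x = x) (hmem : ∀ g : G, (∀ x ∈ K0, g • x = x) → g ∈ H) :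
    IsGal H K0 where
  fix g c hc := hfix g g.2 c hc
  ex φ hφ := by
    obtain ⟨g, hg⟩ := hG.ex φ fun c hc => hφ c (hPK hc)
    have hgH : g ∈ H := hmem g fun x hx => (hg x).trans (hφ x hx)
    exact ⟨⟨g, hgH⟩, hg⟩
  faithful g h hgh := Subtype.ext (hG.faithful g h hgh)
  alg x := alg_mono hPK (hG.alg x)

/-- the fixed points of one group element as a subfield -/
def fixF (g : G) : Subfield Ω := (MulSemiringAction.toRingHom G Ω g).eqLocusField (RingHom.id Ω)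

omit [IsAlgClosed Ω] in
lemma mem_fixF {g : G} {x : Ω} : x ∈ fixF g ↔ g • x = x := Iff.rfl

/-- the result of the geometry -/
def GoodH (P : Subfield Ω) (H : Subgroup G) : Prop :=
  ∃ K0 : Subfield Ω, Nonempty (Twr K0) ∧ IsGal H K0 ∧ P ≤ K0

omit [IsAlgClosed Ω] in
/-- first case: the equation only involves one variable -/
theorem geo_a (p : ℕ) [Fact p.Prime] [CharP Ω p] (hG : IsGal G P) {F0 : Subfield Ω}
    (fin : Finite F0) (h3 : (3 : Cardinal.{0}) ≤ Algebra.trdeg F0 Ω) {s1 s2 t W : Ω}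
    (hF : F0 ≤ P) (h1 : s1 ∈ P) (h2 : s2 ∈ P) (ht : t ∈ P)
    (hP : P ≤ adj (adj (adj F0 s1) s2) t) (hW : W ^ p - W ∈ adj F0 s1) (H : Subgroup G)
    (hH : ∀ g, g ∈ H ↔ g • W = W) : GoodH P H := by
  let k0 := adj (adj F0 s1) W
  let K0 := adj (adj k0 s2) t
  have hPK : P ≤ K0 := hP.trans (adj_mono (adj_mono (le_adj _ _) _) _)
  have hWK : W ∈ K0 := (le_adj _ _) ((le_adj _ _) (mem_adj _ _))
  have hWalg : k0 ≤ acl (adj F0 s1) := by
    refine adj_le (le_acl _) (mem_acl.2 ?_)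
    have hp : p.Prime := Fact.out
    refine ⟨Polynomial.X ^ p - Polynomial.X - Polynomial.C ⟨_, hW⟩, ?_, ?_⟩
    · have h5 : (Polynomial.X ^ p - Polynomial.X - Polynomial.C (⟨_, hW⟩ : adj F0 s1)).natDegree = p := by
        rw [Polynomial.natDegree_sub_C]
        exact FiniteField.X_pow_card_sub_X_natDegree_eq _ hp.one_lt
      intro h
      rw [h, Polynomial.natDegree_zero] at h5
      exact hp.ne_zero h5.symm
    · simp only [map_sub, map_pow, Polynomial.aeval_X, Polynomial.aeval_C]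
      change W ^ p - W - (W ^ p - W) = 0
      ring
  refine ⟨K0, ⟨Twr.of F0 k0 s1 s2 t fin ((le_adj _ _).trans (le_adj _ _)) ((le_adj _ _) (mem_adj _ _))
    (fun c hc => mem_acl.1 (hWalg hc)) h3 rfl (fun ω => alg_mono hPK (hG.alg ω))⟩,
    isGal_sub hG H hPK ?_ ?_, hPK⟩
  · intro g hg
    have hgP : P ≤ fixF g := fun x hx => hG.fix g x hx
    change K0 ≤ fixF g
    exact adj_le (adj_le (adj_le (adj_le (hF.trans hgP) (hgP h1)) ((hH g).1 hg)) (hgP h2)) (hgP ht)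
  · intro g hg
    exact (hH g).2 (hg W hWK)

/-- telescoping -/
lemma tele (p : ℕ) [Fact p.Prime] [CharP Ω p] (q : Ω) (m : ℕ) :
    (∑ i ∈ Finset.range m, q ^ p ^ i) ^ p - ∑ i ∈ Finset.range m, q ^ p ^ i = q ^ p ^ m - q := by
  haveI : ExpChar Ω p := ExpChar.prime Fact.out
  rw [sum_pow_char, ← Finset.sum_sub_distrib]
  have h1 : ∀ i, (q ^ p ^ i) ^ p - q ^ p ^ i = q ^ p ^ (i + 1) - q ^ p ^ i := by
    intro i
    rw [← pow_mul, ← pow_succ]
  rw [Finset.sum_congr rfl fun i _ => h1 i, Finset.sum_range_sub (fun i => q ^ p ^ i), pow_zero, pow_one]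

/-- second case: the equation is additive in one variable -/
theorem geo_b (p : ℕ) [Fact p.Prime] [CharP Ω p] (hG : IsGal G P) {F0 : Subfield Ω}
    (fin : Finite F0) (h3 : (3 : Cardinal.{0}) ≤ Algebra.trdeg F0 Ω) {s1 s2 t W c : Ω}
    (hF : F0 ≤ P) (h1 : s1 ∈ P) (h2 : s2 ∈ P) (ht : t ∈ P)
    (hP : P ≤ adj (adj (adj F0 s1) s2) t) (h : ℕ) (a : ℕ → Ω)
    (hc : c ∈ adj (adj F0 s1) s2) (ha : ∀ m, a m ∈ adj (adj F0 s1) s2)
    (hW : W ^ p - W = c + ∑ m ∈ Finset.range (h + 1), a m * t ^ p ^ m)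
    (hb : ∑ m ∈ Finset.range (h + 1), a m ^ p ^ (h - m) ≠ 0)
    (H : Subgroup G) (hH : ∀ g, g ∈ H ↔ g • W = W) : GoodH P H := by
  have hp : p.Prime := Fact.out
  haveI : ExpChar Ω p := ExpChar.prime hp
  obtain ⟨ζ1, hζ1⟩ := IsAlgClosed.exists_pow_nat_eq s1 (pow_pos hp.pos h)
  obtain ⟨ζ2, hζ2⟩ := IsAlgClosed.exists_pow_nat_eq s2 (pow_pos hp.pos h)
  let Q := adj (adj F0 s1) s2
  let Q' := adj (adj F0 ζ1) ζ2
  have hζ1Q : ζ1 ∈ Q' := (le_adj _ _) (mem_adj _ _)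
  have hζ2Q : ζ2 ∈ Q' := mem_adj _ _
  have hFQ' : F0 ≤ Q' := (le_adj _ _).trans (le_adj _ _)
  have hQQ' : Q ≤ Q' := adj_le (adj_le hFQ' (hζ1 ▸ Q'.pow_mem hζ1Q _)) (hζ2 ▸ Q'.pow_mem hζ2Q _)
  -- roots
  have hroot : Q ≤ Q'.map (iterateFrobenius Ω p h) := by
    refine adj_le (adj_le ?_ ?_) ?_
    · intro x hx
      haveI := fin
      haveI : CharP F0 p := (algebraMap F0 Ω).charP (algebraMap F0 Ω).injective p
      haveI : ExpChar F0 p := ExpChar.prime hp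
      obtain ⟨y, hy⟩ := (bijective_iterateFrobenius F0 p h).2 ⟨x, hx⟩
      refine ⟨y, hFQ' y.2, ?_⟩
      have h5 := congrArg (Subtype.val : F0 → Ω) hy
      change iterateFrobenius Ω p h y = x
      rw [iterateFrobenius_def] at h5 ⊢
      exact h5
    · exact ⟨ζ1, hζ1Q, by change iterateFrobenius Ω p h ζ1 = s1; rw [iterateFrobenius_def, hζ1]⟩
    · exact ⟨ζ2, hζ2Q, by change iterateFrobenius Ω p h ζ2 = s2; rw [iterateFrobenius_def, hζ2]⟩
  have hβ : ∀ m, ∃ β ∈ Q', β ^ p ^ h = a m := by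
    intro m
    obtain ⟨β, hβ, hβ'⟩ := hroot (ha m)
    refine ⟨β, hβ, ?_⟩
    rw [← iterateFrobenius_def]
    exact hβ'
  choose β hβQ hβ using hβ
  let α : ℕ → Ω := fun m => β m ^ p ^ (h - m)
  have hαQ : ∀ m, α m ∈ Q' := fun m => Q'.pow_mem (hβQ m) _
  have hα : ∀ m ≤ h, α m ^ p ^ m = a m := by
    intro m hm
    change (β m ^ p ^ (h - m)) ^ p ^ m = a m
    rw [← pow_mul, ← pow_add, Nat.sub_add_cancel hm, hβ]
  have hα' : ∀ m ≤ h, α m ^ p ^ h = a m ^ p ^ (h - m) := by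
    intro m hm
    change (β m ^ p ^ (h - m)) ^ p ^ h = a m ^ p ^ (h - m)
    rw [← hβ m, ← pow_mul, ← pow_mul, mul_comm]
  let b : Ω := ∑ m ∈ Finset.range (h + 1), α m
  have hbQ : b ∈ Q' := Q'.sum_mem fun m _ => hαQ m
  have hb0 : b ≠ 0 := by
    intro h0
    apply hb
    have h5 : b ^ p ^ h = ∑ m ∈ Finset.range (h + 1), a m ^ p ^ (h - m) := by
      change (∑ m ∈ Finset.range (h + 1), α m) ^ p ^ h = _
      rw [sum_pow_char_pow]
      exact Finset.sum_congr rfl fun m hm => hα' m (Nat.lt_succ_iff.1 (Finset.mem_range.1 hm))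
    rw [← h5, h0, zero_pow (pow_ne_zero h hp.ne_zero)]
  let V : Ω := ∑ m ∈ Finset.range (h + 1), ∑ i ∈ Finset.range m, (α m * t) ^ p ^ i
  let u : Ω := W - V
  have hu : u ^ p - u = c + b * t := by
    have h5 : V ^ p - V = ∑ m ∈ Finset.range (h + 1), (a m * t ^ p ^ m - α m * t) := by
      change (∑ m ∈ Finset.range (h + 1), ∑ i ∈ Finset.range m, (α m * t) ^ p ^ i) ^ p - _ = _
      rw [sum_pow_char, ← Finset.sum_sub_distrib]
      refine Finset.sum_congr rfl fun m hm => ?_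
      rw [tele p, mul_pow, hα m (Nat.lt_succ_iff.1 (Finset.mem_range.1 hm))]
    have h6 : u ^ p - u = (W ^ p - W) - (V ^ p - V) := by
      change (W - V) ^ p - (W - V) = _
      rw [sub_pow_expChar]
      ring
    rw [h6, hW, h5, Finset.sum_sub_distrib, ← Finset.sum_mul]
    ring
  let K0 := adj Q' u
  have huK : u ∈ K0 := mem_adj _ _
  have hQK : Q' ≤ K0 := le_adj _ _
  have htK : t ∈ K0 := by
    have h5 : t = (u ^ p - u - c) / b := by
      rw [hu]
      field_simp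
      ring
    rw [h5]
    exact K0.div_mem (K0.sub_mem (K0.sub_mem (K0.pow_mem huK _) huK) (hQK (hQQ' hc))) (hQK hbQ)
  have hPK : P ≤ K0 := hP.trans (adj_le (hQQ'.trans hQK) htK)
  have hVmem : ∀ A : Subfield Ω, Q' ≤ A → t ∈ A → V ∈ A := fun A hA htA =>
    A.sum_mem fun m _ => A.sum_mem fun i _ => A.pow_mem (A.mul_mem (hA (hαQ m)) htA) _
  have hWK : W ∈ K0 := by
    have h5 : W = u + V := by change W = W - V + V; ring
    rw [h5]
    exact K0.add_mem huK (hVmem K0 hQK htK)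
  refine ⟨K0, ⟨Twr.of F0 (adj F0 ζ1) ζ1 ζ2 u fin (le_adj _ _) (mem_adj _ _)
    (fun c hc => alg_self hc) h3 rfl (fun ω => alg_mono hPK (hG.alg ω))⟩,
    isGal_sub hG H hPK ?_ ?_, hPK⟩
  · intro g hg
    have hgP : P ≤ fixF g := fun x hx => hG.fix g x hx
    have hζ : ∀ ζ s : Ω, ζ ^ p ^ h = s → s ∈ P → ζ ∈ fixF g := by
      intro ζ s hζ hs
      rw [mem_fixF]
      refine iterateFrobenius_inj Ω p h ?_
      rw [iterateFrobenius_def, iterateFrobenius_def, ← smul_pow', hζ]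
      exact hG.fix g s hs
    have hQ'g : Q' ≤ fixF g := adj_le (adj_le (hF.trans hgP) (hζ _ _ hζ1 h1)) (hζ _ _ hζ2 h2)
    change K0 ≤ fixF g
    exact adj_le hQ'g ((fixF g).sub_mem ((hH g).1 hg) (hVmem _ hQ'g (hgP ht)))
  · intro g hg
    exact (hH g).2 (hg W hWK)

end geo

end Run7.h333
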