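import Pool.Agent.Run7.h333.Geo

/-! Polynomial data for the geometry. -/

set_option autoImplicit false
set_option linter.style.haveILetI false
set_option linter.unusedSectionVars false

namespace Run7.h333

section dir

variable {F : Type} [Field F]

/-- `g` is additive in the direction `v`, with coefficients `a` -/
def AddDir (p : ℕ) (g : MvPolynomial (Fin 3) F) (v : Fin 3 → F) (h : ℕ)
    (a : ℕ → MvPolynomial (Fin 3) F) : Prop :=
  MvPolynomial.aeval (fun i => Polynomial.C (MvPolynomial.X i) +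
      Polynomial.C (MvPolynomial.C (v i)) * Polynomial.X : Fin 3 → Polynomial (MvPolynomial (Fin 3) F)) g =
    Polynomial.C g + ∑ m ∈ Finset.range (h + 1), Polynomial.C (a m) * Polynomial.X ^ p ^ m

variable {Ω : Type} [Field Ω] [Algebra F Ω]

/-- evaluation of the identity -/
lemma AddDir.eval {p : ℕ} {g : MvPolynomial (Fin 3) F} {v : Fin 3 → F} {h : ℕ}
    {a : ℕ → MvPolynomial (Fin 3) F} (H : AddDir p g v h a) (y : Fin 3 → Ω) (τ : Ω) :
    MvPolynomial.aeval (fun i => y i + algebraMap F Ω (v i) * τ) g =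
      MvPolynomial.aeval y g + ∑ m ∈ Finset.range (h + 1), MvPolynomial.aeval y (a m) * τ ^ p ^ m := by
  have h1 := congrArg (fun q => Polynomial.eval₂
    ((MvPolynomial.aeval y : MvPolynomial (Fin 3) F →ₐ[F] Ω) : MvPolynomial (Fin 3) F →+* Ω) τ q) H
  simp only [Polynomial.eval₂_add, Polynomial.eval₂_C, Polynomial.eval₂_finsetSum,
    Polynomial.eval₂_mul, Polynomial.eval₂_X_pow] at h1
  refine Eq.trans ?_ h1
  let φ : Polynomial (MvPolynomial (Fin 3) F) →+* Ω := Polynomial.eval₂RingHom
    ((MvPolynomial.aeval y : MvPolynomial (Fin 3) F →ₐ[F] Ω) : MvPolynomial (Fin 3) F →+* Ω) τ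
  change _ = φ (MvPolynomial.aeval _ g)
  have h2 : (φ.comp ((MvPolynomial.aeval (fun i => Polynomial.C (MvPolynomial.X i) +
      Polynomial.C (MvPolynomial.C (v i)) * Polynomial.X :
      Fin 3 → Polynomial (MvPolynomial (Fin 3) F)) : MvPolynomial (Fin 3) F →ₐ[F] _) :
      MvPolynomial (Fin 3) F →+* Polynomial (MvPolynomial (Fin 3) F))) =
      ((MvPolynomial.aeval (fun i => y i + algebraMap F Ω (v i) * τ) :
        MvPolynomial (Fin 3) F →ₐ[F] Ω) : MvPolynomial (Fin 3) F →+* Ω) := by
    apply MvPolynomial.ringHom_ext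
    · intro r
      simp only [RingHom.comp_apply, RingHom.coe_coe, MvPolynomial.algHom_C]
      change Polynomial.eval₂ _ τ (algebraMap F (Polynomial (MvPolynomial (Fin 3) F)) r) = _
      have h5 : algebraMap F (Polynomial (MvPolynomial (Fin 3) F)) r =
          Polynomial.C (MvPolynomial.C r) := rfl
      rw [h5, Polynomial.eval₂_C]
      exact MvPolynomial.aeval_C y r
    · intro i
      simp only [RingHom.comp_apply, RingHom.coe_coe, MvPolynomial.aeval_X]
      change Polynomial.eval₂ _ τ (Polynomial.C (MvPolynomial.X i) +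
        Polynomial.C (MvPolynomial.C (v i)) * Polynomial.X) = _
      rw [Polynomial.eval₂_add, Polynomial.eval₂_mul, Polynomial.eval₂_C, Polynomial.eval₂_C,
        Polynomial.eval₂_X, RingHom.coe_coe, MvPolynomial.aeval_X, MvPolynomial.aeval_C]
  exact (congrArg (fun f : MvPolynomial (Fin 3) F →+* Ω => f g) h2).symm

/-- invariance of the coefficients along the direction -/
lemma AddDir.invar {p : ℕ} [Fact p.Prime] [CharP Ω p] [Infinite Ω] {g : MvPolynomial (Fin 3) F}
    {v : Fin 3 → F} {h : ℕ} {a : ℕ → MvPolynomial (Fin 3) F} (H : AddDir p g v h a)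
    (y : Fin 3 → Ω) (t : Ω) {m : ℕ} (hm : m ≤ h) :
    MvPolynomial.aeval (fun i => y i + algebraMap F Ω (v i) * t) (a m) = MvPolynomial.aeval y (a m) := by
  have hp : p.Prime := Fact.out
  haveI : ExpChar Ω p := ExpChar.prime hp
  set y' : Fin 3 → Ω := fun i => y i + algebraMap F Ω (v i) * t with hy'
  -- the difference polynomial
  have hpoly : ∑ m ∈ Finset.range (h + 1), Polynomial.C (MvPolynomial.aeval y' (a m) -
      MvPolynomial.aeval y (a m)) * Polynomial.X ^ p ^ m = (0 : Polynomial Ω) := by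
    refine Polynomial.funext fun τ => ?_
    rw [Polynomial.eval_zero, Polynomial.eval_finsetSum]
    simp only [Polynomial.eval_mul, Polynomial.eval_C, Polynomial.eval_pow, Polynomial.eval_X]
    have e1 := H.eval y (t + τ)
    have e2 := H.eval y' τ
    have e3 : MvPolynomial.aeval y' g = MvPolynomial.aeval y g +
        ∑ m ∈ Finset.range (h + 1), MvPolynomial.aeval y (a m) * t ^ p ^ m := H.eval y t
    have e4 : (fun i => y' i + algebraMap F Ω (v i) * τ) =
        fun i => y i + algebraMap F Ω (v i) * (t + τ) := by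
      funext i
      rw [hy']
      ring
    rw [e4, e1, e3] at e2
    have e5 : ∀ m, MvPolynomial.aeval y (a m) * (t + τ) ^ p ^ m =
        MvPolynomial.aeval y (a m) * t ^ p ^ m + MvPolynomial.aeval y (a m) * τ ^ p ^ m := by
      intro m
      rw [add_pow_expChar_pow, mul_add]
    rw [Finset.sum_congr rfl fun m _ => e5 m, Finset.sum_add_distrib] at e2
    rw [Finset.sum_congr rfl fun m _ => sub_mul _ _ _, Finset.sum_sub_distrib]
    linear_combination -e2
  have h1 := congrArg (fun q => Polynomial.coeff q (p ^ m)) hpoly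
  simp only [Polynomial.finsetSum_coeff, Polynomial.coeff_C_mul, Polynomial.coeff_X_pow,
    Polynomial.coeff_zero] at h1
  rw [Finset.sum_eq_single m] at h1
  · rw [if_pos rfl, mul_one] at h1
    exact sub_eq_zero.1 h1
  · intro k _ hk
    rw [if_neg, mul_zero]
    intro h2
    exact hk (Nat.pow_right_injective hp.two_le h2).symm
  · intro h2
    exact absurd (Finset.mem_range.2 (Nat.lt_succ_of_le hm)) h2

lemma aeval_mem {A : Subfield Ω} (hA : ∀ c : F, algebraMap F Ω c ∈ A) {y : Fin 3 → Ω}
    (hy : ∀ i, y i ∈ A) (g : MvPolynomial (Fin 3) F) : MvPolynomial.aeval y g ∈ A := by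
  induction g using MvPolynomial.induction_on with
  | C a => rw [MvPolynomial.aeval_C]; exact hA a
  | add p q hp hq => rw [map_add]; exact A.add_mem hp hq
  | mul_X p i hp => rw [map_mul, MvPolynomial.aeval_X]; exact A.mul_mem hp (hy i)

/-- the condition on one equation, before changing it by `ν ^ p - ν` -/
def GoodEq₀ (p : ℕ) (g : MvPolynomial (Fin 3) F) : Prop :=
  (∃ (u : Fin 3 → F) (φ : Polynomial F), u ≠ 0 ∧
    g = Polynomial.aeval (∑ i, MvPolynomial.C (u i) * MvPolynomial.X i) φ) ∨
  ∃ (v : Fin 3 → F) (h : ℕ) (a : ℕ → MvPolynomial (Fin 3) F), v ≠ 0 ∧ AddDir p g v h a ∧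
    ∑ m ∈ Finset.range (h + 1), a m ^ p ^ (h - m) ≠ 0

/-- the condition on one equation -/
def GoodEq (p : ℕ) (g : MvPolynomial (Fin 3) F) : Prop :=
  ∃ ν : MvPolynomial (Fin 3) F, GoodEq₀ p (g + (ν ^ p - ν))

variable {G : Type} [Group G] [MulSemiringAction G Ω] [IsAlgClosed Ω] {P : Subfield Ω}

/-- the subfield generated by the variables -/
def PP (F : Type) {Ω : Type} [Field F] [Field Ω] [Algebra F Ω] (x : Fin 3 → Ω) : Subfield Ω :=
  (IntermediateField.adjoin F (Set.range x)).toSubfield

omit [IsAlgClosed Ω] in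
lemma PP_le {x : Fin 3 → Ω} {A : Subfield Ω} (hA : ∀ c : F, algebraMap F Ω c ∈ A)
    (hx : ∀ i, x i ∈ A) : PP F x ≤ A := by
  let A' : IntermediateField F Ω := { A with algebraMap_mem' := hA }
  have h1 : IntermediateField.adjoin F (Set.range x) ≤ A' := by
    rw [IntermediateField.adjoin_le_iff]
    rintro _ ⟨i, rfl⟩
    exact hx i
  exact fun y hy => h1 hy

omit [IsAlgClosed Ω] in
lemma algebraMap_mem_PP (x : Fin 3 → Ω) (c : F) : algebraMap F Ω c ∈ PP F x :=
  (IntermediateField.adjoin F (Set.range x)).algebraMap_mem c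

omit [IsAlgClosed Ω] in
lemma mem_PP (x : Fin 3 → Ω) (i : Fin 3) : x i ∈ PP F x :=
  IntermediateField.subset_adjoin F _ ⟨i, rfl⟩

lemma exists_others (k : Fin 3) : ∃ i j : Fin 3, ∀ n, n = i ∨ n = j ∨ n = k := by
  revert k
  decide

/-- the base case -/
theorem good_top (p : ℕ) [Fact p.Prime] [CharP Ω p] {x : Fin 3 → Ω} (hG : IsGal G (PP F x))
    [Finite F] (h3 : (3 : Cardinal.{0}) ≤ Algebra.trdeg (algebraMap F Ω).fieldRange Ω)
    {u : Fin 3 → F} (hu : u ≠ 0) {W : Ω} (φ : Polynomial F)
    (hW : W ^ p - W = Polynomial.aeval (∑ i, algebraMap F Ω (u i) * x i) φ)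
    (H : Subgroup G) (hH : ∀ g, g ∈ H ↔ g • W = W) : GoodH (PP F x) H := by
  classical
  obtain ⟨k, hk⟩ := Function.ne_iff.1 hu
  rw [Pi.zero_apply] at hk
  have hk' : algebraMap F Ω (u k) ≠ 0 := (map_ne_zero _).2 hk
  obtain ⟨i, j, hij⟩ := exists_others k
  have fin : Finite (algebraMap F Ω).fieldRange :=
    Finite.of_surjective _ (RingHom.rangeRestrictField_bijective (algebraMap F Ω)).2
  have hF : (algebraMap F Ω).fieldRange ≤ PP F x := by
    rintro _ ⟨c, rfl⟩
    exact algebraMap_mem_PP x c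
  set s := ∑ i, algebraMap F Ω (u i) * x i with hs
  have hsP : s ∈ PP F x := Subfield.sum_mem _ fun n _ =>
    Subfield.mul_mem _ (algebraMap_mem_PP x _) (mem_PP x n)
  set A := adj (adj (adj (algebraMap F Ω).fieldRange s) (x i)) (x j) with hA
  have hFA : ∀ c : F, algebraMap F Ω c ∈ A := fun c =>
    (le_adj _ _) ((le_adj _ _) ((le_adj _ _) ⟨c, rfl⟩))
  have hsA : s ∈ A := (le_adj _ _) ((le_adj _ _) (mem_adj _ _))
  have hiA : x i ∈ A := (le_adj _ _) (mem_adj _ _)
  have hjA : x j ∈ A := mem_adj _ _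
  have hne : ∀ n, n ≠ k → x n ∈ A := by
    intro n hn
    rcases hij n with rfl | rfl | rfl
    · exact hiA
    · exact hjA
    · exact absurd rfl hn
  refine geo_a p hG fin h3 (s1 := s) (s2 := x i) (t := x j) hF hsP (mem_PP x i)
    (mem_PP x j) (PP_le hFA fun n => ?_) ?_ H hH
  · by_cases hn : n = k
    · subst hn
      have h1 : s = algebraMap F Ω (u n) * x n +
          ∑ i ∈ Finset.univ.erase n, algebraMap F Ω (u i) * x i := by
        rw [hs]
        exact (Finset.add_sum_erase _ (fun i => algebraMap F Ω (u i) * x i) (Finset.mem_univ n)).symm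
      have h2 : x n = (s - ∑ i ∈ Finset.univ.erase n, algebraMap F Ω (u i) * x i) /
          algebraMap F Ω (u n) := by
        rw [h1]
        field_simp
        ring
      rw [h2]
      exact A.div_mem (A.sub_mem hsA (A.sum_mem fun m hm =>
        A.mul_mem (hFA _) (hne m (Finset.ne_of_mem_erase hm)))) (hFA _)
    · exact hne n hn
  · rw [hW, Polynomial.aeval_eq_sum_range]
    refine Subfield.sum_mem _ fun m _ => ?_
    rw [Algebra.smul_def]
    exact Subfield.mul_mem _ ((le_adj _ _) ⟨_, rfl⟩) (Subfield.pow_mem _ (mem_adj _ _) _)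

theorem good_of_eq₀ (p : ℕ) [Fact p.Prime] [CharP Ω p] {x : Fin 3 → Ω} (hG : IsGal G (PP F x))
    [Finite F] (h3 : (3 : Cardinal.{0}) ≤ Algebra.trdeg (algebraMap F Ω).fieldRange Ω)
    (hx : AlgebraicIndependent F x) {g : MvPolynomial (Fin 3) F} (hg : GoodEq₀ p g) {W : Ω}
    (hW : W ^ p - W = MvPolynomial.aeval x g)
    (H : Subgroup G) (hH : ∀ g, g ∈ H ↔ g • W = W) : GoodH (PP F x) H := by
  haveI : Infinite Ω := IsAlgClosed.instInfinite
  rcases hg with ⟨u, φ, hu, rfl⟩ | ⟨v, h, a, hv, hdir, hb⟩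
  · refine good_top p hG h3 hu φ ?_ H hH
    rw [hW, ← Polynomial.aeval_algHom_apply, map_sum]
    congr 2
    refine Finset.sum_congr rfl fun i _ => ?_
    rw [map_mul, MvPolynomial.aeval_X, MvPolynomial.aeval_C]
  · obtain ⟨k, hk⟩ := Function.ne_iff.1 hv
    rw [Pi.zero_apply] at hk
    obtain ⟨i, j, hij⟩ := exists_others k
    have fin : Finite (algebraMap F Ω).fieldRange :=
      Finite.of_surjective _ (RingHom.rangeRestrictField_bijective (algebraMap F Ω)).2
    have hF : (algebraMap F Ω).fieldRange ≤ PP F x := by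
      rintro _ ⟨c, rfl⟩
      exact algebraMap_mem_PP x c
    have hk' : algebraMap F Ω (v k) ≠ 0 := (map_ne_zero _).2 hk
    let t : Ω := x k / algebraMap F Ω (v k)
    let s : Fin 3 → Ω := fun n => x n - algebraMap F Ω (v n) * t
    have hsk : s k = 0 := by
      change x k - algebraMap F Ω (v k) * (x k / algebraMap F Ω (v k)) = 0
      field_simp
      ring
    have hxs : ∀ n, x n = s n + algebraMap F Ω (v n) * t := fun n => by
      change x n = x n - algebraMap F Ω (v n) * t + algebraMap F Ω (v n) * t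
      ring
    have hxs' : x = fun n => s n + algebraMap F Ω (v n) * t := funext hxs
    have htP : t ∈ PP F x := Subfield.div_mem _ (mem_PP x k) (algebraMap_mem_PP x _)
    have hsP : ∀ n, s n ∈ PP F x := fun n =>
      Subfield.sub_mem _ (mem_PP x n) (Subfield.mul_mem _ (algebraMap_mem_PP x _) htP)
    set A := adj (adj (algebraMap F Ω).fieldRange (s i)) (s j) with hA
    have hFA : ∀ c : F, algebraMap F Ω c ∈ A := fun c => (le_adj _ _) ((le_adj _ _) ⟨c, rfl⟩)
    have hsA : ∀ n, s n ∈ A := by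
      intro n
      rcases hij n with rfl | rfl | rfl
      · exact (le_adj _ _) (mem_adj _ _)
      · exact mem_adj _ _
      · rw [hsk]; exact A.zero_mem
    refine geo_b p hG fin h3 (s1 := s i) (s2 := s j) (t := t) (c := MvPolynomial.aeval s g)
      hF (hsP i) (hsP j) htP (PP_le (fun c => (le_adj _ _) (hFA c)) fun n => ?_) h
      (fun m => MvPolynomial.aeval s (a m)) (aeval_mem hFA hsA g) (fun m => aeval_mem hFA hsA (a m))
      ?_ ?_ H hH
    · rw [hxs n]
      exact Subfield.add_mem _ ((le_adj _ _) (hsA n))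
        (Subfield.mul_mem _ ((le_adj _ _) (hFA _)) (mem_adj _ _))
    · have h1 := hdir.eval s t
      rw [← hxs'] at h1
      rw [hW, h1]
    · intro h0
      apply hb
      rw [algebraicIndependent_iff] at hx
      apply hx
      rw [map_sum, ← h0]
      refine Finset.sum_congr rfl fun m hm => ?_
      rw [map_pow]
      congr 1
      have h2 := hdir.invar (Ω := Ω) s t (Nat.lt_succ_iff.1 (Finset.mem_range.1 hm))
      rw [← hxs'] at h2
      exact h2

/-- good equations give good subgroups -/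
theorem good_of_eq (p : ℕ) [Fact p.Prime] [CharP Ω p] {x : Fin 3 → Ω} (hG : IsGal G (PP F x))
    [Finite F] (h3 : (3 : Cardinal.{0}) ≤ Algebra.trdeg (algebraMap F Ω).fieldRange Ω)
    (hx : AlgebraicIndependent F x) {g : MvPolynomial (Fin 3) F} (hg : GoodEq p g) {W : Ω}
    (hW : W ^ p - W = MvPolynomial.aeval x g)
    (H : Subgroup G) (hH : ∀ g, g ∈ H ↔ g • W = W) : GoodH (PP F x) H := by
  haveI : ExpChar Ω p := ExpChar.prime Fact.out
  obtain ⟨ν, hν⟩ := hg
  refine good_of_eq₀ p hG h3 hx hν (W := W + MvPolynomial.aeval x ν) ?_ H fun s => ?_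
  · rw [add_pow_expChar, map_add, map_sub, map_pow, ← hW]
    ring
  · rw [hH, smul_add, hG.fix s _ (aeval_mem (algebraMap_mem_PP x) (mem_PP x) ν)]
    exact (add_left_inj _).symm

end dir

end Run7.h333
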