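import Pool.Agent.Run7.h333.HS

/-! The local computation of the obstruction on a decomposition group. -/

set_option autoImplicit false
set_option linter.style.haveILetI false

namespace Run7.h333

section loc

variable {G Y Y' M : Type} [Group G] [MulAction G Y] [MulAction G Y'] [AddCommGroup M]
  [DistribMulAction G M]

theorem ZZ.loc (hM : SmA G Y' M) (hMY : SmA G Y M) (hsub : Sub G Y Y') {α : G → G → G → G → M}
    (Z : ZZ Y Y' α) (D : Subgroup G) (I : Subgroup D)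
    (hIn : ∀ i ∈ I, (i : G) ∈ kerN G Y') (hnorm : ∀ d : D, ∀ i ∈ I, d⁻¹ * i * d ∈ I)
    {c : D → D → D → D → M} (hc : Sm4 Y c) (hce : ∀ g x y z w : D, c (g * x) (g * y) (g * z) (g * w) =
      g • c x y z w) (hcd : d4 c = 0)
    (hcI : ∀ x x' y y' z z' w w' : D, x⁻¹ * x' ∈ I → y⁻¹ * y' ∈ I → z⁻¹ * z' ∈ I → w⁻¹ * w' ∈ I →
      c x y z w = c x' y' z' w')
    {ω : D → D → D → M} (hω : Sm3 Y ω) (hωe : ∀ g x y z : D, ω (g * x) (g * y) (g * z) = g • ω x y z)
    (hα : ∀ x y z w : D, α x y z w = c x y z w + d3 ω x y z w)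
    (hVI : ∀ f : D → D → D → M, Sm3 Y f → Eq3 I f → d3 f = 0 →
      ∃ β : D → D → M, Sm2 Y β ∧ Eq2 I β ∧ f = d2 β) :
    ∃ p : D → D → D → M,
      (∃ S : Set Y, Stb D S ∧ ∀ x x' y y', Agr S x x' → Agr S y y' → p x y = p x' y') ∧
      (∀ x y, ∀ i ∈ I, ∀ j ∈ I, p x y (i * j) = p x y i + p x y j) ∧
      (∃ S : Set Y, Stb D S ∧ ∀ x y i j, Agr S i j → p x y i = p x y j) ∧
      (∀ g x y, ∀ i ∈ I, p (g * x) (g * y) i = g • p x y (g⁻¹ * i * g)) ∧
      ∀ x y z : D, ∀ i ∈ I, Z.E' x y z 1 i = p y z i - p x z i + p x y i := by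
  have hI1 : ∀ i ∈ I, ∀ m : M, (i : D) • m = m := fun i hi m => kerN_smul hM (hIn i hi) m
  have hD2 : ∀ (g : D) (m : M), g • m = (g : G) • m := fun _ _ => rfl
  obtain ⟨SB, hSB, hBx⟩ := Z.Bx
  obtain ⟨TB, hTB, hBy⟩ := Z.By
  obtain ⟨SC, hSC, hCx⟩ := Z.Cx
  obtain ⟨TC, hTC, hCy⟩ := Z.Cy
  obtain ⟨Tc, hTc, hcT⟩ := hc
  obtain ⟨Tω, hTω, hωT⟩ := hω
  have hcd' : ∀ x y z w v : D, c y z w v - c x z w v + c x y w v - c x y z v + c x y z w = 0 := by
    intro x y z w v
    exact congrFun (congrFun (congrFun (congrFun (congrFun hcd x) y) z) w) v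
  -- the two-cocycle
  let F : D → D → D → M := fun x y z => Z.B 1 x y z - ω x y z - c 1 x y z
  have hone : ∀ i ∈ I, ((1 : D)⁻¹ * i) ∈ I := fun i hi => by simpa using hi
  obtain ⟨κ, ⟨Tκ, hTκ, hκT⟩, hκE, hκd⟩ := hVI F
    ⟨(TB ∪ Tc) ∪ Tω, (((hTB.restrict D).union hTc)).union hTω, by
      intro x x' y y' z z' hx hy hz
      have tx := hx.mono (Set.subset_union_left.trans Set.subset_union_left)
      have ty := hy.mono (Set.subset_union_left.trans Set.subset_union_left)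
      have tz := hz.mono (Set.subset_union_left.trans Set.subset_union_left)
      have cx := hx.mono (Set.subset_union_right.trans Set.subset_union_left)
      have cy := hy.mono (Set.subset_union_right.trans Set.subset_union_left)
      have cz := hz.mono (Set.subset_union_right.trans Set.subset_union_left)
      have ox := hx.mono Set.subset_union_right
      have oy := hy.mono Set.subset_union_right
      have oz := hz.mono Set.subset_union_right
      change Z.B 1 x y z - ω x y z - c 1 x y z = Z.B 1 x' y' z' - ω x' y' z' - c 1 x' y' z'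
      have e1 : Z.B 1 x y z = Z.B 1 x' y' z' := hBy 1 _ _ _ _ _ _ tx ty tz
      rw [e1, hωT _ _ _ _ _ _ ox oy oz, hcT _ _ _ _ _ _ _ _ (Agr.refl Tc 1) cx cy cz]⟩
    (by
      intro i hi x y z
      change Z.B 1 ((i : G) * x) ((i : G) * y) ((i : G) * z) - ω (i * x) (i * y) (i * z) -
        c 1 (i * x) (i * y) (i * z) = i • (Z.B 1 x y z - ω x y z - c 1 x y z)
      have e1 : Z.B 1 = Z.B ((i : G) * 1) := hBx _ _ (kerN_mul_agr (hIn i hi) SB 1).symm
      have e2 : c 1 (i * x) (i * y) (i * z) = c (i * 1) (i * x) (i * y) (i * z) :=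
        hcI _ _ _ _ _ _ _ _ (by simpa using hi) (by simp [I.one_mem]) (by simp [I.one_mem])
          (by simp [I.one_mem])
      conv_lhs => rw [e1, e2]
      rw [Z.Beq, hωe, hce, smul_sub, smul_sub]
      rfl)
    (by
      funext x y z w
      have e1 := congrFun (congrFun (congrFun (congrFun (Z.dB 1) (x : G)) (y : G)) (z : G)) (w : G)
      have e2 := hα x y z w
      have e3 := hcd' 1 x y z w
      simp only [d3, Pi.zero_apply] at e1 e2 ⊢
      change (Z.B 1 y z w - ω y z w - c 1 y z w) - (Z.B 1 x z w - ω x z w - c 1 x z w) +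
        (Z.B 1 x y w - ω x y w - c 1 x y w) - (Z.B 1 x y z - ω x y z - c 1 x y z) = 0
      linear_combination (norm := abel) e1 + e2 + e3)
  have hD : SmA D Y M := by
    intro m
    obtain ⟨S, hS, h⟩ := hMY m
    exact ⟨S, hS.restrict D, fun g hg => h g hg⟩
  obtain ⟨Tv, hTv, hTv'⟩ := hD.exists_level (hκT.finite hTκ)
  let K : D → D → D → M := fun x y z => x • κ (x⁻¹ * y) (x⁻¹ * z)
  have hKx : ∀ x x', Agr (Tκ ∪ Tv) x x' → K x = K x' := by
    intro x x' h
    have hu : Agr (Tκ ∪ Tv) (x⁻¹ * x') 1 := h.one_of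
    funext y z
    change x • κ (x⁻¹ * y) (x⁻¹ * z) = x' • κ (x'⁻¹ * y) (x'⁻¹ * z)
    have e1 : ∀ y : D, Agr Tκ (x⁻¹ * y) (x'⁻¹ * y) := fun y =>
      ((h.mono Set.subset_union_left).inv hTκ).mul_right hTκ y
    rw [hκT _ _ _ _ (e1 y) (e1 z)]
    have e2 := hTv' _ (hu.mono Set.subset_union_right) _ ⟨x'⁻¹ * y, x'⁻¹ * z, rfl⟩
    rw [mul_smul, inv_smul_eq_iff] at e2
    exact e2.symm
  have hKe : ∀ g x y z, K (g * x) (g * y) (g * z) = g • K x y z := by
    intro g x y z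
    change (g * x) • κ ((g * x)⁻¹ * (g * y)) ((g * x)⁻¹ * (g * z)) = g • x • κ (x⁻¹ * y) (x⁻¹ * z)
    rw [mul_smul]
    have e : ∀ y : D, (g * x)⁻¹ * (g * y) = x⁻¹ * y := by intro y; group
    rw [e, e]
  have hKi : ∀ i ∈ I, ∀ x y z, K (i * x) y z = K x y z := by
    intro i hi x y z
    change (i * x) • κ ((i * x)⁻¹ * y) ((i * x)⁻¹ * z) = x • κ (x⁻¹ * y) (x⁻¹ * z)
    have e : ∀ y : D, (i * x)⁻¹ * y = (x⁻¹ * i⁻¹ * x) * (x⁻¹ * y) := by intro y; group
    have h1 : x⁻¹ * i⁻¹ * x ∈ I := hnorm x _ (I.inv_mem hi)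
    rw [e, e, hκE _ h1, hI1 _ h1, mul_smul, hI1 i hi]
  have hKy : ∀ x, Lv2 Tκ (K x) := by
    intro x y y' z z' hy hz
    change x • κ _ _ = x • κ _ _
    rw [hκT _ _ _ _ (hy.mul_left _) (hz.mul_left _)]
  -- the relation for `K`
  have hKd : ∀ x y z w : D, K x z w - K x y w + K x y z = Z.B x y z w - ω y z w - c x y z w := by
    intro x y z w
    have e1 := congrFun (congrFun (congrFun hκd (x⁻¹ * y)) (x⁻¹ * z)) (x⁻¹ * w)
    change Z.B 1 ((x⁻¹ : D) * y : D) ((x⁻¹ : D) * z : D) ((x⁻¹ : D) * w : D) -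
      ω (x⁻¹ * y) (x⁻¹ * z) (x⁻¹ * w) - c 1 (x⁻¹ * y) (x⁻¹ * z) (x⁻¹ * w) =
        κ (x⁻¹ * z) (x⁻¹ * w) - κ (x⁻¹ * y) (x⁻¹ * w) + κ (x⁻¹ * y) (x⁻¹ * z) at e1
    have e2 := Z.Beq x 1 ((x⁻¹ : D) * y : D) ((x⁻¹ : D) * z : D) ((x⁻¹ : D) * w : D)
    have e3 := hωe x (x⁻¹ * y) (x⁻¹ * z) (x⁻¹ * w)
    have e4 := hce x 1 (x⁻¹ * y) (x⁻¹ * z) (x⁻¹ * w)
    have e5 := congrArg (fun m => x • m) e1
    simp only [smul_sub, smul_add] at e5
    rw [← e3, ← e4] at e5
    have e6 : x • Z.B 1 ((x⁻¹ : D) * y : D) ((x⁻¹ : D) * z : D) ((x⁻¹ : D) * w : D) = Z.B x y z w := by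
      rw [hD2, ← e2]
      congr 1 <;> simp
    rw [e6] at e5
    simp only [mul_inv_cancel_left, mul_one] at e5
    exact e5.symm
  -- the function
  let Q : D → D → D → D → M := fun x y u v => Z.C x y u v + c x y u v - K y u v + K x u v
  have hQadd : ∀ x y u v w, Q x y u v + Q x y v w = Q x y u w := by
    intro x y u v w
    have e1 := congrFun (congrFun (congrFun (Z.dC x y) (u : G)) (v : G)) (w : G)
    have e2 := hcd' x y u v w
    have e3 := hKd y u v w
    have e4 := hKd x u v w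
    simp only [d2, Pi.sub_apply] at e1
    change (Z.C x y u v + c x y u v - K y u v + K x u v) + (Z.C x y v w + c x y v w - K y v w + K x v w) =
      Z.C x y u w + c x y u w - K y u w + K x u w
    linear_combination (norm := abel) e1 + e2 - e3 + e4
  have hQe : ∀ g x y u v, Q (g * x) (g * y) (g * u) (g * v) = g • Q x y u v := by
    intro g x y u v
    change Z.C ((g : G) * x) ((g : G) * y) ((g : G) * u) ((g : G) * v) +
      c (g * x) (g * y) (g * u) (g * v) - K (g * y) (g * u) (g * v) + K (g * x) (g * u) (g * v) =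
      g • (Z.C x y u v + c x y u v - K y u v + K x u v)
    rw [Z.Ceq, hce, hKe, hKe, smul_add, smul_sub, smul_add]
    rfl
  have hQi : ∀ i ∈ I, ∀ x y u v, Q (i * x) (i * y) u v = Q x y u v := by
    intro i hi x y u v
    change Z.C ((i : G) * x) ((i : G) * y) u v + c (i * x) (i * y) u v - K (i * y) u v + K (i * x) u v =
      Z.C x y u v + c x y u v - K y u v + K x u v
    have e1 : Z.C ((i : G) * x) ((i : G) * y) = Z.C x y :=
      hCx _ _ _ _ (kerN_mul_agr (hIn i hi) SC x) (kerN_mul_agr (hIn i hi) SC y)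
    have e2 : c (i * x) (i * y) u v = c x y u v :=
      hcI _ _ _ _ _ _ _ _ (by
        have : (i * x)⁻¹ * x = x⁻¹ * i⁻¹ * x := by group
        rw [this]; exact hnorm x _ (I.inv_mem hi)) (by
        have : (i * y)⁻¹ * y = y⁻¹ * i⁻¹ * y := by group
        rw [this]; exact hnorm y _ (I.inv_mem hi)) (by simp [I.one_mem]) (by simp [I.one_mem])
    rw [e1, e2, hKi i hi, hKi i hi]
  have hQinv : ∀ i ∈ I, ∀ x y u v, Q x y (i * u) (i * v) = Q x y u v := by
    intro i hi x y u v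
    have e1 := hQe i (i⁻¹ * x) (i⁻¹ * y) u v
    rw [mul_inv_cancel_left, mul_inv_cancel_left, hI1 i hi, hQi _ (I.inv_mem hi)] at e1
    exact e1
  have hyc : ∀ x y, IsYc I (Q x y) := fun x y => ⟨hQadd x y, fun n hn u v => hQinv n hn x y u v⟩
  obtain ⟨R, hR, hR'⟩ := hsub SC hSC
  refine ⟨fun x y i => Q x y 1 i, ⟨((R ∪ Tc) ∪ Tκ) ∪ Tv, (((hR.restrict D).union hTc).union hTκ).union hTv, ?_⟩,
    ?_, ⟨(TC ∪ Tc) ∪ Tκ, ((hTC.restrict D).union hTc).union hTκ, ?_⟩, ?_, ?_⟩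
  · intro x x' y y' hx hy
    funext i
    change Z.C x y 1 i + c x y 1 i - K y 1 i + K x 1 i = Z.C x' y' 1 i + c x' y' 1 i - K y' 1 i + K x' 1 i
    have rx := hx.mono (Set.subset_union_left.trans (Set.subset_union_left.trans Set.subset_union_left))
    have ry := hy.mono (Set.subset_union_left.trans (Set.subset_union_left.trans Set.subset_union_left))
    have cx := hx.mono (Set.subset_union_right.trans (Set.subset_union_left.trans Set.subset_union_left))
    have cy := hy.mono (Set.subset_union_right.trans (Set.subset_union_left.trans Set.subset_union_left))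
    have hkt : Tκ ∪ Tv ⊆ ((R ∪ Tc) ∪ Tκ) ∪ Tv :=
      Set.union_subset (Set.subset_union_right.trans Set.subset_union_left) Set.subset_union_right
    have e1 : Z.C x y = Z.C x' y' := hCx _ _ _ _ (hR' _ _ rx) (hR' _ _ ry)
    rw [e1, hcT _ _ _ _ _ _ _ _ cx cy (Agr.refl Tc 1) (Agr.refl Tc i), hKx _ _ (hx.mono hkt),
      hKx _ _ (hy.mono hkt)]
  · intro x y i hi j hj
    change Q x y 1 (i * j) = Q x y 1 i + Q x y 1 j
    have h1 := (hyc x y).add 1 i (i * j)
    have h2 := (hyc x y).inv i hi 1 j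
    rw [mul_one] at h2
    rw [← h1, h2]
  · intro x y i j hij
    change Z.C x y 1 i + c x y 1 i - K y 1 i + K x 1 i = Z.C x y 1 j + c x y 1 j - K y 1 j + K x 1 j
    have e1 : Z.C x y 1 i = Z.C x y 1 j := hCy x y _ _ _ _ (Agr.refl TC 1)
      (hij.mono (Set.subset_union_left.trans Set.subset_union_left))
    rw [e1, hcT _ _ _ _ _ _ _ _ (Agr.refl Tc x) (Agr.refl Tc y) (Agr.refl Tc 1)
      (hij.mono (Set.subset_union_right.trans Set.subset_union_left)),
      hKy y _ _ _ _ (Agr.refl Tκ 1) (hij.mono Set.subset_union_right),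
      hKy x _ _ _ _ (Agr.refl Tκ 1) (hij.mono Set.subset_union_right)]
  · intro g x y i hi
    change Q (g * x) (g * y) 1 i = g • Q x y 1 (g⁻¹ * i * g)
    have h1 := hQe g x y g⁻¹ (g⁻¹ * i)
    rw [mul_inv_cancel, mul_inv_cancel_left] at h1
    have h2 := (hyc x y).conj (hnorm g i hi) g⁻¹
    rw [h1, ← h2]
    congr 2
    group
  · intro x y z i hi
    change Z.C y z 1 i - Z.C x z 1 i + Z.C x y 1 i = (Z.C y z 1 i + c y z 1 i - K z 1 i + K y 1 i) -
      (Z.C x z 1 i + c x z 1 i - K z 1 i + K x 1 i) + (Z.C x y 1 i + c x y 1 i - K y 1 i + K x 1 i)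
    have e1 := hcd' x y z 1 i
    have e3 : c x y z 1 = c x y z i := hcI _ _ _ _ _ _ _ _ (by simp [I.one_mem]) (by simp [I.one_mem])
      (by simp [I.one_mem]) (by simpa using hi)
    rw [e3] at e1
    linear_combination (norm := abel) -e1

end loc

end Run7.h333
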