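import Pool.Agent.Run7.h333.Kummer2
import Pool.Agent.Run7.h333.Loc

/-! Homotopy invariance: classes unramified at all closed points of the affine line are inflated. -/

set_option autoImplicit false
set_option linter.style.haveILetI false

namespace Run7.h333

open Polynomial Pool.Agent.TH952

variable {G E Ω M : Type} [Group G] [Field E] [IsAlgClosed E] [Field Ω] [IsAlgClosed Ω] [Algebra E Ω]
  [MulSemiringAction G E] [MulSemiringAction G Ω] [AddCommGroup M] [DistribMulAction G M]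

namespace KD

variable {l : ℕ} (K : KD G E Ω M l)

lemma v_zsmul (n : ℤ) (m : M) : K.v (n • m) = K.v m ^ n := by
  rcases n with n | n
  · rw [Int.ofNat_eq_natCast, natCast_zsmul, K.v_nsmul, zpow_natCast]
  · rw [Int.negSucc_eq, neg_smul, K.v_neg, zpow_neg]
    congr 1
    have : ((n : ℤ) + 1) = ((n + 1 : ℕ) : ℤ) := by push_cast; ring
    rw [this, natCast_zsmul, K.v_nsmul, zpow_natCast]

lemma v_tor' (g : G) (m : M) : ∃ n : ℕ, (g • K.v m) ^ (l ^ n) = 1 := by
  obtain ⟨n, hn⟩ := K.v_tor m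
  exact ⟨n, by rw [← smul_pow', hn, smul_one]⟩

/-- the once twisted action -/
noncomputable def act (g : G) (m : M) : M := (K.v_sur (g • K.v m) (K.v_tor' g m)).choose

lemma v_act1 (g : G) (m : M) : K.v (K.act g m) = g • K.v m :=
  (K.v_sur (g • K.v m) (K.v_tor' g m)).choose_spec

lemma act_add (g : G) (a b : M) : K.act g (a + b) = K.act g a + K.act g b :=
  K.v_inj (by rw [K.v_act1, K.v_add, K.v_add, K.v_act1, K.v_act1, smul_mul'])

lemma act_zero (g : G) : K.act g 0 = 0 :=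
  K.v_inj (by rw [K.v_act1, K.v_zero, smul_one])

lemma act_sub (g : G) (a b : M) : K.act g (a - b) = K.act g a - K.act g b := by
  rw [sub_eq_add_neg, K.act_add, sub_eq_add_neg]
  congr 1
  have := K.act_add g b (-b)
  rw [add_neg_cancel, K.act_zero] at this
  exact eq_neg_of_add_eq_zero_right this.symm

lemma act_one (m : M) : K.act 1 m = m :=
  K.v_inj (by rw [K.v_act1, one_smul])

lemma act_mul (g h : G) (m : M) : K.act (g * h) m = K.act g (K.act h m) :=
  K.v_inj (by rw [K.v_act1, K.v_act1, K.v_act1, mul_smul])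

include K in
lemma sub : Sub G Ω E := by
  intro S' hS'
  refine ⟨algebraMap E Ω '' S', ⟨hS'.1.image _, ?_⟩, fun x x' h s hs => ?_⟩
  · rintro g _ ⟨s, hs, rfl⟩
    exact ⟨g • s, hS'.2 g s hs, (K.full.comp g s).symm⟩
  · apply (algebraMap E Ω).injective
    rw [← K.full.comp, ← K.full.comp]
    exact h _ ⟨s, hs, rfl⟩

lemma sec_one (a : E) (h : (1 : G) • a = a) : K.sec a 1 h = 1 := by
  refine K.eq_of_iota a fun x => ?_
  rw [K.sec_spec, one_smul]
  ext q
  rw [tw_coeff]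
  simp

include K in
lemma ctrl : Ctrl G Ω E := by
  intro S hS
  obtain ⟨S', hS', h⟩ := K.sec_smooth 0 hS
  refine ⟨S', hS', fun x hx => ⟨x * (K.sec 0 x (smul_zero x))⁻¹, ?_, ?_⟩⟩
  · intro e
    rw [mul_smul]
    have h1 := K.sec_E 0 x (smul_zero x) ((K.sec 0 x (smul_zero x))⁻¹ • e)
    rw [smul_inv_smul] at h1
    exact h1.symm
  · have h1 := h x 1 (smul_zero x) (smul_zero 1) hx
    rw [K.sec_one] at h1
    have h2 := (h1.inv hS).mul_left x
    rw [inv_one, mul_one] at h2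
    exact h2.symm

include K in
lemma c1_ker (P : Subgroup G) (hP : P ≤ kerN G E) : IsC1 (FixedPoints.subfield P Ω) :=
  isC1_fixed_tr1 (k := E) P (fun _ hg c => K.kerN_alg (hP hg) c) K.z (fun g _ => K.full.fix g)
    K.full.tr K.full.alg

include K in
lemma l0Ω : (l : Ω) ≠ 0 := by
  intro h
  apply K.l0
  apply (algebraMap E Ω).injective
  rw [map_natCast, map_zero, h]

/-- the local condition at `a` -/
def Unr (a : E) (α : G → G → G → G → M) : Prop :=
  ∃ (D : Subgroup G) (I : Subgroup D) (P : Subgroup (MulAction.stabilizer G a)),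
    P.index ≠ 0 ∧ P.index.Coprime l ∧ (∀ i ∈ I, (i : G) ∈ kerN G E) ∧
    (∀ d : D, ∀ i ∈ I, d⁻¹ * i * d ∈ I) ∧
    (∀ (g : G) (hg : g • a = a), (⟨g, hg⟩ : MulAction.stabilizer G a) ∈ P → K.sec a g hg ∈ D) ∧
    (∀ (ψ : AddChar ℚ E) (hψ : ψ 1 = 1), ∃ h : K.rt a ψ hψ ∈ D, (⟨_, h⟩ : D) ∈ I) ∧
    ∃ (c : D → D → D → D → M) (ω : D → D → D → M), Sm4 Ω c ∧
      (∀ g x y z w : D, c (g * x) (g * y) (g * z) (g * w) = g • c x y z w) ∧ d4 c = 0 ∧
      (∀ x x' y y' z z' w w' : D, x⁻¹ * x' ∈ I → y⁻¹ * y' ∈ I → z⁻¹ * z' ∈ I → w⁻¹ * w' ∈ I →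
        c x y z w = c x' y' z' w') ∧
      Sm3 Ω ω ∧ (∀ g x y z : D, ω (g * x) (g * y) (g * z) = g • ω x y z) ∧
      (∀ x y z w : D, α x y z w = c x y z w + d3 ω x y z w)

/-- the group of characters trivial at `1` -/
def H1 (E : Type) [Field E] : Subgroup (AddChar ℚ E) where
  carrier := {ψ | ψ 1 = 1}
  one_mem' := by simp
  mul_mem' := by
    intro a b ha hb
    change a 1 * b 1 = 1
    rw [show a 1 = 1 from ha, show b 1 = 1 from hb, one_mul]
  inv_mem' := by
    intro a ha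
    change a⁻¹ 1 = 1
    rw [AddChar.inv_apply', show a 1 = 1 from ha, inv_one]

/-- equivariance of smooth homomorphisms on rotations -/
theorem rot_equiv (a : E) {D : Subgroup G} {I : Subgroup D}
    (hrt : ∀ (ψ : AddChar ℚ E) (hψ : ψ 1 = 1), ∃ h : K.rt a ψ hψ ∈ D, (⟨_, h⟩ : D) ∈ I)
    (p : D → M) (hp : ∀ i ∈ I, ∀ j ∈ I, p (i * j) = p i + p j)
    (hpS : ∃ S : Set Ω, Stb D S ∧ ∀ i j : D, Agr S i j → p i = p j)
    (g : G) (ψ : AddChar ℚ E) (hψ : ψ 1 = 1) (hψ' : gch g ψ 1 = 1) :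
    K.v (p ⟨K.rt a (gch g ψ) hψ', (hrt _ hψ').choose⟩) = g • K.v (p ⟨K.rt a ψ hψ, (hrt _ hψ).choose⟩) := by
  obtain ⟨S, hS, hpS⟩ := hpS
  obtain ⟨T, hST, hT⟩ := K.foΩ.exists_stb hS.1
  obtain ⟨N, hN, hNT⟩ := K.rt_smooth a hT
  have hN' : (N : ℚ) ≠ 0 := Nat.cast_ne_zero.2 hN.ne'
  let hh : H1 E →* Multiplicative M :=
    { toFun := fun ψ => Multiplicative.ofAdd (p ⟨K.rt a ψ.1 ψ.2, (hrt _ ψ.2).choose⟩)
      map_one' := by
        have h1 : K.rt a (1 : H1 E).1 (1 : H1 E).2 = 1 := by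
          refine K.eq_of_iota a fun x => ?_
          rw [K.rt_spec, one_smul]
          ext q
          rw [tw_coeff]
          simp
        have h2 : p ⟨K.rt a (1 : H1 E).1 (1 : H1 E).2, (hrt _ (1 : H1 E).2).choose⟩ = p 1 := by
          congr 1
          exact Subtype.ext h1
        rw [h2]
        have h3 := hp 1 I.one_mem 1 I.one_mem
        rw [mul_one] at h3
        have h4 : p 1 = 0 := left_eq_add.1 h3
        rw [h4]
        rfl
      map_mul' := by
        intro ψ ψ'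
        have h1 := K.rt_mul a ψ.1 ψ'.1 ψ.2 ψ'.2 (ψ * ψ').2
        have h2 := hp _ (hrt _ ψ.2).choose_spec _ (hrt _ ψ'.2).choose_spec
        change p _ = p _ + p _
        rw [← h2]
        congr 1
        exact Subtype.ext h1 }
  have hlev : ∀ ψ ψ' : H1 E, ψ.1 (1 / N) = ψ'.1 (1 / N) → hh ψ = hh ψ' := by
    intro ψ ψ' h
    change p _ = p _
    exact hpS _ _ (fun s hs => hNT ψ.1 ψ'.1 ψ.2 ψ'.2 h s (hST hs))
  haveI : NeZero N := ⟨hN.ne'⟩
  obtain ⟨c, hc⟩ := rootsOfUnity.integer_power_of_ringEquiv N (MulSemiringAction.toRingEquiv G E g)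
  have hc' : ∀ t : E, t ^ N = 1 → g • t = t ^ c := by
    intro t ht
    have ht0 : t ≠ 0 := by
      rintro rfl
      rw [zero_pow hN.ne'] at ht
      exact zero_ne_one ht
    have h1 : Units.mk0 t ht0 ∈ rootsOfUnity N E := by
      rw [mem_rootsOfUnity]
      ext
      simpa using ht
    have h2 := hc ⟨Units.mk0 t ht0, h1⟩
    simpa using h2
  have hpowN : ∀ ψ : H1 E, ψ.1 (1 / N) ^ N = 1 := by
    intro ψ
    have h1 := AddChar.map_nsmul_eq_pow ψ.1 N (1 / (N : ℚ))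
    rw [nsmul_eq_mul, mul_one_div_cancel hN'] at h1
    rw [← h1]
    exact ψ.2
  let Ψ : H1 E := ⟨ψ, hψ⟩
  let Ψ' : H1 E := ⟨gch g ψ, hψ'⟩
  have e1 : hh Ψ' = hh (Ψ ^ c) := by
    refine hlev _ _ ?_
    change g • ψ (1 / N) = ((Ψ ^ c : H1 E) : AddChar ℚ E) (1 / N)
    rw [hc' _ (hpowN Ψ)]
    have h2 : ∀ c : ℤ, ((Ψ ^ c : H1 E) : AddChar ℚ E) (1 / N) = ψ (1 / N) ^ c := by
      intro c
      rw [Subgroup.coe_zpow]
      change (ψ ^ c) (1 / N) = _
      rcases c with c | c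
      · rw [Int.ofNat_eq_natCast, zpow_natCast, zpow_natCast, AddChar.pow_apply]
      · rw [zpow_negSucc, zpow_negSucc, AddChar.inv_apply', AddChar.pow_apply]
    exact (h2 c).symm
  have e2 : hh Ψ ^ N = 1 := by
    rw [← map_pow, ← map_one hh]
    refine hlev _ _ ?_
    rw [Subgroup.coe_pow, AddChar.pow_apply]
    have h1 := hpowN Ψ
    rw [h1]
    simp
  have e3 : K.v (Multiplicative.toAdd (hh Ψ)) ^ N = 1 := by
    rw [← K.v_nsmul]
    have h1 : N • Multiplicative.toAdd (hh Ψ) = 0 := e2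
    rw [h1, K.v_zero]
  have e4 : Multiplicative.toAdd (hh Ψ') = c • Multiplicative.toAdd (hh Ψ) := by
    rw [e1, map_zpow]
    rfl
  change K.v (Multiplicative.toAdd (hh Ψ')) = g • K.v (Multiplicative.toAdd (hh Ψ))
  rw [e4, K.v_zsmul, hc' _ e3]

/-- the once twisted action as a structure -/
@[reducible] noncomputable def actI : DistribMulAction G M where
  smul := fun j m => K.act j m
  one_smul := fun m => K.act_one m
  mul_smul := fun i j m => K.act_mul i j m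
  smul_zero := fun j => K.act_zero j
  smul_add := fun j a b => K.act_add j a b

/-- averaging for the once twisted action -/
theorem avg {J : Subgroup G} {P : Subgroup J} (hP0 : P.index ≠ 0) (hPl : P.index.Coprime l)
    {f : G → G → G → M} (hf : ∀ j ∈ J, ∀ x y z, f (j * x) (j * y) (j * z) = K.act j (f x y z))
    {β : G → G → M} {T : Set E} (hT0 : Stb G T) (hT : Lv2 T β)
    (hβ : ∀ p ∈ P, ∀ x y, β (p * x) (p * y) = K.act p (β x y)) (h : f = d2 β) :
    ∃ γ : G → G → M, Lv2 T γ ∧ (∀ j ∈ J, ∀ x y, γ (j * x) (j * y) = K.act j (γ x y)) ∧ f = d2 γ := by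
  haveI : P.FiniteIndex := ⟨hP0⟩
  haveI : Finite (J ⧸ P) := Subgroup.finite_quotient_of_finiteIndex
  letI : Fintype (J ⧸ P) := Fintype.ofFinite _
  obtain ⟨γ, hγ1, hγ2, hγ3⟩ := @average2 G _ E _ M _ K.actI J P _ f hf β hβ h T hT
  have hcard : Fintype.card (J ⧸ P) = P.index := by
    rw [← Nat.card_eq_fintype_card]
    rfl
  rw [hcard] at hγ3
  have hf3 : Lv3 T f := by
    intro x x' y y' z z' hx hy hz
    rw [h]
    change β y z - β x z + β x y = β y' z' - β x' z' + β x' y'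
    rw [hT _ _ _ _ hy hz, hT _ _ _ _ hx hz, hT _ _ _ _ hx hy]
  obtain ⟨N, hN⟩ := exists_exp (A := M) (l := l) K.tor (hf3.finite hT0)
  obtain ⟨m', hm'⟩ := exists_inv_smul hPl N
  have hact : ∀ (j : G) (m : M), K.act j (m' • m) = m' • K.act j m := fun j m =>
    (AddMonoidHom.mk' (K.act j) (K.act_add j)).map_zsmul m' m
  refine ⟨m' • γ, ?_, ?_, ?_⟩
  · intro x x' y y' hx hy
    change m' • γ x y = m' • γ x' y'
    rw [hγ1 _ _ _ _ hx hy]
  · intro j hj x y
    change m' • γ (j * x) (j * y) = K.act j (m' • γ x y)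
    rw [hact]
    congr 1
    exact hγ2 j hj x y
  · funext x y z
    have h1 := congrFun (congrFun (congrFun hγ3 x) y) z
    have h3 := hm' (f x y z) (hN _ ⟨x, y, z, rfl⟩)
    rw [← h3]
    change m' • (P.index • f x y z) = m' • γ y z - m' • γ x z + m' • γ x y
    have h4 : γ y z - γ x z + γ x y = P.index • f x y z := h1
    rw [← h4, smul_add, smul_sub]

/-- the class of the obstruction at `a` -/
theorem local_triv (hM : SmA G E M) (hsub : Sub G Ω E) {α : G → G → G → G → M} (Z : ZZ Ω E α) (a : E)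
    (hun : K.Unr a α) :
    ∃ T : Set E, Stb G T ∧ ∃ β : G → G → M, Lv2 T β ∧
      (∀ j : G, j • a = a → ∀ x y, β (j * x) (j * y) = K.act j (β x y)) ∧
      (fun x y z => K.va a (Z.E hM x y z)) = d2 β := by
  obtain ⟨D, I, P, hP0, hPl, hIn, hnorm, hsec, hrt, c, ω, hc, hce, hcd, hcI, hω, hωe, hα⟩ := hun
  have hVI : ∀ f : D → D → D → M, Sm3 Ω f → Eq3 I f → d3 f = 0 →
      ∃ β : D → D → M, Sm2 Ω β ∧ Eq2 I β ∧ f = d2 β := by
    intro f hf hfe hfd
    refine cd2 K.pr K.l0Ω (K.foΩ.restrict D) ?_ K.tor I (fun P hP => nsat_sub K.pr P fun Q hQ => ?_)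
      f hf hfe hfd
    · intro m
      obtain ⟨S, hS, h⟩ := hM.of_sub hsub m
      exact ⟨S, hS.restrict D, fun g hg => h g hg⟩
    · have h1 := K.c1_ker (Q.map D.subtype) (by
        rintro _ ⟨q, hq, rfl⟩
        exact hIn q (hP (hQ hq)))
      have h2 : FixedPoints.subfield (Q.map D.subtype) Ω = FixedPoints.subfield Q Ω := by
        ext x
        constructor
        · intro h g
          exact h ⟨((g : D) : G), ⟨g, g.2, rfl⟩⟩
        · rintro h ⟨_, g, hg, rfl⟩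
          exact h ⟨g, hg⟩
      rw [h2] at h1
      exact h1
  obtain ⟨p, ⟨S₁, hS₁, hpx⟩, hpadd, ⟨S₂, hS₂, hpi⟩, hpe, hpE⟩ := Z.loc hM (hM.of_sub hsub) hsub D I hIn hnorm
    hc hce hcd hcI hω hωe hα hVI
  -- the stabiliser
  let J : Subgroup G := MulAction.stabilizer G a
  have hJ : ∀ j : J, (j : G) • a = a := fun j => j.2
  let s : P → D := fun j => ⟨K.sec a (j : J) (hJ j), hsec _ (hJ j) j.2⟩
  have hs_mul : ∀ i j : P, s (i * j) = s i * s j := by
    intro i j
    apply Subtype.ext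
    exact K.sec_mul a (i : J) (j : J) (hJ i) (hJ j) (hJ (i * j))
  let ρ : D := ⟨K.rt a K.χ K.χ1, (hrt K.χ K.χ1).choose⟩
  have hρ : ρ ∈ I := (hrt K.χ K.χ1).choose_spec
  obtain ⟨S₃, hS₃, hE3⟩ := Z.E_sm hM
  -- the action
  letI : DistribMulAction P M :=
    { smul := fun j m => K.act (j : J) m
      one_smul := fun m => K.act_one m
      mul_smul := fun i j m => K.act_mul _ _ m
      smul_zero := fun j => K.act_zero _
      smul_add := fun j a b => K.act_add _ a b }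
  obtain ⟨T₁, hST₁, hT₁⟩ := K.foΩ.exists_stb hS₁.1
  obtain ⟨T₂, hT₂, hsT₂⟩ := K.sec_smooth a hT₁
  have hfJ : ∀ j ∈ J, ∀ x y z : G, K.va a (Z.E hM (j * x) (j * y) (j * z)) =
      K.act j (K.va a (Z.E hM x y z)) := by
    intro j hj x y z
    apply K.v_inj
    rw [K.v_act1, ← K.va_smul, hJ ⟨j, hj⟩, ← Z.E_eq hM j (Subgroup.mem_top _)]
  obtain ⟨β, hβ1, hβ2, hβ3⟩ := lemmaA2 (A := M) (J := P) (J.subtype.comp P.subtype) hS₃ hT₂
    (f := fun x y z => K.va a (Z.E hM x y z))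
    (fun x x' y y' z z' hx hy hz => by
      change K.va a (Z.E hM x y z) = K.va a (Z.E hM x' y' z')
      rw [hE3 _ _ _ _ _ _ hx hy hz])
    (fun j x y z => hfJ _ (j : J).2 x y z)
    (by
      funext x y z w
      have h1 := congrFun (congrFun (congrFun (congrFun (Z.E_d hM) x) y) z) w
      simp only [d3, Pi.zero_apply] at h1 ⊢
      rw [← K.va_sub, ← K.va_add, ← K.va_sub, h1]
      rfl)
    (b := fun x y => p (s x) (s y) ρ)
    (fun x x' y y' hx hy => by
      have h1 := hpx (s x) (s x') (s y) (s y')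
        (fun t ht => hsT₂ _ _ (hJ x) (hJ x') hx t (hST₁ ht))
        (fun t ht => hsT₂ _ _ (hJ y) (hJ y') hy t (hST₁ ht))
      rw [h1])
    (fun j x y => by
      change p (s (j * x)) (s (j * y)) ρ = K.act (j : J) (p (s x) (s y) ρ)
      rw [hs_mul, hs_mul, hpe (s j) (s x) (s y) ρ hρ]
      have hψ' : gch ((j : J) : G)⁻¹ K.χ 1 = 1 := by
        rw [gch_apply, K.χ1, smul_one]
      have h1 : (s j)⁻¹ * ρ * s j = ⟨K.rt a (gch ((j : J) : G)⁻¹ K.χ) hψ', (hrt _ hψ').choose⟩ := by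
        apply Subtype.ext
        exact K.sec_conj a (j : J) (hJ j) K.χ K.χ1 hψ'
      have h2 := K.rot_equiv a hrt (fun i => p (s x) (s y) i) (hpadd (s x) (s y))
        ⟨S₂, hS₂, fun i j hij => hpi _ _ i j hij⟩ ((j : J) : G)⁻¹ K.χ K.χ1 hψ'
      apply K.v_inj
      rw [K.v_act1, h1]
      change K.v (K.sec a (j : J) (hJ j) • p (s x) (s y) _) = _
      rw [K.v_act, K.sec_E, K.sec_E, h2, smul_inv_smul])
    (fun x y z => by
      change (Z.E hM (x : J) (y : J) (z : J)).1 _ = p (s y) (s z) ρ - p (s x) (s z) ρ + p (s x) (s y) ρ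
      rw [← hpE (s x) (s y) (s z) ρ hρ, Z.E_val]
      obtain ⟨S₄, hS₄, hE'⟩ := Z.E'_level
      have h3 : ∀ j : P, Agr S₄ ((j : J) : G) (K.sec a (j : J) (hJ j)) :=
        fun j t _ => (K.sec_E a (j : J) (hJ j) t).symm
      have h4 := hE' _ _ _ _ _ _ (h3 x) (h3 y) (h3 z)
      change Z.E' ((x : J) : G) (y : J) (z : J) 1 _ =
        Z.E' (K.sec a (x : J) (hJ x)) (K.sec a (y : J) (hJ y)) (K.sec a (z : J) (hJ z)) 1 _
      rw [h4])
  obtain ⟨γ, hγ1, hγ2, hγ3⟩ := K.avg hP0 hPl (J := J) (P := P) (f := fun x y z => K.va a (Z.E hM x y z))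
    hfJ (hS₃.union hT₂) hβ1 (fun p hp x y => hβ2 ⟨p, hp⟩ x y) hβ3
  exact ⟨S₃ ∪ T₂, hS₃.union hT₂, γ, hγ1, fun j hj x y => hγ2 j hj x y, hγ3⟩

/-- **homotopy invariance** -/
theorem hi {α : G → G → G → G → M} (hα : Sm4 Ω α) (hαe : Eq4 ⊤ α) (hαd : d4 α = 0)
    (hun : ∀ a, K.Unr a α) :
    ∃ m : G → G → G → G → M, Sm4 E m ∧ Eq4 ⊤ m ∧ d4 m = 0 ∧
      ∃ ω : G → G → G → M, Sm3 Ω ω ∧ Eq3 ⊤ ω ∧ α = m + d3 ω := by
  classical
  have hM := K.smA
  have hsub := K.sub
  have hctrl := K.ctrl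
  have hNS : ∀ P ≤ kerN G E, NSat P Ω l := fun P hP =>
    nsat_sub K.pr P fun D hD => K.c1_ker D (hD.trans hP)
  obtain ⟨Z⟩ := ZZ.exists hM hctrl
    (fun f hf hfe hfd => cd2 K.pr K.l0Ω K.foΩ (hM.of_sub hsub) K.tor (kerN G E) hNS f hf hfe hfd)
    (fun f hf hfe hfd => cd3 K.pr K.l0Ω K.foΩ (hM.of_sub hsub) K.tor (kerN G E) hNS f hf hfe hfd)
    hα hαe hαd
  obtain ⟨S₀, hS₀, hE0⟩ := Z.E_sm hM
  -- the support
  have hA0 : {a : E | ∃ x y z, K.va a (Z.E hM x y z) ≠ 0}.Finite := by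
    have h1 : {a : E | ∃ x y z, K.va a (Z.E hM x y z) ≠ 0} ⊆
        ⋃ c ∈ {c | ∃ x y z, c = Z.E hM x y z}, {a : E | K.va a c ≠ 0} := by
      rintro a ⟨x, y, z, h⟩
      exact Set.mem_biUnion ⟨x, y, z, rfl⟩ h
    exact ((hE0.finite hS₀).biUnion fun c _ => K.va_finite c).subset h1
  have hEeq : ∀ (g : G) (a : E) (x y z : G), K.va (g • a) (Z.E hM (g * x) (g * y) (g * z)) =
      K.act g (K.va a (Z.E hM x y z)) := by
    intro g a x y z
    apply K.v_inj
    rw [K.v_act1, ← K.va_smul, ← Z.E_eq hM g (Subgroup.mem_top _)]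
  -- the local trivialisations
  have hloc : ∀ a : E, ∃ T : Set E, Stb G T ∧ ∃ β : G → G → M, Lv2 T β ∧
      (∀ j : G, j • a = a → ∀ x y, β (j * x) (j * y) = K.act j (β x y)) ∧
      (fun x y z => K.va a (Z.E hM x y z)) = d2 β ∧
      ((∀ x y z, K.va a (Z.E hM x y z) = 0) → β = 0) := by
    intro a
    by_cases h0 : ∀ x y z, K.va a (Z.E hM x y z) = 0
    · refine ⟨∅, Stb.empty, 0, fun _ _ _ _ _ _ => rfl, fun j _ x y => (K.act_zero j).symm, ?_, fun _ => rfl⟩
      funext x y z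
      rw [h0 x y z]
      simp [d2]
    · obtain ⟨T, hT, β, h1, h2, h3⟩ := K.local_triv hM hsub Z a (hun a)
      exact ⟨T, hT, β, h1, h2, h3, fun h => absurd h h0⟩
  choose T hT β hβL hβE hβd hβ0 using hloc
  -- orbit representatives
  let o : E → E := fun a => Quotient.out (Quotient.mk (MulAction.orbitRel G E) a)
  have ho : ∀ a, ∃ g : G, g • o a = a := by
    intro a
    have h1 := Quotient.mk_out (s := MulAction.orbitRel G E) a
    have h2 : MulAction.orbitRel G E (o a) a := h1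
    rw [MulAction.orbitRel_apply] at h2
    obtain ⟨g, hg⟩ := h2
    refine ⟨g⁻¹, ?_⟩
    rw [← hg]
    exact inv_smul_smul g a
  have hoe : ∀ (g : G) a, o (g • a) = o a := by
    intro g a
    have h1 : (Quotient.mk (MulAction.orbitRel G E) (g • a)) = Quotient.mk (MulAction.orbitRel G E) a :=
      Quotient.sound (s := MulAction.orbitRel G E) ⟨g, rfl⟩
    change Quotient.out (Quotient.mk (MulAction.orbitRel G E) (g • a)) = _
    rw [h1]
  choose γ hγ using ho
  let P : G → G → E → M := fun x y a => K.act (γ a) (β (o a) ((γ a)⁻¹ * x) ((γ a)⁻¹ * y))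
  have hPe : ∀ (g : G) x y a, P (g * x) (g * y) (g • a) = K.act g (P x y a) := by
    intro g x y a
    change K.act (γ (g • a)) (β (o (g • a)) ((γ (g • a))⁻¹ * (g * x)) ((γ (g • a))⁻¹ * (g * y))) =
      K.act g (K.act (γ a) (β (o a) ((γ a)⁻¹ * x) ((γ a)⁻¹ * y)))
    rw [hoe]
    have hj : ((γ (g • a))⁻¹ * g * γ a) • o a = o a := by
      rw [mul_smul, mul_smul, hγ a, inv_smul_eq_iff]
      have := hγ (g • a)
      rw [hoe] at this
      exact this.symm
    have e1 : ∀ x : G, (γ (g • a))⁻¹ * (g * x) = ((γ (g • a))⁻¹ * g * γ a) * ((γ a)⁻¹ * x) := by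
      intro x; group
    rw [e1 x, e1 y, hβE (o a) _ hj, ← K.act_mul, ← K.act_mul]
    congr 1
    group
  have hPd : ∀ x y z a, K.va a (Z.E hM x y z) = P y z a - P x z a + P x y a := by
    intro x y z a
    have h1 := congrFun (congrFun (congrFun (hβd (o a)) ((γ a)⁻¹ * x)) ((γ a)⁻¹ * y)) ((γ a)⁻¹ * z)
    have h2 := hEeq (γ a) (o a) ((γ a)⁻¹ * x) ((γ a)⁻¹ * y) ((γ a)⁻¹ * z)
    rw [hγ a, mul_inv_cancel_left, mul_inv_cancel_left, mul_inv_cancel_left] at h2
    simp only [d2] at h1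
    rw [h2, h1, K.act_add, K.act_sub]
  have hP0 : ∀ x y a, P x y a ≠ 0 → a ∈ {a : E | ∃ x y z, K.va a (Z.E hM x y z) ≠ 0} := by
    intro x y a h
    by_contra hcon
    apply h
    have h0 : ∀ x y z, K.va (o a) (Z.E hM x y z) = 0 := by
      intro x y z
      by_contra hne
      apply hcon
      refine ⟨γ a * x, γ a * y, γ a * z, ?_⟩
      have h2 := hEeq (γ a) (o a) x y z
      rw [hγ a] at h2
      rw [h2]
      intro h3
      apply hne
      apply K.v_inj
      have h4 := congrArg K.v h3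
      rw [K.v_act1, K.v_zero] at h4
      rw [K.v_zero]
      have h5 := congrArg (fun t => (γ a)⁻¹ • t) h4
      simpa using h5
    change K.act (γ a) (β (o a) _ _) = 0
    rw [hβ0 _ h0]
    exact K.act_zero _
  have hPfin : ∀ x y, {a | P x y a ≠ 0}.Finite := fun x y => hA0.subset fun a ha => hP0 x y a ha
  choose Q hQ using fun x y => K.va_surj (P x y) (hPfin x y)
  have hinj : ∀ c c' : HomN G Ω E M, (∀ a, K.va a c = K.va a c') → c = c' := by
    intro c c' h
    rw [← sub_eq_zero]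
    refine K.va_inj _ fun a => ?_
    rw [K.va_sub, h a, sub_self]
  -- smoothness
  obtain ⟨TT, hTT, hTTa⟩ := common_level (G := G) (Y := E) hA0 (fun a S => Lv2 S (β (o a)))
    (fun a S T hST h => h.mono hST) (fun a _ => ⟨T (o a), hT (o a), hβL (o a)⟩)
  have hPS : ∀ x x' y y', Agr TT x x' → Agr TT y y' → P x y = P x' y' := by
    intro x x' y y' hx hy
    funext a
    by_cases ha : a ∈ {a : E | ∃ x y z, K.va a (Z.E hM x y z) ≠ 0}
    · change K.act (γ a) (β (o a) _ _) = K.act (γ a) (β (o a) _ _)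
      rw [hTTa a ha _ _ _ _ (hx.mul_left _) (hy.mul_left _)]
    · have h1 : P x y a = 0 := by
        by_contra h; exact ha (hP0 x y a h)
      have h2 : P x' y' a = 0 := by
        by_contra h; exact ha (hP0 x' y' a h)
      rw [h1, h2]
  refine Z.inflate hM hctrl hsub (Q := Q) ⟨TT, hTT, ?_⟩ ?_ ?_
  · intro x x' y y' hx hy
    apply hinj
    intro a
    rw [hQ, hQ, hPS _ _ _ _ hx hy]
  · intro g _ x y
    apply hinj
    intro a
    obtain ⟨b, rfl⟩ : ∃ b, g • b = a := ⟨g⁻¹ • a, smul_inv_smul g a⟩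
    apply K.v_inj
    rw [hQ, hPe, K.v_act1, K.va_smul, hQ]
  · funext x y z
    apply hinj
    intro a
    rw [hPd]
    change _ = K.va a (Q y z - Q x z + Q x y)
    rw [K.va_add, K.va_sub, hQ, hQ, hQ]

end KD

end Run7.h333
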