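import Pool.Agent.Run7.h333.T4

/-! The zigzag of the Hochschild-Serre spectral sequence in degree three. -/

set_option autoImplicit false
set_option linter.style.haveILetI false

namespace Run7.h333

section kernel

variable (G Y' : Type) [Group G] [MulAction G Y']

/-- the kernel of the action on `Y'` -/
def kerN : Subgroup G where
  carrier := {g | ∀ y : Y', g • y = y}
  one_mem' := fun y => one_smul _ y
  mul_mem' := fun {a b} ha hb y => by rw [mul_smul, hb y, ha y]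
  inv_mem' := fun {a} ha y => by rw [inv_smul_eq_iff, ha y]

variable {G Y'}

lemma kerN_agr {n : G} (hn : n ∈ kerN G Y') (S : Set Y') : Agr S n 1 := by
  intro s _
  rw [hn s, one_smul]

lemma kerN_conj {n : G} (hn : n ∈ kerN G Y') (g : G) : g⁻¹ * n * g ∈ kerN G Y' := by
  intro y
  rw [mul_smul, mul_smul, hn, inv_smul_smul]

lemma kerN_mul_agr {n : G} (hn : n ∈ kerN G Y') (S : Set Y') (x : G) : Agr S (n * x) x := by
  intro s _
  rw [mul_smul, hn]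

lemma kerN_smul {M : Type} [AddCommGroup M] [DistribMulAction G M] (hM : SmA G Y' M) {n : G}
    (hn : n ∈ kerN G Y') (m : M) : n • m = m := by
  obtain ⟨S, _, h⟩ := hM m
  exact h n (kerN_agr hn S)

end kernel

section hs

variable {G Y Y' M : Type} [Group G] [MulAction G Y] [MulAction G Y'] [AddCommGroup M]
  [DistribMulAction G M]

variable (G Y Y') in
/-- every level of `Y` is controlled, up to the kernel of the action on `Y'`, by a level of `Y'` -/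
def Ctrl : Prop := ∀ S : Set Y, Stb G S → ∃ S' : Set Y', Stb G S' ∧ ∀ x : G, Agr S' x 1 →
  ∃ n ∈ kerN G Y', Agr S x n

variable (G Y Y') in
/-- every level of `Y'` is a level of `Y` -/
def Sub : Prop := ∀ S' : Set Y', Stb G S' → ∃ S : Set Y, Stb G S ∧ ∀ x x' : G, Agr S x x' →
  Agr S' x x'

/-- the invariance claim -/
lemma claim2 {S : Set Y} (hS : Stb G S) {γ : G → G → M} (hγ : Lv2 S γ)
    (hγN : Eq2 (kerN G Y') γ) {S' : Set Y'} (hS' : ∀ x : G, Agr S' x 1 → ∃ n ∈ kerN G Y', Agr S x n)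
    (hM : SmA G Y' M) (hval : ∀ g : G, Agr S' g 1 → ∀ x y, g • γ x y = γ x y) {u : G}
    (hu : Agr S' u 1) (x y : G) : u • γ (u⁻¹ * x) (u⁻¹ * y) = γ x y := by
  obtain ⟨n, hn, hun⟩ := hS' u hu
  have h1 := (hun.inv hS).mul_right hS x
  have h2 := (hun.inv hS).mul_right hS y
  rw [hγ _ _ _ _ h1 h2, hγN n⁻¹ ((kerN G Y').inv_mem hn), kerN_smul hM ((kerN G Y').inv_mem hn)]
  exact hval u hu x y

/-- the invariance claim -/
lemma claim3 {S : Set Y} (hS : Stb G S) {γ : G → G → G → M} (hγ : Lv3 S γ)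
    (hγN : Eq3 (kerN G Y') γ) {S' : Set Y'} (hS' : ∀ x : G, Agr S' x 1 → ∃ n ∈ kerN G Y', Agr S x n)
    (hM : SmA G Y' M) (hval : ∀ g : G, Agr S' g 1 → ∀ x y z, g • γ x y z = γ x y z) {u : G}
    (hu : Agr S' u 1) (x y z : G) : u • γ (u⁻¹ * x) (u⁻¹ * y) (u⁻¹ * z) = γ x y z := by
  obtain ⟨n, hn, hun⟩ := hS' u hu
  have h1 := (hun.inv hS).mul_right hS x
  have h2 := (hun.inv hS).mul_right hS y
  have h3 := (hun.inv hS).mul_right hS z
  rw [hγ _ _ _ _ _ _ h1 h2 h3, hγN n⁻¹ ((kerN G Y').inv_mem hn),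
    kerN_smul hM ((kerN G Y').inv_mem hn)]
  exact hval u hu x y z

variable (Y Y') in
/-- the data of the zigzag -/
structure ZZ (α : G → G → G → G → M) where
  /-- first step -/
  B : G → G → G → G → M
  /-- second step -/
  C : G → G → G → G → M
  Beq : ∀ g x y z w, B (g * x) (g * y) (g * z) (g * w) = g • B x y z w
  Bx : ∃ S : Set Y', Stb G S ∧ ∀ x x', Agr S x x' → B x = B x'
  By : ∃ S : Set Y, Stb G S ∧ ∀ x, Lv3 S (B x)
  dB : ∀ x, d3 (B x) = α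
  Ceq : ∀ g x y z w, C (g * x) (g * y) (g * z) (g * w) = g • C x y z w
  Cx : ∃ S : Set Y', Stb G S ∧ ∀ x x' y y', Agr S x x' → Agr S y y' → C x y = C x' y'
  Cy : ∃ S : Set Y, Stb G S ∧ ∀ x y, Lv2 S (C x y)
  dC : ∀ x y, d2 (C x y) = B y - B x

/-- filling in one more variable, when the values are one-cochains -/
lemma fill2 (hM : SmA G Y' M) (hctrl : Ctrl G Y Y') {S₁ : Set Y'} (hS₁ : Stb G S₁)
    {γ : G → G → G → M} (hγ1 : ∀ σ σ', Agr S₁ σ σ' → γ σ = γ σ') {T : Set Y} (hT : Stb G T)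
    (hγT : ∀ σ, Lv2 T (γ σ)) (hγN : ∀ σ, Eq2 (kerN G Y') (γ σ)) :
    ∃ S : Set Y', Stb G S ∧ ∀ x x' y y', Agr S x x' → Agr S y y' →
      (fun z w => x • γ (x⁻¹ * y) (x⁻¹ * z) (x⁻¹ * w)) =
      (fun z w => x' • γ (x'⁻¹ * y') (x'⁻¹ * z) (x'⁻¹ * w)) := by
  obtain ⟨S₂, hS₂, hS₂'⟩ := hctrl T hT
  have hfin : {m : M | ∃ σ z w, m = γ σ z w}.Finite := by
    have h1 : {m : M | ∃ σ z w, m = γ σ z w} ⊆ ⋃ σ ∈ Set.range (rp S₁ : G → G), {m | ∃ z w, m = γ σ z w} := by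
      rintro _ ⟨σ, z, w, rfl⟩
      refine Set.mem_biUnion ⟨σ, rfl⟩ ⟨z, w, ?_⟩
      rw [hγ1 _ _ (rp_agr S₁ σ)]
    exact ((rp_finite hS₁).biUnion fun σ _ => (hγT σ).finite hT).subset h1
  obtain ⟨S₃, hS₃, hS₃'⟩ := hM.exists_level hfin
  refine ⟨(S₁ ∪ S₂) ∪ S₃, (hS₁.union hS₂).union hS₃, ?_⟩
  intro x x' y y' hx hy
  have hSS := (hS₁.union hS₂).union hS₃
  have e1 : γ (x⁻¹ * y) = γ (x'⁻¹ * y') := by
    refine hγ1 _ _ ?_
    exact ((hx.inv hSS).mul hSS hy).mono (Set.subset_union_left.trans Set.subset_union_left)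
  have hu : Agr ((S₁ ∪ S₂) ∪ S₃) (x⁻¹ * x') 1 := hx.one_of
  funext z w
  have e2 := claim2 hT (hγT (x'⁻¹ * y')) (hγN _) (S' := (S₁ ∪ S₂) ∪ S₃)
    (fun x hx => hS₂' x (hx.mono (Set.subset_union_right.trans Set.subset_union_left))) hM
    (fun g hg z w => hS₃' g (hg.mono Set.subset_union_right) _ ⟨_, _, _, rfl⟩) hu
    (x⁻¹ * z) (x⁻¹ * w)
  change x • γ (x⁻¹ * y) (x⁻¹ * z) (x⁻¹ * w) = x' • γ (x'⁻¹ * y') (x'⁻¹ * z) (x'⁻¹ * w)
  rw [e1, ← e2, ← mul_smul, mul_inv_cancel_left]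
  have e3 : ∀ z : G, (x⁻¹ * x')⁻¹ * (x⁻¹ * z) = x'⁻¹ * z := by intro z; group
  rw [e3, e3]

theorem ZZ.exists (hM : SmA G Y' M) (hctrl : Ctrl G Y Y')
    (hV2 : ∀ f : G → G → G → M, Sm3 Y f → Eq3 (kerN G Y') f → d3 f = 0 →
      ∃ β : G → G → M, Sm2 Y β ∧ Eq2 (kerN G Y') β ∧ f = d2 β)
    (hV3 : ∀ f : G → G → G → G → M, Sm4 Y f → Eq4 (kerN G Y') f → d4 f = 0 →
      ∃ β : G → G → G → M, Sm3 Y β ∧ Eq3 (kerN G Y') β ∧ f = d3 β)
    {α : G → G → G → G → M} (hα : Sm4 Y α) (hαe : Eq4 ⊤ α) (hαd : d4 α = 0) :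
    Nonempty (ZZ Y Y' α) := by
  obtain ⟨β, ⟨S, hS, hβS⟩, hβE, hβd⟩ := hV3 α hα (fun j _ => hαe j (Subgroup.mem_top j)) hαd
  let B : G → G → G → G → M := fun x y z w => x • β (x⁻¹ * y) (x⁻¹ * z) (x⁻¹ * w)
  have hBeq : ∀ g x y z w, B (g * x) (g * y) (g * z) (g * w) = g • B x y z w := by
    intro g x y z w
    change (g * x) • β ((g * x)⁻¹ * (g * y)) ((g * x)⁻¹ * (g * z)) ((g * x)⁻¹ * (g * w)) =
      g • x • β (x⁻¹ * y) (x⁻¹ * z) (x⁻¹ * w)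
    rw [mul_smul]
    have e : ∀ y : G, (g * x)⁻¹ * (g * y) = x⁻¹ * y := by intro y; group
    rw [e, e, e]
  have hBy : ∀ x, Lv3 S (B x) := by
    intro x y y' z z' w w' hy hz hw
    change x • β _ _ _ = x • β _ _ _
    rw [hβS _ _ _ _ _ _ (hy.mul_left _) (hz.mul_left _) (hw.mul_left _)]
  have hBx : ∃ S : Set Y', Stb G S ∧ ∀ x x', Agr S x x' → B x = B x' := by
    obtain ⟨S₂, hS₂, hS₂'⟩ := hctrl S hS
    obtain ⟨S₃, hS₃, hS₃'⟩ := hM.exists_level (hβS.finite hS)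
    refine ⟨S₂ ∪ S₃, hS₂.union hS₃, ?_⟩
    intro x x' hx
    have hu : Agr (S₂ ∪ S₃) (x⁻¹ * x') 1 := hx.one_of
    funext y z w
    have e2 := claim3 hS hβS hβE (S' := S₂ ∪ S₃)
      (fun x hx => hS₂' x (hx.mono Set.subset_union_left)) hM
      (fun g hg y z w => hS₃' g (hg.mono Set.subset_union_right) _ ⟨_, _, _, rfl⟩) hu
      (x⁻¹ * y) (x⁻¹ * z) (x⁻¹ * w)
    change x • β (x⁻¹ * y) (x⁻¹ * z) (x⁻¹ * w) = x' • β (x'⁻¹ * y) (x'⁻¹ * z) (x'⁻¹ * w)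
    rw [← e2, ← mul_smul, mul_inv_cancel_left]
    have e3 : ∀ z : G, (x⁻¹ * x')⁻¹ * (x⁻¹ * z) = x'⁻¹ * z := by intro z; group
    rw [e3, e3, e3]
  have hdB : ∀ x, d3 (B x) = α := by
    intro x
    funext y z w v
    have h1 : α (x⁻¹ * y) (x⁻¹ * z) (x⁻¹ * w) (x⁻¹ * v) = d3 β (x⁻¹ * y) (x⁻¹ * z) (x⁻¹ * w) (x⁻¹ * v) := by
      rw [hβd]
    have h2 := hαe x (Subgroup.mem_top x) (x⁻¹ * y) (x⁻¹ * z) (x⁻¹ * w) (x⁻¹ * v)
    simp only [mul_inv_cancel_left] at h2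
    rw [h2, h1]
    simp only [d3, B, smul_sub, smul_add]
  obtain ⟨S₁, hS₁, hBS₁⟩ := hBx
  -- second step
  have hstep : ∀ σ : G, ∃ γ : G → G → M, Sm2 Y γ ∧ Eq2 (kerN G Y') γ ∧ B σ - B 1 = d2 γ := by
    intro σ
    refine hV2 (B σ - B 1) ⟨S, hS, ?_⟩ ?_ ?_
    · intro y y' z z' w w' hy hz hw
      change B σ y z w - B 1 y z w = B σ y' z' w' - B 1 y' z' w'
      rw [hBy σ _ _ _ _ _ _ hy hz hw, hBy 1 _ _ _ _ _ _ hy hz hw]
    · intro n hn y z w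
      change B σ (n * y) (n * z) (n * w) - B 1 (n * y) (n * z) (n * w) = n • (B σ y z w - B 1 y z w)
      have e1 : B σ = B (n * σ) := hBS₁ _ _ (kerN_mul_agr hn _ _).symm
      have e2 : B 1 = B (n * 1) := hBS₁ _ _ (kerN_mul_agr hn _ _).symm
      conv_lhs => rw [e1, e2]
      rw [hBeq, hBeq, smul_sub]
    · have h1 : d3 (B σ - B 1) = d3 (B σ) - d3 (B 1) := by
        funext x y z w
        simp only [d3, Pi.sub_apply]
        abel
      rw [h1, hdB, hdB, sub_self]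
  choose γ₀ hγ₀S hγ₀E hγ₀d using hstep
  let γ : G → G → G → M := fun σ => γ₀ (rp S₁ σ)
  have hγ1 : ∀ σ σ', Agr S₁ σ σ' → γ σ = γ σ' := by
    intro σ σ' h
    change γ₀ (rp S₁ σ) = γ₀ (rp S₁ σ')
    rw [rp_eq h]
  have hγd : ∀ σ, B σ - B 1 = d2 (γ σ) := by
    intro σ
    rw [hBS₁ σ _ (rp_agr S₁ σ).symm]
    exact hγ₀d _
  obtain ⟨T, hT, hγT'⟩ := common_level (G := G) (Y := Y) (rp_finite hS₁)
    (fun σ S => Lv2 S (γ₀ σ)) (fun a S T hST h => h.mono hST) (fun σ _ => hγ₀S σ)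
  have hγT : ∀ σ, Lv2 T (γ σ) := fun σ => hγT' _ ⟨σ, rfl⟩
  let C : G → G → G → G → M := fun x y z w => x • γ (x⁻¹ * y) (x⁻¹ * z) (x⁻¹ * w)
  refine ⟨⟨B, C, hBeq, ⟨S₁, hS₁, hBS₁⟩, ⟨S, hS, hBy⟩, hdB, ?_, ?_, ⟨T, hT, ?_⟩, ?_⟩⟩
  · intro g x y z w
    change (g * x) • γ ((g * x)⁻¹ * (g * y)) ((g * x)⁻¹ * (g * z)) ((g * x)⁻¹ * (g * w)) =
      g • x • γ (x⁻¹ * y) (x⁻¹ * z) (x⁻¹ * w)
    rw [mul_smul]
    have e : ∀ y : G, (g * x)⁻¹ * (g * y) = x⁻¹ * y := by intro y; group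
    rw [e, e, e]
  · exact fill2 hM hctrl hS₁ hγ1 hT hγT (fun σ => hγ₀E _)
  · intro x y z z' w w' hz hw
    change x • γ (x⁻¹ * y) _ _ = x • γ (x⁻¹ * y) _ _
    rw [hγT _ _ _ _ _ (hz.mul_left _) (hw.mul_left _)]
  · intro x y
    funext z w v
    have h1 := congrFun (congrFun (congrFun (hγd (x⁻¹ * y)) (x⁻¹ * z)) (x⁻¹ * w)) (x⁻¹ * v)
    change B (x⁻¹ * y) (x⁻¹ * z) (x⁻¹ * w) (x⁻¹ * v) - B 1 (x⁻¹ * z) (x⁻¹ * w) (x⁻¹ * v) = _ at h1
    have h2 := hBeq x (x⁻¹ * y) (x⁻¹ * z) (x⁻¹ * w) (x⁻¹ * v)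
    have h3 := hBeq x 1 (x⁻¹ * z) (x⁻¹ * w) (x⁻¹ * v)
    simp only [mul_inv_cancel_left, mul_one] at h2 h3
    change _ = B y z w v - B x z w v
    rw [h2, h3, ← smul_sub, h1]
    simp only [d2, C, smul_sub, smul_add]

/-- the obstruction cochain -/
def ZZ.E' {α : G → G → G → G → M} (Z : ZZ Y Y' α) : G → G → G → G → G → M :=
  fun x y z u v => Z.C y z u v - Z.C x z u v + Z.C x y u v

lemma ZZ.E'_cocycle {α : G → G → G → G → M} (Z : ZZ Y Y' α) (x y z : G) : d2 (Z.E' x y z) = 0 := by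
  have h1 : d2 (Z.E' x y z) = d2 (Z.C y z) - d2 (Z.C x z) + d2 (Z.C x y) := by
    funext u v w
    simp only [d2, ZZ.E', Pi.sub_apply, Pi.add_apply]
    abel
  rw [h1, Z.dC, Z.dC, Z.dC]
  abel

lemma ZZ.E'_add {α : G → G → G → G → M} (Z : ZZ Y Y' α) (x y z u v w : G) :
    Z.E' x y z u v + Z.E' x y z v w = Z.E' x y z u w := by
  have := congrFun (congrFun (congrFun (Z.E'_cocycle x y z) u) v) w
  simp only [d2, Pi.zero_apply] at this
  linear_combination (norm := abel) this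

lemma ZZ.E'_eq {α : G → G → G → G → M} (Z : ZZ Y Y' α) (g x y z u v : G) :
    Z.E' (g * x) (g * y) (g * z) (g * u) (g * v) = g • Z.E' x y z u v := by
  simp only [ZZ.E', Z.Ceq, smul_sub, smul_add]

lemma ZZ.E'_level {α : G → G → G → G → M} (Z : ZZ Y Y' α) :
    ∃ S : Set Y', Stb G S ∧ ∀ x x' y y' z z', Agr S x x' → Agr S y y' → Agr S z z' →
      Z.E' x y z = Z.E' x' y' z' := by
  obtain ⟨S, hS, h⟩ := Z.Cx
  refine ⟨S, hS, fun x x' y y' z z' hx hy hz => ?_⟩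
  funext u v
  simp only [ZZ.E']
  rw [h _ _ _ _ hy hz, h _ _ _ _ hx hz, h _ _ _ _ hx hy]

/-- cocycles with one more property -/
structure IsYc (N : Subgroup G) (φ : G → G → M) : Prop where
  add : ∀ u v w, φ u v + φ v w = φ u w
  inv : ∀ n ∈ N, ∀ u v, φ (n * u) (n * v) = φ u v

omit [DistribMulAction G M] in
lemma IsYc.self {N : Subgroup G} {φ : G → G → M} (h : IsYc N φ) (u : G) : φ u u = 0 := by
  have := h.add u u u
  exact left_eq_add.1 this.symm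

omit [DistribMulAction G M] in
lemma IsYc.conj {N : Subgroup G} {φ : G → G → M} (h : IsYc N φ) {n : G} (hn : n ∈ N) (g : G) :
    φ g (n * g) = φ 1 n := by
  have h1 := h.add g 1 n
  have h2 := h.add g n (n * g)
  have h3 := h.inv n hn 1 g
  rw [mul_one] at h3
  have h4 := h.add 1 g 1
  have h5 := h.self 1
  rw [h5] at h4
  rw [← h2, ← h1, h3]
  linear_combination (norm := abel) h4

lemma ZZ.E'_yc {α : G → G → G → G → M} (Z : ZZ Y Y' α) (hM : SmA G Y' M) (x y z : G) :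
    IsYc (kerN G Y') (Z.E' x y z) := by
  refine ⟨Z.E'_add x y z, fun n hn u v => ?_⟩
  obtain ⟨S, _, h⟩ := Z.E'_level
  have h1 := h _ _ _ _ _ _ (kerN_mul_agr hn S x) (kerN_mul_agr hn S y) (kerN_mul_agr hn S z)
  rw [← h1, Z.E'_eq, kerN_smul hM hn, h1]

variable (G Y Y' M) in
/-- smooth homomorphisms from the kernel -/
def HomN : AddSubgroup (kerN G Y' → M) where
  carrier := {χ | (∀ a b, χ (a * b) = χ a + χ b) ∧
    ∃ S : Set Y, Stb G S ∧ ∀ a b : kerN G Y', Agr S (a : G) (b : G) → χ a = χ b}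
  zero_mem' := ⟨fun _ _ => (add_zero _).symm, ∅, Stb.empty, fun _ _ _ => rfl⟩
  add_mem' := by
    rintro χ ψ ⟨h1, S, hS, h2⟩ ⟨h3, T, hT, h4⟩
    refine ⟨fun a b => ?_, S ∪ T, hS.union hT, fun a b hab => ?_⟩
    · change χ (a * b) + ψ (a * b) = χ a + ψ a + (χ b + ψ b)
      rw [h1, h3]; abel
    · change χ a + ψ a = χ b + ψ b
      rw [h2 a b (hab.mono Set.subset_union_left), h4 a b (hab.mono Set.subset_union_right)]
  neg_mem' := by
    rintro χ ⟨h1, S, hS, h2⟩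
    refine ⟨fun a b => ?_, S, hS, fun a b hab => ?_⟩
    · change -χ (a * b) = -χ a + -χ b
      rw [h1]; abel
    · change -χ a = -χ b
      rw [h2 a b hab]

/-- conjugation on the kernel -/
def cj (g : G) (n : kerN G Y') : kerN G Y' := ⟨g⁻¹ * n * g, kerN_conj n.2 g⟩

lemma cj_val (g : G) (n : kerN G Y') : (cj g n : G) = g⁻¹ * n * g := rfl

instance : DistribMulAction G (HomN G Y Y' M) where
  smul g χ := ⟨fun n => g • χ.1 (cj g n), by
    obtain ⟨h1, S, hS, h2⟩ := χ.2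
    refine ⟨fun a b => ?_, S, hS, fun a b hab => ?_⟩
    · change g • χ.1 (cj g (a * b)) = g • χ.1 (cj g a) + g • χ.1 (cj g b)
      rw [← smul_add, ← h1]
      congr 1
      refine congrArg χ.1 (Subtype.ext ?_)
      rw [Subgroup.coe_mul, cj_val, cj_val, cj_val, Subgroup.coe_mul]
      group
    · change g • χ.1 (cj g a) = g • χ.1 (cj g b)
      rw [h2 (cj g a) (cj g b)]
      rw [cj_val, cj_val]
      exact (hab.mul_left _).mul_right hS _⟩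
  one_smul χ := by
    apply Subtype.ext
    funext n
    change (1 : G) • χ.1 (cj 1 n) = χ.1 n
    rw [one_smul]
    refine congrArg χ.1 (Subtype.ext ?_)
    rw [cj_val]; simp
  mul_smul g h χ := by
    apply Subtype.ext
    funext n
    change (g * h) • χ.1 (cj (g * h) n) = g • h • χ.1 (cj h (cj g n))
    rw [mul_smul]
    congr 2
    refine congrArg χ.1 (Subtype.ext ?_)
    rw [cj_val, cj_val, cj_val]
    group
  smul_zero g := by
    apply Subtype.ext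
    funext n
    exact smul_zero g
  smul_add g χ ψ := by
    apply Subtype.ext
    funext n
    exact smul_add g _ _

lemma HomN.smul_def (g : G) (χ : HomN G Y Y' M) (n : kerN G Y') :
    (g • χ).1 n = g • χ.1 (cj g n) := rfl

omit [DistribMulAction G M] in
lemma HomN.finite (χ : HomN G Y Y' M) : (Set.range χ.1).Finite := by
  classical
  obtain ⟨h1, S, hS, h2⟩ := χ.2
  let f : G → M := fun g => if h : ∃ n : kerN G Y', Agr S (n : G) g then χ.1 h.choose else 0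
  refine ((rp_finite hS).image f).subset ?_
  rintro _ ⟨n, rfl⟩
  refine ⟨rp S (n : G), ⟨(n : G), rfl⟩, ?_⟩
  have hex : ∃ m : kerN G Y', Agr S (m : G) (rp S (n : G)) := ⟨n, (rp_agr S _).symm⟩
  change (if h : ∃ m : kerN G Y', Agr S (m : G) (rp S (n : G)) then χ.1 h.choose else 0) = _
  rw [dif_pos hex]
  exact h2 _ _ (hex.choose_spec.trans (rp_agr S _))

lemma HomN.smooth (hM : SmA G Y' M) (hctrl : Ctrl G Y Y') : SmA G Y' (HomN G Y Y' M) := by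
  intro χ
  obtain ⟨h1, S, hS, h2⟩ := χ.2
  obtain ⟨S₂, hS₂, hS₂'⟩ := hctrl S hS
  obtain ⟨S₃, hS₃, hS₃'⟩ := hM.exists_level (HomN.finite χ)
  refine ⟨S₂ ∪ S₃, hS₂.union hS₃, fun g hg => ?_⟩
  apply Subtype.ext
  funext n
  rw [HomN.smul_def, hS₃' g (hg.mono Set.subset_union_right) _ ⟨_, rfl⟩]
  obtain ⟨m, hm, hgm⟩ := hS₂' g (hg.mono Set.subset_union_left)
  have e1 : χ.1 (cj g n) = χ.1 (cj m n) := by
    refine h2 _ _ ?_
    rw [cj_val, cj_val]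
    exact (((hgm.inv hS).mul hS (Agr.refl S _)).mul hS hgm)
  have e2 : cj m n = (⟨m, hm⟩ : kerN G Y')⁻¹ * n * ⟨m, hm⟩ := rfl
  rw [e1, e2, h1, h1]
  have e3 := h1 (⟨m, hm⟩ : kerN G Y')⁻¹ ⟨m, hm⟩
  rw [inv_mul_cancel] at e3
  have e4 := h1 (1 : kerN G Y') 1
  rw [mul_one] at e4
  have e5 : χ.1 1 = 0 := left_eq_add.1 e4
  rw [e5] at e3
  linear_combination (norm := abel) -e3

omit [DistribMulAction G M] in
lemma HomN.torsion {l : ℕ} (hMl : ∀ a : M, ∃ n : ℕ, (l ^ n) • a = 0) (χ : HomN G Y Y' M)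
    (hfin : (Set.range χ.1).Finite) : ∃ n : ℕ, (l ^ n) • χ = 0 := by
  obtain ⟨n, hn⟩ := exists_exp hMl hfin
  refine ⟨n, ?_⟩
  apply Subtype.ext
  funext x
  exact hn _ ⟨x, rfl⟩

/-- the obstruction class -/
noncomputable def ZZ.E {α : G → G → G → G → M} (Z : ZZ Y Y' α) (hM : SmA G Y' M) :
    G → G → G → HomN G Y Y' M := fun x y z => ⟨fun n => Z.E' x y z 1 n, by
  have hyc := Z.E'_yc hM x y z
  refine ⟨fun a b => ?_, ?_⟩
  · have h1 := hyc.add 1 a (a * b)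
    have h2 := hyc.inv a a.2 1 b
    rw [mul_one] at h2
    rw [h2] at h1
    exact h1.symm
  · obtain ⟨S, hS, h⟩ := Z.Cy
    refine ⟨S, hS, fun a b hab => ?_⟩
    simp only [ZZ.E']
    rw [h y z _ _ _ _ (Agr.refl S 1) hab, h x z _ _ _ _ (Agr.refl S 1) hab,
      h x y _ _ _ _ (Agr.refl S 1) hab]⟩

lemma ZZ.E_val {α : G → G → G → G → M} (Z : ZZ Y Y' α) (hM : SmA G Y' M) (x y z : G)
    (n : kerN G Y') : (Z.E hM x y z).1 n = Z.E' x y z 1 n := rfl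

lemma ZZ.E_eq {α : G → G → G → G → M} (Z : ZZ Y Y' α) (hM : SmA G Y' M) : Eq3 ⊤ (Z.E hM) := by
  intro g _ x y z
  apply Subtype.ext
  funext n
  rw [HomN.smul_def, Z.E_val, Z.E_val, cj_val]
  have h1 := Z.E'_eq g x y z g⁻¹ (g⁻¹ * n)
  rw [mul_inv_cancel, mul_inv_cancel_left] at h1
  have h2 := (Z.E'_yc hM x y z).conj (kerN_conj n.2 g) g⁻¹
  rw [h1, ← h2]
  congr 2
  group

lemma ZZ.E_sm {α : G → G → G → G → M} (Z : ZZ Y Y' α) (hM : SmA G Y' M) : Sm3 Y' (Z.E hM) := by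
  obtain ⟨S, hS, h⟩ := Z.E'_level
  refine ⟨S, hS, fun x x' y y' z z' hx hy hz => ?_⟩
  apply Subtype.ext
  funext n
  rw [Z.E_val, Z.E_val, h _ _ _ _ _ _ hx hy hz]

lemma ZZ.E_d {α : G → G → G → G → M} (Z : ZZ Y Y' α) (hM : SmA G Y' M) : d3 (Z.E hM) = 0 := by
  funext x y z w
  apply Subtype.ext
  funext n
  change Z.E' y z w 1 n - Z.E' x z w 1 n + Z.E' x y w 1 n - Z.E' x y z 1 n = 0
  simp only [ZZ.E']
  abel

end hs

end Run7.h333
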