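import Pool.Agent.Run7.h333.HS

/-! Second half of the zigzag. -/

set_option autoImplicit false
set_option linter.style.haveILetI false

namespace Run7.h333

section hs

variable {G Y Y' M : Type} [Group G] [MulAction G Y] [MulAction G Y'] [AddCommGroup M]
  [DistribMulAction G M]

/-- modification by a trivialisation of the obstruction -/
theorem ZZ.modify (hM : SmA G Y' M) (hctrl : Ctrl G Y Y') {α : G → G → G → G → M}
    (Z : ZZ Y Y' α) {Q : G → G → HomN G Y Y' M} (hQ : Sm2 Y' Q) (hQe : Eq2 ⊤ Q)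
    (hQd : Z.E hM = d2 Q) :
    ∃ Z' : ZZ Y Y' α, ∀ x y z, ∀ n ∈ kerN G Y', Z'.E' x y z 1 n = 0 := by
  obtain ⟨S₁, hS₁, hQS₁⟩ := hQ
  obtain ⟨T, hT, hTχ⟩ := common_level (G := G) (Y := Y) (hQS₁.finite hS₁)
    (fun χ S => ∀ a b : kerN G Y', Agr S (a : G) (b : G) → χ.1 a = χ.1 b)
    (fun a S T hST h u v huv => h u v (huv.mono hST)) (fun χ _ => χ.2.2)
  obtain ⟨ρ, -, hρ1, hρ2⟩ := exists_retraction (kerN G Y').subtype hT
  let γ : G → G → G → M := fun σ u v => (Q 1 σ).1 (ρ v) - (Q 1 σ).1 (ρ u)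
  have hγ1 : ∀ σ σ', Agr S₁ σ σ' → γ σ = γ σ' := by
    intro σ σ' h
    funext u v
    change (Q 1 σ).1 (ρ v) - (Q 1 σ).1 (ρ u) = (Q 1 σ').1 (ρ v) - (Q 1 σ').1 (ρ u)
    rw [hQS₁ _ _ _ _ (Agr.refl S₁ 1) h]
  have hχT : ∀ x y, ∀ a b : kerN G Y', Agr T (a : G) (b : G) → (Q x y).1 a = (Q x y).1 b :=
    fun x y => hTχ _ ⟨x, y, rfl⟩
  have hγT : ∀ σ, Lv2 T (γ σ) := by
    intro σ u u' v v' hu hv
    change (Q 1 σ).1 (ρ v) - (Q 1 σ).1 (ρ u) = (Q 1 σ).1 (ρ v') - (Q 1 σ).1 (ρ u')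
    rw [hχT _ _ _ _ (hρ2 _ _ hu), hχT _ _ _ _ (hρ2 _ _ hv)]
  have hρn : ∀ x y, ∀ (n : kerN G Y') u, (Q x y).1 (ρ ((n : G) * u)) = (Q x y).1 n + (Q x y).1 (ρ u) := by
    intro x y n u
    have e1 : (Q x y).1 (ρ ((n : G) * u)) = (Q x y).1 (n * ρ u) := hχT x y _ _ (hρ1 n u)
    rw [e1, (Q x y).2.1]
  have hγN : ∀ σ, Eq2 (kerN G Y') (γ σ) := by
    intro σ n hn u v
    rw [kerN_smul hM hn]
    change (Q 1 σ).1 (ρ (n * v)) - (Q 1 σ).1 (ρ (n * u)) = (Q 1 σ).1 (ρ v) - (Q 1 σ).1 (ρ u)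
    rw [hρn 1 σ ⟨n, hn⟩, hρn 1 σ ⟨n, hn⟩]
    abel
  let Q' : G → G → G → G → M := fun x y z w => x • γ (x⁻¹ * y) (x⁻¹ * z) (x⁻¹ * w)
  have hQ'x := fill2 hM hctrl hS₁ hγ1 hT hγT hγN
  have hQ'add : ∀ x y u v w, Q' x y u v + Q' x y v w = Q' x y u w := by
    intro x y u v w
    change x • γ _ _ _ + x • γ _ _ _ = x • γ _ _ _
    rw [← smul_add]
    congr 1
    change (Q 1 _).1 (ρ _) - (Q 1 _).1 (ρ _) + ((Q 1 _).1 (ρ _) - (Q 1 _).1 (ρ _)) =
      (Q 1 _).1 (ρ _) - (Q 1 _).1 (ρ _)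
    abel
  have hQ'n : ∀ x y, ∀ n : kerN G Y', Q' x y 1 n = (Q x y).1 n := by
    intro x y n
    change x • ((Q 1 (x⁻¹ * y)).1 (ρ (x⁻¹ * n)) - (Q 1 (x⁻¹ * y)).1 (ρ (x⁻¹ * 1))) = _
    have e1 : x⁻¹ * (n : G) = (cj x n : G) * x⁻¹ := by rw [cj_val]; group
    rw [e1, hρn, mul_one, add_sub_cancel_right]
    have e2 := hQe x (Subgroup.mem_top x) 1 (x⁻¹ * y)
    rw [mul_one, mul_inv_cancel_left] at e2
    rw [e2, HomN.smul_def]
  obtain ⟨S₂, hS₂, hCx⟩ := Z.Cx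
  obtain ⟨S₃, hS₃, hQ'x⟩ := hQ'x
  obtain ⟨T₂, hT₂, hCy⟩ := Z.Cy
  refine ⟨⟨Z.B, fun x y z w => Z.C x y z w - Q' x y z w, Z.Beq, Z.Bx, Z.By, Z.dB, ?_,
    ⟨S₂ ∪ S₃, hS₂.union hS₃, ?_⟩, ⟨T₂ ∪ T, hT₂.union hT, ?_⟩, ?_⟩, ?_⟩
  · intro g x y z w
    have e : Q' (g * x) (g * y) (g * z) (g * w) = g • Q' x y z w := by
      change (g * x) • γ ((g * x)⁻¹ * (g * y)) ((g * x)⁻¹ * (g * z)) ((g * x)⁻¹ * (g * w)) =
        g • x • γ (x⁻¹ * y) (x⁻¹ * z) (x⁻¹ * w)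
      rw [mul_smul]
      have e : ∀ y : G, (g * x)⁻¹ * (g * y) = x⁻¹ * y := by intro y; group
      rw [e, e, e]
    rw [Z.Ceq, e, smul_sub]
  · intro x x' y y' hx hy
    have e1 := hCx _ _ _ _ (hx.mono Set.subset_union_left) (hy.mono Set.subset_union_left)
    have e2 := hQ'x _ _ _ _ (hx.mono Set.subset_union_right) (hy.mono Set.subset_union_right)
    funext z w
    have e3 := congrFun (congrFun e2 z) w
    change Z.C x y z w - Q' x y z w = Z.C x' y' z w - Q' x' y' z w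
    rw [e1]
    congr 1
  · intro x y z z' w w' hz hw
    change Z.C x y z w - x • γ _ _ _ = Z.C x y z' w' - x • γ _ _ _
    rw [hCy x y _ _ _ _ (hz.mono Set.subset_union_left) (hw.mono Set.subset_union_left),
      hγT _ _ _ _ _ ((hz.mono Set.subset_union_right).mul_left _)
        ((hw.mono Set.subset_union_right).mul_left _)]
  · intro x y
    have e1 := Z.dC x y
    rw [← e1]
    funext u v w
    have e2 := hQ'add x y u v w
    change Z.C x y v w - Q' x y v w - (Z.C x y u w - Q' x y u w) + (Z.C x y u v - Q' x y u v) =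
      Z.C x y v w - Z.C x y u w + Z.C x y u v
    linear_combination (norm := abel) -e2
  · intro x y z n hn
    have e1 := congrArg (fun χ : HomN G Y Y' M => χ.1 ⟨n, hn⟩) (congrFun (congrFun (congrFun hQd x) y) z)
    have e2 := hQ'n y z ⟨n, hn⟩
    have e3 := hQ'n x z ⟨n, hn⟩
    have e4 := hQ'n x y ⟨n, hn⟩
    change Z.C y z 1 n - Z.C x z 1 n + Z.C x y 1 n =
      (Q y z).1 ⟨n, hn⟩ - (Q x z).1 ⟨n, hn⟩ + (Q x y).1 ⟨n, hn⟩ at e1
    change (Z.C y z 1 n - Q' y z 1 n) - (Z.C x z 1 n - Q' x z 1 n) + (Z.C x y 1 n - Q' x y 1 n) = 0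
    change Q' y z 1 n = _ at e2
    change Q' x z 1 n = _ at e3
    change Q' x y 1 n = _ at e4
    rw [e2, e3, e4]
    linear_combination (norm := abel) e1

/-- inflation when the obstruction vanishes -/
theorem ZZ.inflate₀ (hM : SmA G Y' M) (hctrl : Ctrl G Y Y') (hsub : Sub G Y Y')
    {α : G → G → G → G → M} (Z : ZZ Y Y' α) (h0 : ∀ x y z, ∀ n ∈ kerN G Y', Z.E' x y z 1 n = 0) :
    ∃ m : G → G → G → G → M, Sm4 Y' m ∧ Eq4 ⊤ m ∧ d4 m = 0 ∧
      ∃ ω : G → G → G → M, Sm3 Y ω ∧ Eq3 ⊤ ω ∧ α = m + d3 ω := by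
  obtain ⟨S₁, hS₁, hE'x⟩ := Z.E'_level
  obtain ⟨T, hT, hCy⟩ := Z.Cy
  obtain ⟨S₂, hS₂, hS₂'⟩ := hctrl T hT
  have hE'y : ∀ x y z, Lv2 T (Z.E' x y z) := by
    intro x y z u u' v v' hu hv
    simp only [ZZ.E']
    rw [hCy y z _ _ _ _ hu hv, hCy x z _ _ _ _ hu hv, hCy x y _ _ _ _ hu hv]
  let Θ : G → G → G → G → M := fun x y z w => Z.E' x y z x w
  have hΘd : ∀ x y z w w', Θ x y z w' = Θ x y z w + Z.E' x y z w w' :=
    fun x y z w w' => (Z.E'_add x y z x w w').symm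
  have hSS := hS₁.union hS₂
  have hΘx : ∀ x x' y y' z z' w, Agr (S₁ ∪ S₂) x x' → Agr (S₁ ∪ S₂) y y' → Agr (S₁ ∪ S₂) z z' →
      Θ x y z w = Θ x' y' z' w := by
    intro x x' y y' z z' w hx hy hz
    change Z.E' x y z x w = Z.E' x' y' z' x' w
    rw [hE'x x x' y y' z z' (hx.mono Set.subset_union_left) (hy.mono Set.subset_union_left)
      (hz.mono Set.subset_union_left)]
    have hu : Agr (S₁ ∪ S₂) (x⁻¹ * x') 1 := hx.one_of
    obtain ⟨n, hn, hun⟩ := hS₂' _ (hu.mono Set.subset_union_right)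
    have h1 : Agr T x' (x * n) := by
      have := hun.mul_left x
      rwa [mul_inv_cancel_left] at this
    have hyc := Z.E'_yc hM x' y' z'
    have h2 := hyc.add x x' w
    have h3 : Z.E' x' y' z' x x' = 0 := by
      rw [hE'y _ _ _ _ _ _ _ (Agr.refl T x) h1]
      have h4 : x * n * x⁻¹ ∈ kerN G Y' := by
        have := kerN_conj hn x⁻¹
        rwa [inv_inv] at this
      have h5 := hyc.conj h4 x
      rw [h0 _ _ _ _ h4, inv_mul_cancel_right] at h5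
      exact h5
    rw [← h2, h3, zero_add]
  have hΘy : ∀ x y z w w', Agr T w w' → Θ x y z w = Θ x y z w' := by
    intro x y z w w' hw
    exact hE'y _ _ _ _ _ _ _ (Agr.refl T x) hw
  have hΘe : ∀ g x y z w, Θ (g * x) (g * y) (g * z) (g * w) = g • Θ x y z w :=
    fun g x y z w => Z.E'_eq g x y z x w
  have hE'dx : ∀ x y z w u v, Z.E' y z w u v - Z.E' x z w u v + Z.E' x y w u v - Z.E' x y z u v = 0 := by
    intro x y z w u v
    simp only [ZZ.E']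
    abel
  let m : G → G → G → G → M := fun x y z w => d3 (fun x y z => Θ x y z 1) x y z w
  have hm : ∀ v : G, m = d3 (fun x y z => Θ x y z v) := by
    intro v
    funext x y z w
    have e1 := hE'dx x y z w 1 v
    change Θ y z w 1 - Θ x z w 1 + Θ x y w 1 - Θ x y z 1 = Θ y z w v - Θ x z w v + Θ x y w v - Θ x y z v
    rw [hΘd y z w 1 v, hΘd x z w 1 v, hΘd x y w 1 v, hΘd x y z 1 v]
    linear_combination (norm := abel) -e1
  obtain ⟨SB, hSB, hBx⟩ := Z.Bx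
  obtain ⟨TB, hTB, hBy⟩ := Z.By
  obtain ⟨SC, hSC, hCx⟩ := Z.Cx
  refine ⟨m, ⟨S₁ ∪ S₂, hSS, ?_⟩, ?_, ?_, fun x y z => Z.B x x y z + Z.C x y y z - Θ x y z z, ?_, ?_, ?_⟩
  · intro x x' y y' z z' w w' hx hy hz hw
    change Θ y z w 1 - Θ x z w 1 + Θ x y w 1 - Θ x y z 1 =
      Θ y' z' w' 1 - Θ x' z' w' 1 + Θ x' y' w' 1 - Θ x' y' z' 1
    rw [hΘx _ _ _ _ _ _ _ hy hz hw, hΘx _ _ _ _ _ _ _ hx hz hw, hΘx _ _ _ _ _ _ _ hx hy hw,
      hΘx _ _ _ _ _ _ _ hx hy hz]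
  · intro g _ x y z w
    have e1 : m (g * x) (g * y) (g * z) (g * w) = d3 (fun x y z => Θ x y z (g * 1)) (g * x) (g * y)
      (g * z) (g * w) := by rw [hm (g * 1)]
    rw [e1]
    simp only [d3]
    rw [hΘe, hΘe, hΘe, hΘe, ← smul_sub, ← smul_add, ← smul_sub]
    rfl
  · rw [hm 1]
    exact d4_d3 _
  · obtain ⟨R, hR, hR'⟩ := hsub ((S₁ ∪ S₂) ∪ (SB ∪ SC)) (hSS.union (hSB.union hSC))
    refine ⟨(R ∪ T) ∪ TB, (hR.union hT).union hTB, ?_⟩
    intro x x' y y' z z' hx hy hz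
    have gx := hR' _ _ (hx.mono (Set.subset_union_left.trans Set.subset_union_left))
    have gy := hR' _ _ (hy.mono (Set.subset_union_left.trans Set.subset_union_left))
    have gz := hR' _ _ (hz.mono (Set.subset_union_left.trans Set.subset_union_left))
    have tx := hx.mono (Set.subset_union_right.trans Set.subset_union_left)
    have ty := hy.mono (Set.subset_union_right.trans Set.subset_union_left)
    have tz := hz.mono (Set.subset_union_right.trans Set.subset_union_left)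
    have bx := hx.mono (Set.subset_union_right)
    have bby := hy.mono (Set.subset_union_right)
    have bz := hz.mono (Set.subset_union_right)
    change Z.B x x y z + Z.C x y y z - Θ x y z z = Z.B x' x' y' z' + Z.C x' y' y' z' - Θ x' y' z' z'
    have e1 : Z.B x x y z = Z.B x' x' y' z' := by
      rw [hBx x x' (gx.mono (Set.subset_union_left.trans Set.subset_union_right))]
      exact hBy x' _ _ _ _ _ _ bx bby bz
    have e2 : Z.C x y y z = Z.C x' y' y' z' := by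
      rw [hCx x x' y y' (gx.mono (Set.subset_union_right.trans Set.subset_union_right))
        (gy.mono (Set.subset_union_right.trans Set.subset_union_right))]
      exact hCy x' y' _ _ _ _ ty tz
    have e3 : Θ x y z z = Θ x' y' z' z' := by
      rw [hΘx x x' y y' z z' z (gx.mono Set.subset_union_left) (gy.mono Set.subset_union_left)
        (gz.mono Set.subset_union_left)]
      exact hΘy _ _ _ _ _ tz
    rw [e1, e2, e3]
  · intro g _ x y z
    change Z.B (g * x) (g * x) (g * y) (g * z) + Z.C (g * x) (g * y) (g * y) (g * z) -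
      Θ (g * x) (g * y) (g * z) (g * z) = g • (Z.B x x y z + Z.C x y y z - Θ x y z z)
    rw [Z.Beq, Z.Ceq, hΘe, smul_sub, smul_add]
  · funext x y z w
    have e1 := congrFun (congrFun (congrFun (congrFun (Z.dB x) x) y) z) w
    have e2 := congrFun (congrFun (congrFun (Z.dC x y) y) z) w
    have e3 : Z.E' x y z z w = Θ x y z w - Θ x y z z := by rw [hΘd x y z z w]; abel
    have e4 := congrFun (congrFun (congrFun (congrFun (hm w) x) y) z) w
    simp only [d3, d2, ZZ.E', Pi.sub_apply, Pi.add_apply] at e1 e2 e3 e4 ⊢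
    rw [e4]
    linear_combination (norm := abel) -e1 + e2 - e3

/-- inflation from a trivialisation of the obstruction -/
theorem ZZ.inflate (hM : SmA G Y' M) (hctrl : Ctrl G Y Y') (hsub : Sub G Y Y')
    {α : G → G → G → G → M} (Z : ZZ Y Y' α) {Q : G → G → HomN G Y Y' M} (hQ : Sm2 Y' Q)
    (hQe : Eq2 ⊤ Q) (hQd : Z.E hM = d2 Q) :
    ∃ m : G → G → G → G → M, Sm4 Y' m ∧ Eq4 ⊤ m ∧ d4 m = 0 ∧
      ∃ ω : G → G → G → M, Sm3 Y ω ∧ Eq3 ⊤ ω ∧ α = m + d3 ω := by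
  obtain ⟨Z', hZ'⟩ := Z.modify hM hctrl hQ hQe hQd
  exact Z'.inflate₀ hM hctrl hsub hZ'

end hs

end Run7.h333
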