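import Pool.Agent.TH952.Hahn

/-! The field of Hahn series with rational exponents over an algebraically closed field of any
characteristic is algebraically closed. -/

set_option autoImplicit false
set_option linter.style.haveILetI false

namespace Run7.h333

open Polynomial Pool.Agent.TH952

section

variable {K : Type} [Field K]

lemma hn_le_iff (x : Hah K) (r : ℚ) : hn x ≤ Real.exp (-(r : ℝ)) ↔ ∀ q < r, x.coeff q = 0 := by
  by_cases hx : x = 0
  · subst hx
    rw [hn_zero]
    simp [(Real.exp_pos _).le]
  rw [hn_of_ne hx, Real.exp_le_exp, neg_le_neg_iff]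
  constructor
  · intro h q hq
    have h1 : r ≤ x.order := by exact_mod_cast h
    exact HahnSeries.coeff_eq_zero_of_lt_order (lt_of_lt_of_le hq h1)
  · intro h
    by_contra hcon
    have h1 : x.order < r := by exact_mod_cast not_le.1 hcon
    exact HahnSeries.coeff_order_eq_zero.not.2 hx (h _ h1)

lemma hn_sub_C_lt {x : Hah K} (hx : hn x ≤ 1) : hn (x - HahnSeries.C (x.coeff 0)) < 1 := by
  have h0 := (hn_lt_iff (x - HahnSeries.C (x.coeff 0)) 0).2 (by
    intro q hq
    rw [HahnSeries.coeff_sub]
    rcases hq.lt_or_eq with h | h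
    · rw [HahnSeries.C_apply, HahnSeries.coeff_single_of_ne h.ne, sub_zero]
      by_cases hx0 : x = 0
      · subst hx0; simp
      rw [hn_of_ne hx0, Real.exp_le_one_iff] at hx
      have h4 : (0 : ℝ) ≤ (x.order : ℝ) := by linarith
      have h5 : (0 : ℚ) ≤ x.order := by exact_mod_cast h4
      exact HahnSeries.coeff_eq_zero_of_lt_order (lt_of_lt_of_le h h5)
    · subst h
      rw [HahnSeries.C_apply, HahnSeries.coeff_single_same, sub_self])
  simpa using h0

lemma sum_lt_one' {Ω : Type} [NontriviallyNormedField Ω] [IsUltrametricDist Ω]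
    {ι : Type} (s : Finset ι) (f : ι → Ω) (h : ∀ i ∈ s, ‖f i‖ < 1) :
    ‖∑ i ∈ s, f i‖ < 1 := by
  classical
  induction s using Finset.induction_on with
  | empty => simp
  | insert a s ha ih =>
    rw [Finset.sum_insert ha]
    exact lt_of_le_of_lt (IsUltrametricDist.norm_add_le_max _ _)
      (max_lt (h a (Finset.mem_insert_self _ _)) (ih fun i hi => h i (Finset.mem_insert_of_mem hi)))

variable [IsAlgClosed K]

instance hah_isAlgClosed : IsAlgClosed (Hah K) := by
  letI := hNNF K
  haveI : IsUltrametricDist (Hah K) := h_ultra (K := K)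
  haveI : CompleteSpace (Hah K) := h_complete (K := K)
  let L := AlgebraicClosure (Hah K)
  have hnorm : ∀ x : Hah K, ‖x‖ = hn x := fun _ => rfl
  let s : L → ℝ := spectralNorm (Hah K) L
  have hs_add : ∀ x y : L, s (x + y) ≤ max (s x) (s y) := fun x y => isNonarchimedean_spectralNorm x y
  have hs_alg : ∀ a : Hah K, s (algebraMap (Hah K) L a) = ‖a‖ := fun a => spectralNorm_extends a
  have hs_pow : ∀ γ : L, s γ = ‖(minpoly (Hah K) γ).coeff 0‖ ^ (1 / ((minpoly (Hah K) γ).natDegree : ℝ)) := by
    intro γ
    exact spectralNorm.spectralNorm_eq_norm_coeff_zero_rpow (Hah K) L γ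
  -- values of the spectral norm
  have hval : ∀ γ : L, γ ≠ 0 → ∃ t : Hah K, t ≠ 0 ∧ ∃ q : ℚ, t = HahnSeries.single q 1 ∧ s γ = ‖t‖ := by
    intro γ hγ
    have hint : IsIntegral (Hah K) γ := Algebra.IsIntegral.isIntegral γ
    have hn0 := minpoly.natDegree_pos hint
    have ha0 : (minpoly (Hah K) γ).coeff 0 ≠ 0 := minpoly.coeff_zero_ne_zero hint hγ
    set n := (minpoly (Hah K) γ).natDegree
    set q : ℚ := ((minpoly (Hah K) γ).coeff 0).order / n with hq
    refine ⟨HahnSeries.single q 1, by simp, q, rfl, ?_⟩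
    have ht : ‖(HahnSeries.single q 1 : Hah K)‖ ^ n = ‖(minpoly (Hah K) γ).coeff 0‖ := by
      rw [hnorm, hnorm, hn_single one_ne_zero, hn_of_ne ha0, ← Real.exp_nat_mul]
      congr 1
      have : (n : ℝ) ≠ 0 := by exact_mod_cast hn0.ne'
      rw [hq]
      push_cast
      field_simp
    rw [hs_pow, ← ht, one_div, Real.pow_rpow_inv_natCast (norm_nonneg _) hn0.ne']
  -- the improvement step
  have hstep : ∀ u : L, s u = 1 → ∃ c : K, s (u - algebraMap (Hah K) L (HahnSeries.C c)) < 1 := by
    intro γ hsγ
    have hint : IsIntegral (Hah K) γ := Algebra.IsIntegral.isIntegral γ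
    set p := minpoly (Hah K) γ with hp
    have hpm : p.Monic := minpoly.monic hint
    have hN : 0 < p.natDegree := minpoly.natDegree_pos hint
    have hcoef : ∀ i, ‖p.coeff i‖ ≤ 1 := (spectralValue_le_one_iff hpm).1 hsγ.le
    set r : K[X] := ∑ i ∈ Finset.range (p.natDegree + 1), monomial i ((p.coeff i).coeff 0) with hr
    have hrc : r.coeff p.natDegree = 1 := by
      rw [hr, finsetSum_coeff, Finset.sum_eq_single p.natDegree]
      · rw [coeff_monomial, if_pos rfl, hpm.coeff_natDegree]
        simp
      · intro b _ hb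
        rw [coeff_monomial, if_neg hb]
      · intro h
        exact absurd (Finset.mem_range.2 (Nat.lt_succ_self _)) h
    have hrd : r.degree ≠ 0 := by
      intro h
      have h4 : r.coeff p.natDegree = 0 := coeff_eq_zero_of_degree_lt (by rw [h]; exact_mod_cast hN)
      rw [hrc] at h4
      exact one_ne_zero h4
    obtain ⟨a, ha⟩ := IsAlgClosed.exists_root r hrd
    have ha' : ∑ i ∈ Finset.range (p.natDegree + 1), (p.coeff i).coeff 0 * a ^ i = 0 := by
      rw [IsRoot, hr, eval_finsetSum] at ha
      simpa [eval_monomial] using ha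
    have heval : ‖p.eval (HahnSeries.C a : Hah K)‖ < 1 := by
      have h5 : p.eval (HahnSeries.C a : Hah K) = ∑ i ∈ Finset.range (p.natDegree + 1),
          (p.coeff i - HahnSeries.C ((p.coeff i).coeff 0)) * (HahnSeries.C a : Hah K) ^ i := by
        rw [eval_eq_sum_range]
        have h6 := congrArg (HahnSeries.C : K →+* Hah K) ha'
        rw [map_sum, map_zero] at h6
        rw [← sub_zero (∑ i ∈ Finset.range (p.natDegree + 1), p.coeff i * (HahnSeries.C a : Hah K) ^ i), ← h6,
          ← Finset.sum_sub_distrib]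
        refine Finset.sum_congr rfl fun i _ => ?_
        rw [map_mul, map_pow]; ring
      rw [h5]
      refine sum_lt_one' _ _ fun i _ => ?_
      rw [norm_mul, norm_pow]
      have h7 : ‖p.coeff i - HahnSeries.C ((p.coeff i).coeff 0)‖ < 1 := hn_sub_C_lt (hcoef i)
      have h8 : ‖(HahnSeries.C a : Hah K)‖ ^ i ≤ 1 := by
        refine pow_le_one₀ (norm_nonneg _) ?_
        by_cases ha0 : a = 0
        · subst ha0; simp
        · exact (hn_C ha0).le
      have h9 := norm_nonneg (p.coeff i - HahnSeries.C ((p.coeff i).coeff 0))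
      have h10 : 0 ≤ ‖(HahnSeries.C a : Hah K)‖ ^ i := pow_nonneg (norm_nonneg _) _
      nlinarith
    refine ⟨a, ?_⟩
    set γ' := γ - algebraMap (Hah K) L (HahnSeries.C a) with hγ'
    have hmin : minpoly (Hah K) γ' = p.comp (X + C (HahnSeries.C a)) := by
      rw [hγ', minpoly.sub_algebraMap]
    have hdeg : (minpoly (Hah K) γ').natDegree = p.natDegree := by
      rw [hmin, natDegree_comp, natDegree_X_add_C, mul_one]
    have hc0' : (minpoly (Hah K) γ').coeff 0 = p.eval (HahnSeries.C a) := by
      rw [hmin, coeff_zero_eq_eval_zero, eval_comp]; simp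
    rw [hs_pow, hc0', hdeg]
    exact Real.rpow_lt_one (norm_nonneg _) heval (by positivity)
  have hs_mul : ∀ (a : Hah K) (x : L), s (algebraMap (Hah K) L a * x) = ‖a‖ * s x := by
    intro a x
    have := spectralNorm_smul (K := Hah K) (L := L) a (Algebra.IsAlgebraic.isAlgebraic x)
    rw [Algebra.smul_def] at this
    exact this
  have hs_neg : ∀ x : L, s (-x) = s x := by
    intro x
    have := hs_mul (-1) x
    rw [map_neg, map_one, neg_one_mul, norm_neg, norm_one, one_mul] at this
    exact this
  -- main claim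
  have main : ∀ θ : L, ∃ a : Hah K, algebraMap (Hah K) L a = θ := by
    intro θ
    by_contra hcon
    push Not at hcon
    have hne : ∀ a : Hah K, θ - algebraMap (Hah K) L a ≠ 0 := fun a h => hcon a (sub_eq_zero.1 h).symm
    have hv : ∀ a : Hah K, ∃ q : ℚ, s (θ - algebraMap (Hah K) L a) = Real.exp (-(q : ℝ)) := by
      intro a
      obtain ⟨t, -, q, rfl, h⟩ := hval _ (hne a)
      refine ⟨q, ?_⟩
      rw [h, hnorm, hn_single one_ne_zero]
    choose Q hQ using hv
    have hcmp : ∀ a b : Hah K, ∀ q : ℚ, q < Q a → q < Q b → a.coeff q = b.coeff q := by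
      intro a b q ha hb
      have h1 : ‖a - b‖ ≤ Real.exp (-((min (Q a) (Q b) : ℚ) : ℝ)) := by
        rw [← hs_alg]
        have h2 : algebraMap (Hah K) L (a - b) = -(θ - algebraMap (Hah K) L a) + (θ - algebraMap (Hah K) L b) := by
          rw [map_sub]; ring
        rw [h2]
        refine (hs_add _ _).trans ?_
        rw [hs_neg, hQ, hQ]
        refine max_le (Real.exp_le_exp.2 (neg_le_neg ?_)) (Real.exp_le_exp.2 (neg_le_neg ?_))
        · exact_mod_cast min_le_left _ _
        · exact_mod_cast min_le_right _ _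
      have h3 := (hn_le_iff (a - b) _).1 h1 q (lt_min ha hb)
      rw [HahnSeries.coeff_sub] at h3
      exact sub_eq_zero.1 h3
    classical
    let cf : ℚ → K := fun q => if h : ∃ a : Hah K, q < Q a then (h.choose).coeff q else 0
    have hcf : ∀ a : Hah K, ∀ q : ℚ, q < Q a → cf q = a.coeff q := by
      intro a q hq
      have h : ∃ a : Hah K, q < Q a := ⟨a, hq⟩
      change (if h : ∃ a : Hah K, q < Q a then (h.choose).coeff q else 0) = _
      rw [dif_pos h]
      exact hcmp _ _ q h.choose_spec hq
    have hpwo : (Function.support cf).IsPWO := by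
      rw [Set.isPWO_iff_isWF, Set.isWF_iff_no_descending_seq]
      intro f hf hmem
      have h0 : ∃ a : Hah K, f 0 < Q a := by
        by_contra hc
        have := hmem 0
        rw [Function.mem_support] at this
        exact this (dif_neg hc)
      obtain ⟨a, ha⟩ := h0
      have h1 : ∀ n, f n ∈ Function.support a.coeff := by
        intro n
        have h2 : f n < Q a := lt_of_le_of_lt (hf.antitone (Nat.zero_le n)) ha
        have h3 := hmem n
        rw [Function.mem_support] at h3 ⊢
        rwa [← hcf a _ h2]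
      have h5 : a.support.IsWF := a.isPWO_support.isWF
      rw [Set.isWF_iff_no_descending_seq] at h5
      exact h5 f hf h1
    let A : Hah K := ⟨cf, hpwo⟩
    have hA : ∀ a : Hah K, ‖A - a‖ ≤ Real.exp (-(Q a : ℝ)) := by
      intro a
      refine (hn_le_iff (A - a) _).2 ?_
      intro q hq
      rw [HahnSeries.coeff_sub]
      exact sub_eq_zero.2 (hcf a q hq)
    -- contradiction
    obtain ⟨t, ht0, q, htq, ht⟩ := hval _ (hne A)
    have hu : s (algebraMap (Hah K) L t⁻¹ * (θ - algebraMap (Hah K) L A)) = 1 := by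
      rw [hs_mul, ht, norm_inv, inv_mul_cancel₀ (norm_ne_zero_iff.2 ht0)]
    obtain ⟨c, hc⟩ := hstep _ hu
    have h1 : s (θ - algebraMap (Hah K) L (A + t * HahnSeries.C c)) < s (θ - algebraMap (Hah K) L A) := by
      have h2 : θ - algebraMap (Hah K) L (A + t * HahnSeries.C c) =
          algebraMap (Hah K) L t * (algebraMap (Hah K) L t⁻¹ * (θ - algebraMap (Hah K) L A) -
            algebraMap (Hah K) L (HahnSeries.C c)) := by
        have h3 : algebraMap (Hah K) L t * algebraMap (Hah K) L t⁻¹ = 1 := by
          rw [← map_mul, mul_inv_cancel₀ ht0, map_one]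
        rw [map_add, map_mul]
        linear_combination (-(θ - algebraMap (Hah K) L A)) * h3
      rw [h2, hs_mul, ht]
      have h4 : 0 < ‖t‖ := norm_pos_iff.2 ht0
      nlinarith
    have h5 : s (θ - algebraMap (Hah K) L A) ≤ s (θ - algebraMap (Hah K) L (A + t * HahnSeries.C c)) := by
      have h6 : θ - algebraMap (Hah K) L A = (θ - algebraMap (Hah K) L (A + t * HahnSeries.C c)) +
          -(algebraMap (Hah K) L (A - (A + t * HahnSeries.C c))) := by
        rw [map_sub]; ring
      rw [h6]
      refine (hs_add _ _).trans (max_le le_rfl ?_)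
      rw [hs_neg, hs_alg, hQ]
      exact hA _
    exact absurd h1 (not_lt.2 h5)
  refine IsAlgClosed.of_exists_root (Hah K) fun p hpm hpi => ?_
  obtain ⟨α, hα⟩ := IsAlgClosed.exists_aeval_eq_zero L p hpi.degree_pos.ne'
  obtain ⟨a, rfl⟩ := main α
  refine ⟨a, ?_⟩
  rw [aeval_algebraMap_apply, map_eq_zero] at hα
  simpa using hα

end

end Run7.h333
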