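import Pool.Agent.Run7.h333.T4
import Pool.Agent.H552R3.Tsen.C1

/-! Fields of type `C1` and surjectivity of norms. -/

set_option autoImplicit false
set_option linter.style.haveILetI false

namespace Run7.h333

open MvPolynomial

/-- the property `C1` -/
def IsC1 (L : Type) [Field L] : Prop :=
  ∀ (n : ℕ) (Ψ : MvPolynomial (Fin (n + 1)) L), Ψ.totalDegree ≤ n → eval 0 Ψ = 0 →
    ∃ a : Fin (n + 1) → L, a ≠ 0 ∧ eval a Ψ = 0

/-- the property `C1` can be checked on subfields containing the coefficients -/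
theorem isC1_of_local {E : Type} [Field E]
    (h : ∀ T : Finset E, ∃ (L : Type) (_ : Field L) (ι : L →+* E), (∀ t ∈ T, t ∈ Set.range ι) ∧ IsC1 L) :
    IsC1 E := by
  intro n Ψ hd h0
  obtain ⟨L, _, ι, hT, hL⟩ := h Ψ.coeffs
  obtain ⟨Ψ', rfl⟩ := mem_range_map_iff_coeffs_subset.2 (fun t ht => hT t ht)
  have hd' : Ψ'.totalDegree ≤ n := by
    rw [totalDegree, support_map_of_injective _ ι.injective] at hd
    exact hd
  have hev : ∀ a : Fin (n + 1) → L, eval (fun i => ι (a i)) (map ι Ψ') = ι (eval a Ψ') := by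
    intro a
    rw [eval_map, eval₂_comp]
    rfl
  obtain ⟨a, ha, ha'⟩ := hL n Ψ' hd' (by
    apply ι.injective
    rw [map_zero, ← hev]
    have h1 : (fun i => ι ((0 : Fin (n + 1) → L) i)) = 0 := by funext i; simp
    rw [h1, h0])
  refine ⟨fun i => ι (a i), fun h1 => ha ?_, by rw [hev, ha', map_zero]⟩
  funext i
  apply ι.injective
  rw [Pi.zero_apply, map_zero]
  exact congrFun h1 i

/-- finite fields are `C1` -/
theorem isC1_finite (L : Type) [Field L] [Finite L] : IsC1 L := by
  classical
  intro n Ψ hd h0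
  letI := Fintype.ofFinite L
  obtain ⟨p, hp⟩ := CharP.exists L
  have hdvd := char_dvd_card_solutions p (f := Ψ) (by rw [Fintype.card_fin]; omega)
  by_contra hcon
  push Not at hcon
  have hcard : Fintype.card { x : Fin (n + 1) → L // eval x Ψ = 0 } = 1 := by
    rw [Fintype.card_eq_one_iff]
    refine ⟨⟨0, h0⟩, ?_⟩
    rintro ⟨y, hy⟩
    apply Subtype.ext
    by_contra hy0
    exact hcon y hy0 hy
  rw [hcard] at hdvd
  have hp1 : p = 1 := Nat.dvd_one.1 hdvd
  exact CharP.char_ne_one L p hp1

/-- algebraic extensions of finite fields are `C1` -/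
theorem isC1_alg_finite (F E : Type) [Field F] [Finite F] [Field E] [Algebra F E]
    [Algebra.IsAlgebraic F E] : IsC1 E := by
  refine isC1_of_local fun T => ?_
  let L := IntermediateField.adjoin F (T : Set E)
  haveI : FiniteDimensional F L := by
    refine IntermediateField.finiteDimensional_adjoin fun x _ => ?_
    exact Algebra.IsIntegral.isIntegral x
  haveI : Finite L := Module.finite_of_finite F
  exact ⟨L, inferInstance, algebraMap L E, fun t ht => ⟨⟨t, IntermediateField.subset_adjoin F _ ht⟩, rfl⟩,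
    isC1_finite L⟩

/-- algebraic extensions of `k(x)` are `C1` when `k` is algebraically closed -/
theorem isC1_tr1 {k E : Type} [Field k] [IsAlgClosed k] [Field E] [Algebra k E] (x : E)
    (hx : Transcendental k x) (halg : ∀ e : E, IsAlgebraic (IntermediateField.adjoin k {x}) e) :
    IsC1 E := by
  refine isC1_of_local fun T => ?_
  let E₁ := IntermediateField.adjoin k {x}
  let L := IntermediateField.adjoin E₁ (T : Set E)
  haveI : FiniteDimensional E₁ L := by
    refine IntermediateField.finiteDimensional_adjoin fun y _ => ?_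
    exact (halg y).isIntegral
  let xE : E₁ := IntermediateField.AdjoinSimple.gen k x
  have hxE : Transcendental k xE := by
    have h1 : algebraMap E₁ E xE = x := rfl
    rw [← transcendental_algebraMap_iff (A := E) (algebraMap E₁ E).injective, h1]
    exact hx
  have hE : ∀ c : E₁, ∃ p q : Polynomial k, Polynomial.aeval xE q ≠ 0 ∧
      c * Polynomial.aeval xE q = Polynomial.aeval xE p := by
    intro c
    obtain ⟨p, q, h1⟩ := (IntermediateField.mem_adjoin_simple_iff k (c : E)).1 c.2
    have h3 : ∀ p : Polynomial k, ((Polynomial.aeval xE p : E₁) : E) = Polynomial.aeval x p := by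
      intro p
      exact (Polynomial.aeval_algebraMap_apply E xE p).symm
    by_cases hq : Polynomial.aeval x q = 0
    · refine ⟨0, 1, by simp, ?_⟩
      rw [hq, div_zero] at h1
      have : c = 0 := Subtype.ext h1
      rw [this, zero_mul, map_zero]
    · refine ⟨p, q, ?_, ?_⟩
      · intro h2
        apply hq
        rw [← h3, h2]
        rfl
      · apply Subtype.ext
        rw [MulMemClass.coe_mul, h3, h3, h1, div_mul_cancel₀ _ hq]
  have hcd : ∀ {J : Type} [Fintype J] (c : J → E₁), ∃ h : Polynomial k,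
      Polynomial.aeval xE h ≠ 0 ∧ ∃ p : J → Polynomial k, ∀ j,
        Polynomial.aeval xE h * c j = Polynomial.aeval xE (p j) := by
    classical
    intro J _ c
    choose p q hq hpq using fun j => hE (c j)
    refine ⟨∏ j, q j, ?_, fun j => p j * ∏ i ∈ Finset.univ.erase j, q i, ?_⟩
    · rw [map_prod]
      exact Finset.prod_ne_zero_iff.2 fun j _ => hq j
    · intro j
      rw [map_mul, ← hpq j, ← Finset.mul_prod_erase Finset.univ q (Finset.mem_univ j), map_mul]
      ring
  have hX : Transcendental k (algebraMap E₁ L xE) := by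
    rwa [transcendental_algebraMap_iff (algebraMap E₁ L).injective]
  haveI : Module.Free E₁ L := Module.Free.of_divisionRing E₁ L
  let ω := Module.finBasis E₁ L
  have hspan : ∀ z : L, ∃ h : Polynomial k, h ≠ 0 ∧ ∃ p : Fin (Module.finrank E₁ L) → Polynomial k,
      Polynomial.aeval (algebraMap E₁ L xE) h * z =
        ∑ j, Polynomial.aeval (algebraMap E₁ L xE) (p j) * ω j := by
    intro z
    obtain ⟨h, hh, p, hp⟩ := hcd (fun j => ω.repr z j)
    refine ⟨h, ?_, p, ?_⟩
    · rintro rfl
      exact hh (map_zero _)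
    · conv_lhs => rw [← ω.sum_repr z]
      rw [Finset.mul_sum]
      refine Finset.sum_congr rfl fun j _ => ?_
      rw [Polynomial.aeval_algebraMap_apply, Polynomial.aeval_algebraMap_apply, ← hp, map_mul,
        Algebra.smul_def, mul_assoc]
  have hlin : ∀ p : Fin (Module.finrank E₁ L) → Polynomial k,
      ∑ j, Polynomial.aeval (algebraMap E₁ L xE) (p j) * ω j = 0 → ∀ j, p j = 0 := by
    intro p hp j
    have h1 : ∑ j, (Polynomial.aeval xE (p j)) • ω j = 0 := by
      rw [← hp]
      refine Finset.sum_congr rfl fun j _ => ?_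
      rw [Polynomial.aeval_algebraMap_apply, Algebra.smul_def]
    have h2 := (Fintype.linearIndependent_iff.1 ω.linearIndependent) _ h1 j
    by_contra h0
    exact hxE ⟨p j, h0, h2⟩
  refine ⟨L, inferInstance, algebraMap L E,
    fun t ht => ⟨⟨t, IntermediateField.subset_adjoin E₁ _ ht⟩, rfl⟩, ?_⟩
  intro n Ψ h1 h2
  refine Pool.Agent.H552R3.Tsen.exists_zero (algebraMap E₁ L xE) ω hX hspan hlin Ψ n h1 h2 ?_
  rw [Fintype.card_fin]
  exact Nat.lt_succ_self n

section norm

variable {P Ω : Type} [Group P] [Field Ω] [MulSemiringAction P Ω]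

/-- reindexing of sums over cosets -/
lemma sum_coset {S : Set Ω} [Fintype (P ⧸ (stN S : Subgroup P))] (F : P → Ω)
    (hF : ∀ x, ∀ n ∈ (stN S : Subgroup P), F (x * n) = F x) (g : P) :
    ∑ c : P ⧸ (stN S : Subgroup P), F (g * Quotient.out c) =
      ∑ c : P ⧸ (stN S : Subgroup P), F (Quotient.out c) := by
  refine Fintype.sum_equiv (MulAction.toPerm g) _ _ fun c => ?_
  obtain ⟨n, hn⟩ := QuotientGroup.mk_out_eq_mul (stN S : Subgroup P) (g * Quotient.out c)
  have hc : (MulAction.toPerm g c : P ⧸ (stN S : Subgroup P)) = QuotientGroup.mk (g * Quotient.out c) := by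
    change g • c = _
    conv_lhs => rw [← QuotientGroup.out_eq' c]
    rfl
  rw [hc, hn, hF _ _ n.2]

/-- elements fixed by an open subgroup but not by a given element outside -/
theorem exists_theta {S : Set Ω} (hS : Stb P S) {D : Subgroup P} (hD : (stN S : Subgroup P) ≤ D)
    {τ : P} (hτ : τ ∉ D) : ∃ θ : Ω, (∀ u ∈ D, u • θ = θ) ∧ τ • θ ≠ θ := by
  classical
  haveI := stN_finite (P := P) hS
  letI := Fintype.ofFinite (P ⧸ (stN S : Subgroup P))
  have hmemD : ∀ x : P, ∀ n ∈ (stN S : Subgroup P), (x * n ∈ D ↔ x ∈ D) := by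
    intro x n hn
    constructor
    · intro h
      have := D.mul_mem h (D.inv_mem (hD hn))
      rwa [mul_inv_cancel_right] at this
    · intro h
      exact D.mul_mem h (hD hn)
  let T : Ω → Ω := fun v => ∑ c : P ⧸ (stN S : Subgroup P),
    if (Quotient.out c : P) ∈ D then (Quotient.out c : P) • v else 0
  have hT : ∀ v : Ω, (∀ n ∈ (stN S : Subgroup P), n • v = v) → ∀ g : P, g • T v =
      ∑ c : P ⧸ (stN S : Subgroup P),
        if g⁻¹ * (Quotient.out c : P) ∈ D then (Quotient.out c : P) • v else 0 := by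
    intro v hv g
    have h1 := sum_coset (S := S) (fun x => if g⁻¹ * x ∈ D then x • v else 0) (by
      intro x n hn
      have h2 : (g⁻¹ * (x * n) ∈ D) ↔ g⁻¹ * x ∈ D := by
        rw [← mul_assoc]; exact hmemD _ _ hn
      by_cases h3 : g⁻¹ * x ∈ D
      · rw [if_pos h3, if_pos (h2.2 h3), mul_smul, hv n hn]
      · rw [if_neg h3, if_neg (fun h => h3 (h2.1 h))]) g
    rw [← h1]
    change g • ∑ c : P ⧸ (stN S : Subgroup P), _ = _
    rw [Finset.smul_sum]
    refine Finset.sum_congr rfl fun c _ => ?_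
    rw [inv_mul_cancel_left]
    split_ifs
    · rw [mul_smul]
    · rw [smul_zero]
  have hTD : ∀ v : Ω, (∀ n ∈ (stN S : Subgroup P), n • v = v) → ∀ u ∈ D, u • T v = T v := by
    intro v hv u hu
    rw [hT v hv u]
    refine Finset.sum_congr rfl fun c _ => ?_
    have h2 : (u⁻¹ * (Quotient.out c : P) ∈ D) ↔ (Quotient.out c : P) ∈ D := by
      constructor
      · intro h
        have := D.mul_mem hu h
        rwa [mul_inv_cancel_left] at this
      · intro h
        exact D.mul_mem (D.inv_mem hu) h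
    by_cases h3 : (Quotient.out c : P) ∈ D
    · rw [if_pos h3, if_pos (h2.2 h3)]
    · rw [if_neg h3, if_neg (fun h => h3 (h2.1 h))]
  by_contra hcon
  push Not at hcon
  have hz : ∀ v : Ω, (∀ n ∈ (stN S : Subgroup P), n • v = v) → τ • T v = T v := fun v hv =>
    hcon _ (hTD v hv)
  have h0 := dedekind (S := S) (fun c => (if τ⁻¹ * (Quotient.out c : P) ∈ D then (1 : Ω) else 0) -
    (if (Quotient.out c : P) ∈ D then 1 else 0)) (by
      intro v hv
      have h1 := hz v hv
      rw [hT v hv τ, ← sub_eq_zero] at h1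
      refine Eq.trans ?_ h1
      change _ = _ - ∑ c : P ⧸ (stN S : Subgroup P), _
      rw [← Finset.sum_sub_distrib]
      refine Finset.sum_congr rfl fun c _ => ?_
      split_ifs <;> simp)
  have h1 := congrFun h0 (QuotientGroup.mk 1)
  have h2 : (Quotient.out (QuotientGroup.mk 1 : P ⧸ (stN S : Subgroup P)) : P) ∈ D := by
    obtain ⟨h, hh⟩ := QuotientGroup.mk_out_eq_mul (stN S : Subgroup P) 1
    rw [hh, one_mul]
    exact hD h.2
  have h3 : ¬ (τ⁻¹ * (Quotient.out (QuotientGroup.mk 1 : P ⧸ (stN S : Subgroup P)) : P) ∈ D) := by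
    intro h
    apply hτ
    have h4 := D.mul_mem h (D.inv_mem h2)
    rw [mul_inv_cancel_right] at h4
    exact inv_mem_iff.1 h4
  simp only [if_neg h3, if_pos h2, Pi.zero_apply] at h1
  norm_num at h1

/-- surjectivity of norms from the property `C1` -/
theorem nsat_of_C1 {l : ℕ} (hl : l.Prime) (hC : ∀ D : Subgroup P, IsC1 (FixedPoints.subfield D Ω)) :
    NSat P Ω l := by
  classical
  intro D τ hn hτl hτ ⟨S, hS, hSD⟩ z hz hzD hzτ
  obtain ⟨θ, hθD, hθτ⟩ := exists_theta hS (D := D) (fun x hx => hSD x hx) hτ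
  have hn' : ∀ i : ℕ, ∀ u ∈ D, (τ ^ i)⁻¹ * u * τ ^ i ∈ D := by
    intro i
    induction i with
    | zero => intro u hu; simpa using hu
    | succ i ih =>
      intro u hu
      have h1 := hn _ (ih u hu)
      have h2 : τ⁻¹ * ((τ ^ i)⁻¹ * u * τ ^ i) * τ = (τ ^ (i + 1))⁻¹ * u * τ ^ (i + 1) := by
        rw [pow_succ]; group
      rwa [h2] at h1
  have hθu : ∀ i : ℕ, ∀ u ∈ D, u • (τ ^ i • θ) = τ ^ i • θ := by
    intro i u hu
    have h1 := hθD _ (hn' i u hu)
    rw [mul_smul, mul_smul, inv_smul_eq_iff] at h1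
    exact h1
  -- distinctness
  have hinj : ∀ i j : ℕ, i < l → j < l → τ ^ i • θ = τ ^ j • θ → i = j := by
    have key : ∀ i j : ℕ, i < j → j < l → τ ^ i • θ ≠ τ ^ j • θ := by
      intro i j hij hj h
      have h1 : τ ^ (j - i) • θ = θ := by
        have h2 : τ ^ j = τ ^ i * τ ^ (j - i) := by rw [← pow_add]; congr 1; omega
        rw [h2, mul_smul] at h
        exact (smul_left_cancel _ h).symm
      have h3 : τ ^ l • θ = θ := hθD _ hτl
      have hcop : Nat.Coprime (j - i) l := by
        rw [Nat.coprime_comm]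
        exact (Nat.Prime.coprime_iff_not_dvd hl).2 (fun hd => by
          have := Nat.le_of_dvd (by omega) hd
          omega)
      apply hθτ
      have h4 : τ ^ (j - i) ∈ MulAction.stabilizer P θ := h1
      have h5 : τ ^ l ∈ MulAction.stabilizer P θ := h3
      have h6 := Nat.gcd_eq_gcd_ab (j - i) l
      rw [hcop.gcd_eq_one] at h6
      have h7 : τ = (τ ^ (j - i)) ^ (Nat.gcdA (j - i) l) * (τ ^ l) ^ (Nat.gcdB (j - i) l) := by
        rw [← zpow_natCast τ (j - i), ← zpow_natCast τ l, ← zpow_mul, ← zpow_mul, ← zpow_add]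
        rw [← h6]
        simp
      have h8 : τ ∈ MulAction.stabilizer P θ := by
        rw [h7]
        exact Subgroup.mul_mem _ (Subgroup.zpow_mem _ h4 _) (Subgroup.zpow_mem _ h5 _)
      exact h8
    intro i j hi hj h
    rcases lt_trichotomy i j with h1 | h1 | h1
    · exact absurd h (key i j h1 hj)
    · exact h1
    · exact absurd h.symm (key j i h1 hi)
  -- the norm form
  let Ψ : MvPolynomial (Fin (l + 1)) Ω :=
    ∏ i ∈ Finset.range l, (∑ j : Fin l, C (τ ^ i • (θ ^ (j : ℕ))) * X j.castSucc) -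
      C z * X (Fin.last l) ^ l
  have hΨd : Ψ.totalDegree ≤ l := by
    refine (totalDegree_sub _ _).trans (max_le ?_ ?_)
    · refine (totalDegree_finsetProd _ _).trans ?_
      have h1 : ∀ i ∈ Finset.range l,
          (∑ j : Fin l, C (τ ^ i • (θ ^ (j : ℕ))) * X j.castSucc : MvPolynomial (Fin (l + 1)) Ω).totalDegree ≤ 1 := by
        intro i _
        refine totalDegree_finsetSum_le fun j _ => ?_
        refine (totalDegree_mul _ _).trans ?_
        rw [totalDegree_C, totalDegree_X]
      refine (Finset.sum_le_sum h1).trans ?_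
      simp
    · refine (totalDegree_mul _ _).trans ?_
      rw [totalDegree_C, zero_add]
      refine (totalDegree_pow _ _).trans ?_
      rw [totalDegree_X, mul_one]
  have hΨe : ∀ a : Fin (l + 1) → Ω, eval a Ψ =
      ∏ i ∈ Finset.range l, (∑ j : Fin l, (τ ^ i • (θ ^ (j : ℕ))) * a j.castSucc) -
        z * a (Fin.last l) ^ l := by
    intro a
    simp only [Ψ, map_sub, map_prod, map_sum, map_mul, eval_C, eval_X, map_pow]
  let H : Subgroup P :=
    { carrier := {g | map (MulSemiringAction.toRingHom P Ω g) Ψ = Ψ}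
      one_mem' := by
        have : MulSemiringAction.toRingHom P Ω 1 = RingHom.id Ω := by
          ext x; exact one_smul P x
        change map (MulSemiringAction.toRingHom P Ω 1) Ψ = Ψ
        rw [this, map_id]
      mul_mem' := by
        intro g h hg hh
        have : MulSemiringAction.toRingHom P Ω (g * h) =
            (MulSemiringAction.toRingHom P Ω g).comp (MulSemiringAction.toRingHom P Ω h) := by
          ext x; exact mul_smul g h x
        change map (MulSemiringAction.toRingHom P Ω (g * h)) Ψ = Ψ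
        rw [this, ← map_map]
        change map (MulSemiringAction.toRingHom P Ω h) Ψ = Ψ at hh
        rw [hh]
        exact hg
      inv_mem' := by
        intro g hg
        change map (MulSemiringAction.toRingHom P Ω g⁻¹) Ψ = Ψ
        change map (MulSemiringAction.toRingHom P Ω g) Ψ = Ψ at hg
        conv_lhs => rw [← hg]
        rw [map_map]
        have : (MulSemiringAction.toRingHom P Ω g⁻¹).comp (MulSemiringAction.toRingHom P Ω g) =
            RingHom.id Ω := by
          ext x; exact inv_smul_smul g x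
        rw [this, map_id] }
  have hHD : D ≤ H := by
    intro u hu
    change map (MulSemiringAction.toRingHom P Ω u) Ψ = Ψ
    simp only [Ψ, map_sub, map_prod, map_sum, map_mul, map_C, map_X, map_pow]
    congr 1
    · refine Finset.prod_congr rfl fun i _ => ?_
      refine Finset.sum_congr rfl fun j _ => ?_
      congr 2
      change u • (τ ^ i • (θ ^ (j : ℕ))) = _
      rw [smul_pow', smul_pow', hθu i u hu]
    · congr 2
      exact hzD u hu
  have hHτ : τ ∈ H := by
    change map (MulSemiringAction.toRingHom P Ω τ) Ψ = Ψ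
    simp only [Ψ, map_sub, map_prod, map_sum, map_mul, map_C, map_X, map_pow]
    congr 1
    · obtain ⟨m, hm⟩ : ∃ m, l = m + 1 := ⟨l - 1, (Nat.succ_pred_eq_of_pos hl.pos).symm⟩
      have h1 : ∀ i : ℕ, (∑ j : Fin l, C ((MulSemiringAction.toRingHom P Ω τ) (τ ^ i • (θ ^ (j : ℕ)))) * X j.castSucc : MvPolynomial (Fin (l + 1)) Ω) =
          ∑ j : Fin l, C (τ ^ (i + 1) • (θ ^ (j : ℕ))) * X j.castSucc := by
        intro i
        refine Finset.sum_congr rfl fun j _ => ?_
        congr 2
        change τ • (τ ^ i • (θ ^ (j : ℕ))) = _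
        rw [← mul_smul, ← pow_succ']
      simp only [h1]
      have h2 : (Finset.range l) = Finset.range (m + 1) := by rw [hm]
      rw [h2, Finset.prod_range_succ, Finset.prod_range_succ']
      congr 1
      rw [← hm]
      refine Finset.sum_congr rfl fun j _ => ?_
      rw [pow_zero, one_smul, smul_pow', hθD _ hτl]
    · congr 2
  let D₁ : Subgroup P := D ⊔ Subgroup.zpowers τ
  have hD₁H : D₁ ≤ H := sup_le hHD (by rw [Subgroup.zpowers_le]; exact hHτ)
  have hτD₁ : τ ∈ D₁ := (le_sup_right : Subgroup.zpowers τ ≤ D₁) (Subgroup.mem_zpowers τ)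
  have hDD₁ : D ≤ D₁ := le_sup_left
  let K₁ : Subfield Ω := FixedPoints.subfield D₁ Ω
  have hK₁ : ∀ v : K₁, ∀ g ∈ D₁, g • (v : Ω) = v := fun v g hg => v.2 ⟨g, hg⟩
  obtain ⟨Ψ', hΨ'⟩ := mem_range_map_iff_coeffs_subset (f := K₁.subtype) (x := Ψ).2 (by
    intro t ht
    obtain ⟨m, _, rfl⟩ := mem_coeffs_iff.1 ht
    refine ⟨⟨coeff m Ψ, ?_⟩, rfl⟩
    intro g
    have h1 : map (MulSemiringAction.toRingHom P Ω (g : P)) Ψ = Ψ := hD₁H g.2
    have h2 := congrArg (coeff m) h1
    rw [coeff_map] at h2
    exact h2)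
  have hd' : Ψ'.totalDegree ≤ l := by
    rw [← hΨ', totalDegree, support_map_of_injective _ K₁.subtype.injective] at hΨd
    exact hΨd
  have hev : ∀ a : Fin (l + 1) → K₁, eval (fun i => (a i : Ω)) Ψ = (eval a Ψ' : K₁) := by
    intro a
    rw [← hΨ', eval_map]
    change eval₂ K₁.subtype (K₁.subtype ∘ a) Ψ' = K₁.subtype (eval a Ψ')
    rw [eval₂_comp]
  obtain ⟨a, ha0, ha⟩ := hC D₁ l Ψ' hd' (by
    apply Subtype.ext
    rw [← hev, hΨe]
    have h1 : ∏ i ∈ Finset.range l, (∑ j : Fin l, (τ ^ i • (θ ^ (j : ℕ))) * (((0 : Fin (l + 1) → K₁) j.castSucc : K₁) : Ω)) = 0 := by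
      refine Finset.prod_eq_zero (Finset.mem_range.2 hl.pos) ?_
      simp
    rw [h1]
    simp [hl.ne_zero])
  have ha' := hev a
  rw [ha, hΨe] at ha'
  have ha'' : ∏ i ∈ Finset.range l, (∑ j : Fin l, (τ ^ i • (θ ^ (j : ℕ))) * (a j.castSucc : Ω)) =
      z * (a (Fin.last l) : Ω) ^ l := by
    rw [← sub_eq_zero]
    exact ha'
  have hfa : ∀ j, ∀ g ∈ D₁, g • (a j : Ω) = a j := fun j g hg => hK₁ (a j) g hg
  set b₀ : Ω := ∑ j : Fin l, θ ^ (j : ℕ) * (a j.castSucc : Ω) with hb₀
  have hτb : ∀ i : ℕ, τ ^ i • b₀ = ∑ j : Fin l, (τ ^ i • (θ ^ (j : ℕ))) * (a j.castSucc : Ω) := by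
    intro i
    rw [hb₀, Finset.smul_sum]
    refine Finset.sum_congr rfl fun j _ => ?_
    rw [smul_mul', hfa _ _ (D₁.pow_mem hτD₁ i)]
  have hlast : (a (Fin.last l) : Ω) ≠ 0 := by
    intro h0
    rw [h0, zero_pow hl.ne_zero, mul_zero, Finset.prod_eq_zero_iff] at ha''
    obtain ⟨i, _, hi⟩ := ha''
    rw [← hτb, smul_eq_zero_iff_eq] at hi
    -- the polynomial
    let p : Polynomial Ω := ∑ j : Fin l, Polynomial.C (a j.castSucc : Ω) * Polynomial.X ^ (j : ℕ)
    have hp : p = 0 := by
      refine Polynomial.eq_zero_of_natDegree_lt_card_of_eval_eq_zero p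
        (f := fun i : Fin l => τ ^ (i : ℕ) • θ) ?_ ?_ ?_
      · intro i j hij
        exact Fin.ext (hinj i j i.2 j.2 hij)
      · intro i
        have h1 := hτb i
        rw [hi, smul_zero] at h1
        simp only [p, Polynomial.eval_finsetSum, Polynomial.eval_mul, Polynomial.eval_C, Polynomial.eval_pow,
          Polynomial.eval_X]
        rw [h1]
        refine Finset.sum_congr rfl fun j _ => ?_
        rw [smul_pow', mul_comm]
      · rw [Fintype.card_fin]
        refine lt_of_le_of_lt (Polynomial.natDegree_sum_le_of_forall_le (n := l - 1) _ _ ?_) ?_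
        · intro j _
          refine (Polynomial.natDegree_C_mul_X_pow_le _ _).trans ?_
          have := j.2
          omega
        · have := hl.pos
          omega
    apply ha0
    funext j
    apply Subtype.ext
    refine Fin.lastCases ?_ (fun j => ?_) j
    · exact h0
    · have h1 := congrArg (fun q => Polynomial.coeff q (j : ℕ)) hp
      simp only [p, Polynomial.finsetSum_coeff, Polynomial.coeff_C_mul, Polynomial.coeff_X_pow, Polynomial.coeff_zero] at h1
      rw [Finset.sum_eq_single j] at h1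
      · simpa using h1
      · intro i _ hij
        rw [if_neg (fun h => hij (Fin.ext h.symm)), mul_zero]
      · intro h; exact absurd (Finset.mem_univ j) h
  refine ⟨b₀ / (a (Fin.last l) : Ω), ?_, ?_⟩
  · intro u hu
    have h1 : u • b₀ = b₀ := by
      rw [hb₀, Finset.smul_sum]
      refine Finset.sum_congr rfl fun j _ => ?_
      rw [smul_mul', hfa _ _ (hDD₁ hu), smul_pow', hθD u hu]
    rw [div_eq_mul_inv, smul_mul', h1, smul_inv'', hfa _ _ (hDD₁ hu)]
  · have h1 : ∀ i : ℕ, τ ^ i • (b₀ / (a (Fin.last l) : Ω)) = (τ ^ i • b₀) / (a (Fin.last l) : Ω) := by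
      intro i
      rw [div_eq_mul_inv, smul_mul', smul_inv'', hfa _ _ (D₁.pow_mem hτD₁ i), div_eq_mul_inv]
    simp only [h1]
    rw [Finset.prod_div_distrib, Finset.prod_const, Finset.card_range]
    simp only [hτb]
    rw [ha'', mul_div_cancel_right₀ _ (pow_ne_zero _ hlast)]

end norm

end Run7.h333
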