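import Pool.Agent.Run7.h333.HS2
import Pool.Agent.Run7.h333.NS

/-! Vanishing of the third cohomology for a two-step tower of `C1` situations. -/

set_option autoImplicit false
set_option linter.style.haveILetI false

namespace Run7.h333

open Polynomial

section algover

/-- every element of `E` is algebraic over `k[x]` -/
def AlgOver (k : Type) {E : Type} [Field k] [Field E] [Algebra k E] (x : E) : Prop :=
  ∀ e : E, ∃ q : Polynomial (Polynomial k), q ≠ 0 ∧
    q.eval₂ ((Polynomial.aeval x : Polynomial k →ₐ[k] E) : Polynomial k →+* E) e = 0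

theorem isC1_tr1' {k E : Type} [Field k] [IsAlgClosed k] [Field E] [Algebra k E] (x : E)
    (hx : Transcendental k x) (halg : AlgOver k x) : IsC1 E := by
  refine isC1_tr1 x hx fun e => ?_
  obtain ⟨q, hq, hqe⟩ := halg e
  let E₁ := IntermediateField.adjoin k {x}
  let φ : Polynomial k →+* E₁ := ((Polynomial.aeval (IntermediateField.AdjoinSimple.gen k x) :
    Polynomial k →ₐ[k] E₁) : Polynomial k →+* E₁)
  have hφ : Function.Injective φ := by
    have h1 : Transcendental k (IntermediateField.AdjoinSimple.gen k x) := by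
      rw [← transcendental_algebraMap_iff (A := E) (algebraMap E₁ E).injective]
      exact hx
    exact transcendental_iff_injective.1 h1
  have hcomp : (algebraMap E₁ E).comp φ = ((Polynomial.aeval x : Polynomial k →ₐ[k] E) : Polynomial k →+* E) := by
    refine RingHom.ext fun p => ?_
    exact (Polynomial.aeval_algebraMap_apply E (IntermediateField.AdjoinSimple.gen k x) p).symm
  refine ⟨q.map φ, (Polynomial.map_ne_zero_iff hφ).2 hq, ?_⟩
  rw [Polynomial.aeval_def, Polynomial.eval₂_map, hcomp]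
  exact hqe

variable {P Ω : Type} [Group P] [Field Ω] [MulSemiringAction P Ω]

theorem isC1_fixed_tr1 {k : Type} [Field k] [IsAlgClosed k] [Algebra k Ω] (D : Subgroup P)
    (hk : ∀ g ∈ D, ∀ c : k, g • (algebraMap k Ω c) = algebraMap k Ω c) (x : Ω)
    (hxD : ∀ g ∈ D, g • x = x) (hx : Transcendental k x) (halg : AlgOver k x) :
    IsC1 (FixedPoints.subfield D Ω) := by
  let L := FixedPoints.subfield D Ω
  let φ : k →+* L := (algebraMap k Ω).codRestrict L (fun c g => hk g g.2 c)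
  letI : Algebra k L := φ.toAlgebra
  let xL : L := ⟨x, fun g => hxD g g.2⟩
  let ι : L →ₐ[k] Ω := { L.subtype with commutes' := fun c => rfl }
  have hι : Function.Injective ι := Subtype.val_injective
  have hιx : ι xL = x := rfl
  refine isC1_tr1' (k := k) xL ?_ ?_
  · intro h
    apply hx
    obtain ⟨p, hp, hp'⟩ := h
    refine ⟨p, hp, ?_⟩
    rw [← hιx, Polynomial.aeval_algHom_apply, hp', map_zero]
  · intro e
    obtain ⟨q, hq, hqe⟩ := halg (e : Ω)
    refine ⟨q, hq, hι ?_⟩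
    rw [map_zero, ← hqe]
    change (ι : L →+* Ω) _ = _
    rw [Polynomial.hom_eval₂]
    have h1 : (ι : L →+* Ω).comp ((Polynomial.aeval xL : Polynomial k →ₐ[k] L) : Polynomial k →+* L) =
        ((Polynomial.aeval x : Polynomial k →ₐ[k] Ω) : Polynomial k →+* Ω) := by
      refine RingHom.ext fun p => ?_
      change ι (Polynomial.aeval xL p) = Polynomial.aeval x p
      rw [← Polynomial.aeval_algHom_apply, hιx]
    rw [h1]
    rfl

theorem isC1_fixed_fin {F : Type} [Field F] [Finite F] [Algebra F Ω] [Algebra.IsAlgebraic F Ω]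
    (D : Subgroup P) (hF : ∀ g ∈ D, ∀ c : F, g • (algebraMap F Ω c) = algebraMap F Ω c) :
    IsC1 (FixedPoints.subfield D Ω) := by
  let L := FixedPoints.subfield D Ω
  let φ : F →+* L := (algebraMap F Ω).codRestrict L (fun c g => hF g g.2 c)
  letI : Algebra F L := φ.toAlgebra
  let ι : L →ₐ[F] Ω := { L.subtype with commutes' := fun c => rfl }
  have hι : Function.Injective ι := Subtype.val_injective
  haveI : Algebra.IsAlgebraic F L := by
    refine ⟨fun e => ?_⟩
    obtain ⟨p, hp, hp'⟩ := Algebra.IsAlgebraic.isAlgebraic (R := F) (ι e)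
    refine ⟨p, hp, hι ?_⟩
    rw [map_zero, ← hp', Polynomial.aeval_algHom_apply]
  exact isC1_alg_finite F L

/-- `NSat` for subgroups of a subgroup, seen inside the big group -/
theorem nsat_sub {l : ℕ} (hl : l.Prime) (Q : Subgroup P)
    (hC : ∀ D ≤ Q, IsC1 (FixedPoints.subfield D Ω)) : NSat Q Ω l := by
  refine nsat_of_C1 hl fun D => ?_
  have h1 := hC (D.map Q.subtype) (by
    rintro _ ⟨d, _, rfl⟩
    exact d.2)
  have h2 : FixedPoints.subfield (D.map Q.subtype) Ω = FixedPoints.subfield D Ω := by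
    ext x
    constructor
    · intro h g
      exact h ⟨((g : Q) : P), ⟨g, g.2, rfl⟩⟩
    · rintro h ⟨_, g, hg, rfl⟩
      exact h ⟨g, hg⟩
  rw [h2] at h1
  exact h1

end algover

section vanish

variable {G Ω E M : Type} [Group G] [Field Ω] [MulSemiringAction G Ω] [IsAlgClosed Ω]
  [Field E] [MulSemiringAction G E] [IsAlgClosed E] [AddCommGroup M] [DistribMulAction G M]

omit [IsAlgClosed Ω] [IsAlgClosed E] [AddCommGroup M] [DistribMulAction G M] in
theorem Sub.sm3 (hsub : Sub G Ω E) {ω : G → G → G → M} (h : Sm3 E ω) : Sm3 Ω ω := by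
  obtain ⟨S, hS, h⟩ := h
  obtain ⟨R, hR, hR'⟩ := hsub S hS
  exact ⟨R, hR, fun x x' y y' z z' hx hy hz => h _ _ _ _ _ _ (hR' _ _ hx) (hR' _ _ hy) (hR' _ _ hz)⟩

omit [IsAlgClosed Ω] [IsAlgClosed E] in
theorem SmA.of_sub (hsub : Sub G Ω E) (hM : SmA G E M) : SmA G Ω M := by
  intro m
  obtain ⟨S, hS, h⟩ := hM m
  obtain ⟨R, hR, hR'⟩ := hsub S hS
  exact ⟨R, hR, fun g hg => h g (hR' _ _ hg)⟩

theorem vanish3 {l : ℕ} (hl : l.Prime) (hlΩ : (l : Ω) ≠ 0) (hlE : (l : E) ≠ 0)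
    (hfoΩ : FinO G Ω) (hfoE : FinO G E) (hctrl : Ctrl G Ω E) (hsub : Sub G Ω E)
    (hM : SmA G E M) (hMl : ∀ a : M, ∃ n : ℕ, (l ^ n) • a = 0)
    (hNΩ : ∀ P ≤ kerN G E, IsC1 (FixedPoints.subfield P Ω))
    (hNE : ∀ P : Subgroup G, IsC1 (FixedPoints.subfield P E))
    {α : G → G → G → G → M} (hα : Sm4 Ω α) (hαe : Eq4 ⊤ α) (hαd : d4 α = 0) :
    ∃ ω : G → G → G → M, Sm3 Ω ω ∧ Eq3 ⊤ ω ∧ α = d3 ω := by
  have hMΩ : SmA G Ω M := hM.of_sub hsub
  have hNS1 : ∀ P ≤ kerN G E, NSat P Ω l := fun P hP => nsat_sub hl P fun D hD => hNΩ D (hD.trans hP)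
  have hNS2 : ∀ P ≤ (⊤ : Subgroup G), NSat P E l := fun P _ => nsat_sub hl P fun D _ => hNE D
  obtain ⟨Z⟩ := ZZ.exists hM hctrl
    (fun f hf hfe hfd => cd2 hl hlΩ hfoΩ hMΩ hMl (kerN G E) hNS1 f hf hfe hfd)
    (fun f hf hfe hfd => cd3 hl hlΩ hfoΩ hMΩ hMl (kerN G E) hNS1 f hf hfe hfd) hα hαe hαd
  obtain ⟨Q, hQ, hQe, hQd⟩ := cd2 (A := HomN G Ω E M) hl hlE hfoE (HomN.smooth hM hctrl)
    (fun χ => HomN.torsion hMl χ (HomN.finite χ)) ⊤ hNS2 (Z.E hM) (Z.E_sm hM) (Z.E_eq hM) (Z.E_d hM)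
  obtain ⟨m, hm, hme, hmd, ω, hω, hωe, hαm⟩ := Z.inflate hM hctrl hsub hQ hQe hQd
  obtain ⟨ω', hω', hω'e, hmω'⟩ := cd3 hl hlE hfoE hM hMl ⊤ hNS2 m hm hme hmd
  obtain ⟨S₁, hS₁, h₁⟩ := hsub.sm3 hω'
  obtain ⟨S₂, hS₂, h₂⟩ := hω
  refine ⟨ω' + ω, ⟨S₁ ∪ S₂, hS₁.union hS₂, ?_⟩, ?_, ?_⟩
  · intro x x' y y' z z' hx hy hz
    change ω' x y z + ω x y z = ω' x' y' z' + ω x' y' z'
    rw [h₁ _ _ _ _ _ _ (hx.mono Set.subset_union_left) (hy.mono Set.subset_union_left)
      (hz.mono Set.subset_union_left), h₂ _ _ _ _ _ _ (hx.mono Set.subset_union_right)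
      (hy.mono Set.subset_union_right) (hz.mono Set.subset_union_right)]
  · intro g hg x y z
    change ω' _ _ _ + ω _ _ _ = g • (ω' x y z + ω x y z)
    rw [hω'e g hg, hωe g hg, smul_add]
  · rw [hαm, hmω']
    funext x y z w
    simp only [d3, Pi.add_apply]
    abel

end vanish

end Run7.h333
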