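import Pool.Agent.Run7.h333.HahnAC
import Pool.Agent.Run7.h333.M8

/-! Sections and rotations from Hahn series. -/

set_option autoImplicit false
set_option linter.style.haveILetI false

namespace Run7.h333

open Polynomial Pool.Agent.TH952

section tw

variable {E E' E'' : Type} [Field E] [Field E'] [Field E'']

/-- twisting a Hahn series by a ring homomorphism and an additive character -/
def tw (g : E →+* E') (χ : AddChar ℚ E') : Hah E →+* Hah E' where
  toFun x := ⟨fun q => χ q * g (x.coeff q), x.isPWO_support.mono (by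
    intro q hq
    rw [Function.mem_support] at hq
    rw [HahnSeries.mem_support]
    intro h
    apply hq
    rw [h, map_zero, mul_zero])⟩
  map_one' := by
    ext q
    change χ q * g ((1 : Hah E).coeff q) = (1 : Hah E').coeff q
    rw [HahnSeries.coeff_one, HahnSeries.coeff_one]
    split_ifs with h
    · subst h; rw [AddChar.map_zero_eq_one, map_one, mul_one]
    · rw [map_zero, mul_zero]
  map_zero' := by
    ext q
    change χ q * g ((0 : Hah E).coeff q) = (0 : Hah E').coeff q
    simp
  map_add' x y := by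
    ext q
    change χ q * g ((x + y).coeff q) = χ q * g (x.coeff q) + χ q * g (y.coeff q)
    rw [HahnSeries.coeff_add, map_add, mul_add]
  map_mul' x y := by
    ext q
    change χ q * g ((x * y).coeff q) = _
    have hχ : ∀ q, χ q ≠ 0 := fun q h => by
      have h1 := AddChar.map_add_eq_mul χ q (-q)
      rw [add_neg_cancel, AddChar.map_zero_eq_one, h, zero_mul] at h1
      exact one_ne_zero h1
    have hsupp : ∀ x : Hah E, Function.support (fun q => χ q * g (x.coeff q)) = x.support := by
      intro x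
      ext q
      rw [Function.mem_support, HahnSeries.mem_support]
      constructor
      · intro h h'
        apply h
        rw [h', map_zero, mul_zero]
      · intro h h'
        rcases mul_eq_zero.1 h' with h1 | h1
        · exact hχ q h1
        · exact h ((map_eq_zero g).1 h1)
    rw [HahnSeries.coeff_mul, HahnSeries.coeff_mul, map_sum, Finset.mul_sum]
    refine Finset.sum_congr ?_ ?_
    · ext ij
      rw [Finset.mem_antidiagonal, Finset.mem_antidiagonal]
      change _ ↔ ij.1 ∈ Function.support (fun q => χ q * g (x.coeff q)) ∧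
        ij.2 ∈ Function.support (fun q => χ q * g (y.coeff q)) ∧ _
      rw [hsupp, hsupp]
    · intro ij hij
      have h1 := (Finset.mem_antidiagonal.1 hij).2.2
      change χ q * g (x.coeff ij.1 * y.coeff ij.2) = χ ij.1 * g (x.coeff ij.1) * (χ ij.2 * g (y.coeff ij.2))
      rw [← h1, AddChar.map_add_eq_mul, map_mul]
      ring

lemma tw_coeff (g : E →+* E') (χ : AddChar ℚ E') (x : Hah E) (q : ℚ) :
    (tw g χ x).coeff q = χ q * g (x.coeff q) := rfl

lemma addChar_ne_zero (χ : AddChar ℚ E) (q : ℚ) : χ q ≠ 0 := fun h => by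
  have h1 := AddChar.map_add_eq_mul χ q (-q)
  rw [add_neg_cancel, AddChar.map_zero_eq_one, h, zero_mul] at h1
  exact one_ne_zero h1

lemma tw_C (g : E →+* E') (χ : AddChar ℚ E') (e : E) :
    tw g χ (HahnSeries.C e) = HahnSeries.C (g e) := by
  ext q
  rw [tw_coeff, HahnSeries.C_apply, HahnSeries.C_apply, HahnSeries.coeff_single, HahnSeries.coeff_single]
  split_ifs with h
  · subst h; rw [AddChar.map_zero_eq_one, one_mul]
  · rw [map_zero, mul_zero]

lemma tw_single (g : E →+* E') (χ : AddChar ℚ E') (r : ℚ) (e : E) :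
    tw g χ (HahnSeries.single r e) = HahnSeries.single r (χ r * g e) := by
  ext q
  rw [tw_coeff, HahnSeries.coeff_single, HahnSeries.coeff_single]
  split_ifs with h
  · subst h; rfl
  · rw [map_zero, mul_zero]

lemma tw_order (g : E →+* E') (χ : AddChar ℚ E') (x : Hah E) : (tw g χ x).order = x.order := by
  by_cases hx : x = 0
  · subst hx; rw [map_zero, HahnSeries.order_zero, HahnSeries.order_zero]
  have hx' : tw g χ x ≠ 0 := (_root_.map_ne_zero _).2 hx
  apply le_antisymm
  · refine HahnSeries.order_le_of_coeff_ne_zero ?_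
    rw [tw_coeff]
    refine mul_ne_zero (addChar_ne_zero χ _) ((_root_.map_ne_zero g).2 ?_)
    exact HahnSeries.coeff_order_eq_zero.not.2 hx
  · refine HahnSeries.order_le_of_coeff_ne_zero ?_
    intro h
    have h1 := HahnSeries.coeff_order_eq_zero.not.2 hx'
    rw [tw_coeff, h, map_zero, mul_zero] at h1
    exact h1 rfl

/-- the parameter at `a` -/
noncomputable def za (a : E) : Hah E := HahnSeries.C a + HahnSeries.single 1 1

lemma tw_za (g : E →+* E') (χ : AddChar ℚ E') (hχ : χ 1 = 1) (a : E) : tw g χ (za a) = za (g a) := by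
  unfold za
  rw [map_add, tw_C, tw_single, hχ, map_one, mul_one]

lemma za_transc (a : E) {p : Polynomial E} (hp : p ≠ 0) : p.eval₂ HahnSeries.C (za a) ≠ 0 := by
  intro h
  -- substitute
  have h1 : (p.comp (X + C a)) ≠ 0 := by
    intro h0
    apply hp
    have h2 := congrArg (fun q => q.comp (X - C a)) h0
    simp only [Polynomial.comp_assoc, zero_comp] at h2
    have h3 : (X + C a : Polynomial E).comp (X - C a) = X := by simp
    rw [h3, Polynomial.comp_X] at h2
    exact h2
  have h2 : p.eval₂ HahnSeries.C (za a) = (p.comp (X + C a)).eval₂ HahnSeries.C (HahnSeries.single 1 1 : Hah E) := by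
    rw [Polynomial.eval₂_comp]
    congr 1
    simp [za, add_comm]
  rw [h2] at h
  set r := p.comp (X + C a)
  have h3 : ∀ n : ℕ, (r.eval₂ HahnSeries.C (HahnSeries.single 1 1 : Hah E)).coeff (n : ℚ) = r.coeff n := by
    intro n
    rw [Polynomial.eval₂_eq_sum_range, HahnSeries.coeff_sum, Finset.sum_eq_single n]
    · rw [HahnSeries.single_pow, HahnSeries.C_mul_eq_smul, HahnSeries.coeff_smul, one_pow]
      have : ((n • (1 : ℚ))) = (n : ℚ) := by simp
      rw [this, HahnSeries.coeff_single_same, smul_eq_mul, mul_one]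
    · intro m _ hm
      rw [HahnSeries.single_pow, HahnSeries.C_mul_eq_smul, HahnSeries.coeff_smul, one_pow]
      have : ((m • (1 : ℚ))) = (m : ℚ) := by simp
      rw [this, HahnSeries.coeff_single_of_ne, smul_zero]
      intro h4
      apply hm
      exact_mod_cast h4.symm
    · intro hn
      have : r.coeff n = 0 := by
        apply Polynomial.coeff_eq_zero_of_natDegree_lt
        rw [Finset.mem_range, not_lt] at hn
        omega
      rw [this, map_zero, zero_mul, HahnSeries.coeff_zero]
  apply h1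
  ext n
  rw [← h3 n, h, HahnSeries.coeff_zero, coeff_zero]

end tw

section emb

variable {E Ω : Type} [Field E] [IsAlgClosed E] [Field Ω] [Algebra E Ω]

/-- embeddings into Hahn series -/
structure Iota (E Ω : Type) [Field E] [Field Ω] [Algebra E Ω] (z : Ω) (a : E) where
  /-- the embedding -/
  f : Ω →+* Hah E
  hE : ∀ e : E, f (algebraMap E Ω e) = HahnSeries.C e
  hz : f z = za a

theorem exists_iota (z : Ω) (hz : Transcendental E z) (halg : AlgOver E z) (a : E) :
    Nonempty (Iota E Ω z a) := by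
  letI A1 : Algebra (Polynomial E) Ω :=
    ((Polynomial.aeval z : Polynomial E →ₐ[E] Ω) : Polynomial E →+* Ω).toAlgebra
  letI A2 : Algebra (Polynomial E) (Hah E) := (Polynomial.eval₂RingHom HahnSeries.C (za a)).toAlgebra
  have h1 : Function.Injective (algebraMap (Polynomial E) Ω) := transcendental_iff_injective.1 hz
  have h2 : Function.Injective (algebraMap (Polynomial E) (Hah E)) := by
    rw [injective_iff_map_eq_zero]
    intro p hp
    by_contra h0
    exact za_transc a h0 hp
  haveI : FaithfulSMul (Polynomial E) Ω := (faithfulSMul_iff_algebraMap_injective _ _).2 h1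
  haveI : FaithfulSMul (Polynomial E) (Hah E) := (faithfulSMul_iff_algebraMap_injective _ _).2 h2
  haveI : Algebra.IsAlgebraic (Polynomial E) Ω := by
    refine ⟨fun e => ?_⟩
    obtain ⟨q, hq, hqe⟩ := halg e
    exact ⟨q, hq, hqe⟩
  let φ : Ω →ₐ[Polynomial E] Hah E := IsAlgClosed.lift
  refine ⟨⟨φ, fun e => ?_, ?_⟩⟩
  · have h3 := φ.commutes (C e)
    have h4 : algebraMap (Polynomial E) Ω (C e) = algebraMap E Ω e := Polynomial.aeval_C z e
    have h5 : algebraMap (Polynomial E) (Hah E) (C e) = HahnSeries.C e :=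
      Polynomial.eval₂_C _ _
    rw [h4, h5] at h3
    exact h3
  · have h3 := φ.commutes X
    have h4 : algebraMap (Polynomial E) Ω X = z := Polynomial.aeval_X z
    have h5 : algebraMap (Polynomial E) (Hah E) X = za a := Polynomial.eval₂_X _ _
    rw [h4, h5] at h3
    exact h3

end emb

section transport

variable {E Ω E' Ω' : Type} [Field E] [Field Ω] [Algebra E Ω]
  [Field E'] [Field Ω'] [Algebra E' Ω'] [IsAlgClosed Ω']

/-- elements algebraic over an algebraically closed field -/
theorem mem_range_of_root {Λ : Type} [Field Λ] (ι : Ω' →+* Λ) {p : Polynomial Ω'} (hp : p ≠ 0) {y : Λ}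
    (hy : p.eval₂ ι y = 0) : ∃ x, ι x = y := by
  letI := ι.toAlgebra
  have hi : IsIntegral Ω' y := isAlgebraic_iff_isIntegral.1 ⟨p, hp, hy⟩
  have h1 : (minpoly Ω' y).degree = 1 :=
    IsAlgClosed.degree_eq_one_of_irreducible Ω' (minpoly.irreducible hi)
  exact minpoly.mem_range_of_degree_eq_one Ω' y h1

theorem exists_transport {z : Ω} (halg : AlgOver E z) {z' : Ω'} (hz' : Transcendental E' z')
    {Λ Λ' : Type} [Field Λ] [Field Λ'] (cE : E →+* Λ) (cE' : E' →+* Λ')
    (ι : Ω →+* Λ) (hι : ∀ e, ι (algebraMap E Ω e) = cE e)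
    (ι' : Ω' →+* Λ') (hι' : ∀ e, ι' (algebraMap E' Ω' e) = cE' e)
    (Φ : Λ →+* Λ') (g : E →+* E') (hΦ : ∀ e, Φ (cE e) = cE' (g e)) (hΦz : Φ (ι z) = ι' z') (x : Ω) :
    ∃ y : Ω', ι' y = Φ (ι x) := by
  obtain ⟨q, hq, hqx⟩ := halg x
  let q' : Polynomial Ω' := (q.map (Polynomial.mapRingHom g)).map
    ((Polynomial.aeval z' : Polynomial E' →ₐ[E'] Ω') : Polynomial E' →+* Ω')
  have h1 : Function.Injective (((Polynomial.aeval z' : Polynomial E' →ₐ[E'] Ω') : Polynomial E' →+* Ω')) :=
    transcendental_iff_injective.1 hz'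
  have hq' : q' ≠ 0 := by
    refine (Polynomial.map_ne_zero_iff h1).2 ((Polynomial.map_ne_zero_iff ?_).2 hq)
    rw [Polynomial.coe_mapRingHom]
    exact Polynomial.map_injective g g.injective
  refine mem_range_of_root ι' hq' ?_
  rw [Polynomial.eval₂_map, Polynomial.eval₂_map]
  have h2 : (ι'.comp ((Polynomial.aeval z' : Polynomial E' →ₐ[E'] Ω') : Polynomial E' →+* Ω')).comp
      (Polynomial.mapRingHom g) = (Φ.comp ι).comp
        ((Polynomial.aeval z : Polynomial E →ₐ[E] Ω) : Polynomial E →+* Ω) := by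
    apply Polynomial.ringHom_ext
    · intro c
      simp [hι, hι', hΦ]
    · simp [hΦz]
  have h3 := congrArg (Φ.comp ι) hqx
  rw [map_zero, Polynomial.hom_eval₂] at h3
  rw [h2]
  exact h3

/-- transport of an automorphism -/
theorem exists_equiv {z : Ω'} (halg : AlgOver E' z) (hz : Transcendental E' z)
    {Λ : Type} [Field Λ] (cE : E' →+* Λ) (ι : Ω' →+* Λ) (hι : ∀ e, ι (algebraMap E' Ω' e) = cE e)
    (Φ Ψ : Λ →+* Λ) (g h : E' →+* E') (hΦ : ∀ e, Φ (cE e) = cE (g e)) (hΨ : ∀ e, Ψ (cE e) = cE (h e))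
    (hΦz : Φ (ι z) = ι z) (hΨz : Ψ (ι z) = ι z) (h1 : ∀ x, Φ (Ψ x) = x) (h2 : ∀ x, Ψ (Φ x) = x) :
    ∃ φ : Ω' ≃+* Ω', ∀ x, ι (φ x) = Φ (ι x) := by
  choose φ hφ using exists_transport halg hz cE cE ι hι ι hι Φ g hΦ hΦz
  choose ψ hψ using exists_transport halg hz cE cE ι hι ι hι Ψ h hΨ hΨz
  refine ⟨{ toFun := φ
            invFun := ψ
            left_inv := fun x => ι.injective (by rw [hψ, hφ, h2])
            right_inv := fun x => ι.injective (by rw [hφ, hψ, h1])
            map_mul' := fun x y => ι.injective (by rw [hφ, map_mul, map_mul, map_mul, hφ, hφ])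
            map_add' := fun x y => ι.injective (by rw [hφ, map_add, map_add, map_add, hφ, hφ]) }, hφ⟩

end transport

section full

variable {G E Ω : Type} [Group G] [Field E] [Field Ω] [IsAlgClosed Ω] [Algebra E Ω]
  [MulSemiringAction G E] [MulSemiringAction G Ω]

/-- the group is the full group of automorphisms -/
structure Full (G E : Type) {Ω : Type} [Group G] [Field E] [Field Ω] [Algebra E Ω]
    [MulSemiringAction G E] [MulSemiringAction G Ω] (z : Ω) : Prop where
  tr : Transcendental E z
  alg : AlgOver E z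
  fix : ∀ g : G, g • z = z
  comp : ∀ (g : G) (e : E), g • algebraMap E Ω e = algebraMap E Ω (g • e)
  ex : ∀ (φ : Ω ≃+* Ω) (g : G), (∀ e, φ (algebraMap E Ω e) = algebraMap E Ω (g • e)) → φ z = z →
    ∃ h : G, ∀ x, h • x = φ x
  faithful : ∀ g h : G, (∀ x : Ω, g • x = h • x) → g = h

variable {z : Ω}

/-- sections -/
theorem Full.exists_sec (hF : Full G E z) {a : E} (ι : Iota E Ω z a) (g : G) (hg : g • a = a) :
    ∃ h : G, ∀ x, ι.f (h • x) = tw (MulSemiringAction.toRingHom G E g) 1 (ι.f x) := by
  have hg' : g⁻¹ • a = a := by rw [inv_smul_eq_iff, hg]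
  obtain ⟨φ, hφ⟩ := exists_equiv hF.alg hF.tr HahnSeries.C ι.f ι.hE
    (tw (MulSemiringAction.toRingHom G E g) 1) (tw (MulSemiringAction.toRingHom G E g⁻¹) 1)
    (MulSemiringAction.toRingHom G E g) (MulSemiringAction.toRingHom G E g⁻¹)
    (fun e => tw_C _ _ e) (fun e => tw_C _ _ e)
    (by
      rw [ι.hz, tw_za _ _ (by simp)]
      exact congrArg za hg)
    (by
      rw [ι.hz, tw_za _ _ (by simp)]
      exact congrArg za hg')
    (fun x => by
      ext q
      rw [tw_coeff, tw_coeff]
      simp)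
    (fun x => by
      ext q
      rw [tw_coeff, tw_coeff]
      simp)
  obtain ⟨h, hh⟩ := hF.ex φ g (fun e => by
    apply ι.f.injective
    rw [hφ, ι.hE, tw_C, ι.hE]
    rfl) (by
    apply ι.f.injective
    rw [hφ, ι.hz, tw_za _ _ (by simp)]
    exact congrArg za hg)
  exact ⟨h, fun x => by rw [hh, hφ]⟩

/-- rotations -/
theorem Full.exists_rot (hF : Full G E z) {a : E} (ι : Iota E Ω z a) (χ : AddChar ℚ E) (hχ : χ 1 = 1) :
    ∃ h : G, ∀ x, ι.f (h • x) = tw (RingHom.id E) χ (ι.f x) := by
  have hχ' : χ⁻¹ 1 = 1 := by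
    rw [AddChar.inv_apply']
    rw [hχ, inv_one]
  obtain ⟨φ, hφ⟩ := exists_equiv hF.alg hF.tr HahnSeries.C ι.f ι.hE
    (tw (RingHom.id E) χ) (tw (RingHom.id E) χ⁻¹) (RingHom.id E) (RingHom.id E)
    (fun e => tw_C _ _ e) (fun e => tw_C _ _ e)
    (by rw [ι.hz, tw_za _ _ hχ]; rfl)
    (by rw [ι.hz, tw_za _ _ hχ']; rfl)
    (fun x => by
      ext q
      rw [tw_coeff, tw_coeff]
      have h1 := addChar_ne_zero χ q
      rw [AddChar.inv_apply']
      simp only [RingHom.id_apply]
      field_simp)
    (fun x => by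
      ext q
      rw [tw_coeff, tw_coeff]
      have h1 := addChar_ne_zero χ q
      rw [AddChar.inv_apply']
      simp only [RingHom.id_apply]
      field_simp)
  obtain ⟨h, hh⟩ := hF.ex φ 1 (fun e => by
    apply ι.f.injective
    rw [hφ, ι.hE, tw_C, ι.hE, one_smul]
    rfl) (by
    apply ι.f.injective
    rw [hφ, ι.hz, tw_za _ _ hχ]
    rfl)
  exact ⟨h, fun x => by rw [hh, hφ]⟩

end full

end Run7.h333
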