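import Pool.Agent.Run7.h333.HahnSec

/-! Kummer theory for the kernel of the action on the algebraic closure. -/

set_option autoImplicit false
set_option linter.style.haveILetI false

namespace Run7.h333

open Polynomial Pool.Agent.TH952

section general

/-- elements fixed by all automorphisms are purely inseparable -/
theorem pinsep_of_fixed {F L : Type} [Field F] [Field L] [Algebra F L] [IsAlgClosed L]
    [Algebra.IsAlgebraic F L] (q : ℕ) [ExpChar F q] (y : L) (h : ∀ σ : L ≃ₐ[F] L, σ y = y) :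
    ∃ n : ℕ, ∃ c : F, algebraMap F L c = y ^ q ^ n := by
  classical
  haveI : IsAlgClosure F L := ⟨inferInstance, inferInstance⟩
  haveI : Normal F L := IsAlgClosure.normal F L
  have hint : IsIntegral F y := Algebra.IsIntegral.isIntegral y
  have h1 : (minpoly F y).natSepDegree = 1 := by
    rw [Polynomial.natSepDegree_eq_of_isAlgClosed L (minpoly F y), Finset.card_eq_one]
    refine ⟨y, ?_⟩
    ext x
    rw [Multiset.mem_toFinset, Finset.mem_singleton, mem_aroots]
    constructor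
    · rintro ⟨_, hx⟩
      obtain ⟨σ, hσ⟩ := minpoly.exists_algEquiv_of_root (K := F) (L := L) (x := x) (y := y)
        (Algebra.IsAlgebraic.isAlgebraic y) hx
      have h2 := h σ.symm
      rw [← hσ, AlgEquiv.symm_apply_apply] at h2
      rw [← hσ]
      exact h2
    · rintro rfl
      exact ⟨minpoly.ne_zero hint, minpoly.aeval F x⟩
  have h2 := (mem_perfectClosure_iff_natSepDegree_eq_one (F := F) (x := y)).2 h1
  obtain ⟨n, c, hc⟩ := (mem_perfectClosure_iff_pow_mem q).1 h2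
  exact ⟨n, c, hc⟩

/-- the order of a polynomial in the parameter -/
lemma coeff_eval_single {E : Type} [Field E] (r : Polynomial E) (q : ℚ) :
    (r.eval₂ HahnSeries.C (HahnSeries.single 1 1 : Hah E)).coeff q =
      ∑ n ∈ Finset.range (r.natDegree + 1), if q = n then r.coeff n else 0 := by
  rw [Polynomial.eval₂_eq_sum_range, HahnSeries.coeff_sum]
  refine Finset.sum_congr rfl fun n _ => ?_
  rw [HahnSeries.single_pow, HahnSeries.C_mul_eq_smul, HahnSeries.coeff_smul, one_pow]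
  have : ((n • (1 : ℚ))) = (n : ℚ) := by simp
  rw [this, HahnSeries.coeff_single]
  split_ifs <;> simp

lemma order_za {E : Type} [Field E] (a : E) {P : Polynomial E} (hP : P ≠ 0) :
    (P.eval₂ HahnSeries.C (za a) : Hah E).order = P.rootMultiplicity a := by
  obtain ⟨R, hR, hRa⟩ := Polynomial.exists_eq_pow_rootMultiplicity_mul_and_not_dvd P hP a
  have hR0 : R ≠ 0 := by
    rintro rfl
    exact hRa (dvd_zero _)
  have hRa' : R.eval a ≠ 0 := fun h => hRa (Polynomial.dvd_iff_isRoot.2 h)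
  have h1 : (R.eval₂ HahnSeries.C (za a) : Hah E).order = 0 := by
    have h2 : R.eval₂ HahnSeries.C (za a) = (R.comp (X + C a)).eval₂ HahnSeries.C (HahnSeries.single 1 1 : Hah E) := by
      rw [Polynomial.eval₂_comp]
      congr 1
      simp [za, add_comm]
    rw [h2]
    set r := R.comp (X + C a)
    have h3 : r.coeff 0 ≠ 0 := by
      rw [Polynomial.coeff_zero_eq_eval_zero, Polynomial.eval_comp]
      simpa using hRa'
    have h4 : (r.eval₂ HahnSeries.C (HahnSeries.single 1 1 : Hah E)).coeff 0 ≠ 0 := by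
      rw [coeff_eval_single, Finset.sum_eq_single 0]
      · simpa using h3
      · intro n _ hn
        rw [if_neg]
        intro h
        apply hn
        exact_mod_cast h.symm
      · intro h
        exact absurd (Finset.mem_range.2 (Nat.succ_pos _)) h
    apply le_antisymm
    · exact HahnSeries.order_le_of_coeff_ne_zero h4
    · by_contra hlt
      push Not at hlt
      have hne : (r.eval₂ HahnSeries.C (HahnSeries.single 1 1 : Hah E)) ≠ 0 := by
        intro h; rw [h] at h4; exact h4 rfl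
      have h5 := HahnSeries.coeff_order_eq_zero.not.2 hne
      apply h5
      rw [coeff_eval_single]
      refine Finset.sum_eq_zero fun n _ => ?_
      rw [if_neg]
      intro h
      rw [h] at hlt
      have : (0 : ℚ) ≤ n := Nat.cast_nonneg n
      linarith
  have h0 : (R.eval₂ HahnSeries.C (za a) : Hah E) ≠ 0 := za_transc a hR0
  conv_lhs => rw [hR]
  rw [Polynomial.eval₂_mul, Polynomial.eval₂_pow]
  have h5 : (X - C a : Polynomial E).eval₂ HahnSeries.C (za a) = (HahnSeries.single 1 1 : Hah E) := by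
    simp [za]
  have h6 : (HahnSeries.single 1 1 : Hah E) ≠ 0 := by simp
  rw [h5, HahnSeries.order_mul (pow_ne_zero _ h6) h0, h1, add_zero, HahnSeries.order_pow,
    HahnSeries.order_single one_ne_zero]
  simp

/-- an additive character of `ℚ`, trivial at `1`, of exact order `l` at `1/l` -/
theorem exists_addChar {E : Type} [Field E] [IsAlgClosed E] {l : ℕ} (hl : l.Prime)
    (hl0 : (l : E) ≠ 0) : ∃ χ : AddChar ℚ E, χ 1 = 1 ∧ ∀ r : ℕ, IsPrimitiveRoot (χ (1 / (l : ℚ) ^ r)) (l ^ r) := by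
  haveI : NeZero (l : E) := ⟨hl0⟩
  haveI : NeZero l := ⟨hl.ne_zero⟩
  obtain ⟨ζ₀, hζ₀⟩ := HasEnoughRootsOfUnity.exists_primitiveRoot E l
  have hζ : IsPrimitiveRoot (Units.mk0 ζ₀ (hζ₀.ne_zero hl.ne_zero)) l := by
    rw [← IsPrimitiveRoot.coe_units_iff]
    exact hζ₀
  have hdiv : ∀ (n : ℤ) (u : Additive Eˣ), n ≠ 0 → ∃ w : Additive Eˣ, n • w = u := by
    intro n u hn
    have hnat : ∀ (m : ℕ) (u : Eˣ), m ≠ 0 → ∃ w : Eˣ, w ^ m = u := by
      intro m u hm
      obtain ⟨w, hw⟩ := IsAlgClosed.exists_pow_nat_eq (u : E) (Nat.pos_of_ne_zero hm)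
      have hw0 : w ≠ 0 := by
        rintro rfl
        rw [zero_pow hm] at hw
        exact u.ne_zero hw.symm
      exact ⟨Units.mk0 w hw0, by ext; rw [Units.val_pow_eq_pow_val]; exact hw⟩
    obtain ⟨w, hw⟩ := hnat n.natAbs (Additive.toMul u) (Int.natAbs_ne_zero.2 hn)
    rcases Int.natAbs_eq n with h | h
    · refine ⟨Additive.ofMul w, ?_⟩
      rw [h, natCast_zsmul]
      exact hw
    · refine ⟨-Additive.ofMul w, ?_⟩
      rw [h, neg_smul, smul_neg, neg_neg, natCast_zsmul]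
      exact hw
  classical
  letI : DivisibleBy (Additive Eˣ) ℤ :=
    { div := fun u n => if hn : n = 0 then 0 else (hdiv n u hn).choose
      div_zero := fun u => by rw [dif_pos rfl]
      div_cancel := fun {n} u hn => by
        rw [dif_neg hn]
        exact (hdiv n u hn).choose_spec }
  let f : ℤ →+ ℚ := (AddMonoidHom.mulRight ((1 : ℚ) / l)).comp (Int.castAddHom ℚ)
  have hlq : (l : ℚ) ≠ 0 := Nat.cast_ne_zero.2 hl.ne_zero
  have hf : Function.Injective f := by
    rw [injective_iff_map_eq_zero]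
    intro n hn
    have h1 : (n : ℚ) * (1 / l) = 0 := hn
    rcases mul_eq_zero.1 h1 with h | h
    · exact_mod_cast h
    · exact absurd h (one_div_ne_zero hlq)
  let g : ℤ →+ Additive Eˣ := zmultiplesHom _ (Additive.ofMul (Units.mk0 ζ₀ (hζ₀.ne_zero hl.ne_zero)))
  obtain ⟨h, hh⟩ := (Module.Baer.of_divisible (Additive Eˣ)).extension_property_addMonoidHom f hf g
  let χ : AddChar ℚ E :=
    { toFun := fun q => ((Additive.toMul (h q) : Eˣ) : E)
      map_zero_eq_one' := by rw [map_zero]; rfl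
      map_add_eq_mul' := fun p q => by rw [map_add]; rfl }
  have hχ : ∀ q, χ q = ((Additive.toMul (h q) : Eˣ) : E) := fun _ => rfl
  have hpow : ∀ (n : ℕ) (q : ℚ), χ ((n : ℚ) * q) = χ q ^ n := by
    intro n q
    have := AddChar.map_nsmul_eq_pow χ n q
    rwa [nsmul_eq_mul] at this
  have h1l : χ (1 / l) = ζ₀ := by
    have h2 := DFunLike.congr_fun hh 1
    have h3 : f 1 = 1 / l := by
      change ((1 : ℤ) : ℚ) * (1 / l) = 1 / l
      simp
    have h4 : g 1 = Additive.ofMul (Units.mk0 ζ₀ (hζ₀.ne_zero hl.ne_zero)) := by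
      exact one_zsmul _
    rw [AddMonoidHom.comp_apply, h3, h4] at h2
    rw [hχ, h2]
    rfl
  have h1 : χ 1 = 1 := by
    have h2 := hpow l (1 / l)
    rw [mul_one_div_cancel hlq, h1l, hζ₀.pow_eq_one] at h2
    exact h2
  refine ⟨χ, h1, fun r => ?_⟩
  have hpr : χ (1 / (l : ℚ) ^ r) ^ (l ^ r) = 1 := by
    rw [← hpow, Nat.cast_pow, mul_one_div_cancel (pow_ne_zero r hlq), h1]
  rcases r with _ | r
  · simp [h1]
  · have h5 : χ (1 / (l : ℚ) ^ (r + 1)) ^ (l ^ r) = ζ₀ := by
      rw [← hpow, Nat.cast_pow]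
      have : (l : ℚ) ^ r * (1 / (l : ℚ) ^ (r + 1)) = 1 / l := by
        rw [pow_succ]; field_simp
      rw [this, h1l]
    have h6 : orderOf (χ (1 / (l : ℚ) ^ (r + 1))) = l ^ (r + 1) := by
      haveI : Fact l.Prime := ⟨hl⟩
      refine orderOf_eq_prime_pow ?_ hpr
      rw [h5]
      intro h
      rw [h] at hζ₀
      have := hζ₀.eq_orderOf
      rw [orderOf_one] at this
      exact hl.one_lt.ne' this
    rw [← h6]
    exact IsPrimitiveRoot.orderOf _

end general

section kd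

variable {G E Ω M : Type} [Group G] [Field E] [IsAlgClosed E] [Field Ω] [IsAlgClosed Ω] [Algebra E Ω]
  [MulSemiringAction G E] [MulSemiringAction G Ω] [AddCommGroup M] [DistribMulAction G M]

/-- the data needed for Kummer theory over `E(z)` -/
structure KD (G E Ω M : Type) [Group G] [Field E] [IsAlgClosed E] [Field Ω] [IsAlgClosed Ω]
    [Algebra E Ω] [MulSemiringAction G E] [MulSemiringAction G Ω] [AddCommGroup M]
    [DistribMulAction G M] (l : ℕ) where
  /-- the variable -/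
  z : Ω
  full : Full G E z
  foΩ : FinO G Ω
  foE : FinO G E
  pr : l.Prime
  l0 : (l : E) ≠ 0
  /-- values of the coefficients -/
  v : M → E
  v_add : ∀ a b, v (a + b) = v a * v b
  v_inj : Function.Injective v
  v_sur : ∀ x : E, (∃ n : ℕ, x ^ (l ^ n) = 1) → ∃ m, v m = x
  v_tor : ∀ m, ∃ n : ℕ, v m ^ (l ^ n) = 1
  v_act : ∀ (g : G) (m : M), v (g • m) = g • (g • v m)
  /-- the standard character -/
  χ : AddChar ℚ E
  χ1 : χ 1 = 1
  χp : ∀ r : ℕ, IsPrimitiveRoot (χ (1 / (l : ℚ) ^ r)) (l ^ r)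
  /-- embeddings -/
  ι : ∀ a : E, Iota E Ω z a

namespace KD

variable {l : ℕ} (K : KD G E Ω M l)

lemma v_ne (m : M) : K.v m ≠ 0 := by
  intro h
  obtain ⟨n, hn⟩ := K.v_tor m
  rw [h, zero_pow (pow_ne_zero n K.pr.ne_zero)] at hn
  exact zero_ne_one hn

lemma v_zero : K.v 0 = 1 := by
  have := K.v_add 0 0
  rw [add_zero] at this
  exact (mul_right_cancel₀ (K.v_ne 0) (by rw [one_mul]; exact this)).symm

lemma v_neg (m : M) : K.v (-m) = (K.v m)⁻¹ := by
  have := K.v_add m (-m)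
  rw [add_neg_cancel, K.v_zero] at this
  exact eq_inv_of_mul_eq_one_right this.symm

lemma v_nsmul (n : ℕ) (m : M) : K.v (n • m) = K.v m ^ n := by
  induction n with
  | zero => rw [zero_smul, pow_zero, K.v_zero]
  | succ n ih => rw [succ_nsmul, K.v_add, ih, pow_succ]

include K in
lemma smA : SmA G E M := by
  intro m
  obtain ⟨S, hSm, hS⟩ := K.foE.exists_stb (Set.finite_singleton (K.v m))
  refine ⟨S, hS, fun g hg => K.v_inj ?_⟩
  have h1 : g • K.v m = K.v m := by
    have := hg _ (hSm rfl)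
    rwa [one_smul] at this
  rw [K.v_act, h1, h1]

include K in
lemma tor (m : M) : ∃ n : ℕ, (l ^ n) • m = 0 := by
  obtain ⟨n, hn⟩ := K.v_tor m
  exact ⟨n, K.v_inj (by rw [K.v_nsmul, hn, K.v_zero])⟩

include K in
lemma kerN_alg {n : G} (hn : n ∈ kerN G E) (e : E) : n • algebraMap E Ω e = algebraMap E Ω e := by
  rw [K.full.comp, hn]

/-- the rotation attached to a character -/
noncomputable def rt (a : E) (ψ : AddChar ℚ E) (hψ : ψ 1 = 1) : G :=
  (K.full.exists_rot (K.ι a) ψ hψ).choose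

lemma rt_spec (a : E) (ψ : AddChar ℚ E) (hψ : ψ 1 = 1) (x : Ω) :
    (K.ι a).f (K.rt a ψ hψ • x) = tw (RingHom.id E) ψ ((K.ι a).f x) :=
  (K.full.exists_rot (K.ι a) ψ hψ).choose_spec x

lemma rt_ker (a : E) (ψ : AddChar ℚ E) (hψ : ψ 1 = 1) : K.rt a ψ hψ ∈ kerN G E := by
  intro e
  apply (algebraMap E Ω).injective
  rw [← K.full.comp]
  apply (K.ι a).f.injective
  rw [K.rt_spec, (K.ι a).hE, tw_C]
  rfl

lemma eq_of_iota (a : E) {g h : G} (hgh : ∀ x : Ω, (K.ι a).f (g • x) = (K.ι a).f (h • x)) : g = h :=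
  K.full.faithful g h fun x => (K.ι a).f.injective (hgh x)

lemma rt_mul (a : E) (ψ ψ' : AddChar ℚ E) (hψ : ψ 1 = 1) (hψ' : ψ' 1 = 1) (h : (ψ * ψ') 1 = 1) :
    K.rt a (ψ * ψ') h = K.rt a ψ hψ * K.rt a ψ' hψ' := by
  refine K.eq_of_iota a fun x => ?_
  rw [K.rt_spec, mul_smul, K.rt_spec, K.rt_spec]
  ext q
  rw [tw_coeff, tw_coeff, tw_coeff]
  simp [mul_assoc]

/-- the section -/
noncomputable def sec (a : E) (g : G) (hg : g • a = a) : G :=
  (K.full.exists_sec (K.ι a) g hg).choose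

lemma sec_spec (a : E) (g : G) (hg : g • a = a) (x : Ω) :
    (K.ι a).f (K.sec a g hg • x) = tw (MulSemiringAction.toRingHom G E g) 1 ((K.ι a).f x) :=
  (K.full.exists_sec (K.ι a) g hg).choose_spec x

lemma sec_E (a : E) (g : G) (hg : g • a = a) (e : E) : K.sec a g hg • e = g • e := by
  apply (algebraMap E Ω).injective
  rw [← K.full.comp]
  apply (K.ι a).f.injective
  rw [K.sec_spec, (K.ι a).hE, (K.ι a).hE, tw_C]
  rfl

lemma sec_mul (a : E) (g h : G) (hg : g • a = a) (hh : h • a = a) (hgh : (g * h) • a = a) :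
    K.sec a (g * h) hgh = K.sec a g hg * K.sec a h hh := by
  refine K.eq_of_iota a fun x => ?_
  rw [K.sec_spec, mul_smul, K.sec_spec, K.sec_spec]
  ext q
  rw [tw_coeff, tw_coeff, tw_coeff]
  simp [mul_smul]

/-- the twisted character -/
def gch (g : G) (ψ : AddChar ℚ E) : AddChar ℚ E :=
  (MulSemiringAction.toRingHom G E g : E →* E).compAddChar ψ

omit [IsAlgClosed E] in
lemma gch_apply (g : G) (ψ : AddChar ℚ E) (q : ℚ) : gch g ψ q = g • ψ q := rfl

lemma sec_conj (a : E) (g : G) (hg : g • a = a) (ψ : AddChar ℚ E) (hψ : ψ 1 = 1)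
    (hψ' : gch g⁻¹ ψ 1 = 1) :
    (K.sec a g hg)⁻¹ * K.rt a ψ hψ * K.sec a g hg = K.rt a (gch g⁻¹ ψ) hψ' := by
  have h1 : K.rt a ψ hψ * K.sec a g hg = K.sec a g hg * K.rt a (gch g⁻¹ ψ) hψ' := by
    refine K.eq_of_iota a fun x => ?_
    rw [mul_smul, mul_smul, K.rt_spec, K.sec_spec, K.sec_spec, K.rt_spec]
    ext q
    rw [tw_coeff, tw_coeff, tw_coeff, tw_coeff]
    simp [gch_apply, smul_mul']
  rw [mul_assoc, h1, inv_mul_cancel_left]

/-- separation of finitely many elements by finitely many coefficients -/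
lemma exists_sep (a : E) {S : Set Ω} (hS : S.Finite) :
    ∃ Q : Set ℚ, Q.Finite ∧ ∀ x ∈ S, ∀ y ∈ S,
      (∀ q ∈ Q, ((K.ι a).f x).coeff q = ((K.ι a).f y).coeff q) → x = y := by
  classical
  have h1 : ∀ p : Ω × Ω, ∃ q : ℚ, p.1 ≠ p.2 → ((K.ι a).f p.1).coeff q ≠ ((K.ι a).f p.2).coeff q := by
    rintro ⟨x, y⟩
    by_cases hxy : x = y
    · exact ⟨0, fun h => (h hxy).elim⟩
    · by_contra hcon
      push Not at hcon
      apply hxy
      apply (K.ι a).f.injective
      ext q
      exact (hcon q).2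
  choose f hf using h1
  refine ⟨f '' (S ×ˢ S), (hS.prod hS).image f, fun x hx y hy h => ?_⟩
  by_contra hxy
  exact hf (x, y) hxy (h _ ⟨(x, y), ⟨hx, hy⟩, rfl⟩)

/-- the section is smooth -/
lemma sec_smooth (a : E) {S : Set Ω} (hS : Stb G S) : ∃ S' : Set E, Stb G S' ∧
    ∀ (g g' : G) (hg : g • a = a) (hg' : g' • a = a), Agr S' g g' →
      Agr S (K.sec a g hg) (K.sec a g' hg') := by
  obtain ⟨Q, hQ, hQS⟩ := K.exists_sep a hS.1
  obtain ⟨S', hS', hS'stb⟩ := K.foE.exists_stb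
    (S := (fun p : Ω × ℚ => ((K.ι a).f p.1).coeff p.2) '' (S ×ˢ Q)) ((hS.1.prod hQ).image _)
  refine ⟨S', hS'stb, fun g g' hg hg' h s hs => ?_⟩
  refine hQS _ (hS.2 _ s hs) _ (hS.2 _ s hs) fun q hq => ?_
  rw [K.sec_spec, K.sec_spec, tw_coeff, tw_coeff]
  congr 1
  exact h _ (hS' ⟨(s, q), ⟨hs, hq⟩, rfl⟩)

/-- rotations are close to the identity when the character is trivial at `1/N` -/
lemma rt_smooth (a : E) {S : Set Ω} (hS : Stb G S) : ∃ N : ℕ, 0 < N ∧
    ∀ (ψ ψ' : AddChar ℚ E) (hψ : ψ 1 = 1) (hψ' : ψ' 1 = 1), ψ (1 / N) = ψ' (1 / N) →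
      Agr S (K.rt a ψ hψ) (K.rt a ψ' hψ') := by
  obtain ⟨Q, hQ, hQS⟩ := K.exists_sep a hS.1
  have hden : ∃ N : ℕ, 0 < N ∧ ∀ q ∈ Q, ∃ n : ℤ, q = n * (1 / N) := by
    refine Set.Finite.induction_on (motive := fun (Q : Set ℚ) _ => ∃ N : ℕ, 0 < N ∧ ∀ q ∈ Q, ∃ n : ℤ, q = n * (1 / N))
      Q hQ ⟨1, one_pos, by simp⟩ ?_
    rintro q Q _ _ ⟨N, hN, h⟩
    refine ⟨N * q.den, Nat.mul_pos hN q.pos, fun r hr => ?_⟩
    have hN' : (N : ℚ) ≠ 0 := Nat.cast_ne_zero.2 hN.ne'
    have hq' : (q.den : ℚ) ≠ 0 := Nat.cast_ne_zero.2 q.den_ne_zero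
    rcases Set.mem_insert_iff.1 hr with rfl | hr
    · refine ⟨r.num * N, ?_⟩
      push_cast
      have := Rat.num_div_den r
      field_simp
      exact (Rat.mul_den_eq_num r)
    · obtain ⟨n, hn⟩ := h r hr
      refine ⟨n * q.den, ?_⟩
      rw [hn]
      push_cast
      field_simp
  obtain ⟨N, hN, hNQ⟩ := hden
  refine ⟨N, hN, fun ψ ψ' hψ hψ' h s hs => ?_⟩
  refine hQS _ (hS.2 _ s hs) _ (hS.2 _ s hs) fun q hq => ?_
  rw [K.rt_spec, K.rt_spec, tw_coeff, tw_coeff]
  congr 1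
  obtain ⟨n, hn⟩ := hNQ q hq
  rw [hn]
  have h1 : ∀ ψ : AddChar ℚ E, ψ (n * (1 / N)) = ψ (1 / N) ^ n := by
    intro ψ
    have := AddChar.map_zsmul_eq_zpow ψ n (1 / N)
    rwa [zsmul_eq_mul] at this
  rw [h1, h1, h]

/-- elements fixed by the kernel -/
theorem fixed (p : ℕ) [ExpChar E p] (y : Ω) (hy : ∀ n ∈ kerN G E, n • y = y) :
    ∃ j : ℕ, ∃ P Q : Polynomial E, Polynomial.aeval K.z Q ≠ 0 ∧
      y ^ (p ^ j) * Polynomial.aeval K.z Q = Polynomial.aeval K.z P := by
  let F := IntermediateField.adjoin E {K.z}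
  haveI : ExpChar F p := expChar_of_injective_algebraMap (algebraMap E F).injective p
  haveI : Algebra.IsAlgebraic F Ω := by
    refine ⟨fun e => ?_⟩
    obtain ⟨q, hq, hqe⟩ := K.full.alg e
    let φ : Polynomial E →+* F := ((Polynomial.aeval (IntermediateField.AdjoinSimple.gen E K.z) :
      Polynomial E →ₐ[E] F) : Polynomial E →+* F)
    have hφ : Function.Injective φ := by
      have h1 : Transcendental E (IntermediateField.AdjoinSimple.gen E K.z) := by
        rw [← transcendental_algebraMap_iff (A := Ω) (algebraMap F Ω).injective]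
        exact K.full.tr
      exact transcendental_iff_injective.1 h1
    have hcomp : (algebraMap F Ω).comp φ =
        ((Polynomial.aeval K.z : Polynomial E →ₐ[E] Ω) : Polynomial E →+* Ω) := by
      refine RingHom.ext fun p => ?_
      exact (Polynomial.aeval_algebraMap_apply Ω (IntermediateField.AdjoinSimple.gen E K.z) p).symm
    refine ⟨q.map φ, (Polynomial.map_ne_zero_iff hφ).2 hq, ?_⟩
    rw [Polynomial.aeval_def, Polynomial.eval₂_map, hcomp]
    exact hqe
  obtain ⟨j, c, hc⟩ := pinsep_of_fixed (F := F) p y (by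
    intro σ
    have hE : ∀ e : E, σ (algebraMap E Ω e) = algebraMap E Ω e := fun e => σ.commutes (algebraMap E F e)
    obtain ⟨h, hh⟩ := K.full.ex σ.toRingEquiv 1 (fun e => by
      rw [one_smul]
      exact hE e) (σ.commutes (IntermediateField.AdjoinSimple.gen E K.z))
    have hk : h ∈ kerN G E := by
      intro e
      apply (algebraMap E Ω).injective
      rw [← K.full.comp, hh]
      exact hE e
    have h1 := hy h hk
    rw [hh] at h1
    exact h1)
  obtain ⟨P, Q, h1⟩ := (IntermediateField.mem_adjoin_simple_iff E (c : Ω)).1 c.2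
  by_cases hQ : Polynomial.aeval K.z Q = 0
  · refine ⟨j, 0, 1, by simp, ?_⟩
    rw [hQ, div_zero] at h1
    have h2 : algebraMap F Ω c = 0 := h1
    rw [← hc, h2, zero_mul, map_zero]
  · refine ⟨j, P, Q, hQ, ?_⟩
    have h2 : algebraMap F Ω c = Polynomial.aeval K.z P / Polynomial.aeval K.z Q := h1
    rw [← hc, h2, div_mul_cancel₀ _ hQ]

end KD

end kd

end Run7.h333
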