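import Pool.Agent.Run7.h333.Kummer

/-! Kummer theory: homomorphisms from the kernel are determined by their values on rotations. -/

set_option autoImplicit false
set_option linter.style.haveILetI false

namespace Run7.h333

open Polynomial Pool.Agent.TH952

variable {G E Ω M : Type} [Group G] [Field E] [IsAlgClosed E] [Field Ω] [IsAlgClosed Ω] [Algebra E Ω]
  [MulSemiringAction G E] [MulSemiringAction G Ω] [AddCommGroup M] [DistribMulAction G M]

namespace KD

variable {l : ℕ} (K : KD G E Ω M l)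

lemma smul_aeval (g : G) (P : Polynomial E) :
    g • Polynomial.aeval K.z P = Polynomial.aeval K.z (P.map (MulSemiringAction.toRingHom G E g)) := by
  change MulSemiringAction.toRingHom G Ω g (Polynomial.aeval K.z P) = _
  rw [Polynomial.aeval_def, Polynomial.aeval_def, Polynomial.hom_eval₂, Polynomial.eval₂_map]
  congr 1
  · refine RingHom.ext fun e => ?_
    exact K.full.comp g e
  · exact K.full.fix g

lemma ker_aeval {n : G} (hn : n ∈ kerN G E) (P : Polynomial E) :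
    n • Polynomial.aeval K.z P = Polynomial.aeval K.z P := by
  rw [K.smul_aeval]
  congr 1
  ext i
  rw [Polynomial.coeff_map]
  exact hn _

lemma iota_aeval (a : E) (P : Polynomial E) :
    (K.ι a).f (Polynomial.aeval K.z P) = P.eval₂ HahnSeries.C (za a) := by
  rw [Polynomial.aeval_def, Polynomial.hom_eval₂, (K.ι a).hz]
  congr 1
  refine RingHom.ext fun e => ?_
  exact (K.ι a).hE e

include K in
lemma coprime_pow (p : ℕ) [ExpChar E p] (j : ℕ) : Nat.Coprime (p ^ j) l := by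
  apply Nat.Coprime.pow_left
  rcases expChar_is_prime_or_one E p with hp | hp
  · rw [Nat.coprime_primes hp K.pr]
    rintro rfl
    have h1 : (p : E) = 0 := by
      cases ‹ExpChar E p› with
      | zero => exact absurd rfl hp.one_lt.ne'
      | prime _ => exact CharP.cast_eq_zero E p
    exact K.l0 h1
  · rw [hp]
    exact Nat.coprime_one_left l

omit [IsAlgClosed E] [IsAlgClosed Ω] [Algebra E Ω] [DistribMulAction G M] in
lemma hom_one (c : HomN G Ω E M) : c.1 1 = 0 := by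
  have := c.2.1 1 1
  rw [mul_one] at this
  exact left_eq_add.1 this

/-- Kummer theory -/
theorem kummer (c : HomN G Ω E M) (p : ℕ) [ExpChar E p] :
    ∃ w : Ω, w ≠ 0 ∧ ∃ r j : ℕ, ∃ P : Polynomial E, P ≠ 0 ∧
      w ^ (l ^ r * p ^ j) = Polynomial.aeval K.z P ∧
      ∀ n : kerN G E, (n : G) • w = algebraMap E Ω (K.v (c.1 n)) * w := by
  obtain ⟨S, hS, hc⟩ := c.2.2
  let N := kerN G E
  let φ : N → Ωˣ := fun n => Units.mk0 (algebraMap E Ω (K.v (c.1 n)))
    ((_root_.map_ne_zero _).2 (K.v_ne _))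
  have hφv : ∀ n, ((φ n : Ωˣ) : Ω) = algebraMap E Ω (K.v (c.1 n)) := fun _ => rfl
  obtain ⟨a, -, ha⟩ := h90 (P := N) (hS.restrict N) (⊤ : Subgroup N) le_top φ (by
    intro x _ y _
    apply Units.ext
    rw [Units.val_mul, hφv, hφv, ua_val, hφv, c.2.1, K.v_add, map_mul]
    congr 1
    exact (K.kerN_alg x.2 _).symm) (by
    intro n hn
    apply Units.ext
    have h1 : c.1 n = c.1 1 := hc n 1 hn
    rw [hφv, h1, hom_one, K.v_zero, map_one, Units.val_one])
  obtain ⟨r, hr⟩ := HomN.torsion K.tor c (HomN.finite c)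
  have hr' : ∀ n : N, K.v (c.1 n) ^ (l ^ r) = 1 := by
    intro n
    rw [← K.v_nsmul]
    have h1 : (l ^ r) • c.1 n = 0 := congrFun (congrArg Subtype.val hr) n
    rw [h1, K.v_zero]
  have hw0 : ∀ n : N, (n : G) • ((a⁻¹ : Ωˣ) : Ω) = algebraMap E Ω (K.v (c.1 n)) * ((a⁻¹ : Ωˣ) : Ω) := by
    intro n
    have h1 := ha n (Subgroup.mem_top n)
    have h2 : ua n a⁻¹ = φ n * a⁻¹ := by
      rw [h1, map_inv, mul_comm a, mul_inv_cancel_right]
    have h3 := congrArg Units.val h2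
    rw [ua_val, Units.val_mul, hφv] at h3
    exact h3
  set w₀ : Ω := ((a⁻¹ : Ωˣ) : Ω) with hw₀
  have hw₀ne : w₀ ≠ 0 := (a⁻¹).ne_zero
  obtain ⟨j, P, Q, hQ, hPQ⟩ := K.fixed p (w₀ ^ (l ^ r)) (by
    intro n hn
    rw [smul_pow', hw0 ⟨n, hn⟩, mul_pow, ← map_pow, hr', map_one, one_mul])
  have hNpos : 0 < l ^ r * p ^ j := Nat.mul_pos (pow_pos K.pr.pos r) (pow_pos (expChar_pos E p) j)
  have hP0 : P ≠ 0 := by
    rintro rfl
    rw [map_zero] at hPQ
    rcases mul_eq_zero.1 hPQ with h | h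
    · exact hw₀ne (pow_eq_zero_iff (pow_ne_zero r K.pr.ne_zero) |>.1
        (pow_eq_zero_iff (pow_ne_zero j (expChar_pos E p).ne') |>.1 h))
    · exact hQ h
  have hQ0 : Q ≠ 0 := by
    rintro rfl
    rw [map_zero] at hQ
    exact hQ rfl
  refine ⟨w₀ * Polynomial.aeval K.z Q, mul_ne_zero hw₀ne hQ, r, j, P * Q ^ (l ^ r * p ^ j - 1),
    mul_ne_zero hP0 (pow_ne_zero _ hQ0), ?_, ?_⟩
  · rw [map_mul, map_pow, ← hPQ, mul_pow, ← pow_mul, mul_assoc (w₀ ^ (l ^ r * p ^ j)), ← pow_succ']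
    congr 2
    omega
  · intro n
    rw [smul_mul', hw0 n, K.ker_aeval n.2, mul_assoc]

lemma order_of_pow (a : E) {w : Ω} {N : ℕ} {P : Polynomial E} (hP : P ≠ 0)
    (h : w ^ N = Polynomial.aeval K.z P) :
    (N : ℚ) * ((K.ι a).f w).order = P.rootMultiplicity a := by
  have h1 := congrArg (K.ι a).f h
  rw [map_pow, K.iota_aeval] at h1
  have h2 := congrArg HahnSeries.order h1
  rw [order_za a hP, HahnSeries.order_pow] at h2
  rw [← h2, nsmul_eq_mul]

/-- values of Kummer characters on rotations -/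
lemma val (a : E) {ψ : AddChar ℚ E} (hψ : ψ 1 = 1) {w : Ω} (hw : w ≠ 0) {e : E}
    (h : K.rt a ψ hψ • w = algebraMap E Ω e * w) : ψ ((K.ι a).f w).order = e := by
  have h1 := congrArg (K.ι a).f h
  rw [K.rt_spec, map_mul, (K.ι a).hE] at h1
  have h2 := congrArg (fun s : Hah E => s.coeff ((K.ι a).f w).order) h1
  simp only [tw_coeff] at h2
  rw [HahnSeries.C_mul_eq_smul, HahnSeries.coeff_smul, smul_eq_mul] at h2
  have h3 : ((K.ι a).f w).coeff ((K.ι a).f w).order ≠ 0 :=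
    HahnSeries.coeff_order_eq_zero.not.2 ((_root_.map_ne_zero _).2 hw)
  exact mul_right_cancel₀ h3 h2

/-- the value at the rotation at `a` -/
noncomputable def va (a : E) (c : HomN G Ω E M) : M := c.1 ⟨K.rt a K.χ K.χ1, K.rt_ker a K.χ K.χ1⟩

lemma va_add (a : E) (c c' : HomN G Ω E M) : K.va a (c + c') = K.va a c + K.va a c' := rfl

lemma va_sub (a : E) (c c' : HomN G Ω E M) : K.va a (c - c') = K.va a c - K.va a c' := rfl

/-- equivariance -/
theorem va_smul (g : G) (a : E) (c : HomN G Ω E M) :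
    K.v (K.va (g • a) (g • c)) = g • K.v (K.va a c) := by
  obtain ⟨p, hp⟩ := ExpChar.exists E
  obtain ⟨w, hw, r, j, P, hP, hwP, hwn⟩ := K.kummer c p
  have hgw : g • w ≠ 0 := by rwa [ne_eq, smul_eq_zero_iff_eq]
  have hNpos : 0 < l ^ r * p ^ j := Nat.mul_pos (pow_pos K.pr.pos r) (pow_pos (expChar_pos E p) j)
  have h1 : ∀ n : kerN G E, (n : G) • (g • w) =
      algebraMap E Ω (g • K.v (c.1 (cj g n))) * (g • w) := by
    intro n
    have h2 := congrArg (fun x => g • x) (hwn (cj g n))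
    simp only [smul_mul', K.full.comp] at h2
    rw [← h2, ← mul_smul, ← mul_smul, cj_val]
    congr 1
    group
  have h3 := K.val (g • a) K.χ1 hgw (h1 ⟨K.rt (g • a) K.χ K.χ1, K.rt_ker _ _ _⟩)
  have h4 := K.val a K.χ1 hw (hwn ⟨K.rt a K.χ K.χ1, K.rt_ker _ _ _⟩)
  have h5 : ((K.ι (g • a)).f (g • w)).order = ((K.ι a).f w).order := by
    have h6 := K.order_of_pow a hP hwP
    have hP' : P.map (MulSemiringAction.toRingHom G E g) ≠ 0 :=
      (Polynomial.map_ne_zero_iff (RingHom.injective _)).2 hP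
    have h7 := K.order_of_pow (g • a) (w := g • w) (N := l ^ r * p ^ j) hP' (by
      rw [← smul_pow', hwP, K.smul_aeval])
    have h8 : (P.map (MulSemiringAction.toRingHom G E g)).rootMultiplicity (g • a) =
        P.rootMultiplicity a :=
      (Polynomial.eq_rootMultiplicity_map (f := MulSemiringAction.toRingHom G E g)
        (RingHom.injective _) a).symm
    rw [h8, ← h6] at h7
    exact mul_left_cancel₀ (Nat.cast_ne_zero.2 hNpos.ne') h7
  rw [h5, h4] at h3
  change K.v (g • c.1 (cj g _)) = g • K.v (c.1 _)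
  rw [K.v_act, ← h3]

/-- finiteness of the support -/
theorem va_finite (c : HomN G Ω E M) : {a : E | K.va a c ≠ 0}.Finite := by
  classical
  obtain ⟨p, hp⟩ := ExpChar.exists E
  obtain ⟨w, hw, r, j, P, hP, hwP, hwn⟩ := K.kummer c p
  have hNpos : 0 < l ^ r * p ^ j := Nat.mul_pos (pow_pos K.pr.pos r) (pow_pos (expChar_pos E p) j)
  refine (Multiset.finite_toSet P.roots).subset ?_
  intro a ha
  change a ∈ P.roots
  rw [Polynomial.mem_roots hP]
  by_contra hr
  apply ha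
  have h1 : P.rootMultiplicity a = 0 := Polynomial.rootMultiplicity_eq_zero hr
  have h2 := K.order_of_pow a hP hwP
  rw [h1, Nat.cast_zero] at h2
  have h3 : ((K.ι a).f w).order = 0 := by
    rcases mul_eq_zero.1 h2 with h | h
    · exact absurd h (Nat.cast_ne_zero.2 hNpos.ne')
    · exact h
  have h4 := K.val a K.χ1 hw (hwn ⟨K.rt a K.χ K.χ1, K.rt_ker _ _ _⟩)
  rw [h3, AddChar.map_zero_eq_one] at h4
  exact K.v_inj (by rw [K.v_zero]; exact h4.symm)

/-- injectivity -/
theorem va_inj (c : HomN G Ω E M) (h : ∀ a, K.va a c = 0) : c = 0 := by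
  classical
  obtain ⟨p, hp⟩ := ExpChar.exists E
  obtain ⟨w, hw, r, j, P, hP, hwP, hwn⟩ := K.kummer c p
  have hppos : 0 < p ^ j := pow_pos (expChar_pos E p) j
  have hlpos : 0 < l ^ r := pow_pos K.pr.pos r
  have hNpos : 0 < l ^ r * p ^ j := Nat.mul_pos hlpos hppos
  have hdvd : ∀ a, l ^ r ∣ P.rootMultiplicity a := by
    intro a
    have h2 := K.order_of_pow a hP hwP
    have h4 := K.val a K.χ1 hw (hwn ⟨K.rt a K.χ K.χ1, K.rt_ker _ _ _⟩)
    have h5 : K.v (c.1 ⟨K.rt a K.χ K.χ1, K.rt_ker _ _ _⟩) = 1 := by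
      have := h a
      change c.1 _ = 0 at this
      rw [this, K.v_zero]
    rw [h5] at h4
    have h6 : ((K.ι a).f w).order * (p ^ j : ℕ) = (P.rootMultiplicity a : ℚ) * (1 / (l : ℚ) ^ r) := by
      have hl' : (l : ℚ) ^ r ≠ 0 := by exact_mod_cast hlpos.ne'
      rw [← h2]
      push_cast
      field_simp
    have h7 : K.χ (((K.ι a).f w).order * (p ^ j : ℕ)) = 1 := by
      have := AddChar.map_nsmul_eq_pow K.χ (p ^ j) (((K.ι a).f w).order)
      rw [nsmul_eq_mul, mul_comm] at this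
      rw [this, h4, one_pow]
    rw [h6] at h7
    have h8 := AddChar.map_nsmul_eq_pow K.χ (P.rootMultiplicity a) (1 / (l : ℚ) ^ r)
    rw [nsmul_eq_mul, h7] at h8
    exact (K.χp r).dvd_of_pow_eq_one _ h8.symm
  -- the polynomial is a constant times a power
  let h₀ : Polynomial E := ∏ a ∈ P.roots.toFinset, (X - C a) ^ (P.rootMultiplicity a / l ^ r)
  obtain ⟨d, hd⟩ := IsAlgClosed.exists_pow_nat_eq P.leadingCoeff hlpos
  have hPh : P = (C d * h₀) ^ (l ^ r) := by
    have h1 := (IsAlgClosed.splits P).eq_prod_roots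
    rw [Finset.prod_multiset_map_count] at h1
    conv_lhs => rw [h1]
    rw [mul_pow, ← C_pow, hd, ← Finset.prod_pow]
    congr 1
    refine Finset.prod_congr rfl fun a _ => ?_
    rw [← pow_mul, Nat.div_mul_cancel (hdvd a), Polynomial.count_roots]
  have hroot : (w ^ (p ^ j)) ^ (l ^ r) = (Polynomial.aeval K.z (C d * h₀)) ^ (l ^ r) := by
    rw [← pow_mul, mul_comm, hwP, ← map_pow, ← hPh]
  set H : Ω := Polynomial.aeval K.z (C d * h₀) with hH
  have hH0 : H ≠ 0 := by
    intro h0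
    rw [h0, zero_pow hlpos.ne'] at hroot
    exact pow_ne_zero _ (pow_ne_zero _ hw) hroot
  haveI : NeZero (l ^ r) := ⟨hlpos.ne'⟩
  -- roots of unity come from `E`
  have hζ : ∃ ζ : E, w ^ (p ^ j) = algebraMap E Ω ζ * H := by
    have h1 : (w ^ (p ^ j) / H) ^ (l ^ r) = 1 := by
      rw [div_pow, hroot, div_self (pow_ne_zero _ hH0)]
    obtain ⟨i, _, hi⟩ := ((K.χp r).map_of_injective (algebraMap E Ω).injective).eq_pow_of_pow_eq_one h1
    refine ⟨K.χ (1 / (l : ℚ) ^ r) ^ i, ?_⟩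
    rw [map_pow, hi, div_mul_cancel₀ _ hH0]
  obtain ⟨ζ, hζ⟩ := hζ
  apply Subtype.ext
  funext n
  change c.1 n = 0
  apply K.v_inj
  rw [K.v_zero]
  have h1 : K.v (c.1 n) ^ (p ^ j) = 1 := by
    have h2 : (n : G) • (w ^ (p ^ j)) = w ^ (p ^ j) := by
      rw [hζ, smul_mul', K.kerN_alg n.2, K.ker_aeval n.2]
    rw [smul_pow', hwn n, mul_pow, ← map_pow] at h2
    have h3 : algebraMap E Ω (K.v (c.1 n) ^ (p ^ j)) = 1 :=
      mul_right_cancel₀ (pow_ne_zero _ hw) (by rw [one_mul]; exact h2)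
    exact (algebraMap E Ω).injective (by rw [h3, map_one])
  obtain ⟨m, hm⟩ := K.v_tor (c.1 n)
  have h4 : Nat.Coprime (p ^ j) (l ^ m) := (K.coprime_pow p j).pow_right m
  have h5 := pow_gcd_eq_one.2 ⟨h1, hm⟩
  rw [h4.gcd_eq_one, pow_one] at h5
  exact h5

/-- surjectivity -/
theorem va_surj (f : E → M) (hf : {a | f a ≠ 0}.Finite) : ∃ c : HomN G Ω E M, ∀ a, K.va a c = f a := by
  classical
  obtain ⟨r, hr⟩ := exists_exp K.tor (hf.image f)
  have hlpos : 0 < l ^ r := pow_pos K.pr.pos r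
  have hr' : ∀ a, K.v (f a) ^ (l ^ r) = 1 := by
    intro a
    rw [← K.v_nsmul]
    by_cases ha : f a = 0
    · rw [ha, smul_zero, K.v_zero]
    · rw [hr _ ⟨a, ha, rfl⟩, K.v_zero]
  haveI : NeZero (l ^ r) := ⟨hlpos.ne'⟩
  have hex : ∀ a, ∃ i : ℕ, (f a = 0 → i = 0) ∧ K.χ (1 / (l : ℚ) ^ r) ^ i = K.v (f a) := by
    intro a
    by_cases ha : f a = 0
    · exact ⟨0, fun _ => rfl, by rw [ha, pow_zero, K.v_zero]⟩
    · obtain ⟨i, _, hi⟩ := (K.χp r).eq_pow_of_pow_eq_one (hr' a)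
      exact ⟨i, fun h => (ha h).elim, hi⟩
  choose e he0 he using hex
  let P : Polynomial E := ∏ a ∈ hf.toFinset, (X - C a) ^ e a
  have hP : P ≠ 0 := Finset.prod_ne_zero_iff.2 fun a _ => pow_ne_zero _ (X_sub_C_ne_zero a)
  obtain ⟨w, hw⟩ := IsAlgClosed.exists_pow_nat_eq (Polynomial.aeval K.z P) hlpos
  have haP : Polynomial.aeval K.z P ≠ 0 := fun h => K.full.tr ⟨P, hP, h⟩
  have hw0 : w ≠ 0 := by
    rintro rfl
    rw [zero_pow hlpos.ne'] at hw
    exact haP hw.symm
  have hmult : ∀ a, P.rootMultiplicity a = e a := by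
    intro a
    rw [← Polynomial.count_roots]
    have h1 : P.roots.count a = ∑ b ∈ hf.toFinset, e b * (if a = b then 1 else 0) := by
      change (∏ a ∈ hf.toFinset, (X - C a) ^ e a).roots.count a = _
      rw [Polynomial.roots_prod _ _ hP, Multiset.count_bind]
      change ∑ b ∈ hf.toFinset, Multiset.count a ((X - C b) ^ e b).roots = _
      refine Finset.sum_congr rfl fun b _ => ?_
      rw [Polynomial.roots_pow, Polynomial.roots_X_sub_C, Multiset.count_nsmul, Multiset.count_singleton]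
    rw [h1]
    by_cases ha : f a = 0
    · rw [he0 a ha]
      refine Finset.sum_eq_zero fun b hb => ?_
      have : a ≠ b := by
        rintro rfl
        exact (hf.mem_toFinset.1 hb) ha
      rw [if_neg this, mul_zero]
    · rw [Finset.sum_eq_single a]
      · simp
      · intro b _ hb
        rw [if_neg hb.symm, mul_zero]
      · intro h
        exact absurd (hf.mem_toFinset.2 ha) h
  -- the character
  have hexn : ∀ n : kerN G E, ∃ m : M, (n : G) • w = algebraMap E Ω (K.v m) * w := by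
    intro n
    have h1 : ((n : G) • w / w) ^ (l ^ r) = 1 := by
      rw [div_pow, ← smul_pow', hw, K.ker_aeval n.2, div_self haP]
    obtain ⟨i, _, hi⟩ := ((K.χp r).map_of_injective (algebraMap E Ω).injective).eq_pow_of_pow_eq_one h1
    obtain ⟨m, hm⟩ := K.v_sur (K.χ (1 / (l : ℚ) ^ r) ^ i) ⟨r, by
      rw [← pow_mul, mul_comm, pow_mul, (K.χp r).pow_eq_one, one_pow]⟩
    refine ⟨m, ?_⟩
    rw [hm, map_pow, hi, div_mul_cancel₀ _ hw0]
  choose χ hχ using hexn
  have hinj : ∀ m m' : M, algebraMap E Ω (K.v m) * w = algebraMap E Ω (K.v m') * w → m = m' :=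
    fun m m' h => K.v_inj ((algebraMap E Ω).injective (mul_right_cancel₀ hw0 h))
  obtain ⟨S, hwS, hS⟩ := K.foΩ.exists_stb (Set.finite_singleton w)
  let c : HomN G Ω E M := ⟨χ, fun a b => by
    apply hinj
    rw [← hχ, Subgroup.coe_mul, mul_smul, hχ, smul_mul', hχ, K.kerN_alg a.2, K.v_add, map_mul]
    ring, S, hS, fun a b hab => by
    apply hinj
    rw [← hχ, ← hχ]
    exact hab _ (hwS rfl)⟩
  refine ⟨c, fun a => ?_⟩
  have h2 := K.order_of_pow a hP hw
  rw [hmult] at h2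
  have h4 := K.val a K.χ1 hw0 (hχ ⟨K.rt a K.χ K.χ1, K.rt_ker _ _ _⟩)
  have h5 : ((K.ι a).f w).order = (e a : ℚ) * (1 / (l : ℚ) ^ r) := by
    rw [← h2]
    have hl' : (l : ℚ) ^ r ≠ 0 := by exact_mod_cast hlpos.ne'
    push_cast
    field_simp
  have h6 := AddChar.map_nsmul_eq_pow K.χ (e a) (1 / (l : ℚ) ^ r)
  rw [nsmul_eq_mul, ← h5, h4, he] at h6
  exact K.v_inj h6

end KD

end Run7.h333
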