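import Pool.Agent.Run7.h333.Geo2

/-! The main vanishing theorem in terms of subfields of an algebraically closed field. -/

set_option autoImplicit false
set_option linter.style.haveILetI false
set_option linter.unusedSectionVars false

namespace Run7.h333

section main

variable {Ω M : Type} [Field Ω] [IsAlgClosed Ω] [AddCommGroup M]

/-- the field generated by the variables and the Artin-Schreier elements -/
def LL (F : Type) {Ω : Type} [Field F] [Field Ω] [Algebra F Ω] (x : Fin 3 → Ω) {J : Type}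
    (w : J → Ω) : Subfield Ω :=
  (IntermediateField.adjoin (PP F x) (Set.range w)).toSubfield

omit [IsAlgClosed Ω] in
lemma LL_le {F : Type} [Field F] [Algebra F Ω] {x : Fin 3 → Ω} {J : Type} {w : J → Ω}
    {A : Subfield Ω} (hA : PP F x ≤ A) (hw : ∀ j, w j ∈ A) : LL F x w ≤ A := by
  let A' : IntermediateField (PP F x) Ω := { A with algebraMap_mem' := fun c => hA c.2 }
  have h1 : IntermediateField.adjoin (PP F x) (Set.range w) ≤ A' := by
    rw [IntermediateField.adjoin_le_iff]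
    rintro _ ⟨i, rfl⟩
    exact hw i
  exact fun y hy => h1 hy

omit [IsAlgClosed Ω] in
lemma PP_le_LL {F : Type} [Field F] [Algebra F Ω] (x : Fin 3 → Ω) {J : Type} (w : J → Ω) :
    PP F x ≤ LL F x w := fun y hy =>
  (IntermediateField.adjoin (PP F x) (Set.range w)).algebraMap_mem ⟨y, hy⟩

omit [IsAlgClosed Ω] in
lemma mem_LL {F : Type} [Field F] [Algebra F Ω] (x : Fin 3 → Ω) {J : Type} (w : J → Ω) (j : J) :
    w j ∈ LL F x w := IntermediateField.subset_adjoin _ _ ⟨j, rfl⟩

omit [IsAlgClosed Ω] in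
lemma cst_val (p : ℕ) [Fact p.Prime] [CharP Ω p] (c : ZMod p) : (cst p c : Ω) = (c.val : Ω) := by
  have h1 : c = ((c.val : ℕ) : ZMod p) := (ZMod.natCast_zmod_val c).symm
  conv_lhs => rw [h1]
  exact map_natCast _ _

theorem main_van {l p : ℕ} (hl : l.Prime) (hl0 : (l : Ω) ≠ 0) [Fact p.Prime] [CharP Ω p]
    {Kb : Type} [Field Kb] [Algebra Kb Ω] [Algebra.IsAlgebraic Kb Ω]
    {Γ : Type} [Group Γ] [MulSemiringAction Γ Ω] [DistribMulAction Γ M]
    (hΓ : IsGal Γ (algebraMap Kb Ω).fieldRange)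
    {F : Type} [Field F] [Finite F] [Algebra F Ω] {x : Fin 3 → Ω} (hx : AlgebraicIndependent F x)
    {G : Type} [Group G] [MulSemiringAction G Ω] [DistribMulAction G M] (hG : IsGal G (PP F x))
    {J : Type} [Fintype J] [Nonempty J] (w : J → Ω) (g : J → MvPolynomial (Fin 3) F)
    (hw : ∀ j, w j ^ p - w j = MvPolynomial.aeval x (g j))
    (hgood : ∀ χ : J → ZMod p, χ ≠ 0 → GoodEq p (∑ j, (χ j).val • g j))
    (hKL : ∀ y : Kb, algebraMap Kb Ω y ∈ LL F x w)
    (R : Subgroup Γ) (hR : ∀ γ : Γ, (∀ y ∈ LL F x w, γ • y = y) → γ ∈ R)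
    (hR' : ∀ γ ∈ R, ∀ y ∈ LL F x w, γ • y = y) (hR0 : R.index ≠ 0) (hRl : R.index.Coprime l)
    (cfΓ : Cf Γ Ω M l) (cf : Cf G Ω M l) (hcf : cf.v = cfΓ.v)
    {f : Γ → Γ → Γ → Γ → M} (hf : Sm4 Ω f) (hfe : Eq4 ⊤ f) (hfd : d4 f = 0)
    (hun : ∀ B : ValuationSubring Ω, IsDiscreteValuationRing (B.comap (algebraMap Kb Ω)) → LU B f) :
    ∃ β : Γ → Γ → Γ → M, Sm3 Ω β ∧ Eq3 ⊤ β ∧ f = d3 β := by
  classical
  have hp : p.Prime := Fact.out
  have hlp : p.Coprime l := by
    rw [Nat.coprime_primes hp hl]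
    rintro rfl
    exact hl0 (CharP.cast_eq_zero Ω p)
  have hfoG := hG.finO
  have hfoΓ := hΓ.finO
  have hw' : ∀ (j : J) (s : G), s • (w j ^ p - w j) = w j ^ p - w j := by
    intro j s
    rw [hw]
    exact hG.fix s _ (aeval_mem (algebraMap_mem_PP x) (mem_PP x) (g j))
  let N : Subgroup G := NN p w hw'
  obtain ⟨n, hN⟩ := NN_index p w hw'
  have hN0 : N.index ≠ 0 := by rw [hN]; exact pow_ne_zero n hp.ne_zero
  haveI : N.FiniteIndex := ⟨hN0⟩
  haveI : Finite (G ⧸ N) := Subgroup.finite_quotient_of_finiteIndex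
  obtain ⟨S₀, hS₀w, hS₀⟩ := hfoG.exists_stb (Set.finite_range w)
  have hNS : ∀ s : G, Agr S₀ s 1 → s ∈ N := by
    intro s hs
    rw [mem_NN']
    intro j
    have := hs (w j) (hS₀w ⟨j, rfl⟩)
    rwa [one_smul] at this
  have hNL : ∀ s ∈ N, ∀ y ∈ LL F x w, s • y = y := by
    intro s hs y hy
    have h1 : LL F x w ≤ fixF s := LL_le (fun c hc => hG.fix s c hc) fun j => (mem_NN' p w hw').1 hs j
    exact h1 hy
  -- the homomorphism to the big group
  have hex : ∀ s : N, ∃ γ : Γ, ∀ y : Ω, γ • y = s • y := by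
    intro s
    refine hΓ.ex (MulSemiringAction.toRingEquiv G Ω (s : G)) ?_
    rintro _ ⟨y, rfl⟩
    exact hNL s s.2 _ (hKL y)
  choose i hi using hex
  let ι : N →* Γ :=
    { toFun := i
      map_one' := hΓ.faithful _ _ fun y => by rw [hi, one_smul, one_smul]
      map_mul' := fun a b => hΓ.faithful _ _ fun y => by rw [hi, mul_smul, mul_smul, hi, hi] }
  have hι : ∀ (s : N) (y : Ω), ι s • y = s • y := hi
  have hιM : ∀ (s : N) (m : M), ι s • m = s • m := by
    intro s m
    apply cfΓ.v_inj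
    rw [cfΓ.v_act, hι, hι, ← hcf]
    exact (cf.v_act (s : G) m).symm
  have hιR : ι.range = R := by
    apply le_antisymm
    · rintro _ ⟨s, rfl⟩
      refine hR _ fun y hy => ?_
      rw [hι]
      exact hNL s s.2 y hy
    · intro γ hγ
      obtain ⟨s, hs⟩ := hG.ex (MulSemiringAction.toRingEquiv Γ Ω γ)
        (fun c hc => hR' γ hγ c (PP_le_LL x w hc))
      have hsN : s ∈ N := (mem_NN' p w hw').2 fun j => (hs (w j)).trans (hR' γ hγ _ (mem_LL x w j))
      refine ⟨⟨s, hsN⟩, hΓ.faithful _ _ fun y => ?_⟩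
      rw [hι]
      exact hs y
  -- transcendence degree
  have h3 : (3 : Cardinal.{0}) ≤ Algebra.trdeg (algebraMap F Ω).fieldRange Ω := by
    have h4 : AlgebraicIndependent (algebraMap F Ω).fieldRange (⇑(RingHom.id Ω) ∘ x) :=
      hx.ringHom_of_comp_eq (algebraMap F Ω).rangeRestrictField (RingHom.id Ω)
        (RingHom.rangeRestrictField_bijective _).2 (RingHom.id Ω).injective (RingHom.ext fun _ => rfl)
    have h5 := h4.cardinalMk_le_trdeg
    simpa using h5
  -- degrees
  let LP := IntermediateField.adjoin (PP F x) (Set.range w)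
  have hwint : ∀ y ∈ Set.range w, IsIntegral (PP F x) y := by
    rintro _ ⟨j, rfl⟩
    exact (hG.alg (w j)).isIntegral
  haveI : Finite (Set.range w) := Set.finite_range w
  haveI : FiniteDimensional (PP F x) LP := IntermediateField.finiteDimensional_adjoin hwint
  have hj : ∀ y : Kb, ∃ q : Polynomial (PP F x), q ≠ 0 ∧
      q.natDegree ≤ Module.finrank (PP F x) LP ∧ Polynomial.aeval (algebraMap Kb Ω y) q = 0 := by
    intro y
    let y' : LP := ⟨algebraMap Kb Ω y, hKL y⟩
    have hy' : IsIntegral (PP F x) y' := Algebra.IsIntegral.isIntegral y'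
    refine ⟨minpoly (PP F x) y', minpoly.ne_zero hy', minpoly.natDegree_le y', ?_⟩
    have h6 := minpoly.aeval (PP F x) y'
    have h7 := congrArg (algebraMap LP Ω) h6
    rw [map_zero, ← Polynomial.aeval_algebraMap_apply] at h7
    exact h7
  have halg : ∀ ω : Ω, ∃ q : Polynomial Kb, q ≠ 0 ∧ q.eval₂ (algebraMap Kb Ω) ω = 0 := fun ω =>
    Algebra.IsAlgebraic.isAlgebraic (R := Kb) ω
  -- vanishing for the intermediate groups
  have hVgood : ∀ H : Subgroup G, GoodH (PP F x) H → Van N M (BsOf G (algebraMap Kb Ω)) H := by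
    rintro H ⟨K0, ⟨T⟩, hG', hPK⟩
    refine van_of_tower hl hl0 cf p hG N hN (H := H) (H' := H) le_rfl ?_ ?_ hG' T hPK
      (algebraMap Kb Ω) _ hj halg
    · rw [Subgroup.subgroupOf_self, Subgroup.index_top]
      exact one_ne_zero
    · rw [Subgroup.subgroupOf_self, Subgroup.index_top]
      exact Nat.coprime_one_left l
  have hVt : Van N M (BsOf G (algebraMap Kb Ω)) ⊤ := by
    refine hVgood ⊤ (good_top p hG h3 (u := fun _ => 1) ?_ (W := 0) 0 ?_ ⊤ fun s => ?_)
    · intro h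
      exact one_ne_zero (congrFun h 0)
    · rw [map_zero, zero_pow hp.ne_zero, sub_zero]
    · simp
  have hV : ∀ v : Projectivization (ZMod p) (J → ZMod p),
      Van N M (BsOf G (algebraMap Kb Ω)) (HH p w hw' v.rep) := by
    intro v
    refine hVgood _ (good_of_eq p hG h3 hx (hgood v.rep v.rep_nonzero) (W := ww p w v.rep) ?_ _
      fun s => mem_HH' p w hw')
    rw [ww_pow, map_sum]
    refine Finset.sum_congr rfl fun j _ => ?_
    rw [hw, cst_val, map_nsmul, nsmul_eq_mul]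
  obtain ⟨n0, hcard, hline⟩ := hyper_count (p := p) (J := J)
  -- the restricted cocycle
  obtain ⟨S, hS, hfS⟩ := hf
  obtain ⟨S', hSS', hS'⟩ := hfoG.exists_stb hS.1
  have hfN : Sm4 (G := N) Ω fun x y z w => f (ι x) (ι y) (ι z) (ι w) := by
    refine ⟨S', hS'.restrict N, fun x x' y y' z z' u u' hx hy hz hu => ?_⟩
    have hag : ∀ a b : N, Agr S' a b → Agr S (ι a) (ι b) := fun a b hab s hs => by
      rw [hι, hι]
      exact hab s (hSS' hs)
    exact hfS _ _ _ _ _ _ _ _ (hag _ _ hx) (hag _ _ hy) (hag _ _ hz) (hag _ _ hu)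
  obtain ⟨β, ⟨T, hT, hβT⟩, hβe, hβ⟩ := norm_van N (l := l) hfoG hS₀ hNS (cf.tor hl)
    (BsOf G (algebraMap Kb Ω)) (fun B hB s => BsOf_tr _ hB s)
    (fun v : Projectivization (ZMod p) (J → ZMod p) => HH p w hw' v.rep) n0
    (p ^ (Fintype.card J - 1))
    (fun s hs => hline _ fun h => hs ((mem_NN p w hw').2 h)) (fun v => NN_le_HH p w hw' v.rep) hcard
    (hlp.pow_left _) hV hVt hfN
    (fun s x y z u => by
      rw [map_mul, map_mul, map_mul, map_mul, hfe _ (Subgroup.mem_top _), hιM])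
    (by
      funext x y z u v
      exact congrFun (congrFun (congrFun (congrFun (congrFun hfd (ι x)) (ι y)) (ι z)) (ι u)) (ι v))
    (fun B hB => LU.pull ι hι hιM (hfoG.restrict N) (hun B (by
      have h8 := hB 1
      have h9 : trB (1 : G) B = B := by
        ext y
        rw [mem_trB, one_smul]
      exact dvr_congr (by rw [h9]) h8)))
  obtain ⟨T', hTT', hT'⟩ := hfoΓ.exists_stb hT.1
  obtain ⟨β', hβ'1, hβ'2, hβ'3⟩ := lemmaA3 (A := M) (J := N) ι hS hT' hfS
    (fun s x y z u => by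
      rw [hfe _ (Subgroup.mem_top _), hιM]) hfd (b := β)
    (fun x x' y y' z z' hx hy hz => hβT _ _ _ _ _ _
      (fun s hs => by rw [← hι, ← hι]; exact hx s (hTT' hs))
      (fun s hs => by rw [← hι, ← hι]; exact hy s (hTT' hs))
      (fun s hs => by rw [← hι, ← hι]; exact hz s (hTT' hs)))
    hβe (fun x y z u => congrFun (congrFun (congrFun (congrFun hβ x) y) z) u)
  refine inv_avg3 (cfΓ.tor hl) (J := ⊤) (P := ι.range.subgroupOf ⊤) ?_ ?_ ⟨S, hS, hfS⟩ hfe ?_ hβ'3
    (hS.union hT') hβ'1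
  · change ι.range.relIndex ⊤ ≠ 0
    rw [Subgroup.relIndex_top_right, hιR]
    exact hR0
  · change (ι.range.relIndex ⊤).Coprime l
    rw [Subgroup.relIndex_top_right, hιR]
    exact hRl
  · rintro ⟨q, hq⟩ hq' x y z
    obtain ⟨s, hs⟩ := hq'
    change β' (q * x) (q * y) (q * z) = q • β' x y z
    have hs' : ι s = q := hs
    rw [← hs', hβ'2, hιM]

end main

end Run7.h333
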