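import Pool.Agent.Run7.h333.Val

/-! Norms from a normal open subgroup and the hyperplane identity. -/

set_option autoImplicit false
set_option linter.style.haveILetI false
set_option linter.unusedSectionVars false

namespace Run7.h333

section retr

variable {G Ω : Type} [Group G] [Field Ω] [MulSemiringAction G Ω] (N : Subgroup G) [N.Normal]

open Classical in
/-- chosen representative of a coset -/
noncomputable def rr (g : G) : G := if g ∈ N then 1 else Quotient.out (QuotientGroup.mk g : G ⧸ N)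

lemma rr_spec (g : G) : g * (rr N g)⁻¹ ∈ N := by
  unfold rr
  split_ifs with h
  · simpa using h
  · obtain ⟨n, hn⟩ := QuotientGroup.mk_out_eq_mul N g
    rw [hn, mul_inv_rev, ← mul_assoc]
    exact ‹N.Normal›.conj_mem _ (N.inv_mem n.2) g

lemma rr_eq {g h : G} (hgh : g⁻¹ * h ∈ N) : rr N g = rr N h := by
  have h1 : (QuotientGroup.mk g : G ⧸ N) = QuotientGroup.mk h := QuotientGroup.eq.2 hgh
  have h2 : g ∈ N ↔ h ∈ N := by
    constructor
    · intro hg
      have := N.mul_mem hg hgh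
      rwa [mul_inv_cancel_left] at this
    · intro hh
      have := N.mul_mem hh (N.inv_mem hgh)
      rwa [mul_inv_rev, inv_inv, mul_inv_cancel_left] at this
  unfold rr
  rw [h1]
  split_ifs with h3 h4 h4
  · rfl
  · exact absurd (h2.1 h3) h4
  · exact absurd (h2.2 h4) h3
  · rfl

/-- exact equivariant retraction onto an open normal subgroup -/
noncomputable def ret (g : G) : N := ⟨g * (rr N g)⁻¹, rr_spec N g⟩

lemma ret_mul (n : N) (g : G) : ret N (n * g) = n * ret N g := by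
  apply Subtype.ext
  change (n : G) * g * (rr N (n * g))⁻¹ = n * (g * (rr N g)⁻¹)
  have h1 : rr N (n * g) = rr N g := by
    refine rr_eq N ?_
    rw [mul_inv_rev]
    have := ‹N.Normal›.conj_mem _ (N.inv_mem n.2) g⁻¹
    rwa [inv_inv] at this
  rw [h1, mul_assoc]

lemma ret_self (n : N) : ret N n = n := by
  apply Subtype.ext
  change (n : G) * (rr N n)⁻¹ = n
  have : rr N (n : G) = 1 := if_pos n.2
  rw [this, inv_one, mul_one]

lemma ret_agr {S₀ T : Set Ω} (hN : ∀ g : G, Agr S₀ g 1 → g ∈ N) (hT : Stb G T) (hST : S₀ ⊆ T)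
    {x x' : G} (h : Agr T x x') : Agr T (ret N x) (ret N x') := by
  have h1 : rr N x = rr N x' := rr_eq N (hN _ (h.mono hST).one_of)
  have h2 := h.mul_right hT (rr N x')⁻¹
  intro t ht
  have h3 := h2 t ht
  change (x * (rr N x)⁻¹) • t = (x' * (rr N x')⁻¹) • t
  rw [h1]
  exact h3

end retr

section conj

variable {G Ω M : Type} [Group G] [Field Ω] [MulSemiringAction G Ω] [AddCommGroup M]
  [DistribMulAction G M] (N : Subgroup G) [N.Normal]

/-- translate of a valuation ring -/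
def trB (g : G) (B : ValuationSubring Ω) : ValuationSubring Ω :=
  B.comap (MulSemiringAction.toRingHom G Ω g)

lemma mem_trB {g : G} {B : ValuationSubring Ω} {x : Ω} : x ∈ trB g B ↔ g • x ∈ B := Iff.rfl

/-- conjugation -/
def cjN (g : G) (n : N) : N := ⟨g⁻¹ * n * g, by
  have := ‹N.Normal›.conj_mem _ n.2 g⁻¹
  rwa [inv_inv] at this⟩

lemma cjN_mul (g : G) (n m : N) : cjN N g (n * m) = cjN N g n * cjN N g m := by
  apply Subtype.ext
  change g⁻¹ * (n * m) * g = g⁻¹ * n * g * (g⁻¹ * m * g)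
  group

lemma cjN_dcp (g : G) {B : ValuationSubring Ω} {n : N} (hn : n ∈ dcp N B) :
    cjN N g n ∈ dcp N (trB g B) := by
  intro x
  rw [mem_trB, mem_trB]
  change g • ((g⁻¹ * n * g) • x) ∈ B ↔ _
  rw [mul_smul, mul_smul, smul_inv_smul]
  exact hn (g • x)

lemma cjN_ine (g : G) {B : ValuationSubring Ω} {n : N} (hn : n ∈ ine N B) :
    cjN N g n ∈ ine N (trB g B) := by
  refine ⟨cjN_dcp N g (n := n) hn.1, fun x hx => ?_⟩
  change _ ∈ (B.comap (MulSemiringAction.toRingHom G Ω g)).nonunits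
  rw [nonunits_comap]
  have h1 := hn.2 (g • x) hx
  change g • (((g⁻¹ * n * g) • x) - x) ∈ B.nonunits
  rw [smul_sub, mul_smul, mul_smul, smul_inv_smul]
  exact h1

/-- transport of the local condition by conjugation -/
lemma LU.conj (hfo : FinO G Ω) {B : ValuationSubring Ω} (g : G) {f : N → N → N → N → M}
    (h : LU (trB g B) f) :
    LU B fun x y z w => g • f (cjN N g x) (cjN N g y) (cjN N g z) (cjN N g w) := by
  obtain ⟨c, ω, ⟨S, hS, hcS⟩, hce, hcd, hcI, ⟨T, hT, hωT⟩, hωe, hf⟩ := h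
  obtain ⟨S', hSS', hS'⟩ := hfo.exists_stb (hS.1.image fun x => g • x)
  obtain ⟨T', hTT', hT'⟩ := hfo.exists_stb (hT.1.image fun x => g • x)
  let κ : dcp N B → dcp N (trB g B) := fun d => ⟨cjN N g d, cjN_dcp N g d.2⟩
  have hκ : ∀ a b, κ (a * b) = κ a * κ b := fun a b => Subtype.ext (cjN_mul N g a b)
  have hκi : ∀ a b : dcp N B, ((a⁻¹ * b : dcp N B) : N) ∈ ine N B →
      (((κ a)⁻¹ * κ b : dcp N (trB g B)) : N) ∈ ine N (trB g B) := by
    intro a b hab
    have h1 := cjN_ine N g hab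
    have h2 : (((κ a)⁻¹ * κ b : dcp N (trB g B)) : N) = cjN N g (a⁻¹ * b : dcp N B) := by
      apply Subtype.ext
      change (g⁻¹ * ((a : N) : G) * g)⁻¹ * (g⁻¹ * ((b : N) : G) * g) = g⁻¹ * (((a : N) : G)⁻¹ * ((b : N) : G)) * g
      group
    rw [h2]
    exact h1
  have hagr : ∀ (S S' : Set Ω), (fun x => g • x) '' S ⊆ S' → ∀ a b : dcp N B, Agr S' a b → Agr S (κ a) (κ b) := by
    intro S S' hSS' a b hab s hs
    change (g⁻¹ * ((a : N) : G) * g) • s = (g⁻¹ * ((b : N) : G) * g) • s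
    rw [mul_smul, mul_smul, mul_smul, mul_smul]
    congr 1
    exact hab _ (hSS' ⟨s, hs, rfl⟩)
  have hact : ∀ (j : dcp N B) (m : M), g • (κ j • m) = j • (g • m) := by
    intro j m
    change g • ((g⁻¹ * ((j : N) : G) * g) • m) = ((j : N) : G) • (g • m)
    rw [mul_smul, mul_smul, smul_inv_smul]
  refine ⟨fun x y z w => g • c (κ x) (κ y) (κ z) (κ w), fun x y z => g • ω (κ x) (κ y) (κ z),
    ⟨S', ?_, ?_⟩, ?_, ?_, ?_, ⟨T', ?_, ?_⟩, ?_, ?_⟩
  · exact (hS'.restrict N).restrict _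
  · intro x x' y y' z z' w w' hx hy hz hw
    change g • c _ _ _ _ = g • c _ _ _ _
    rw [hcS _ _ _ _ _ _ _ _ (hagr S S' hSS' _ _ hx) (hagr S S' hSS' _ _ hy)
      (hagr S S' hSS' _ _ hz) (hagr S S' hSS' _ _ hw)]
  · intro j x y z w
    change g • c (κ (j * x)) (κ (j * y)) (κ (j * z)) (κ (j * w)) = j • (g • c _ _ _ _)
    rw [hκ, hκ, hκ, hκ, hce, hact]
  · funext x y z w v
    have h1 := congrFun (congrFun (congrFun (congrFun (congrFun hcd (κ x)) (κ y)) (κ z)) (κ w)) (κ v)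
    simp only [d4, Pi.zero_apply] at h1 ⊢
    rw [← smul_sub, ← smul_add, ← smul_sub, ← smul_add, h1, smul_zero]
  · intro x x' y y' z z' w w' hx hy hz hw
    change g • c _ _ _ _ = g • c _ _ _ _
    rw [hcI _ _ _ _ _ _ _ _ (hκi _ _ hx) (hκi _ _ hy) (hκi _ _ hz) (hκi _ _ hw)]
  · exact (hT'.restrict N).restrict _
  · intro x x' y y' z z' hx hy hz
    change g • ω _ _ _ = g • ω _ _ _
    rw [hωT _ _ _ _ _ _ (hagr T T' hTT' _ _ hx) (hagr T T' hTT' _ _ hy) (hagr T T' hTT' _ _ hz)]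
  · intro j x y z
    change g • ω (κ (j * x)) (κ (j * y)) (κ (j * z)) = j • (g • ω _ _ _)
    rw [hκ, hκ, hκ, hωe, hact]
  · intro x y z w
    have h1 := hf (κ x) (κ y) (κ z) (κ w)
    change g • f (κ x) (κ y) (κ z) (κ w) = _
    rw [h1]
    simp only [d3]
    rw [smul_add, smul_sub, smul_add, smul_sub]

end conj

section prism

variable {G A : Type} [AddCommGroup A] {N : Type}

/-- homotopy between two pullbacks -/
lemma prism {f : G → G → G → G → A} (hd : d4 f = 0) (a b : N → G) (x y z w : N) :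
    f (a x) (a y) (a z) (a w) = f (b x) (b y) (b z) (b w) +
      d3 (fun x y z => -(f (a x) (b x) (b y) (b z) - f (a x) (a y) (b y) (b z) +
        f (a x) (a y) (a z) (b z))) x y z w := by
  have hd' : ∀ x y z w v, f y z w v - f x z w v + f x y w v - f x y z v + f x y z w = 0 :=
    fun x y z w v => by
      have := congrFun (congrFun (congrFun (congrFun (congrFun hd x) y) z) w) v
      simpa [d4] using this
  have e1 := hd' (a x) (b x) (b y) (b z) (b w)
  have e2 := hd' (a x) (a y) (b y) (b z) (b w)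
  have e3 := hd' (a x) (a y) (a z) (b z) (b w)
  have e4 := hd' (a x) (a y) (a z) (a w) (b w)
  simp only [d3]
  linear_combination (norm := abel) e2 - e1 - e3 + e4

end prism

section norms

variable {G Ω M : Type} [Group G] [Field Ω] [MulSemiringAction G Ω] [AddCommGroup M]
  [DistribMulAction G M] (N : Subgroup G) [N.Normal]

/-- extension of a cochain -/
noncomputable def ext (f : N → N → N → N → M) : G → G → G → G → M :=
  fun x y z w => f (ret N x) (ret N y) (ret N z) (ret N w)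

/-- translates -/
noncomputable def tau (f : N → N → N → N → M) (g : G) : G → G → G → G → M :=
  fun x y z w => g • ext N f (g⁻¹ * x) (g⁻¹ * y) (g⁻¹ * z) (g⁻¹ * w)

variable {N} {f : N → N → N → N → M} (hfe : ∀ g x y z w, f (g * x) (g * y) (g * z) (g * w) = g • f x y z w)

include hfe in
lemma ext_eq (n : N) (x y z w : G) :
    ext N f (n * x) (n * y) (n * z) (n * w) = (n : G) • ext N f x y z w := by
  unfold ext
  rw [ret_mul, ret_mul, ret_mul, ret_mul, hfe]
  rfl

include hfe in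
lemma tau_eq {g h : G} (hgh : g⁻¹ * h ∈ N) : tau N f g = tau N f h := by
  funext x y z w
  unfold tau
  obtain ⟨n, hn⟩ : ∃ n : N, h = g * n := ⟨⟨g⁻¹ * h, hgh⟩, by rw [mul_inv_cancel_left]⟩
  subst hn
  have e1 : ∀ x : G, (g * (n : G))⁻¹ * x = ((n⁻¹ : N) : G) * (g⁻¹ * x) := by
    intro x
    push_cast
    group
  rw [e1, e1, e1, e1, ext_eq hfe, mul_smul, ← mul_smul (n : G)]
  push_cast
  rw [mul_inv_cancel, one_smul]

lemma ext_self (x y z w : N) : ext N f x y z w = f x y z w := by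
  unfold ext
  rw [ret_self, ret_self, ret_self, ret_self]

lemma ext_d (hd : d4 f = 0) : d4 (ext N f) = 0 := by
  funext x y z w v
  exact congrFun (congrFun (congrFun (congrFun (congrFun hd (ret N x)) (ret N y)) (ret N z)) (ret N w)) (ret N v)

lemma tau_d (hd : d4 f = 0) (g : G) : d4 (tau N f g) = 0 := by
  funext x y z w v
  have h1 := congrFun (congrFun (congrFun (congrFun (congrFun (ext_d hd) (g⁻¹ * x)) (g⁻¹ * y))
    (g⁻¹ * z)) (g⁻¹ * w)) (g⁻¹ * v)
  simp only [d4, Pi.zero_apply, tau] at h1 ⊢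
  rw [← smul_sub, ← smul_add, ← smul_sub, ← smul_add, h1, smul_zero]

lemma ext_lv {S₀ T : Set Ω} (hN : ∀ g : G, Agr S₀ g 1 → g ∈ N) (hT : Stb G T) (hST : S₀ ⊆ T)
    (hf : Lv4 (G := N) T f) : Lv4 T (ext N f) := by
  intro x x' y y' z z' w w' hx hy hz hw
  exact hf _ _ _ _ _ _ _ _ (ret_agr N hN hT hST hx) (ret_agr N hN hT hST hy)
    (ret_agr N hN hT hST hz) (ret_agr N hN hT hST hw)

lemma tau_lv {S₀ T : Set Ω} (hN : ∀ g : G, Agr S₀ g 1 → g ∈ N) (hT : Stb G T) (hST : S₀ ⊆ T)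
    (hf : Lv4 (G := N) T f) (g : G) : Lv4 T (tau N f g) := by
  intro x x' y y' z z' w w' hx hy hz hw
  unfold tau
  rw [ext_lv hN hT hST hf _ _ _ _ _ _ _ _ (hx.mul_left _) (hy.mul_left _) (hz.mul_left _)
    (hw.mul_left _)]

include hfe in
/-- translates satisfy the local conditions -/
lemma tau_LU (hfo : FinO G Ω) {S₀ T : Set Ω} (hN : ∀ g : G, Agr S₀ g 1 → g ∈ N) (hT : Stb G T)
    (hST : S₀ ⊆ T) (hf : Lv4 (G := N) T f) (hd : d4 f = 0) {B : ValuationSubring Ω} (g : G)
    (h : LU (trB g B) f) : LU (G := N) B fun x y z w => tau N f g x y z w := by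
  have hext := ext_lv hN hT hST hf
  let a : N → G := fun n => g⁻¹ * n
  let b : N → G := fun n => g⁻¹ * n * g
  have ha : ∀ j n : N, a (j * n) = ((cjN N g j : N) : G) * a n := by
    intro j n
    change g⁻¹ * ((j : G) * n) = g⁻¹ * j * g * (g⁻¹ * n)
    group
  have hb : ∀ j n : N, b (j * n) = ((cjN N g j : N) : G) * b n := by
    intro j n
    change g⁻¹ * ((j : G) * n) * g = g⁻¹ * j * g * (g⁻¹ * n * g)
    group
  have hLa : ∀ x x' : N, Agr T x x' → Agr T (a x) (a x') := fun x x' h =>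
    Agr.mul_left (x := (x : G)) (y := (x' : G)) g⁻¹ h
  have hLb : ∀ x x' : N, Agr T x x' → Agr T (b x) (b x') := fun x x' h =>
    (Agr.mul_left (x := (x : G)) (y := (x' : G)) g⁻¹ h).mul_right hT g
  refine (LU.conj N hfo g h).cobound
    (β := fun x y z => g • (-(ext N f (a x) (b x) (b y) (b z) - ext N f (a x) (a y) (b y) (b z) +
        ext N f (a x) (a y) (a z) (b z)))) ⟨T, hT.restrict N, ?_⟩ ?_ ?_
  · intro x x' y y' z z' hx hy hz
    change g • (-(ext N f (a x) (b x) (b y) (b z) - ext N f (a x) (a y) (b y) (b z) +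
        ext N f (a x) (a y) (a z) (b z))) = g • (-(ext N f (a x') (b x') (b y') (b z') -
        ext N f (a x') (a y') (b y') (b z') + ext N f (a x') (a y') (a z') (b z')))
    rw [hext _ _ _ _ _ _ _ _ (hLa _ _ hx) (hLb _ _ hx) (hLb _ _ hy) (hLb _ _ hz),
      hext _ _ _ _ _ _ _ _ (hLa _ _ hx) (hLa _ _ hy) (hLb _ _ hy) (hLb _ _ hz),
      hext _ _ _ _ _ _ _ _ (hLa _ _ hx) (hLa _ _ hy) (hLa _ _ hz) (hLb _ _ hz)]
  · intro j x y z
    change g • (-(ext N f (a (j * x)) (b (j * x)) (b (j * y)) (b (j * z)) -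
        ext N f (a (j * x)) (a (j * y)) (b (j * y)) (b (j * z)) +
        ext N f (a (j * x)) (a (j * y)) (a (j * z)) (b (j * z)))) = (j : G) • _
    rw [ha, ha, ha, hb, hb, hb, ext_eq hfe, ext_eq hfe, ext_eq hfe, ← smul_sub, ← smul_add,
      ← smul_neg]
    change g • ((g⁻¹ * (j : G) * g) • _) = (j : G) • _
    rw [mul_smul, mul_smul, smul_inv_smul]
  · funext x y z w
    have h1 := prism (ext_d hd) a b x y z w
    change g • ext N f (a x) (a y) (a z) (a w) = g • f (cjN N g x) (cjN N g y) (cjN N g z) (cjN N g w) + _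
    rw [h1, smul_add]
    have h2 : ext N f (b x) (b y) (b z) (b w) = f (cjN N g x) (cjN N g y) (cjN N g z) (cjN N g w) :=
      ext_self (cjN N g x) (cjN N g y) (cjN N g z) (cjN N g w)
    rw [h2]
    congr 1
    simp only [d3]
    rw [smul_sub, smul_add, smul_sub]

variable [Fintype (G ⧸ N)]

open Classical in
/-- norm to an intermediate subgroup -/
noncomputable def nrm (f : N → N → N → N → M) (H : Subgroup G) : G → G → G → G → M :=
  ∑ q : G ⧸ N, if (Quotient.out q : G) ∈ H then tau N f (Quotient.out q) else 0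

include hfe in
lemma tau_smul (h g : G) (x y z w : G) :
    tau N f (h * g) (h * x) (h * y) (h * z) (h * w) = h • tau N f g x y z w := by
  unfold tau
  have e1 : ∀ x : G, (h * g)⁻¹ * (h * x) = g⁻¹ * x := by intro x; group
  rw [e1, e1, e1, e1, mul_smul]

lemma out_mem {H : Subgroup G} (hNH : N ≤ H) (g : G) :
    (Quotient.out (QuotientGroup.mk g : G ⧸ N) : G) ∈ H ↔ g ∈ H := by
  obtain ⟨n, hn⟩ := QuotientGroup.mk_out_eq_mul N g
  rw [hn]
  exact H.mul_mem_cancel_right (hNH n.2)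

lemma out_rel (g : G) : (Quotient.out (QuotientGroup.mk g : G ⧸ N) : G)⁻¹ * g ∈ N := by
  obtain ⟨n, hn⟩ := QuotientGroup.mk_out_eq_mul N g
  rw [hn]
  have : (g * (n : G))⁻¹ * g = (n : G)⁻¹ := by group
  rw [this]
  exact N.inv_mem n.2

include hfe in
lemma nrm_eq {H : Subgroup G} (hNH : N ≤ H) : Eq4 H (nrm f H) := by
  classical
  intro h hh x y z w
  unfold nrm
  simp only [Finset.sum_apply]
  rw [Finset.smul_sum]
  symm
  refine Fintype.sum_equiv (MulAction.toPerm h) _ _ fun q => ?_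
  have hq : (MulAction.toPerm h q : G ⧸ N) = QuotientGroup.mk (h * Quotient.out q) := by
    change h • q = _
    conv_lhs => rw [← QuotientGroup.out_eq' q]
    rfl
  rw [hq]
  have h1 : (Quotient.out (QuotientGroup.mk (h * Quotient.out q) : G ⧸ N) : G) ∈ H ↔
      (Quotient.out q : G) ∈ H := by
    rw [out_mem hNH]
    exact H.mul_mem_cancel_left hh
  by_cases hqH : (Quotient.out q : G) ∈ H
  · rw [if_pos hqH, if_pos (h1.2 hqH), ← tau_smul hfe,
      tau_eq hfe (out_rel (N := N) (h * Quotient.out q))]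
  · rw [if_neg hqH, if_neg fun h' => hqH (h1.1 h')]
    exact smul_zero h

lemma sum_d {κ : Type} (s : Finset κ) (F : κ → G → G → G → G → M) (h : ∀ i ∈ s, d4 (F i) = 0) :
    d4 (∑ i ∈ s, F i) = 0 := by
  classical
  induction s using Finset.induction_on with
  | empty => funext x y z w v; simp [d4]
  | insert a s ha ih =>
    rw [Finset.sum_insert ha]
    have e1 := h a (Finset.mem_insert_self _ _)
    have e2 := ih fun i hi => h i (Finset.mem_insert_of_mem hi)
    funext x y z w v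
    have e1' := congrFun (congrFun (congrFun (congrFun (congrFun e1 x) y) z) w) v
    have e2' := congrFun (congrFun (congrFun (congrFun (congrFun e2 x) y) z) w) v
    simp only [d4, Pi.add_apply, Pi.zero_apply] at e1' e2' ⊢
    linear_combination (norm := abel) e1' + e2'

lemma nrm_d (hd : d4 f = 0) (H : Subgroup G) : d4 (nrm f H) = 0 := by
  classical
  refine sum_d _ _ fun q _ => ?_
  split_ifs
  · exact tau_d hd _
  · funext x y z w v; simp [d4]

lemma nrm_lv {S₀ T : Set Ω} (hN : ∀ g : G, Agr S₀ g 1 → g ∈ N) (hT : Stb G T) (hST : S₀ ⊆ T)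
    (hf : Lv4 (G := N) T f) (H : Subgroup G) : Lv4 T (nrm f H) := by
  classical
  intro x x' y y' z z' w w' hx hy hz hw
  unfold nrm
  simp only [Finset.sum_apply]
  refine Finset.sum_congr rfl fun q _ => ?_
  split_ifs
  · exact tau_lv hN hT hST hf _ _ _ _ _ _ _ _ _ hx hy hz hw
  · rfl

include hfe in
lemma nrm_LU (hfo : FinO G Ω) {S₀ T : Set Ω} (hN : ∀ g : G, Agr S₀ g 1 → g ∈ N) (hT : Stb G T)
    (hST : S₀ ⊆ T) (hf : Lv4 (G := N) T f) (hd : d4 f = 0) {B : ValuationSubring Ω}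
    (h : ∀ g : G, LU (trB g B) f) (H : Subgroup G) :
    LU (G := N) B fun x y z w => nrm f H x y z w := by
  classical
  have h1 : (fun x y z w : N => nrm f H x y z w) = ∑ q : G ⧸ N, fun x y z w : N =>
      (if (Quotient.out q : G) ∈ H then tau N f (Quotient.out q) else 0) x y z w := by
    funext x y z w
    unfold nrm
    simp only [Finset.sum_apply]
  rw [h1]
  refine LU.sum _ _ fun q _ => ?_
  split_ifs
  · exact tau_LU hfe hfo hN hT hST hf hd _ (h _)
  · exact LU.zero B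

include hfe in
lemma nrm_self : nrm f N = ext N f := by
  classical
  unfold nrm
  rw [Finset.sum_eq_single (QuotientGroup.mk 1)]
  · rw [if_pos ((out_mem le_rfl (1 : G)).2 N.one_mem), tau_eq hfe (out_rel (N := N) 1)]
    funext x y z w
    unfold tau
    simp only [inv_one, one_mul, one_smul]
  · intro q _ hq
    rw [if_neg]
    intro h
    apply hq
    rw [← QuotientGroup.out_eq' q]
    exact QuotientGroup.eq.2 (by
      rw [mul_one]
      exact N.inv_mem h)
  · intro h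
    exact absurd (Finset.mem_univ _) h

/-- the counting identity -/
lemma nrm_count {κ : Type} [Fintype κ] (Hs : κ → Subgroup G) (n0 m : ℕ)
    (hn0 : ∀ g : G, g ∉ N → Nat.card {i // g ∈ Hs i} = n0) (hNH : ∀ i, N ≤ Hs i)
    (hm : Fintype.card κ = n0 + m) :
    ∑ i, nrm f (Hs i) = n0 • nrm f ⊤ + m • nrm f N := by
  classical
  unfold nrm
  rw [Finset.sum_comm, Finset.smul_sum, Finset.smul_sum, ← Finset.sum_add_distrib]
  refine Finset.sum_congr rfl fun q _ => ?_
  rw [if_pos (Subgroup.mem_top _)]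
  have h1 : ∑ i, (if (Quotient.out q : G) ∈ Hs i then tau N f (Quotient.out q) else 0) =
      (Nat.card {i // (Quotient.out q : G) ∈ Hs i}) • tau N f (Quotient.out q) := by
    rw [← Finset.sum_filter, Finset.sum_const]
    congr 1
    rw [Nat.card_eq_fintype_card, Fintype.card_subtype]
  rw [h1]
  by_cases hq : (Quotient.out q : G) ∈ N
  · rw [if_pos hq, ← add_smul, ← hm]
    congr 1
    rw [Nat.card_eq_fintype_card, Fintype.card_subtype, Finset.filter_true_of_mem]
    · rfl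
    · intro i _
      exact hNH i hq
  · rw [if_neg hq, smul_zero, add_zero, hn0 _ hq]

end norms

section van

variable {G Ω M : Type} [Group G] [Field Ω] [MulSemiringAction G Ω] [AddCommGroup M]
  [DistribMulAction G M] (N : Subgroup G) [N.Normal]

/-- the vanishing property for an intermediate group -/
def Van (M : Type) [AddCommGroup M] [DistribMulAction G M] (Bs : Set (ValuationSubring Ω))
    (H : Subgroup G) : Prop :=
  ∀ t : G → G → G → G → M, Sm4 Ω t → Eq4 H t → d4 t = 0 →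
    (∀ B ∈ Bs, LU (G := N) B fun x y z w => t x y z w) → ∃ β : G → G → G → M, Sm3 Ω β ∧ Eq3 H β ∧ t = d3 β

/-- sums of coboundaries -/
lemma sum_cob {κ : Type} (s : Finset κ) (t : κ → G → G → G → G → M)
    (h : ∀ i ∈ s, ∃ β : G → G → G → M, Sm3 Ω β ∧ Eq3 N β ∧ t i = d3 β) :
    ∃ β : G → G → G → M, Sm3 Ω β ∧ Eq3 N β ∧ ∑ i ∈ s, t i = d3 β := by
  classical
  induction s using Finset.induction_on with
  | empty =>
    exact ⟨0, ⟨∅, Stb.empty, fun _ _ _ _ _ _ _ _ _ => rfl⟩, fun g _ _ _ _ => (smul_zero g).symm, by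
      funext x y z w; simp [d3]⟩
  | insert a s ha ih =>
    obtain ⟨β, ⟨S, hS, hβS⟩, hβe, hβ⟩ := h a (Finset.mem_insert_self _ _)
    obtain ⟨γ, ⟨T, hT, hγT⟩, hγe, hγ⟩ := ih fun i hi => h i (Finset.mem_insert_of_mem hi)
    refine ⟨β + γ, ⟨S ∪ T, hS.union hT, ?_⟩, ?_, ?_⟩
    · intro x x' y y' z z' hx hy hz
      change β _ _ _ + γ _ _ _ = β _ _ _ + γ _ _ _
      rw [hβS _ _ _ _ _ _ (hx.mono Set.subset_union_left) (hy.mono Set.subset_union_left)
        (hz.mono Set.subset_union_left), hγT _ _ _ _ _ _ (hx.mono Set.subset_union_right)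
        (hy.mono Set.subset_union_right) (hz.mono Set.subset_union_right)]
    · intro g hg x y z
      change β _ _ _ + γ _ _ _ = g • (β _ _ _ + γ _ _ _)
      rw [hβe g hg, hγe g hg, smul_add]
    · rw [Finset.sum_insert ha, hβ, hγ]
      funext x y z w
      simp only [d3, Pi.add_apply]
      abel

theorem norm_van {l : ℕ} (hfo : FinO G Ω) {S₀ : Set Ω} (hS₀ : Stb G S₀)
    (hN : ∀ g : G, Agr S₀ g 1 → g ∈ N) [Finite (G ⧸ N)]
    (hMl : ∀ a : M, ∃ n : ℕ, (l ^ n) • a = 0) (Bs : Set (ValuationSubring Ω))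
    (hBs : ∀ B ∈ Bs, ∀ g : G, trB g B ∈ Bs)
    {κ : Type} [Finite κ] (Hs : κ → Subgroup G) (n0 m : ℕ)
    (hn0 : ∀ g : G, g ∉ N → Nat.card {i // g ∈ Hs i} = n0) (hNH : ∀ i, N ≤ Hs i)
    (hm : Nat.card κ = n0 + m) (hml : m.Coprime l)
    (hV : ∀ i, Van N M Bs (Hs i)) (hVt : Van N M Bs ⊤)
    {f : N → N → N → N → M} (hf : Sm4 Ω f)
    (hfe : ∀ g x y z w, f (g * x) (g * y) (g * z) (g * w) = g • f x y z w) (hd : d4 f = 0)
    (hLU : ∀ B ∈ Bs, LU B f) :
    ∃ β : N → N → N → M, Sm3 Ω β ∧ (∀ g x y z, β (g * x) (g * y) (g * z) = g • β x y z) ∧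
      f = d3 β := by
  classical
  letI := Fintype.ofFinite (G ⧸ N)
  letI := Fintype.ofFinite κ
  obtain ⟨S, hS, hfS⟩ := hf
  obtain ⟨T₀, hST₀, hT₀⟩ := hfo.exists_stb hS.1
  let T := T₀ ∪ S₀
  have hT : Stb G T := hT₀.union hS₀
  have hfT : Lv4 (G := N) T f := hfS.mono (hST₀.trans Set.subset_union_left)
  have hST : S₀ ⊆ T := Set.subset_union_right
  have hcob : ∀ H : Subgroup G, N ≤ H → Van N M Bs H →
      ∃ β : G → G → G → M, Sm3 Ω β ∧ Eq3 N β ∧ nrm f H = d3 β := by
    intro H hNH hVH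
    obtain ⟨β, hβ, hβe, h⟩ := hVH (nrm f H) ⟨T, hT, nrm_lv hN hT hST hfT H⟩ (nrm_eq hfe hNH)
      (nrm_d hd H) fun B hB => nrm_LU hfe hfo hN hT hST hfT hd (fun g => hLU _ (hBs B hB g)) H
    exact ⟨β, hβ, fun g hg => hβe g (hNH hg), h⟩
  obtain ⟨β₁, ⟨S₁, hS₁, hβ₁⟩, hβ₁e, h₁⟩ := sum_cob (Ω := Ω) N Finset.univ (fun i => nrm f (Hs i))
    fun i _ => hcob (Hs i) (hNH i) (hV i)
  obtain ⟨β₂, ⟨S₂, hS₂, hβ₂⟩, hβ₂e, h₂⟩ := hcob ⊤ le_top hVt
  have hcount := nrm_count (f := f) Hs n0 m hn0 hNH (by rw [← Nat.card_eq_fintype_card]; exact hm)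
  rw [h₁, h₂, nrm_self hfe] at hcount
  obtain ⟨n, hn⟩ := exists_exp (A := M) (l := l) hMl (hfS.finite hS)
  obtain ⟨m', hm'⟩ := exists_inv_smul hml n
  have hzs : ∀ (g : G) (k : ℤ) (a : M), g • (k • a) = k • (g • a) := fun g k a =>
    (DistribSMul.toAddMonoidHom M g).map_zsmul k a
  refine ⟨fun x y z => m' • (β₁ x y z - n0 • β₂ x y z), ⟨S₁ ∪ S₂, (hS₁.union hS₂).restrict N, ?_⟩, ?_, ?_⟩
  · intro x x' y y' z z' hx hy hz
    change m' • (β₁ x y z - n0 • β₂ x y z) = m' • (β₁ x' y' z' - n0 • β₂ x' y' z')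
    rw [hβ₁ _ _ _ _ _ _ (fun s hs => hx s (Or.inl hs)) (fun s hs => hy s (Or.inl hs))
      (fun s hs => hz s (Or.inl hs)), hβ₂ _ _ _ _ _ _ (fun s hs => hx s (Or.inr hs))
      (fun s hs => hy s (Or.inr hs)) (fun s hs => hz s (Or.inr hs))]
  · intro g x y z
    change m' • (β₁ (g * x) (g * y) (g * z) - n0 • β₂ (g * x) (g * y) (g * z)) =
      (g : G) • (m' • (β₁ x y z - n0 • β₂ x y z))
    rw [hβ₁e g g.2, hβ₂e g g.2, hzs]
    congr 1
    rw [smul_sub (g : G)]
    congr 1
    exact smul_comm n0 (g : G) _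
  · funext x y z w
    have h3 := congrFun (congrFun (congrFun (congrFun hcount x) y) z) w
    have h4 : ext N f x y z w = f x y z w := ext_self x y z w
    have h5 := hm' (f x y z w) (hn _ ⟨x, y, z, w, rfl⟩)
    simp only [Pi.add_apply, Pi.smul_apply, h4, d3] at h3 ⊢
    rw [← h5, ← smul_sub, ← smul_add, ← smul_sub]
    congr 1
    rw [← sub_eq_iff_eq_add'] at h3
    rw [← h3]
    simp only [smul_sub, smul_add]
    abel

end van

end Run7.h333
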