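import Pool.Agent.Run7.h333.Basic

/-! Hilbert 90 and splitting of cocycles from surjectivity of norms. -/

set_option autoImplicit false
set_option linter.style.haveILetI false

namespace Run7.h333

section units

variable {P Ω : Type} [Group P] [Field Ω] [MulSemiringAction P Ω]

/-- action on units -/
def ua (x : P) : Ωˣ →* Ωˣ := Units.map (MulSemiringAction.toRingHom P Ω x : Ω →* Ω)

lemma ua_val (x : P) (u : Ωˣ) : ((ua x u : Ωˣ) : Ω) = x • (u : Ω) := rfl

lemma ua_one (u : Ωˣ) : ua (1 : P) u = u := by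
  ext; rw [ua_val, one_smul]

lemma ua_mul (x y : P) (u : Ωˣ) : ua (x * y) u = ua x (ua y u) := by
  ext; rw [ua_val, ua_val, ua_val, mul_smul]

/-- the open subgroup attached to a finite stable set -/
def stN {Y : Type} [MulAction P Y] (S : Set Y) : Subgroup P where
  carrier := {x | Agr S x 1}
  mul_mem' := by
    intro a b ha hb s hs
    rw [mul_smul, hb s hs, one_smul, ha s hs, one_smul]
  one_mem' := Agr.refl _ _
  inv_mem' := by
    intro a ha s hs
    rw [one_smul, inv_smul_eq_iff, ha s hs, one_smul]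

lemma mem_stN {Y : Type} [MulAction P Y] {S : Set Y} {x : P} : x ∈ stN S ↔ Agr S x 1 := Iff.rfl

lemma stN_conj {Y : Type} [MulAction P Y] {S : Set Y} (hS : Stb P S) {n : P} (hn : n ∈ stN S)
    (x : P) : x * n * x⁻¹ ∈ stN S := by
  have h1 := (Agr.mul_left x (mem_stN.1 hn)).mul_right hS x⁻¹
  rwa [mul_one, mul_inv_cancel] at h1

lemma stN_finite {Y : Type} [MulAction P Y] {S : Set Y} (hS : Stb P S) : Finite (P ⧸ (stN S : Subgroup P)) := by
  have h := rp_finite (G := P) hS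
  have := h.to_subtype
  let f : Set.range (rp S : P → P) → P ⧸ (stN S : Subgroup P) := fun r => QuotientGroup.mk (r : P)
  refine Finite.of_surjective f ?_
  intro q
  obtain ⟨x, rfl⟩ := QuotientGroup.mk_surjective q
  refine ⟨⟨rp S x, x, rfl⟩, ?_⟩
  exact QuotientGroup.eq.2 (rp_agr S x).one_of

/-- Dedekind independence for the finitely many cosets of an open subgroup -/
theorem dedekind {S : Set Ω} [Fintype (P ⧸ (stN S : Subgroup P))]
    (a : P ⧸ (stN S : Subgroup P) → Ω)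
    (h : ∀ v : Ω, (∀ n ∈ (stN S : Subgroup P), n • v = v) →
      ∑ c, a c * ((Quotient.out c : P) • v) = 0) : a = 0 := by
  let L : Subfield Ω := FixedPoints.subfield (stN S : Subgroup P) Ω
  have hL : ∀ v : L, ∀ n ∈ (stN S : Subgroup P), n • (v : Ω) = v := fun v n hn => v.2 ⟨n, hn⟩
  let ch : P ⧸ (stN S : Subgroup P) → (L →* Ω) := fun c =>
    ((MulSemiringAction.toRingHom P Ω (Quotient.out c)).comp L.subtype : L →+* Ω)
  have hch : Function.Injective ch := by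
    intro c c' hcc
    have h1 : ∀ v : L, (Quotient.out c : P) • (v : Ω) = (Quotient.out c' : P) • (v : Ω) :=
      fun v => DFunLike.congr_fun hcc v
    have h2 : Agr S (Quotient.out c : P) (Quotient.out c' : P) := by
      intro s hs
      refine h1 ⟨s, ?_⟩
      intro n
      exact (n.2 s hs).trans (one_smul _ _)
    rw [← QuotientGroup.out_eq' c, ← QuotientGroup.out_eq' c']
    exact QuotientGroup.eq.2 h2.one_of
  have hli := (linearIndependent_monoidHom L Ω).comp ch hch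
  rw [Fintype.linearIndependent_iff] at hli
  funext c
  refine hli a ?_ c
  funext v
  rw [Finset.sum_apply]
  exact h (v : Ω) (hL v)

/-- Hilbert 90 for an open subgroup -/
theorem h90 {S : Set Ω} (hS : Stb P S) (D : Subgroup P) (hD : (stN S : Subgroup P) ≤ D)
    (φ : P → Ωˣ) (hφ : ∀ x ∈ D, ∀ y ∈ D, φ (x * y) = φ x * ua x (φ y))
    (hφ1 : ∀ n ∈ (stN S : Subgroup P), φ n = 1) :
    ∃ a : Ωˣ, (∀ n ∈ (stN S : Subgroup P), ua n a = a) ∧ ∀ x ∈ D, φ x = a * (ua x a)⁻¹ := by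
  classical
  haveI := stN_finite (P := P) hS
  letI := Fintype.ofFinite (P ⧸ (stN S : Subgroup P))
  let a : P ⧸ (stN S : Subgroup P) → Ω := fun c => if (Quotient.out c : P) ∈ D then
    (φ (Quotient.out c) : Ω) else 0
  have ha : a ≠ 0 := by
    intro h0
    have h1 := congrFun h0 (QuotientGroup.mk 1)
    have h2 : (Quotient.out (QuotientGroup.mk 1 : P ⧸ (stN S : Subgroup P)) : P) ∈ (stN S : Subgroup P) := by
      have := QuotientGroup.mk_out_eq_mul (stN S : Subgroup P) 1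
      obtain ⟨h, hh⟩ := this
      rw [hh, one_mul]
      exact h.2
    have h3 : a (QuotientGroup.mk 1) = (φ (Quotient.out (QuotientGroup.mk 1 : P ⧸ (stN S : Subgroup P))) : Ω) :=
      if_pos (hD h2)
    rw [h3, hφ1 _ h2] at h1
    exact one_ne_zero h1
  have hex : ∃ v : Ω, (∀ n ∈ (stN S : Subgroup P), n • v = v) ∧
      ∑ c, a c * ((Quotient.out c : P) • v) ≠ 0 := by
    by_contra hcon
    push Not at hcon
    exact ha (dedekind a hcon)
  obtain ⟨v, hv, hne⟩ := hex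
  set A : Ω := ∑ c, a c * ((Quotient.out c : P) • v) with hA
  have key : ∀ y ∈ D, (φ y : Ω) * (y • A) = A := by
    intro y hy
    rw [hA, Finset.smul_sum, Finset.mul_sum]
    refine Fintype.sum_equiv (MulAction.toPerm y) _ _ fun c => ?_
    obtain ⟨n, hn⟩ := QuotientGroup.mk_out_eq_mul (stN S : Subgroup P) (y * Quotient.out c)
    have hc : (MulAction.toPerm y c : P ⧸ (stN S : Subgroup P)) = QuotientGroup.mk (y * Quotient.out c) := by
      change y • c = _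
      conv_lhs => rw [← QuotientGroup.out_eq' c]
      rfl
    rw [hc]
    have hmem : (Quotient.out (QuotientGroup.mk (y * Quotient.out c) : P ⧸ (stN S : Subgroup P)) : P) ∈ D ↔
        (Quotient.out c : P) ∈ D := by
      rw [hn]
      constructor
      · intro h
        have h1 := D.mul_mem h (D.inv_mem (hD n.2))
        rw [mul_inv_cancel_right] at h1
        have h2 := D.mul_mem (D.inv_mem hy) h1
        rwa [inv_mul_cancel_left] at h2
      · intro h
        exact D.mul_mem (D.mul_mem hy h) (hD n.2)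
    by_cases hcD : (Quotient.out c : P) ∈ D
    · have e1 : a c = (φ (Quotient.out c) : Ω) := if_pos hcD
      have e2 : a (QuotientGroup.mk (y * Quotient.out c)) =
          (φ (Quotient.out (QuotientGroup.mk (y * Quotient.out c) : P ⧸ (stN S : Subgroup P))) : Ω) :=
        if_pos (hmem.2 hcD)
      rw [e1, e2, hn, hφ _ (D.mul_mem hy hcD) _ (hD n.2), hφ1 _ n.2, map_one, mul_one,
        hφ _ hy _ hcD, smul_mul', mul_smul, mul_smul, hv _ n.2, Units.val_mul, ua_val]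
      ring
    · have e1 : a c = 0 := if_neg hcD
      have e2 : a (QuotientGroup.mk (y * Quotient.out c)) = 0 := if_neg fun h => hcD (hmem.1 h)
      rw [e1, e2, zero_mul, zero_mul, smul_zero, mul_zero]
  refine ⟨Units.mk0 A hne, ?_, ?_⟩
  · intro n hn
    ext
    rw [ua_val]
    have := key n (hD hn)
    rw [hφ1 n hn, Units.val_one, one_mul] at this
    exact this
  · intro x hx
    rw [eq_mul_inv_iff_mul_eq]
    ext
    rw [Units.val_mul, ua_val]
    exact key x hx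

end units

section ext

variable {P Ω : Type} [Group P] [Field Ω] [MulSemiringAction P Ω]

/-- the extension attached to a cocycle -/
structure Ex (c : P → P → Ωˣ) where
  /-- first component -/
  a : Ωˣ
  /-- second component -/
  x : P

/-- the cocycle condition, for a cocycle with invariant values -/
class Coc (c : P → P → Ωˣ) : Prop where
  h : ∀ x y z, c x y * c (x * y) z = c y z * c x (y * z)
  fix : ∀ x y z : P, ua x (c y z) = c y z

variable {c : P → P → Ωˣ}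

omit [Group P] [MulSemiringAction P Ω] in
@[ext] lemma Ex.ext' {u v : Ex c} (h1 : u.a = v.a) (h2 : u.x = v.x) : u = v := by
  cases u; cases v; simp_all

variable [hc : Coc c]

variable (c) in
lemma c_one_left (y : P) : c 1 y = c 1 1 := by
  have := hc.h 1 1 y
  rw [one_mul, one_mul] at this
  rw [mul_comm] at this
  exact (mul_left_cancel this).symm

variable (c) in
lemma c_one_right (x : P) : c x 1 = c 1 1 := by
  have := hc.h x 1 1
  rw [mul_one, mul_one] at this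
  exact mul_right_cancel this

instance : Group (Ex c) := by
  letI m : Mul (Ex c) := ⟨fun u v => ⟨u.a * ua u.x v.a * c u.x v.x, u.x * v.x⟩⟩
  letI i : Inv (Ex c) := ⟨fun u => ⟨(c 1 1 * c u.x⁻¹ u.x * ua u.x⁻¹ u.a)⁻¹, u.x⁻¹⟩⟩
  letI o : One (Ex c) := ⟨⟨(c 1 1)⁻¹, 1⟩⟩
  refine Group.ofLeftAxioms ?_ ?_ ?_
  · intro u v w
    apply Ex.ext'
    · change (u.a * ua u.x v.a * c u.x v.x) * ua (u.x * v.x) w.a * c (u.x * v.x) w.x =
        u.a * ua u.x (v.a * ua v.x w.a * c v.x w.x) * c u.x (v.x * w.x)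
      rw [map_mul, map_mul, ua_mul, hc.fix]
      have := congrArg Units.val (hc.h u.x v.x w.x)
      apply Units.ext
      simp only [Units.val_mul] at this ⊢
      linear_combination (u.a : Ω) * (ua u.x v.a : Ωˣ) * (ua u.x (ua v.x w.a) : Ωˣ) * this
    · exact mul_assoc _ _ _
  · intro u
    apply Ex.ext'
    · change (c 1 1)⁻¹ * ua 1 u.a * c 1 u.x = u.a
      rw [ua_one, c_one_left c u.x, mul_comm (c 1 1)⁻¹, inv_mul_cancel_right]
    · exact one_mul _
  · intro u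
    apply Ex.ext'
    · change (c 1 1 * c u.x⁻¹ u.x * ua u.x⁻¹ u.a)⁻¹ * ua u.x⁻¹ u.a * c u.x⁻¹ u.x = (c 1 1)⁻¹
      apply Units.ext
      simp only [Units.val_mul, Units.val_inv_eq_inv_val]
      have h1 := (ua u.x⁻¹ u.a).ne_zero
      have h2 := (c u.x⁻¹ u.x).ne_zero
      have h3 := (c 1 1).ne_zero
      field_simp
    · exact inv_mul_cancel _

lemma Ex.mul_a (u v : Ex c) : (u * v).a = u.a * ua u.x v.a * c u.x v.x := rfl
lemma Ex.mul_x (u v : Ex c) : (u * v).x = u.x * v.x := rfl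
lemma Ex.one_a : (1 : Ex c).a = (c 1 1)⁻¹ := rfl
lemma Ex.one_x : (1 : Ex c).x = 1 := rfl
lemma Ex.inv_x (u : Ex c) : (u⁻¹).x = u.x⁻¹ := rfl

/-- projection -/
def Ex.pr : Ex c →* P where
  toFun u := u.x
  map_one' := rfl
  map_mul' _ _ := rfl

lemma Ex.pow_x (u : Ex c) (n : ℕ) : (u ^ n).x = u.x ^ n := map_pow Ex.pr u n
lemma Ex.zpow_x (u : Ex c) (n : ℤ) : (u ^ n).x = u.x ^ n := map_zpow Ex.pr u n

variable (c) in
/-- the embedding of the units -/
def emb : Ωˣ →* Ex c where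
  toFun u := ⟨u * (c 1 1)⁻¹, 1⟩
  map_one' := by
    apply Ex.ext'
    · exact one_mul _
    · rfl
  map_mul' u v := by
    apply Ex.ext'
    · rw [Ex.mul_a]
      change u * v * (c 1 1)⁻¹ = u * (c 1 1)⁻¹ * ua 1 (v * (c 1 1)⁻¹) * c 1 1
      rw [ua_one]
      apply Units.ext
      simp only [Units.val_mul, Units.val_inv_eq_inv_val]
      have h3 := (c 1 1).ne_zero
      field_simp
    · exact (one_mul _).symm

lemma emb_x (u : Ωˣ) : (emb c u).x = 1 := rfl

lemma emb_mul_eq (u : Ωˣ) (e : Ex c) : emb c u * e = ⟨u * e.a, e.x⟩ := by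
  apply Ex.ext'
  · rw [Ex.mul_a]
    change u * (c 1 1)⁻¹ * ua 1 e.a * c 1 e.x = u * e.a
    rw [ua_one, c_one_left c e.x]
    apply Units.ext
    simp only [Units.val_mul, Units.val_inv_eq_inv_val]
    have h3 := (c 1 1).ne_zero
    field_simp
  · exact one_mul _

lemma mul_emb_eq (u : Ωˣ) (e : Ex c) : e * emb c u = ⟨ua e.x u * e.a, e.x⟩ := by
  apply Ex.ext'
  · rw [Ex.mul_a]
    change e.a * ua e.x (u * (c 1 1)⁻¹) * c e.x 1 = ua e.x u * e.a
    rw [map_mul, map_inv, hc.fix, c_one_right c e.x]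
    apply Units.ext
    simp only [Units.val_mul, Units.val_inv_eq_inv_val]
    have h3 := (c 1 1).ne_zero
    field_simp
  · exact mul_one _

lemma mul_emb (u : Ωˣ) (e : Ex c) : e * emb c u = emb c (ua e.x u) * e := by
  rw [mul_emb_eq, emb_mul_eq]

lemma emb_inj : Function.Injective (emb c) := by
  intro u v h
  have := congrArg Ex.a h
  exact mul_right_cancel this

lemma eq_emb_mul {e e' : Ex c} (h : e.x = e'.x) : e = emb c (e.a / e'.a) * e' := by
  rw [emb_mul_eq]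
  apply Ex.ext'
  · simp
  · exact h

variable (c) in
/-- the trivial lifting of an open subgroup -/
def liftN (N : Subgroup P) (hN : ∀ n ∈ N, ∀ x, c n x = c 1 1) : Subgroup (Ex c) where
  carrier := {e | e.a = (c 1 1)⁻¹ ∧ e.x ∈ N}
  one_mem' := ⟨rfl, N.one_mem⟩
  mul_mem' := by
    rintro u v ⟨hu1, hu2⟩ ⟨hv1, hv2⟩
    refine ⟨?_, N.mul_mem hu2 hv2⟩
    rw [Ex.mul_a, hu1, hv1, map_inv, hc.fix, hN _ hu2, inv_mul_cancel_right]
  inv_mem' := by
    rintro u ⟨hu1, hu2⟩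
    refine ⟨?_, N.inv_mem hu2⟩
    change (c 1 1 * c u.x⁻¹ u.x * ua u.x⁻¹ u.a)⁻¹ = _
    rw [hu1, hN _ (N.inv_mem hu2), map_inv, hc.fix, mul_inv_cancel_right]

/-- complements above `D` containing the trivial lifting of `N` -/
structure Cpl (N D : Subgroup P) (E : Subgroup (Ex c)) : Prop where
  nh : ∀ n ∈ N, (⟨(c 1 1)⁻¹, n⟩ : Ex c) ∈ E
  dom : ∀ e ∈ E, e.x ∈ D
  sur : ∀ x ∈ D, ∃ e ∈ E, e.x = x
  inj : ∀ e ∈ E, e.x = 1 → e = 1

lemma Cpl.eq {N D : Subgroup P} {E : Subgroup (Ex c)} (h : Cpl N D E) {e e' : Ex c} (he : e ∈ E)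
    (he' : e' ∈ E) (hx : e.x = e'.x) : e = e' := by
  have h1 := h.inj (e * e'⁻¹) (E.mul_mem he (E.inv_mem he')) (by
    rw [Ex.mul_x, Ex.inv_x, hx, mul_inv_cancel])
  exact mul_inv_eq_one.1 h1

/-- Hilbert 90 for complements -/
lemma Cpl.conj {S : Set Ω} (hS : Stb P S) {D : Subgroup P} (hD : (stN S : Subgroup P) ≤ D)
    {E₁ E₂ : Subgroup (Ex c)} (h₁ : Cpl (stN S) D E₁) (h₂ : Cpl (stN S) D E₂) :
    ∃ a : Ωˣ, (∀ n ∈ (stN S : Subgroup P), ua n a = a) ∧
      ∀ e ∈ E₁, emb c a * e * (emb c a)⁻¹ ∈ E₂ := by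
  classical
  have hs1 : ∀ x : P, ∃ e : Ex c, x ∈ D → e ∈ E₁ ∧ e.x = x := by
    intro x
    by_cases hx : x ∈ D
    · obtain ⟨e, he, hx'⟩ := h₁.sur x hx
      exact ⟨e, fun _ => ⟨he, hx'⟩⟩
    · exact ⟨1, fun h => (hx h).elim⟩
  have hs2 : ∀ x : P, ∃ e : Ex c, x ∈ D → e ∈ E₂ ∧ e.x = x := by
    intro x
    by_cases hx : x ∈ D
    · obtain ⟨e, he, hx'⟩ := h₂.sur x hx
      exact ⟨e, fun _ => ⟨he, hx'⟩⟩
    · exact ⟨1, fun h => (hx h).elim⟩
  choose s₁ hs₁ using hs1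
  choose s₂ hs₂ using hs2
  let φ : P → Ωˣ := fun x => (s₂ x).a / (s₁ x).a
  have hφs : ∀ x ∈ D, s₂ x = emb c (φ x) * s₁ x := by
    intro x hx
    exact eq_emb_mul (((hs₂ x hx).2).trans (hs₁ x hx).2.symm)
  have hm1 : ∀ x ∈ D, ∀ y ∈ D, s₁ (x * y) = s₁ x * s₁ y := by
    intro x hx y hy
    refine h₁.eq (hs₁ _ (D.mul_mem hx hy)).1 (E₁.mul_mem (hs₁ x hx).1 (hs₁ y hy).1) ?_
    rw [(hs₁ _ (D.mul_mem hx hy)).2, Ex.mul_x, (hs₁ x hx).2, (hs₁ y hy).2]
  have hm2 : ∀ x ∈ D, ∀ y ∈ D, s₂ (x * y) = s₂ x * s₂ y := by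
    intro x hx y hy
    refine h₂.eq (hs₂ _ (D.mul_mem hx hy)).1 (E₂.mul_mem (hs₂ x hx).1 (hs₂ y hy).1) ?_
    rw [(hs₂ _ (D.mul_mem hx hy)).2, Ex.mul_x, (hs₂ x hx).2, (hs₂ y hy).2]
  have hφ : ∀ x ∈ D, ∀ y ∈ D, φ (x * y) = φ x * ua x (φ y) := by
    intro x hx y hy
    have e1 := hm2 x hx y hy
    rw [hφs _ (D.mul_mem hx hy), hφs x hx, hφs y hy, hm1 x hx y hy] at e1
    have e2 : emb c (φ x) * s₁ x * (emb c (φ y) * s₁ y) =
        emb c (φ x * ua x (φ y)) * (s₁ x * s₁ y) := by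
      rw [map_mul, mul_assoc (emb c (φ x)), ← mul_assoc (s₁ x), mul_emb, (hs₁ x hx).2]
      simp only [mul_assoc]
    rw [e2] at e1
    exact emb_inj (mul_right_cancel e1)
  have hφ1 : ∀ n ∈ (stN S : Subgroup P), φ n = 1 := by
    intro n hn
    have e1 : s₁ n = ⟨(c 1 1)⁻¹, n⟩ := h₁.eq (hs₁ n (hD hn)).1 (h₁.nh n hn) (hs₁ n (hD hn)).2
    have e2 : s₂ n = ⟨(c 1 1)⁻¹, n⟩ := h₂.eq (hs₂ n (hD hn)).1 (h₂.nh n hn) (hs₂ n (hD hn)).2
    change (s₂ n).a / (s₁ n).a = 1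
    rw [e1, e2, div_self']
  obtain ⟨a, ha1, ha2⟩ := h90 hS D hD φ hφ hφ1
  refine ⟨a, ha1, fun e he => ?_⟩
  have hx := h₁.dom e he
  have e1 : e = s₁ e.x := h₁.eq he (hs₁ _ hx).1 (hs₁ _ hx).2.symm
  have e2 : emb c a * e * (emb c a)⁻¹ = s₂ e.x := by
    rw [hφs _ hx, ha2 _ hx, ← e1, mul_inv_eq_iff_eq_mul, map_mul, map_inv, mul_assoc, mul_assoc,
      mul_emb, inv_mul_cancel_left]
  rw [e2]
  exact (hs₂ _ hx).1

/-- surjectivity of norms in cyclic steps of degree `l` between open subgroups -/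
def NSat (P Ω : Type) [Group P] [Field Ω] [MulSemiringAction P Ω] (l : ℕ) : Prop :=
  ∀ (D : Subgroup P) (τ : P), (∀ u ∈ D, τ⁻¹ * u * τ ∈ D) → τ ^ l ∈ D → τ ∉ D →
    (∃ S : Set Ω, Stb P S ∧ ∀ x : P, Agr S x 1 → x ∈ D) →
    ∀ z : Ω, z ≠ 0 → (∀ u ∈ D, u • z = z) → τ • z = z →
      ∃ b : Ω, (∀ u ∈ D, u • b = b) ∧ ∏ i ∈ Finset.range l, (τ ^ i • b) = z

lemma emb_mul_pow (b : Ωˣ) (e : Ex c) (n : ℕ) :
    (emb c b * e) ^ n = emb c (∏ i ∈ Finset.range n, ua (e.x ^ i) b) * e ^ n := by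
  induction n with
  | zero => simp
  | succ n ih =>
    rw [pow_succ, ih, Finset.prod_range_succ, map_mul, pow_succ, mul_assoc, ← mul_assoc (e ^ n),
      mul_emb, Ex.pow_x]
    simp only [mul_assoc]

/-- the splitting step -/
theorem Cpl.step {l : ℕ} (hl : l.Prime) (hNS : NSat P Ω l) {S : Set Ω} (hS : Stb P S)
    (hcS : ∀ n ∈ (stN S : Subgroup P), ∀ x, c n x = c 1 1)
    (hcS' : ∀ n ∈ (stN S : Subgroup P), ∀ x, c x n = c 1 1)
    {D : Subgroup P} (hD : (stN S : Subgroup P) ≤ D) {τ : P}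
    (hτ : ∀ u, u ∈ D ↔ τ⁻¹ * u * τ ∈ D) (hτl : τ ^ l ∈ D) (hτD : τ ∉ D)
    {E : Subgroup (Ex c)} (hE : Cpl (stN S) D E) {D' : Subgroup P} (hDD' : D ≤ D') (hτD' : τ ∈ D')
    (hD' : ∀ x ∈ D', ∃ k : ℤ, ∃ u ∈ D, x = τ ^ k * u) :
    ∃ E' : Subgroup (Ex c), Cpl (stN S) D' E' := by
  -- the conjugate complement
  let s₀ : Ex c := ⟨1, τ⟩
  have hconj0 : Cpl (stN S) D (E.map (MulAut.conj s₀).toMonoidHom) := by
    refine ⟨?_, ?_, ?_, ?_⟩
    · intro n hn
      refine ⟨⟨(c 1 1)⁻¹, τ⁻¹ * n * τ⟩, hE.nh _ ?_, ?_⟩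
      · have := stN_conj hS hn τ⁻¹
        rwa [inv_inv] at this
      · change s₀ * (⟨(c 1 1)⁻¹, τ⁻¹ * n * τ⟩ : Ex c) * s₀⁻¹ = _
        rw [mul_inv_eq_iff_eq_mul]
        apply Ex.ext'
        · rw [Ex.mul_a, Ex.mul_a]
          change 1 * ua τ (c 1 1)⁻¹ * c τ (τ⁻¹ * n * τ) = (c 1 1)⁻¹ * ua n 1 * c n τ
          have h2 : τ⁻¹ * n * τ ∈ (stN S : Subgroup P) := by
            have := stN_conj hS hn τ⁻¹
            rwa [inv_inv] at this
          rw [map_inv, hc.fix, hcS n hn, hcS' _ h2, map_one, one_mul, mul_one]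
        · rw [Ex.mul_x, Ex.mul_x]
          change τ * (τ⁻¹ * n * τ) = n * τ
          group
    · rintro _ ⟨e, he, rfl⟩
      change τ * e.x * τ⁻¹ ∈ D
      rw [hτ]
      have : τ⁻¹ * (τ * e.x * τ⁻¹) * τ = e.x := by group
      rw [this]
      exact hE.dom e he
    · intro x hx
      obtain ⟨e, he, hex⟩ := hE.sur _ ((hτ x).1 hx)
      refine ⟨_, ⟨e, he, rfl⟩, ?_⟩
      change τ * e.x * τ⁻¹ = x
      rw [hex]
      group
    · rintro _ ⟨e, he, rfl⟩ hx
      change τ * e.x * τ⁻¹ = 1 at hx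
      have h1 : e.x = 1 := by
        have : e.x = τ⁻¹ * (τ * e.x * τ⁻¹) * τ := by group
        rw [this, hx]; group
      rw [hE.inj e he h1, map_one]
  obtain ⟨a, -, ha⟩ := Cpl.conj hS hD hconj0 hE
  -- first modification
  set s₁ : Ex c := emb c a * s₀ with hs₁
  have hs₁x : s₁.x = τ := by
    rw [hs₁, Ex.mul_x, emb_x, one_mul]
  have hn1 : ∀ e ∈ E, s₁ * e * s₁⁻¹ ∈ E := by
    intro e he
    have h1 := ha (s₀ * e * s₀⁻¹) ⟨e, he, rfl⟩
    have h2 : emb c a * (s₀ * e * s₀⁻¹) * (emb c a)⁻¹ = s₁ * e * s₁⁻¹ := by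
      rw [hs₁]; group
    rwa [h2] at h1
  have hn1' : ∀ n : ℕ, ∀ e ∈ E, s₁ ^ n * e * (s₁ ^ n)⁻¹ ∈ E := by
    intro n
    induction n with
    | zero => intro e he; simpa using he
    | succ n ih =>
      intro e he
      have h1 := hn1 _ (ih e he)
      have h2 : s₁ * (s₁ ^ n * e * (s₁ ^ n)⁻¹) * s₁⁻¹ = s₁ ^ (n + 1) * e * (s₁ ^ (n + 1))⁻¹ := by
        rw [pow_succ']; group
      rwa [h2] at h1
  obtain ⟨t, ht, htx⟩ := hE.sur _ hτl
  obtain ⟨z, hz⟩ : ∃ z : Ωˣ, s₁ ^ l = emb c z * t :=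
    ⟨_, eq_emb_mul (by rw [Ex.pow_x, hs₁x, htx])⟩
  have hzD : ∀ u ∈ D, ua u z = z := by
    intro u hu
    obtain ⟨e, he, hex⟩ := hE.sur u hu
    have h1 : t⁻¹ * e * t ∈ E := E.mul_mem (E.mul_mem (E.inv_mem ht) he) ht
    have h2 := hn1' l _ h1
    have h3 : s₁ ^ l * (t⁻¹ * e * t) * (s₁ ^ l)⁻¹ = e := by
      refine hE.eq h2 he ?_
      simp only [Ex.mul_x, Ex.inv_x, Ex.pow_x, hs₁x, htx]
      group
    have h4 : emb c z * e = e * emb c z := by
      rw [hz] at h3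
      have h5 : emb c z * t * (t⁻¹ * e * t) * (emb c z * t)⁻¹ = emb c z * e * (emb c z)⁻¹ := by group
      rw [h5] at h3
      exact mul_inv_eq_iff_eq_mul.1 h3
    rw [mul_emb, hex] at h4
    exact (emb_inj (mul_right_cancel h4)).symm
  have hzτ : ua τ z = z := by
    have h1 : s₁ * t * s₁⁻¹ = t := by
      refine hE.eq (hn1 t ht) ht ?_
      simp only [Ex.mul_x, Ex.inv_x, hs₁x, htx]
      group
    have h2 : s₁ * s₁ ^ l * s₁⁻¹ = s₁ ^ l := by group
    rw [hz] at h2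
    have h3 : s₁ * (emb c z * t) * s₁⁻¹ = emb c (ua τ z) * (s₁ * t * s₁⁻¹) := by
      rw [← mul_assoc, mul_emb, hs₁x]
      group
    rw [h3, h1] at h2
    exact emb_inj (mul_right_cancel h2)
  -- the norm
  obtain ⟨b, hb, hbN⟩ := hNS D τ (fun u hu => (hτ u).1 hu) hτl hτD ⟨S, hS, fun x hx => hD hx⟩
    ((z⁻¹ : Ωˣ) : Ω) (Units.ne_zero _) (fun u hu => by
      have h1 := hzD u hu
      rw [← ua_val, map_inv, h1]) (by rw [← ua_val, map_inv, hzτ])
  have hb0 : b ≠ 0 := by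
    rintro rfl
    have h1 : ∏ i ∈ Finset.range l, (τ ^ i • (0 : Ω)) = 0 := by
      refine Finset.prod_eq_zero (Finset.mem_range.2 hl.pos) (smul_zero _)
    rw [h1] at hbN
    exact Units.ne_zero _ hbN.symm
  obtain ⟨b, rfl⟩ : ∃ b' : Ωˣ, (b' : Ω) = b := ⟨Units.mk0 b hb0, rfl⟩
  have hbu : ∀ u ∈ D, ua u b = b := fun u hu => by
    ext; rw [ua_val]; exact hb u hu
  have hbN' : ∏ i ∈ Finset.range l, ua (τ ^ i) b = z⁻¹ := by
    apply Units.ext
    rw [Units.coe_prod]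
    exact hbN
  set s : Ex c := emb c b * s₁ with hs
  have hsx : s.x = τ := by rw [hs, Ex.mul_x, emb_x, one_mul, hs₁x]
  have hsl : s ^ l = t := by
    rw [hs, emb_mul_pow, hs₁x, hbN', hz, ← mul_assoc, ← map_mul, inv_mul_cancel, map_one, one_mul]
  have hsn : ∀ e ∈ E, s * e * s⁻¹ ∈ E := by
    intro e he
    have h1 := hn1 e he
    have h2 : s * e * s⁻¹ = s₁ * e * s₁⁻¹ := by
      have h3 : emb c b * (s₁ * e * s₁⁻¹) = (s₁ * e * s₁⁻¹) * emb c b := by
        rw [mul_emb, hbu _ (hE.dom _ h1)]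
      rw [hs]
      have h4 : emb c b * s₁ * e * (emb c b * s₁)⁻¹ = emb c b * (s₁ * e * s₁⁻¹) * (emb c b)⁻¹ := by
        group
      rw [h4, h3, mul_inv_cancel_right]
    rwa [h2]
  -- inverse conjugation, using that `s ^ l ∈ E`
  have hsnn : ∀ n : ℕ, ∀ e ∈ E, s ^ n * e * (s ^ n)⁻¹ ∈ E := by
    intro n
    induction n with
    | zero => intro e he; simpa using he
    | succ n ih =>
      intro e he
      have h1 := hsn _ (ih e he)
      have h2 : s * (s ^ n * e * (s ^ n)⁻¹) * s⁻¹ = s ^ (n + 1) * e * (s ^ (n + 1))⁻¹ := by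
        rw [pow_succ']; group
      rwa [h2] at h1
  have hslE : s ^ l ∈ E := by rw [hsl]; exact ht
  have hsn' : ∀ e ∈ E, s⁻¹ * e * s ∈ E := by
    intro e he
    have h1 := hsnn (l - 1) e he
    have h2 := E.mul_mem (E.mul_mem (E.inv_mem hslE) h1) hslE
    have h3 : (s ^ l)⁻¹ * (s ^ (l - 1) * e * (s ^ (l - 1))⁻¹) * s ^ l = s⁻¹ * e * s := by
      obtain ⟨m, rfl⟩ : ∃ m, l = m + 1 := ⟨l - 1, (Nat.succ_pred_eq_of_pos hl.pos).symm⟩
      rw [Nat.add_sub_cancel, pow_succ]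
      group
    rwa [h3] at h2
  have hsz : ∀ k : ℤ, ∀ e ∈ E, s ^ k * e * (s ^ k)⁻¹ ∈ E := by
    intro k
    induction k using Int.induction_on with
    | zero => intro e he; simpa using he
    | succ n ih =>
      intro e he
      have h1 := hsn _ (ih e he)
      have h2 : s * (s ^ (n : ℤ) * e * (s ^ (n : ℤ))⁻¹) * s⁻¹ =
          s ^ ((n : ℤ) + 1) * e * (s ^ ((n : ℤ) + 1))⁻¹ := by
        rw [add_comm, zpow_add, zpow_one]; group
      rwa [h2] at h1
    | pred n ih =>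
      intro e he
      have h1 := hsn' _ (ih e he)
      have h2 : s⁻¹ * (s ^ (-(n : ℤ)) * e * (s ^ (-(n : ℤ)))⁻¹) * s =
          s ^ (-(n : ℤ) - 1) * e * (s ^ (-(n : ℤ) - 1))⁻¹ := by
        rw [sub_eq_neg_add, zpow_add, zpow_neg_one]; group
      rwa [h2] at h1
  refine ⟨{ carrier := {e | ∃ k : ℤ, ∃ f ∈ E, e = s ^ k * f}
            one_mem' := ⟨0, 1, E.one_mem, by simp⟩
            mul_mem' := ?_
            inv_mem' := ?_ }, ?_, ?_, ?_, ?_⟩
  · rintro _ _ ⟨k, f, hf, rfl⟩ ⟨m, g, hg, rfl⟩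
    refine ⟨k + m, s ^ (-m) * f * (s ^ (-m))⁻¹ * g, E.mul_mem (hsz (-m) f hf) hg, ?_⟩
    rw [zpow_add, zpow_neg, inv_inv]
    simp only [mul_assoc, mul_inv_cancel_left]
  · rintro _ ⟨k, f, hf, rfl⟩
    refine ⟨-k, s ^ k * f⁻¹ * (s ^ k)⁻¹, hsz k _ (E.inv_mem hf), ?_⟩
    rw [mul_inv_rev, zpow_neg]
    simp only [mul_assoc, inv_mul_cancel_left]
  · intro n hn
    exact ⟨0, _, hE.nh n hn, by simp⟩
  · rintro _ ⟨k, f, hf, rfl⟩
    rw [Ex.mul_x, Ex.zpow_x, hsx]
    exact D'.mul_mem (D'.zpow_mem hτD' k) (hDD' (hE.dom f hf))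
  · intro x hx
    obtain ⟨k, u, hu, rfl⟩ := hD' x hx
    obtain ⟨f, hf, hfx⟩ := hE.sur u hu
    exact ⟨s ^ k * f, ⟨k, f, hf, rfl⟩, by rw [Ex.mul_x, Ex.zpow_x, hsx, hfx]⟩
  · rintro _ ⟨k, f, hf, rfl⟩ hx
    rw [Ex.mul_x, Ex.zpow_x, hsx] at hx
    have h1 : τ ^ k ∈ D := by
      rw [mul_eq_one_iff_eq_inv.1 hx]
      exact D.inv_mem (hE.dom f hf)
    have h2 : (l : ℤ) ∣ k := by
      by_contra hnd
      have hcop : IsCoprime (l : ℤ) k := by
        rw [Int.isCoprime_iff_gcd_eq_one]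
        rcases (Nat.coprime_or_dvd_of_prime hl k.natAbs) with h | h
        · simpa [Int.gcd] using h
        · exact absurd (Int.natCast_dvd.2 h) hnd
      obtain ⟨p, q, hpq⟩ := hcop
      apply hτD
      have h3 : τ = (τ ^ l) ^ p * (τ ^ k) ^ q := by
        rw [← zpow_natCast τ l, ← zpow_mul, ← zpow_mul, ← zpow_add]
        have : (l : ℤ) * p + k * q = 1 := by linarith [hpq, mul_comm (l : ℤ) p, mul_comm k q]
        rw [this, zpow_one]
      rw [h3]
      exact D.mul_mem (D.zpow_mem hτl p) (D.zpow_mem h1 q)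
    obtain ⟨m, rfl⟩ := h2
    refine hE.inj _ (E.mul_mem ?_ hf) ?_
    · rw [zpow_mul, zpow_natCast]
      exact E.zpow_mem hslE m
    · rw [Ex.mul_x, Ex.zpow_x, hsx]
      exact hx

lemma stN_normal {S : Set Ω} (hS : Stb P S) : (stN S : Subgroup P).Normal :=
  ⟨fun _ hn g => stN_conj hS hn g⟩

/-- splitting over the whole group -/
theorem exists_cpl_top {l : ℕ} (hl : l.Prime) (hNS : NSat P Ω l) {S : Set Ω} (hS : Stb P S)
    (hcS : ∀ n ∈ (stN S : Subgroup P), ∀ x, c n x = c 1 1)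
    (hcS' : ∀ n ∈ (stN S : Subgroup P), ∀ x, c x n = c 1 1)
    (hpl : ∀ x : P, ∃ k : ℕ, Agr S (x ^ (l ^ k)) 1) :
    ∃ E : Subgroup (Ex c), Cpl (stN S) ⊤ E := by
  classical
  haveI hN := stN_normal (P := P) hS
  haveI hfin := stN_finite (P := P) hS
  haveI : Fact l.Prime := ⟨hl⟩
  set N : Subgroup P := stN S with hNdef
  have hpg : IsPGroup l (P ⧸ N) := by
    intro q
    obtain ⟨x, rfl⟩ := QuotientGroup.mk_surjective q
    obtain ⟨k, hk⟩ := hpl x
    refine ⟨k, ?_⟩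
    rw [← QuotientGroup.mk_pow]
    exact (QuotientGroup.eq_one_iff _).2 hk
  obtain ⟨n, hn⟩ := (IsPGroup.iff_card (p := l) (G := P ⧸ N)).1 hpg
  have key : ∀ m ≤ n, ∃ K : Subgroup (P ⧸ N), Nat.card K = l ^ m ∧
      ∃ E : Subgroup (Ex c), Cpl N (K.comap (QuotientGroup.mk' N)) E := by
    intro m
    induction m with
    | zero =>
      intro _
      refine ⟨⊥, by simp, liftN c N hcS, ?_, ?_, ?_, ?_⟩
      · intro n hn
        exact ⟨rfl, hn⟩
      · intro e he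
        rw [Subgroup.mem_comap, Subgroup.mem_bot]
        exact (QuotientGroup.eq_one_iff _).2 he.2
      · intro x hx
        rw [Subgroup.mem_comap, Subgroup.mem_bot] at hx
        exact ⟨⟨(c 1 1)⁻¹, x⟩, ⟨rfl, (QuotientGroup.eq_one_iff _).1 hx⟩, rfl⟩
      · intro e he hx
        exact Ex.ext' he.1 hx
    | succ m ih =>
      intro hm
      obtain ⟨K, hK, E, hE⟩ := ih (Nat.le_of_succ_le hm)
      obtain ⟨K', hK', hKK'⟩ := Sylow.exists_subgroup_card_pow_succ (p := l) (n := m)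
        (by rw [hn]; exact pow_dvd_pow l hm) hK
      haveI : Finite K' := Subtype.finite
      have hidx : (K.subgroupOf K').index = l := by
        have h1 := (K.subgroupOf K').card_mul_index
        rw [Nat.card_congr (Subgroup.subgroupOfEquivOfLe hKK').toEquiv, hK, hK', pow_succ] at h1
        exact Nat.eq_of_mul_eq_mul_left (pow_pos hl.pos m) h1
      haveI hnorm : (K.subgroupOf K').Normal := by
        refine Subgroup.normal_of_index_eq_minFac_card ?_
        rw [hidx, hK']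
        exact (Nat.Prime.pow_minFac hl (Nat.succ_ne_zero m)).symm
      have hne : ∃ t : K', t ∉ K.subgroupOf K' := by
        by_contra hcon
        push Not at hcon
        have h1 : K.subgroupOf K' = ⊤ := (Subgroup.eq_top_iff' _).2 hcon
        rw [h1, Subgroup.index_top] at hidx
        exact hl.one_lt.ne hidx
      obtain ⟨t, ht⟩ := hne
      obtain ⟨τ, hτ⟩ := QuotientGroup.mk_surjective (t : P ⧸ N)
      have htK : (t : P ⧸ N) ∉ K := fun h => ht (Subgroup.mem_subgroupOf.2 h)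
      refine ⟨K', hK', Cpl.step hl hNS hS hcS hcS' (D := K.comap (QuotientGroup.mk' N)) ?_ (τ := τ)
        ?_ ?_ ?_ hE (D' := K'.comap (QuotientGroup.mk' N)) ?_ ?_ ?_⟩
      · intro x hx
        rw [Subgroup.mem_comap]
        have : (QuotientGroup.mk' N) x = 1 := (QuotientGroup.eq_one_iff _).2 hx
        rw [this]
        exact K.one_mem
      · intro u
        rw [Subgroup.mem_comap, Subgroup.mem_comap, map_mul, map_mul, map_inv]
        change (u : P ⧸ N) ∈ K ↔ (τ : P ⧸ N)⁻¹ * (u : P ⧸ N) * (τ : P ⧸ N) ∈ K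
        rw [hτ]
        constructor
        · intro hu
          have h1 := hnorm.conj_mem ⟨(u : P ⧸ N), hKK' hu⟩ (Subgroup.mem_subgroupOf.2 hu) t⁻¹
          rw [Subgroup.mem_subgroupOf] at h1
          simpa using h1
        · intro hu
          have h0 : (t : P ⧸ N)⁻¹ * (u : P ⧸ N) * (t : P ⧸ N) ∈ K' := hKK' hu
          have h1 := hnorm.conj_mem ⟨_, h0⟩ (Subgroup.mem_subgroupOf.2 hu) t
          rw [Subgroup.mem_subgroupOf] at h1
          have h2 : (t : P ⧸ N) * ((t : P ⧸ N)⁻¹ * (u : P ⧸ N) * (t : P ⧸ N)) * (t : P ⧸ N)⁻¹ =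
            (u : P ⧸ N) := by group
          have h3 : (t : P ⧸ N) * ((t : P ⧸ N)⁻¹ * (u : P ⧸ N) * (t : P ⧸ N)) * (t : P ⧸ N)⁻¹ ∈ K := h1
          rwa [h2] at h3
      · rw [Subgroup.mem_comap, map_pow]
        change (τ : P ⧸ N) ^ l ∈ K
        rw [hτ]
        have h1 := Subgroup.pow_index_mem (K.subgroupOf K') t
        rw [hidx, Subgroup.mem_subgroupOf] at h1
        exact h1
      · rw [Subgroup.mem_comap]
        change (τ : P ⧸ N) ∉ K
        rw [hτ]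
        exact htK
      · exact Subgroup.comap_mono hKK'
      · rw [Subgroup.mem_comap]
        change (τ : P ⧸ N) ∈ K'
        rw [hτ]
        exact t.2
      · intro x hx
        rw [Subgroup.mem_comap] at hx
        change (x : P ⧸ N) ∈ K' at hx
        have hcard : Nat.card (K' ⧸ K.subgroupOf K') = l := hidx
        have h1 : (QuotientGroup.mk (⟨(x : P ⧸ N), hx⟩ : K') : K' ⧸ K.subgroupOf K') ∈
            Subgroup.zpowers (QuotientGroup.mk t : K' ⧸ K.subgroupOf K') :=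
          mem_zpowers_of_prime_card hcard (fun h => ht ((QuotientGroup.eq_one_iff _).1 h))
        obtain ⟨k, hk⟩ := Subgroup.mem_zpowers_iff.1 h1
        refine ⟨k, τ ^ (-k) * x, ?_, by rw [zpow_neg, mul_inv_cancel_left]⟩
        rw [← QuotientGroup.mk_zpow] at hk
        have h2 := QuotientGroup.eq.1 hk
        rw [Subgroup.mem_subgroupOf] at h2
        rw [Subgroup.mem_comap, map_mul, map_zpow]
        change (τ : P ⧸ N) ^ (-k) * (x : P ⧸ N) ∈ K
        rw [hτ, zpow_neg]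
        simpa using h2
  obtain ⟨K, hK, E, hE⟩ := key n le_rfl
  have hKtop : K = ⊤ := Subgroup.eq_top_of_card_eq K (by rw [hK, hn])
  rw [hKtop, Subgroup.comap_top] at hE
  exact ⟨E, hE⟩

end ext

section T3

variable {P Ω : Type} [Group P] [Field Ω] [MulSemiringAction P Ω] [IsAlgClosed Ω]

/-- vanishing of the second cohomology of a pro-`l` group with trivial coefficients of order `l` -/
theorem T3 {l : ℕ} (hl : l.Prime) (hNS : NSat P Ω l) (hfo : FinO P Ω) {S : Set Ω}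
    (hS : Stb P S) (hpl : ∀ x : P, ∃ k : ℕ, Agr S (x ^ (l ^ k)) 1)
    {ζ : Ωˣ} (hζ : IsPrimitiveRoot ζ l) (hζf : ∀ x : P, ua x ζ = ζ)
    {f : P → P → P → ZMod l} (hf : Lv3 S f)
    (hinv : ∀ j x y z, f (j * x) (j * y) (j * z) = f x y z) (hd : d3 f = 0) :
    ∃ T : Set Ω, Stb P T ∧ ∃ β : P → P → ZMod l, Lv2 T β ∧
      (∀ j x y, β (j * x) (j * y) = β x y) ∧ f = d2 β := by
  classical
  haveI : Fact l.Prime := ⟨hl⟩
  let e : ZMod l ≃+ Additive (Subgroup.zpowers ζ) := hζ.zmodEquivZPowers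
  let z : ZMod l → Ωˣ := fun a => ((Additive.toMul (e a) : Subgroup.zpowers ζ) : Ωˣ)
  have hz_add : ∀ a b, z (a + b) = z a * z b := by
    intro a b
    change ((Additive.toMul (e (a + b)) : Subgroup.zpowers ζ) : Ωˣ) = _
    rw [map_add]; rfl
  have hz_inj : Function.Injective z := by
    intro a b h
    have h1 : e a = e b := Subtype.ext h
    exact e.injective h1
  have hz_fix : ∀ (x : P) a, ua x (z a) = z a := by
    intro x a
    obtain ⟨k, hk⟩ := Subgroup.mem_zpowers_iff.1 (Additive.toMul (e a) : Subgroup.zpowers ζ).2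
    change ua x ((Additive.toMul (e a) : Subgroup.zpowers ζ) : Ωˣ) = ((Additive.toMul (e a) : Subgroup.zpowers ζ) : Ωˣ)
    rw [← hk, map_zpow, hζf]
  have hz_sur : ∀ u : Ωˣ, u ^ l = 1 → ∃ a, z a = u := by
    intro u hu
    have h1 : u ∈ Subgroup.zpowers ζ := by
      have h2 : IsPrimitiveRoot (ζ : Ω) l := IsPrimitiveRoot.coe_units_iff.2 hζ
      haveI : NeZero l := ⟨hl.ne_zero⟩
      rw [hζ.zpowers_eq, mem_rootsOfUnity]
      exact hu
    refine ⟨e.symm (Additive.ofMul ⟨u, h1⟩), ?_⟩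
    change ((Additive.toMul (e (e.symm (Additive.ofMul ⟨u, h1⟩))) : Subgroup.zpowers ζ) : Ωˣ) = u
    rw [AddEquiv.apply_symm_apply]
    rfl
  have hz_pow : ∀ a, z a ^ l = 1 := by
    intro a
    have h1 : (Additive.toMul (e a) : Subgroup.zpowers ζ).1 ∈ Subgroup.zpowers ζ := (Additive.toMul (e a) : Subgroup.zpowers ζ).2
    obtain ⟨k, hk⟩ := Subgroup.mem_zpowers_iff.1 h1
    change ((Additive.toMul (e a) : Subgroup.zpowers ζ) : Ωˣ) ^ l = 1
    rw [← hk, ← zpow_natCast, ← zpow_mul, mul_comm, zpow_mul, zpow_natCast, hζ.pow_eq_one, one_zpow]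
  have hd' : ∀ x y z w, f y z w - f x z w + f x y w - f x y z = 0 := fun x y z w => by
    have := congrFun (congrFun (congrFun (congrFun hd x) y) z) w
    simpa [d3] using this
  let c : P → P → Ωˣ := fun x y => z (f 1 x (x * y))
  haveI hc : Coc c := by
    refine ⟨fun x y w => ?_, fun x y w => hz_fix _ _⟩
    change z (f 1 x (x * y)) * z (f 1 (x * y) (x * y * w)) = z (f 1 y (y * w)) * z (f 1 x (x * (y * w)))
    rw [← hz_add, ← hz_add]
    congr 1
    have h1 := hd' 1 x (x * y) (x * y * w)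
    have h2 := hinv x 1 y (y * w)
    rw [mul_one, ← mul_assoc] at h2
    rw [← mul_assoc, ← h2]
    linear_combination -h1
  have hN1 : ∀ n ∈ (stN S : Subgroup P), ∀ x, c n x = c 1 1 := by
    intro n hn x
    rw [← c_one_left c x]
    change z (f 1 n (n * x)) = z (f 1 1 (1 * x))
    rw [hf 1 1 n 1 (n * x) (1 * x) (Agr.refl _ _) hn (Agr.mul_right hS x hn)]
  have hN2 : ∀ n ∈ (stN S : Subgroup P), ∀ x, c x n = c 1 1 := by
    intro n hn x
    rw [← c_one_right c x]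
    change z (f 1 x (x * n)) = z (f 1 x (x * 1))
    rw [hf 1 1 x x (x * n) (x * 1) (Agr.refl _ _) (Agr.refl _ _) (Agr.mul_left x hn)]
  obtain ⟨E, hE⟩ := exists_cpl_top hl hNS hS hN1 hN2 hpl
  have hsur : ∀ x : P, ∃ e ∈ E, e.x = x := fun x => hE.sur x (Subgroup.mem_top _)
  choose s hsE hsx using hsur
  let b : P → Ωˣ := fun x => (s x).a
  have hmul : ∀ x y, b (x * y) = b x * ua x (b y) * c x y := by
    intro x y
    have h1 : s (x * y) = s x * s y := hE.eq (hsE _) (E.mul_mem (hsE x) (hsE y)) (by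
      rw [hsx, Ex.mul_x, hsx, hsx])
    change (s (x * y)).a = _
    rw [h1, Ex.mul_a, hsx, hsx]
  have hbN : ∀ n ∈ (stN S : Subgroup P), b n = (c 1 1)⁻¹ := by
    intro n hn
    have h1 : s n = ⟨(c 1 1)⁻¹, n⟩ := hE.eq (hsE n) (hE.nh n hn) (hsx n)
    change (s n).a = _
    rw [h1]
  have hblev : ∀ x x', Agr S x x' → b x = b x' := by
    intro x x' h
    have h1 : x⁻¹ * x' ∈ (stN S : Subgroup P) := h.one_of
    have h2 := hmul x (x⁻¹ * x')
    rw [mul_inv_cancel_left, hbN _ h1, map_inv, hc.fix, hN2 _ h1, inv_mul_cancel_right] at h2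
    exact h2.symm
  obtain ⟨a, -, ha⟩ := h90 hS (⊤ : Subgroup P) le_top (fun x => b x ^ l) (by
    intro x _ y _
    rw [hmul, mul_pow, mul_pow, ← map_pow]
    have : c x y ^ l = 1 := hz_pow _
    rw [this, mul_one]) (by
    intro n hn
    rw [hbN n hn, inv_pow]
    have : c 1 1 ^ l = 1 := hz_pow _
    rw [this, inv_one])
  obtain ⟨r₀, hr₀⟩ := IsAlgClosed.exists_pow_nat_eq (a : Ω) hl.pos
  have hr0 : r₀ ≠ 0 := by
    rintro rfl
    rw [zero_pow hl.ne_zero] at hr₀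
    exact a.ne_zero hr₀.symm
  obtain ⟨r, rfl⟩ : ∃ r : Ωˣ, (r : Ω) = r₀ := ⟨Units.mk0 r₀ hr0, rfl⟩
  have hr : r ^ l = a := by ext; rw [Units.val_pow_eq_pow_val]; exact hr₀
  have hb'l : ∀ x, (b x * (ua x r * r⁻¹)) ^ l = 1 := by
    intro x
    have h1 : b x ^ l = a * (ua x a)⁻¹ := ha x (Subgroup.mem_top _)
    rw [mul_pow, h1, mul_pow, ← map_pow, inv_pow, hr]
    rw [mul_assoc, inv_mul_cancel_left, mul_inv_cancel]
  choose g hg using fun x => hz_sur _ (hb'l x)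
  have hgadd : ∀ x y, g (x * y) = g x + g y + f 1 x (x * y) := by
    intro x y
    apply hz_inj
    rw [hz_add, hz_add]
    have h1 : z (g y) = ua x (z (g y)) := (hz_fix _ _).symm
    rw [h1, hg, hg, hg, hmul]
    change b x * ua x (b y) * c x y * (ua (x * y) r * r⁻¹) =
      b x * (ua x r * r⁻¹) * ua x (b y * (ua y r * r⁻¹)) * c x y
    rw [map_mul, map_mul, map_inv, ua_mul]
    apply Units.ext
    simp only [Units.val_mul, Units.val_inv_eq_inv_val]
    have h2 := r.ne_zero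
    have h3 := (ua x r).ne_zero
    field_simp
  obtain ⟨T, hT, hTS⟩ := hfo.exists_stb (hS.1.union (Set.finite_singleton (r : Ω)))
  refine ⟨T, hTS, fun x y => -g (x⁻¹ * y), ?_, ?_, ?_⟩
  · intro x x' y y' hx hy
    change -g (x⁻¹ * y) = -g (x'⁻¹ * y')
    congr 1
    have h1 : Agr T (x⁻¹ * y) (x'⁻¹ * y') := (hx.inv hTS).mul hTS hy
    apply hz_inj
    rw [hg, hg, hblev _ _ (h1.mono (Set.subset_union_left.trans hT))]
    congr 2
    ext
    rw [ua_val, ua_val]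
    exact h1 _ (hT (Or.inr rfl))
  · intro j x y
    change -g ((j * x)⁻¹ * (j * y)) = -g (x⁻¹ * y)
    congr 2
    group
  · funext x y w
    change f x y w = -g (y⁻¹ * w) - -g (x⁻¹ * w) + -g (x⁻¹ * y)
    have h1 := hgadd (x⁻¹ * y) (y⁻¹ * w)
    have h2 : x⁻¹ * y * (y⁻¹ * w) = x⁻¹ * w := by group
    rw [h2] at h1
    have h3 := hinv x⁻¹ x y w
    rw [inv_mul_cancel] at h3
    rw [← h3, h1]
    abel

end T3

end Run7.h333
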