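import Pool.Agent.Run7.h333.T3

/-! Vanishing of the second cohomology for groups satisfying surjectivity of norms. -/

set_option autoImplicit false
set_option linter.style.haveILetI false

namespace Run7.h333

section average

variable {G : Type} [Group G] {Y : Type} [MulAction G Y] {A : Type} [AddCommGroup A]
  [DistribMulAction G A]

open Classical in
/-- averaging in degree two -/
theorem average2 {J : Subgroup G} {P : Subgroup J} [Fintype (J ⧸ P)] {f : G → G → G → A}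
    (hfe : Eq3 J f) {β : G → G → A} (hβ : ∀ p ∈ P, ∀ x y, β (p * x) (p * y) = p • β x y)
    (h : f = d2 β) {T : Set Y} (hT : Lv2 T β) :
    ∃ γ : G → G → A, Lv2 T γ ∧ Eq2 J γ ∧ d2 γ = (Fintype.card (J ⧸ P)) • f := by
  let o : J ⧸ P → G := fun c => ((Quotient.out c : J) : G)
  refine ⟨fun x y => ∑ c : J ⧸ P, o c • β ((o c)⁻¹ * x) ((o c)⁻¹ * y), ?_, ?_, ?_⟩
  · intro x x' y y' hx hy
    refine Finset.sum_congr rfl fun c _ => ?_
    rw [hT _ _ _ _ (hx.mul_left _) (hy.mul_left _)]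
  · intro j hj x y
    change ∑ c : J ⧸ P, o c • β ((o c)⁻¹ * (j * x)) ((o c)⁻¹ * (j * y)) =
      j • ∑ c : J ⧸ P, o c • β ((o c)⁻¹ * x) ((o c)⁻¹ * y)
    rw [Finset.smul_sum]
    symm
    refine Fintype.sum_equiv (MulAction.toPerm (⟨j, hj⟩ : J)) _ _ fun c => ?_
    obtain ⟨p, hp⟩ := QuotientGroup.mk_out_eq_mul P ((⟨j, hj⟩ : J) * Quotient.out c)
    have hc : (MulAction.toPerm (⟨j, hj⟩ : J) c : J ⧸ P) =
        QuotientGroup.mk ((⟨j, hj⟩ : J) * Quotient.out c) := by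
      change (⟨j, hj⟩ : J) • c = _
      conv_lhs => rw [← QuotientGroup.out_eq' c]
      rfl
    rw [hc]
    have e1 : o (QuotientGroup.mk ((⟨j, hj⟩ : J) * Quotient.out c)) = j * o c * (p : J) := by
      change (((Quotient.out (QuotientGroup.mk ((⟨j, hj⟩ : J) * Quotient.out c) : J ⧸ P)) : J) : G) = _
      rw [hp]
      rfl
    rw [e1]
    have e2 := hβ ((p : J)⁻¹) (P.inv_mem p.2) ((o c)⁻¹ * x) ((o c)⁻¹ * y)
    have e3 : ∀ w : G, (j * o c * ((p : J) : G))⁻¹ * (j * w) = ((p : J)⁻¹ : J) * ((o c)⁻¹ * w) := by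
      intro w
      push_cast
      group
    rw [e3, e3, e2, mul_smul, mul_smul]
    congr 2
    exact (smul_inv_smul ((p : J) : G) _).symm
  · funext x y z
    change ∑ c : J ⧸ P, o c • β ((o c)⁻¹ * y) ((o c)⁻¹ * z) -
      ∑ c : J ⧸ P, o c • β ((o c)⁻¹ * x) ((o c)⁻¹ * z) +
      ∑ c : J ⧸ P, o c • β ((o c)⁻¹ * x) ((o c)⁻¹ * y) = Fintype.card (J ⧸ P) • f x y z
    rw [← Finset.sum_sub_distrib, ← Finset.sum_add_distrib, ← Finset.card_univ, ← Finset.sum_const]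
    refine Finset.sum_congr rfl fun c _ => ?_
    have e1 := hfe (o c) (Quotient.out c : J).2 ((o c)⁻¹ * x) ((o c)⁻¹ * y) ((o c)⁻¹ * z)
    rw [mul_inv_cancel_left, mul_inv_cancel_left, mul_inv_cancel_left] at e1
    rw [e1, h, ← smul_sub, ← smul_add]
    rfl

open Classical in
/-- averaging in degree three -/
theorem average3 {J : Subgroup G} {P : Subgroup J} [Fintype (J ⧸ P)] {f : G → G → G → G → A}
    (hfe : Eq4 J f) {β : G → G → G → A}
    (hβ : ∀ p ∈ P, ∀ x y z, β (p * x) (p * y) (p * z) = p • β x y z)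
    (h : f = d3 β) {T : Set Y} (hT : Lv3 T β) :
    ∃ γ : G → G → G → A, Lv3 T γ ∧ Eq3 J γ ∧ d3 γ = (Fintype.card (J ⧸ P)) • f := by
  let o : J ⧸ P → G := fun c => ((Quotient.out c : J) : G)
  refine ⟨fun x y z => ∑ c : J ⧸ P, o c • β ((o c)⁻¹ * x) ((o c)⁻¹ * y) ((o c)⁻¹ * z), ?_, ?_, ?_⟩
  · intro x x' y y' z z' hx hy hz
    refine Finset.sum_congr rfl fun c _ => ?_
    rw [hT _ _ _ _ _ _ (hx.mul_left _) (hy.mul_left _) (hz.mul_left _)]
  · intro j hj x y z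
    change ∑ c : J ⧸ P, o c • β ((o c)⁻¹ * (j * x)) ((o c)⁻¹ * (j * y)) ((o c)⁻¹ * (j * z)) =
      j • ∑ c : J ⧸ P, o c • β ((o c)⁻¹ * x) ((o c)⁻¹ * y) ((o c)⁻¹ * z)
    rw [Finset.smul_sum]
    symm
    refine Fintype.sum_equiv (MulAction.toPerm (⟨j, hj⟩ : J)) _ _ fun c => ?_
    obtain ⟨p, hp⟩ := QuotientGroup.mk_out_eq_mul P ((⟨j, hj⟩ : J) * Quotient.out c)
    have hc : (MulAction.toPerm (⟨j, hj⟩ : J) c : J ⧸ P) =
        QuotientGroup.mk ((⟨j, hj⟩ : J) * Quotient.out c) := by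
      change (⟨j, hj⟩ : J) • c = _
      conv_lhs => rw [← QuotientGroup.out_eq' c]
      rfl
    rw [hc]
    have e1 : o (QuotientGroup.mk ((⟨j, hj⟩ : J) * Quotient.out c)) = j * o c * (p : J) := by
      change (((Quotient.out (QuotientGroup.mk ((⟨j, hj⟩ : J) * Quotient.out c) : J ⧸ P)) : J) : G) = _
      rw [hp]
      rfl
    rw [e1]
    have e2 := hβ ((p : J)⁻¹) (P.inv_mem p.2) ((o c)⁻¹ * x) ((o c)⁻¹ * y) ((o c)⁻¹ * z)
    have e3 : ∀ w : G, (j * o c * ((p : J) : G))⁻¹ * (j * w) = ((p : J)⁻¹ : J) * ((o c)⁻¹ * w) := by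
      intro w
      push_cast
      group
    rw [e3, e3, e3, e2, mul_smul, mul_smul]
    congr 2
    exact (smul_inv_smul ((p : J) : G) _).symm
  · funext x y z w
    change ∑ c : J ⧸ P, o c • β ((o c)⁻¹ * y) ((o c)⁻¹ * z) ((o c)⁻¹ * w) -
      ∑ c : J ⧸ P, o c • β ((o c)⁻¹ * x) ((o c)⁻¹ * z) ((o c)⁻¹ * w) +
      ∑ c : J ⧸ P, o c • β ((o c)⁻¹ * x) ((o c)⁻¹ * y) ((o c)⁻¹ * w) -
      ∑ c : J ⧸ P, o c • β ((o c)⁻¹ * x) ((o c)⁻¹ * y) ((o c)⁻¹ * z) =
        Fintype.card (J ⧸ P) • f x y z w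
    rw [← Finset.sum_sub_distrib, ← Finset.sum_add_distrib, ← Finset.sum_sub_distrib,
      ← Finset.card_univ, ← Finset.sum_const]
    refine Finset.sum_congr rfl fun c _ => ?_
    have e1 := hfe (o c) (Quotient.out c : J).2 ((o c)⁻¹ * x) ((o c)⁻¹ * y) ((o c)⁻¹ * z)
      ((o c)⁻¹ * w)
    rw [mul_inv_cancel_left, mul_inv_cancel_left, mul_inv_cancel_left, mul_inv_cancel_left] at e1
    rw [e1, h, ← smul_sub, ← smul_add, ← smul_sub]
    rfl

end average

section arith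

/-- inverting a multiplication prime to `l` -/
lemma exists_inv_smul {l m : ℕ} (h : Nat.Coprime m l) (n : ℕ) :
    ∃ m' : ℤ, ∀ {A : Type} [AddCommGroup A] (a : A), (l ^ n) • a = 0 → m' • (m • a) = a := by
  have h1 : Nat.Coprime m (l ^ n) := h.pow_right n
  refine ⟨Nat.gcdA m (l ^ n), fun {A} _ a ha => ?_⟩
  have h2 := Nat.gcd_eq_gcd_ab m (l ^ n)
  rw [h1.gcd_eq_one] at h2
  have h3 : ((l ^ n : ℕ) : ℤ) • a = 0 := by rw [natCast_zsmul]; exact ha
  have h4 : (1 : ℤ) • a = (((m : ℤ) * Nat.gcdA m (l ^ n) + ((l ^ n : ℕ) : ℤ) * Nat.gcdB m (l ^ n)) : ℤ) • a := by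
    rw [← h2]; norm_cast
  rw [one_zsmul, add_smul, mul_comm ((l ^ n : ℕ) : ℤ), mul_smul _ (((l ^ n : ℕ) : ℤ)), h3, smul_zero, add_zero,
    mul_comm, mul_smul, natCast_zsmul] at h4
  exact h4.symm

/-- uniform torsion exponent for finitely many elements -/
lemma exists_exp {A : Type} [AddCommGroup A] {l : ℕ} (hA : ∀ a : A, ∃ n : ℕ, (l ^ n) • a = 0)
    {F : Set A} (hF : F.Finite) : ∃ n : ℕ, ∀ a ∈ F, (l ^ n) • a = 0 := by
  classical
  refine Set.Finite.induction_on (motive := fun F _ => ∃ n : ℕ, ∀ a ∈ F, (l ^ n) • a = 0) F hF ?_ ?_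
  · exact ⟨0, by simp⟩
  · rintro a F _ _ ⟨n, hn⟩
    obtain ⟨m, hm⟩ := hA a
    refine ⟨n + m, fun b hb => ?_⟩
    rcases Set.mem_insert_iff.1 hb with rfl | hb
    · rw [pow_add, mul_smul, hm, smul_zero]
    · rw [pow_add, mul_comm, mul_smul, hn b hb, smul_zero]

end arith

section dual

/-- separation by functionals -/
lemma exists_functional {V : Type} [AddCommGroup V] (l : ℕ) [Fact l.Prime] [Module (ZMod l) V] (v : V)
    (hv : v ≠ 0) : ∃ φ : V →+ ZMod l, φ v ≠ 0 := by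
  obtain ⟨φ, hφ⟩ := Module.Projective.exists_dual_ne_zero (ZMod l) hv
  exact ⟨φ.toAddMonoidHom, hφ⟩

/-- nonzero characters of order `l` on a nontrivial finite `l`-primary group -/
lemma exists_char {B : Type} [AddCommGroup B] [Finite B] [Nontrivial B] {l : ℕ} (hl : l.Prime)
    (hB : ∀ b : B, ∃ n : ℕ, (l ^ n) • b = 0) : ∃ χ : B →+ ZMod l, χ ≠ 0 := by
  haveI : Fact l.Prime := ⟨hl⟩
  obtain ⟨n, hn⟩ := exists_exp hB (Set.toFinite (Set.univ : Set B))
  let R : AddSubgroup B := (nsmulAddMonoidHom l : B →+ B).range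
  have hR : R ≠ ⊤ := by
    intro h
    have h1 : ∀ k : ℕ, ∀ b : B, ∃ b', b = (l ^ k) • b' := by
      intro k
      induction k with
      | zero => intro b; exact ⟨b, by simp⟩
      | succ k ih =>
        intro b
        obtain ⟨b', hb'⟩ := ih b
        have h2 : b' ∈ R := by rw [h]; exact AddSubgroup.mem_top _
        obtain ⟨b'', hb''⟩ := h2
        refine ⟨b'', ?_⟩
        rw [hb', ← hb'', pow_succ, mul_smul]
        rfl
    obtain ⟨b, hb⟩ := exists_ne (0 : B)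
    obtain ⟨b', hb'⟩ := h1 n b
    rw [hn b' (Set.mem_univ _)] at hb'
    exact hb hb'
  have hq : ∀ q : B ⧸ R, l • q = 0 := by
    intro q
    obtain ⟨b, rfl⟩ := QuotientAddGroup.mk_surjective q
    rw [← QuotientAddGroup.mk_nsmul]
    exact (QuotientAddGroup.eq_zero_iff _).2 ⟨b, rfl⟩
  have hex : ∃ b : B, b ∉ R := by
    by_contra hcon
    push Not at hcon
    exact hR ((AddSubgroup.eq_top_iff' _).2 hcon)
  obtain ⟨b, hb⟩ := hex
  have hb' : (QuotientAddGroup.mk b : B ⧸ R) ≠ 0 := fun h => hb ((QuotientAddGroup.eq_zero_iff _).1 h)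
  obtain ⟨φ, hφ⟩ := @exists_functional (B ⧸ R) _ l _ (AddCommGroup.zmodModule hq) _ hb'
  refine ⟨φ.comp (QuotientAddGroup.mk' R), fun h => hφ ?_⟩
  exact DFunLike.congr_fun h b

variable {G : Type} [Group G] {Y : Type} [MulAction G Y] {A : Type} [AddCommGroup A]
  [DistribMulAction G A]

/-- invariant nonzero characters for actions of pro-`l` groups -/
lemma exists_inv_char {l : ℕ} (hl : l.Prime) {S : Set Y} {P : Subgroup G}
    (hpl : ∀ x ∈ P, ∃ k : ℕ, Agr S (x ^ (l ^ k)) 1) {B : AddSubgroup A}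
    (hBf : (B : Set A).Finite) (hB0 : B ≠ ⊥) (hBl : ∀ b ∈ B, ∃ n : ℕ, (l ^ n) • b = 0)
    (hPB : ∀ p ∈ P, ∀ b ∈ B, p • b ∈ B) (hBS : ∀ g : G, Agr S g 1 → ∀ b ∈ B, g • b = b) :
    ∃ χ : B →+ ZMod l, χ ≠ 0 ∧ ∀ p (hp : p ∈ P) (b : B), χ ⟨p • (b : A), hPB p hp b b.2⟩ = χ b := by
  haveI : Fact l.Prime := ⟨hl⟩
  haveI : Finite B := hBf.to_subtype
  haveI : Nontrivial B := (AddSubgroup.nontrivial_iff_ne_bot B).2 hB0
  haveI : Finite (B →+ ZMod l) := Finite.of_injective (fun χ => (χ : B → ZMod l)) DFunLike.coe_injective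
  obtain ⟨χ₀, hχ₀⟩ := exists_char hl (B := B) (fun b => by
    obtain ⟨n, hn⟩ := hBl b b.2
    exact ⟨n, Subtype.ext hn⟩)
  let act : P → (B →+ ZMod l) → (B →+ ZMod l) := fun p χ =>
    { toFun := fun b => χ ⟨(p : G)⁻¹ • (b : A), hPB _ (P.inv_mem p.2) b b.2⟩
      map_zero' := by
        rw [← map_zero χ]
        congr 1
        exact Subtype.ext (smul_zero _)
      map_add' := by
        intro a b
        rw [← map_add χ]
        congr 1
        exact Subtype.ext (smul_add _ _ _) }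
  letI : MulAction P (B →+ ZMod l) :=
    { smul := act
      one_smul := by
        intro χ
        ext b
        change χ ⟨((1 : P) : G)⁻¹ • (b : A), _⟩ = χ b
        congr 1
        exact Subtype.ext (by simp)
      mul_smul := by
        intro p q χ
        ext b
        change χ ⟨((p * q : P) : G)⁻¹ • (b : A), _⟩ = χ ⟨(q : G)⁻¹ • ((p : G)⁻¹ • (b : A)), _⟩
        congr 1
        refine Subtype.ext ?_
        change ((p * q : P) : G)⁻¹ • (b : A) = (q : G)⁻¹ • ((p : G)⁻¹ • (b : A))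
        rw [← mul_smul]
        congr 1
        push_cast
        rw [mul_inv_rev] }
  have hact : ∀ (p : P) (χ : B →+ ZMod l) (b : B), (p • χ) b =
      χ ⟨(p : G)⁻¹ • (b : A), hPB _ (P.inv_mem p.2) b b.2⟩ := fun _ _ _ => rfl
  let H : Subgroup (Equiv.Perm (B →+ ZMod l)) := (MulAction.toPermHom P (B →+ ZMod l)).range
  have hH : IsPGroup l H := by
    rintro ⟨_, p, rfl⟩
    obtain ⟨k, hk⟩ := hpl p p.2
    refine ⟨k, ?_⟩
    apply Subtype.ext
    change (MulAction.toPermHom P (B →+ ZMod l) p) ^ (l ^ k) = 1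
    rw [← map_pow]
    ext χ b
    change ((p ^ (l ^ k) : P) • χ) b = χ b
    rw [hact]
    congr 1
    refine Subtype.ext ?_
    change ((p ^ (l ^ k) : P) : G)⁻¹ • (b : A) = b
    rw [inv_smul_eq_iff]
    exact (hBS _ hk b b.2).symm
  have hfix0 : (0 : B →+ ZMod l) ∈ MulAction.fixedPoints H (B →+ ZMod l) := by
    rintro ⟨_, p, rfl⟩
    rfl
  have hdvd : l ∣ Nat.card (B →+ ZMod l) := by
    have h1 : addOrderOf χ₀ = l := by
      refine addOrderOf_eq_prime ?_ hχ₀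
      ext b
      change l • χ₀ b = 0
      rw [nsmul_eq_mul, ZMod.natCast_self, zero_mul]
    have h2 := addOrderOf_dvd_natCard χ₀
    rwa [h1] at h2
  obtain ⟨χ, hχ, hne⟩ := hH.exists_fixed_point_of_prime_dvd_card_of_fixed_point
    (B →+ ZMod l) hdvd hfix0
  refine ⟨χ, hne.symm, fun p hp b => ?_⟩
  have h1 : ((⟨p, hp⟩ : P)⁻¹ • χ) = χ := hχ ⟨_, (⟨p, hp⟩ : P)⁻¹, rfl⟩
  have h2 := DFunLike.congr_fun h1 b
  rw [hact] at h2
  rw [← h2]
  congr 1
  refine Subtype.ext ?_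
  change p • (b : A) = (((⟨p, hp⟩ : P)⁻¹ : P) : G)⁻¹ • (b : A)
  simp

end dual

section main

variable {G Ω : Type} [Group G] [Field Ω] [MulSemiringAction G Ω] [IsAlgClosed Ω]
  {A : Type} [AddCommGroup A] [DistribMulAction G A]

/-- the trivial action -/
@[reducible] def trivAct (J M : Type) [Group J] [AddCommGroup M] : DistribMulAction J M where
  smul _ m := m
  one_smul _ := rfl
  mul_smul _ _ _ := rfl
  smul_zero _ := rfl
  smul_add _ _ _ := rfl

/-- the case of trivial coefficients, on the big complex -/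
theorem T4_base {l : ℕ} (hl : l.Prime) (hfo : FinO G Ω) {P : Subgroup G} (hNS : NSat P Ω l)
    {S : Set Ω} (hpl : ∀ x ∈ P, ∃ k : ℕ, Agr S (x ^ (l ^ k)) 1)
    {ζ : Ωˣ} (hζ : IsPrimitiveRoot ζ l) (hζS : (ζ : Ω) ∈ S)
    {f : G → G → G → ZMod l} {S' : Set Ω} (hS' : Stb G S') (hf : Lv3 S' f)
    (hinv : ∀ j ∈ P, ∀ x y z, f (j * x) (j * y) (j * z) = f x y z) (hd : d3 f = 0)
    (hpl' : ∀ x ∈ P, ∃ k : ℕ, Agr S' (x ^ (l ^ k)) 1) :
    ∃ T : Set Ω, Stb G T ∧ ∃ β : G → G → ZMod l, Lv2 T β ∧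
      (∀ j ∈ P, ∀ x y, β (j * x) (j * y) = β x y) ∧ f = d2 β := by
  haveI : Fact l.Prime := ⟨hl⟩
  have hζf : ∀ x : P, ua x ζ = ζ := by
    intro x
    haveI : NeZero l := ⟨hl.ne_zero⟩
    obtain ⟨m, hm⟩ := rootsOfUnity.integer_power_of_ringEquiv l (MulSemiringAction.toRingEquiv P Ω x)
    have hζm : ζ ∈ rootsOfUnity l Ω := by rw [mem_rootsOfUnity]; exact hζ.pow_eq_one
    have h1 : ∀ k : ℕ, ua (x ^ k) ζ = ζ ^ (m ^ k) := by
      intro k
      induction k with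
      | zero => simp [ua_one]
      | succ k ih =>
        have h2 : ua x ζ = ζ ^ m := by
          ext
          rw [ua_val]
          have := hm ⟨ζ, hζm⟩
          simpa using this
        rw [pow_succ', ua_mul, ih, map_zpow, h2, ← zpow_mul, pow_succ']
    obtain ⟨k, hk⟩ := hpl x x.2
    have h3 : ua (x ^ (l ^ k)) ζ = ζ := by
      ext
      rw [ua_val]
      have := hk ζ hζS
      rw [one_smul] at this
      exact this
    rw [h1] at h3
    have h4 : ζ ^ (m ^ (l ^ k)) = ζ ^ m := by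
      have h5 : (l : ℤ) ∣ (m ^ (l ^ k) - m) := by
        rw [← ZMod.intCast_zmod_eq_zero_iff_dvd]
        push_cast
        rw [ZMod.pow_card_pow, sub_self]
      have h6 := (hζ.zpow_eq_one_iff_dvd _).2 h5
      rw [zpow_sub, mul_inv_eq_one] at h6
      exact h6
    have h7 := h1 1
    rw [pow_one, pow_one] at h7
    rw [h7, ← h4, h3]
  have hd' : d3 (fun x y z : P => f x y z) = 0 := by
    funext x y z w
    exact congrFun (congrFun (congrFun (congrFun hd (x : G)) y) z) w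
  obtain ⟨T, hT, β, hβ, hβi, hβd⟩ := T3 (P := P) hl hNS (hfo.restrict P) (hS'.restrict P)
    (fun x => by
      obtain ⟨k, hk⟩ := hpl' x x.2
      exact ⟨k, hk⟩) hζ hζf
    (f := fun x y z : P => f x y z) (fun x x' y y' z z' hx hy hz => hf _ _ _ _ _ _ hx hy hz)
    (fun j x y z => hinv j j.2 x y z) hd'
  obtain ⟨T', hTT', hT'⟩ := hfo.exists_stb hT.1
  letI := trivAct P (ZMod l)
  obtain ⟨γ, hγ1, hγ2, hγ3⟩ := lemmaA2 (P.subtype) hS' hT' hf (fun j x y z => hinv j j.2 x y z) hd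
    (b := β) (fun x x' y y' hx hy => hβ _ _ _ _ (fun s hs => hx s (hTT' hs))
      (fun s hs => hy s (hTT' hs)))
    (fun j x y => hβi j x y) (fun x y z => by
      exact congrFun (congrFun (congrFun hβd x) y) z)
  exact ⟨S' ∪ T', hS'.union hT', γ, hγ1, fun j hj x y => hγ2 ⟨j, hj⟩ x y, hγ3⟩

/-- one step for a group which is pro-`l` modulo a level -/
theorem T4_step {l : ℕ} (hl : l.Prime) (hfo : FinO G Ω) {P : Subgroup G} (hNS : NSat P Ω l)
    {S : Set Ω} (hS : Stb G S)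
    {ζ : Ωˣ} (hζ : IsPrimitiveRoot ζ l) (hζS : (ζ : Ω) ∈ S)
    (hpl : ∀ x ∈ P, ∃ k : ℕ, Agr S (x ^ (l ^ k)) 1)
    {B : AddSubgroup A} (hB : (B : Set A).Finite) (hB0 : B ≠ ⊥)
    (hBl : ∀ b ∈ B, ∃ n : ℕ, (l ^ n) • b = 0) (hPB : ∀ p ∈ P, ∀ b ∈ B, p • b ∈ B)
    (hBS : ∀ g : G, Agr S g 1 → ∀ b ∈ B, g • b = b)
    {f : G → G → G → A} (hfS : Lv3 S f) (hfe : Eq3 P f) (hd : d3 f = 0) (hfB : ∀ x y z, f x y z ∈ B) :
    ∃ β₂ : G → G → A, Sm2 Ω β₂ ∧ Eq2 P β₂ ∧ ∃ B' : AddSubgroup A, B' ≤ B ∧ Nat.card B' < Nat.card B ∧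
      (∀ p ∈ P, ∀ b ∈ B', p • b ∈ B') ∧ ∀ x y z, (f - d2 β₂) x y z ∈ B' := by
  haveI : Fact l.Prime := ⟨hl⟩
  obtain ⟨χ, hχ0, hχ⟩ := exists_inv_char hl (S := S) (P := P) hpl hB hB0 hBl hPB hBS
  have hchi_eq : ∀ (a b : A) (ha : a ∈ B) (hb : b ∈ B), a = b → χ ⟨a, ha⟩ = χ ⟨b, hb⟩ := by
    intro a b ha hb h; subst h; rfl
  obtain ⟨T, hT, β, hβ, hβi, hβd⟩ := T4_base hl hfo hNS hpl hζ hζS
    (f := fun x y z => χ ⟨f x y z, hfB x y z⟩) (S' := S) hS
    (fun x x' y y' z z' hx hy hz => hchi_eq _ _ _ _ (hfS _ _ _ _ _ _ hx hy hz))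
    (fun j hj x y z => by
      rw [← hχ j hj ⟨f x y z, hfB x y z⟩]
      exact hchi_eq _ _ _ _ (hfe j hj x y z))
    (by
      funext x y z w
      have h1 := congrFun (congrFun (congrFun (congrFun hd x) y) z) w
      simp only [d3, Pi.zero_apply] at h1 ⊢
      rw [← map_sub, ← map_add, ← map_sub, ← map_zero χ]
      congr 1
      exact Subtype.ext h1)
    hpl
  -- lift
  have hsur : Function.Surjective χ := by
    have h1 : χ.range ≠ ⊥ := fun h => hχ0 (AddMonoidHom.range_eq_bot_iff.1 h)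
    haveI : Fact (Nat.Prime (Nat.card (ZMod l))) := ⟨by rw [Nat.card_zmod]; exact hl⟩
    have h2 : χ.range = ⊤ := by
      rcases AddSubgroup.eq_bot_or_eq_top_of_prime_card χ.range with h | h
      · exact absurd h h1
      · exact h
    exact AddMonoidHom.range_eq_top.1 h2
  choose σ hσ using hsur
  have hTS := hT.union hS
  obtain ⟨ρ, -, hρ1, hρ2⟩ := exists_retraction P.subtype hTS
  let β₂ : G → G → A := fun x y => (ρ x : G) • (σ (β x y) : A)
  have hβ₂B : ∀ x y, β₂ x y ∈ B := fun x y => hPB _ (ρ x).2 _ (σ (β x y)).2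
  have hβ₂χ : ∀ x y, χ ⟨β₂ x y, hβ₂B x y⟩ = β x y := by
    intro x y
    have h1 := hχ (ρ x) (ρ x).2 (σ (β x y))
    rw [hσ] at h1
    exact h1
  have hact : ∀ g g' : G, Agr (T ∪ S) g g' → ∀ b ∈ B, g • b = g' • b := by
    intro g g' h b hb
    exact smul_eq_of_agr (F := (B : Set A)) (fun g hg b hb => hBS g hg b hb)
      (h.mono Set.subset_union_right) hb
  have hβ₂L : Lv2 (T ∪ S) β₂ := by
    intro x x' y y' hx hy
    change (ρ x : G) • (σ (β x y) : A) = (ρ x' : G) • (σ (β x' y') : A)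
    rw [hβ _ _ _ _ (hx.mono Set.subset_union_left) (hy.mono Set.subset_union_left)]
    exact hact _ _ (hρ2 _ _ hx) _ (σ _).2
  have hβ₂E : Eq2 P β₂ := by
    intro j hj x y
    change (ρ (j * x) : G) • (σ (β (j * x) (j * y)) : A) = j • ((ρ x : G) • (σ (β x y) : A))
    rw [hβi j hj, ← mul_smul]
    exact hact _ _ (hρ1 ⟨j, hj⟩ x) _ (σ _).2
  -- the kernel
  let B' : AddSubgroup A := χ.ker.map B.subtype
  have hB'B : B' ≤ B := by
    rintro _ ⟨b, _, rfl⟩
    exact b.2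
  have hB'mem : ∀ (b : A) (hb : b ∈ B), b ∈ B' ↔ χ ⟨b, hb⟩ = 0 := by
    intro b hb
    constructor
    · rintro ⟨c, hc, hcb⟩
      have : c = ⟨b, hb⟩ := Subtype.ext hcb
      rw [← this]
      exact hc
    · intro h
      exact ⟨⟨b, hb⟩, h, rfl⟩
  haveI : Finite B := hB.to_subtype
  have hlt : Nat.card B' < Nat.card B := by
    have h1 : B' ≠ B := by
      intro h
      apply hχ0
      ext b
      exact (hB'mem b b.2).1 (by rw [h]; exact b.2)
    have h2 : B' < B := lt_of_le_of_ne hB'B h1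
    have h3 : (B' : Set A).ncard < (B : Set A).ncard := Set.ncard_lt_ncard h2 hB
    exact h3
  refine ⟨β₂, ⟨_, hTS, hβ₂L⟩, hβ₂E, B', hB'B, hlt, ?_, ?_⟩
  · intro p hp b hb
    rw [hB'mem _ (hPB p hp b (hB'B hb))]
    have h1 := hχ p hp ⟨b, hB'B hb⟩
    rw [(hB'mem b (hB'B hb)).1 hb] at h1
    exact h1
  · intro x y z
    have hmem : (f - d2 β₂) x y z ∈ B :=
      B.sub_mem (hfB x y z) (B.add_mem (B.sub_mem (hβ₂B _ _) (hβ₂B _ _)) (hβ₂B _ _))
    rw [hB'mem _ hmem]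
    have h1 : (⟨(f - d2 β₂) x y z, hmem⟩ : B) = ⟨f x y z, hfB x y z⟩ -
        (⟨β₂ y z, hβ₂B y z⟩ - ⟨β₂ x z, hβ₂B x z⟩ + ⟨β₂ x y, hβ₂B x y⟩) := rfl
    rw [h1, map_sub, map_add, map_sub, hβ₂χ, hβ₂χ, hβ₂χ]
    have h2 := congrFun (congrFun (congrFun hβd x) y) z
    simp only [d2] at h2
    rw [h2, sub_self]

omit [IsAlgClosed Ω] in
/-- Sylow subgroups modulo a level -/
theorem exists_sylow {l : ℕ} (hl : l.Prime) (J : Subgroup G) {S : Set Ω} (hS : Stb G S) :
    ∃ P' : Subgroup J, Finite (J ⧸ P') ∧ Nat.Coprime (Nat.card (J ⧸ P')) l ∧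
      ∀ x ∈ P', ∃ k : ℕ, Agr S ((x : G) ^ (l ^ k)) 1 := by
  haveI : Fact l.Prime := ⟨hl⟩
  haveI hN := stN_normal (P := G) hS
  haveI hfin := stN_finite (P := G) hS
  set N : Subgroup G := stN S with hNdef
  let φ : J →* G ⧸ N := (QuotientGroup.mk' N).comp J.subtype
  let φ' : J →* φ.range := φ.rangeRestrict
  have hφ' : Function.Surjective φ' := φ.rangeRestrict_surjective
  haveI : Finite φ.range := Subtype.finite
  obtain ⟨Q⟩ : Nonempty (Sylow l φ.range) := inferInstance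
  have hidx : ((Q : Subgroup φ.range).comap φ').index = (Q : Subgroup φ.range).index :=
    Subgroup.index_comap_of_surjective _ hφ'
  have hne : (Q : Subgroup φ.range).index ≠ 0 := Subgroup.index_ne_zero_of_finite
  refine ⟨(Q : Subgroup φ.range).comap φ', ?_, ?_, ?_⟩
  · exact Nat.finite_of_card_ne_zero (by
      change ((Q : Subgroup φ.range).comap φ').index ≠ 0
      rw [hidx]; exact hne)
  · change Nat.Coprime ((Q : Subgroup φ.range).comap φ').index l
    rw [hidx]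
    exact ((Nat.Prime.coprime_iff_not_dvd hl).2 (Q.not_dvd_index)).symm
  · intro x hx
    obtain ⟨k, hk⟩ := Q.isPGroup' ⟨φ' x, hx⟩
    refine ⟨k, ?_⟩
    have h1 : (φ' x) ^ (l ^ k) = 1 := congrArg Subtype.val hk
    have h2 : φ x ^ (l ^ k) = 1 := congrArg Subtype.val h1
    rw [← map_pow] at h2
    exact (QuotientGroup.eq_one_iff _).1 h2

/-- the main vanishing theorem in degree two, for values in a finite stable subgroup -/
theorem T4_fin {l : ℕ} (hl : l.Prime) (hfo : FinO G Ω)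
    {ζ : Ωˣ} (hζ : IsPrimitiveRoot ζ l) (hA : SmA G Ω A) :
    ∀ (n : ℕ) (J : Subgroup G), (∀ P ≤ J, NSat P Ω l) →
      ∀ B : AddSubgroup A, (B : Set A).Finite → Nat.card B ≤ n →
      (∀ b ∈ B, ∃ n : ℕ, (l ^ n) • b = 0) → (∀ p ∈ J, ∀ b ∈ B, p • b ∈ B) →
      ∀ f : G → G → G → A, Sm3 Ω f → Eq3 J f → d3 f = 0 → (∀ x y z, f x y z ∈ B) →
        ∃ β : G → G → A, Sm2 Ω β ∧ Eq2 J β ∧ f = d2 β := by
  intro n
  induction n with
  | zero =>
    intro J hNS B hB hc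
    haveI : Finite B := hB.to_subtype
    have := Nat.card_pos (α := B)
    omega
  | succ n ih =>
    intro J hNS B hB hc hBl hJB f hf hfe hd hfB
    by_cases hB0 : B = ⊥
    · subst hB0
      refine ⟨0, ⟨∅, Stb.empty, fun _ _ _ _ _ _ => rfl⟩, fun _ _ _ _ => (smul_zero _).symm, ?_⟩
      funext x y z
      have := hfB x y z
      rw [AddSubgroup.mem_bot] at this
      rw [this]
      simp [d2]
    obtain ⟨S₁, hS₁, hfS₁⟩ := hf
    obtain ⟨S₂, hS₂, hBS₂⟩ := hA.exists_level hB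
    obtain ⟨S₃, hζS₃, hS₃⟩ := hfo.exists_stb (Set.finite_singleton (ζ : Ω))
    have hS := (hS₁.union hS₂).union hS₃
    have h1S : S₁ ⊆ (S₁ ∪ S₂) ∪ S₃ := Set.subset_union_left.trans Set.subset_union_left
    have h2S : S₂ ⊆ (S₁ ∪ S₂) ∪ S₃ := Set.subset_union_right.trans Set.subset_union_left
    have h3S : S₃ ⊆ (S₁ ∪ S₂) ∪ S₃ := Set.subset_union_right
    obtain ⟨P', hP'f, hP'c, hP'⟩ := exists_sylow hl J hS
    let P : Subgroup G := P'.map J.subtype
    have hPJ : P ≤ J := by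
      rintro _ ⟨p, _, rfl⟩
      exact p.2
    have hBS : ∀ g : G, Agr ((S₁ ∪ S₂) ∪ S₃) g 1 → ∀ b ∈ B, g • b = b :=
      fun g hg b hb => hBS₂ g (hg.mono h2S) b hb
    obtain ⟨β₂, hβ₂, hβ₂E, B', hB'B, hB'c, hB'P, hB'⟩ := T4_step hl hfo (P := P) (hNS P hPJ) hS hζ
      (h3S (hζS₃ rfl)) (by
        rintro _ ⟨p, hp, rfl⟩
        exact hP' p hp) hB hB0 hBl (fun p hp b hb => hJB p (hPJ hp) b hb) hBS (hfS₁.mono h1S)
      (fun j hj x y z => hfe j (hPJ hj) x y z) hd hfB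
    obtain ⟨T₂, hT₂, hβ₂L⟩ := hβ₂
    obtain ⟨β₃, hβ₃, hβ₃E, hβ₃d⟩ := ih P (fun Q hQ => hNS Q (hQ.trans hPJ)) B' (hB.subset hB'B)
      (by omega) (fun b hb => hBl b (hB'B hb)) hB'P (f - d2 β₂)
      ⟨T₂ ∪ S₁, hT₂.union hS₁, by
        intro x x' y y' z z' hx hy hz
        change f x y z - (β₂ y z - β₂ x z + β₂ x y) = f x' y' z' - (β₂ y' z' - β₂ x' z' + β₂ x' y')
        rw [hfS₁ _ _ _ _ _ _ (hx.mono Set.subset_union_right) (hy.mono Set.subset_union_right)
          (hz.mono Set.subset_union_right),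
          hβ₂L _ _ _ _ (hy.mono Set.subset_union_left) (hz.mono Set.subset_union_left),
          hβ₂L _ _ _ _ (hx.mono Set.subset_union_left) (hz.mono Set.subset_union_left),
          hβ₂L _ _ _ _ (hx.mono Set.subset_union_left) (hy.mono Set.subset_union_left)]⟩
      (by
        intro j hj x y z
        change f (j * x) (j * y) (j * z) - (β₂ (j * y) (j * z) - β₂ (j * x) (j * z) +
          β₂ (j * x) (j * y)) = j • (f x y z - (β₂ y z - β₂ x z + β₂ x y))
        rw [hfe j (hPJ hj), hβ₂E j hj, hβ₂E j hj, hβ₂E j hj, smul_sub, smul_add, smul_sub])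
      (by
        have h1 : d3 (f - d2 β₂) = d3 f - d3 (d2 β₂) := by
          funext x y z w
          simp only [d3, Pi.sub_apply]
          abel
        rw [h1, hd, d3_d2, sub_zero]) hB'
    obtain ⟨T₃, hT₃, hβ₃L⟩ := hβ₃
    have hL : Lv2 (T₂ ∪ T₃) (β₂ + β₃) := by
      intro x x' y y' hx hy
      change β₂ x y + β₃ x y = β₂ x' y' + β₃ x' y'
      rw [hβ₂L _ _ _ _ (hx.mono Set.subset_union_left) (hy.mono Set.subset_union_left),
        hβ₃L _ _ _ _ (hx.mono Set.subset_union_right) (hy.mono Set.subset_union_right)]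
    have hE : ∀ p ∈ P', ∀ x y, (β₂ + β₃) (p * x) (p * y) = (p : J) • (β₂ + β₃) x y := by
      intro p hp x y
      have hp' : (p : G) ∈ P := ⟨p, hp, rfl⟩
      change β₂ ((p : G) * x) ((p : G) * y) + β₃ ((p : G) * x) ((p : G) * y) =
        (p : G) • (β₂ x y + β₃ x y)
      rw [hβ₂E _ hp', hβ₃E _ hp', smul_add]
    have hD : f = d2 (β₂ + β₃) := by
      have h1 : d2 (β₂ + β₃) = d2 β₂ + d2 β₃ := by
        funext x y z
        simp only [d2, Pi.add_apply]
        abel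
      rw [h1, ← hβ₃d]
      abel
    letI := Fintype.ofFinite (J ⧸ P')
    obtain ⟨γ, hγL, hγE, hγd⟩ := average2 hfe hE hD hL
    obtain ⟨N, hN⟩ := exists_exp (A := B) (l := l) (fun b => by
      obtain ⟨n, hn⟩ := hBl b b.2
      exact ⟨n, Subtype.ext hn⟩) (by
        haveI : Finite B := hB.to_subtype
        exact Set.toFinite (Set.univ : Set B))
    obtain ⟨m', hm'⟩ := exists_inv_smul hP'c N
    refine ⟨m' • γ, ⟨T₂ ∪ T₃, hT₂.union hT₃, ?_⟩, ?_, ?_⟩
    · intro x x' y y' hx hy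
      change m' • γ x y = m' • γ x' y'
      rw [hγL _ _ _ _ hx hy]
    · intro j hj x y
      change m' • γ (j * x) (j * y) = j • (m' • γ x y)
      rw [hγE j hj, smul_comm]
    · funext x y z
      have h1 := congrFun (congrFun (congrFun hγd x) y) z
      have h2 : (l ^ N) • f x y z = 0 := congrArg Subtype.val (hN ⟨f x y z, hfB x y z⟩ (Set.mem_univ _))
      have h3 := hm' (f x y z) h2
      rw [← Nat.card_eq_fintype_card] at h1
      simp only [Pi.smul_apply] at h1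
      rw [← h1] at h3
      rw [← h3]
      simp only [d2, Pi.smul_apply, smul_add, smul_sub]

/-- vanishing in degree two -/
theorem cd2 {l : ℕ} (hl : l.Prime) (hl0 : (l : Ω) ≠ 0) (hfo : FinO G Ω) (hA : SmA G Ω A)
    (hAl : ∀ a : A, ∃ n : ℕ, (l ^ n) • a = 0) (J : Subgroup G) (hNS : ∀ P ≤ J, NSat P Ω l)
    (f : G → G → G → A) (hf : Sm3 Ω f) (hfe : Eq3 J f) (hd : d3 f = 0) :
    ∃ β : G → G → A, Sm2 Ω β ∧ Eq2 J β ∧ f = d2 β := by
  haveI : NeZero (l : Ω) := ⟨hl0⟩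
  haveI : NeZero l := ⟨hl.ne_zero⟩
  obtain ⟨ζ₀, hζ₀⟩ := HasEnoughRootsOfUnity.exists_primitiveRoot Ω l
  have hζ : IsPrimitiveRoot (Units.mk0 ζ₀ (hζ₀.ne_zero hl.ne_zero)) l := by
    rw [← IsPrimitiveRoot.coe_units_iff]
    exact hζ₀
  obtain ⟨S, hS, hfS⟩ := hf
  let F : Set A := {a | ∃ x y z, a = f x y z}
  have hF : F.Finite := hfS.finite hS
  let B : AddSubgroup A := AddSubgroup.closure F
  haveI : Finite F := hF.to_subtype
  have hBl : ∀ b : B, ∃ n : ℕ, (l ^ n) • b = 0 := fun b => by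
    obtain ⟨n, hn⟩ := hAl b
    exact ⟨n, Subtype.ext hn⟩
  have hBf : Finite B := by
    refine AddCommGroup.finite_of_fg_isAddTorsion B ?_
    intro b
    obtain ⟨n, hn⟩ := hBl b
    exact isOfFinAddOrder_iff_nsmul_eq_zero.2 ⟨l ^ n, pow_pos hl.pos n, hn⟩
  refine T4_fin hl hfo hζ hA (Nat.card B) J hNS B (Set.toFinite _) le_rfl (fun b _ => hAl b) ?_ f
    ⟨S, hS, hfS⟩ hfe hd (fun x y z => AddSubgroup.subset_closure ⟨x, y, z, rfl⟩)
  intro p hp b hb
  induction hb using AddSubgroup.closure_induction with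
  | mem b hb =>
    obtain ⟨x, y, z, rfl⟩ := hb
    rw [← hfe p hp]
    exact AddSubgroup.subset_closure ⟨_, _, _, rfl⟩
  | zero => rw [smul_zero]; exact B.zero_mem
  | add a b _ _ ha hb => rw [smul_add]; exact B.add_mem ha hb
  | neg a _ ha => rw [smul_neg]; exact B.neg_mem ha

end main

section common

variable {G Y : Type} [Group G] [MulAction G Y]

/-- a common level for finitely many objects -/
lemma common_level {α : Type} {F : Set α} (hF : F.Finite) (Q : α → Set Y → Prop)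
    (hmono : ∀ a S T, S ⊆ T → Q a S → Q a T) (h : ∀ a ∈ F, ∃ S, Stb G S ∧ Q a S) :
    ∃ S, Stb G S ∧ ∀ a ∈ F, Q a S := by
  classical
  induction F, hF using Set.Finite.induction_on with
  | empty => exact ⟨∅, Stb.empty, by simp⟩
  | insert _ _ ih =>
    rename_i a F _ _
    obtain ⟨S, hS, hS'⟩ := ih (fun b hb => h b (Set.mem_insert_of_mem _ hb))
    obtain ⟨T, hT, hT'⟩ := h a (Set.mem_insert _ _)
    refine ⟨S ∪ T, hS.union hT, fun b hb => ?_⟩
    rcases Set.mem_insert_iff.1 hb with rfl | hb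
    · exact hmono _ _ _ Set.subset_union_right hT'
    · exact hmono _ _ _ Set.subset_union_left (hS' b hb)

end common

section degree3

variable {G Y : Type} [Group G] [MulAction G Y] {A : Type} [AddCommGroup A] [DistribMulAction G A]

variable (G Y A) in
/-- smooth one-cocycles on the big complex -/
def Z1 : AddSubgroup (G → G → A) where
  carrier := {φ | Sm2 Y φ ∧ ∀ x y z, φ x y + φ y z = φ x z}
  zero_mem' := ⟨⟨∅, Stb.empty, fun _ _ _ _ _ _ => rfl⟩, fun _ _ _ => add_zero _⟩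
  add_mem' := by
    rintro φ ψ ⟨⟨S, hS, hφ⟩, h1⟩ ⟨⟨T, hT, hψ⟩, h2⟩
    refine ⟨⟨S ∪ T, hS.union hT, ?_⟩, ?_⟩
    · intro x x' y y' hx hy
      change φ x y + ψ x y = φ x' y' + ψ x' y'
      rw [hφ _ _ _ _ (hx.mono Set.subset_union_left) (hy.mono Set.subset_union_left),
        hψ _ _ _ _ (hx.mono Set.subset_union_right) (hy.mono Set.subset_union_right)]
    · intro x y z
      change φ x y + ψ x y + (φ y z + ψ y z) = φ x z + ψ x z
      rw [← h1 x y z, ← h2 x y z]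
      abel
  neg_mem' := by
    rintro φ ⟨⟨S, hS, hφ⟩, h1⟩
    refine ⟨⟨S, hS, ?_⟩, ?_⟩
    · intro x x' y y' hx hy
      change -φ x y = -φ x' y'
      rw [hφ _ _ _ _ hx hy]
    · intro x y z
      change -φ x y + -φ y z = -φ x z
      rw [← h1 x y z]
      abel

instance : DistribMulAction G (Z1 G Y A) where
  smul g φ := ⟨fun x y => g • φ.1 (g⁻¹ * x) (g⁻¹ * y), by
    obtain ⟨⟨S, hS, hφ⟩, h1⟩ := φ.2
    refine ⟨⟨S, hS, ?_⟩, ?_⟩
    · intro x x' y y' hx hy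
      change g • φ.1 (g⁻¹ * x) (g⁻¹ * y) = g • φ.1 (g⁻¹ * x') (g⁻¹ * y')
      rw [hφ _ _ _ _ (hx.mul_left _) (hy.mul_left _)]
    · intro x y z
      change g • φ.1 (g⁻¹ * x) (g⁻¹ * y) + g • φ.1 (g⁻¹ * y) (g⁻¹ * z) = g • φ.1 (g⁻¹ * x) (g⁻¹ * z)
      rw [← smul_add, h1]⟩
  one_smul φ := by
    apply Subtype.ext
    funext x y
    change (1 : G) • φ.1 (1⁻¹ * x) (1⁻¹ * y) = φ.1 x y
    simp
  mul_smul g h φ := by
    apply Subtype.ext
    funext x y
    change (g * h) • φ.1 ((g * h)⁻¹ * x) ((g * h)⁻¹ * y) =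
      g • h • φ.1 (h⁻¹ * (g⁻¹ * x)) (h⁻¹ * (g⁻¹ * y))
    rw [mul_smul, mul_inv_rev, mul_assoc, mul_assoc]
  smul_zero g := by
    apply Subtype.ext
    funext x y
    exact smul_zero g
  smul_add g φ ψ := by
    apply Subtype.ext
    funext x y
    exact smul_add g _ _

lemma Z1.smul_def (g : G) (φ : Z1 G Y A) (x y : G) :
    (g • φ).1 x y = g • φ.1 (g⁻¹ * x) (g⁻¹ * y) := rfl

lemma Z1.smooth (hA : SmA G Y A) : SmA G Y (Z1 G Y A) := by
  intro φ
  obtain ⟨⟨S, hS, hφ⟩, h1⟩ := φ.2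
  obtain ⟨T, hT, hT'⟩ := hA.exists_level (hφ.finite hS)
  refine ⟨S ∪ T, hS.union hT, fun g hg => ?_⟩
  apply Subtype.ext
  funext x y
  rw [Z1.smul_def]
  have h2 : Agr S g⁻¹ 1 := by
    have := Agr.inv hS (hg.mono Set.subset_union_left)
    rwa [inv_one] at this
  have h3 : ∀ x : G, Agr S (g⁻¹ * x) x := fun x => by
    have := h2.mul_right hS x
    rwa [one_mul] at this
  rw [hφ _ _ _ _ (h3 x) (h3 y)]
  exact hT' g (hg.mono Set.subset_union_right) _ ⟨x, y, rfl⟩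

omit [DistribMulAction G A] in
lemma Z1.torsion {l : ℕ} (hAl : ∀ a : A, ∃ n : ℕ, (l ^ n) • a = 0) (φ : Z1 G Y A) :
    ∃ n : ℕ, (l ^ n) • φ = 0 := by
  obtain ⟨⟨S, hS, hφ⟩, h1⟩ := φ.2
  obtain ⟨n, hn⟩ := exists_exp hAl (hφ.finite hS)
  refine ⟨n, ?_⟩
  apply Subtype.ext
  funext x y
  exact hn _ ⟨x, y, rfl⟩

end degree3

section main3

variable {G Ω : Type} [Group G] [Field Ω] [MulSemiringAction G Ω] [IsAlgClosed Ω]
  {A : Type} [AddCommGroup A] [DistribMulAction G A]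

/-- vanishing in degree three -/
theorem cd3 {l : ℕ} (hl : l.Prime) (hl0 : (l : Ω) ≠ 0) (hfo : FinO G Ω) (hA : SmA G Ω A)
    (hAl : ∀ a : A, ∃ n : ℕ, (l ^ n) • a = 0) (J : Subgroup G) (hNS : ∀ P ≤ J, NSat P Ω l)
    (f : G → G → G → G → A) (hf : Sm4 Ω f) (hfe : Eq4 J f) (hd : d4 f = 0) :
    ∃ β : G → G → G → A, Sm3 Ω β ∧ Eq3 J β ∧ f = d3 β := by
  obtain ⟨S, hS, hfS⟩ := hf
  have hd' : ∀ x y z w v, f y z w v - f x z w v + f x y w v - f x y z v + f x y z w = 0 :=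
    fun x y z w v => by
      have := congrFun (congrFun (congrFun (congrFun (congrFun hd x) y) z) w) v
      simpa [d4] using this
  let α' : G → G → G → Z1 G Ω A := fun x y z => ⟨fun u v => f v x y z - f u x y z,
    ⟨S, hS, fun u u' v v' hu hv => by
      change f v x y z - f u x y z = f v' x y z - f u' x y z
      rw [hfS v v' x x y y z z hv (Agr.refl _ _) (Agr.refl _ _) (Agr.refl _ _),
        hfS u u' x x y y z z hu (Agr.refl _ _) (Agr.refl _ _) (Agr.refl _ _)]⟩,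
    fun u v w => by
      change f v x y z - f u x y z + (f w x y z - f v x y z) = f w x y z - f u x y z
      abel⟩
  obtain ⟨η, ⟨T, hT, hηT⟩, hηE, hηd⟩ := cd2 (A := Z1 G Ω A) hl hl0 hfo (Z1.smooth hA)
    (Z1.torsion hAl) J hNS α' ⟨S, hS, by
      intro x x' y y' z z' hx hy hz
      apply Subtype.ext
      funext u v
      change f v x y z - f u x y z = f v x' y' z' - f u x' y' z'
      rw [hfS v v x x' y y' z z' (Agr.refl _ _) hx hy hz, hfS u u x x' y y' z z' (Agr.refl _ _) hx hy hz]⟩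
    (by
      intro j hj x y z
      apply Subtype.ext
      funext u v
      rw [Z1.smul_def]
      change f v (j * x) (j * y) (j * z) - f u (j * x) (j * y) (j * z) =
        j • (f (j⁻¹ * v) x y z - f (j⁻¹ * u) x y z)
      rw [smul_sub, ← hfe j hj, ← hfe j hj, mul_inv_cancel_left, mul_inv_cancel_left])
    (by
      funext x y z w
      apply Subtype.ext
      funext u v
      have e1 := hd' u x y z w
      have e2 := hd' v x y z w
      change (f v y z w - f u y z w) - (f v x z w - f u x z w) + (f v x y w - f u x y w) -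
        (f v x y z - f u x y z) = 0
      linear_combination (norm := abel) e1 - e2)
  obtain ⟨T', hT', hT'L⟩ := common_level (G := G) (Y := Ω) (hηT.finite hT) (fun φ S => Lv2 S φ.1)
    (fun a S T hST h => h.mono hST) (fun φ _ => φ.2.1)
  have hTT := (hS.union hT).union hT'
  have h1 : S ⊆ (S ∪ T) ∪ T' := Set.subset_union_left.trans Set.subset_union_left
  have h2 : T ⊆ (S ∪ T) ∪ T' := Set.subset_union_right.trans Set.subset_union_left
  have h3 : T' ⊆ (S ∪ T) ∪ T' := Set.subset_union_right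
  refine ⟨fun x y z => f x x y z + (η y z).1 x y, ⟨_, hTT, ?_⟩, ?_, ?_⟩
  · intro x x' y y' z z' hx hy hz
    change f x x y z + (η y z).1 x y = f x' x' y' z' + (η y' z').1 x' y'
    rw [hfS _ _ _ _ _ _ _ _ (hx.mono h1) (hx.mono h1) (hy.mono h1) (hz.mono h1),
      hηT _ _ _ _ (hy.mono h2) (hz.mono h2),
      hT'L (η y' z') ⟨_, _, rfl⟩ _ _ _ _ (hx.mono h3) (hy.mono h3)]
  · intro j hj x y z
    change f (j * x) (j * x) (j * y) (j * z) + (η (j * y) (j * z)).1 (j * x) (j * y) =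
      j • (f x x y z + (η y z).1 x y)
    rw [hfe j hj, hηE j hj, Z1.smul_def, smul_add, inv_mul_cancel_left, inv_mul_cancel_left]
  · funext x y z w
    have e1 := hd' x x y z w
    have e2 := congrFun (congrFun (congrArg Subtype.val (congrFun (congrFun (congrFun hηd y) z) w)) x) y
    have e3 := (η z w).2.2 x y z
    change f y y z w - f x y z w = (η z w).1 x y - (η y w).1 x y + (η y z).1 x y at e2
    change f x y z w = (f y y z w + (η z w).1 y z) - (f x x z w + (η z w).1 x z) +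
      (f x x y w + (η y w).1 x y) - (f x x y z + (η y z).1 x y)
    linear_combination (norm := abel) e1 - e2 - e3

end main3

end Run7.h333
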