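import Pool.Agent.Run7.h333.Gal

/-! The tower `F₀ ⊂ k₀ ⊂ k₀(y,z)` and the final vanishing. -/

set_option autoImplicit false
set_option linter.style.haveILetI false
set_option linter.unusedSectionVars false

namespace Run7.h333

open Polynomial Pool.Agent.TH952

section lifting

/-- automorphisms extend, fixing the variable -/
theorem lift_aut {E Ω' : Type} [Field E] [IsAlgClosed E] [Field Ω'] [IsAlgClosed Ω'] [Algebra E Ω']
    {z : Ω'} (hz : Transcendental E z) (halg : AlgOver E z) (φ : E ≃+* E) :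
    ∃ ψ : Ω' ≃+* Ω', ψ z = z ∧ ∀ e, ψ (algebraMap E Ω' e) = algebraMap E Ω' (φ e) := by
  obtain ⟨ι⟩ := exists_iota z hz halg 0
  obtain ⟨ψ, hψ⟩ := exists_equiv halg hz HahnSeries.C ι.f ι.hE
    (tw (φ : E →+* E) 1) (tw (φ.symm : E →+* E) 1) (φ : E →+* E) (φ.symm : E →+* E)
    (fun e => tw_C _ _ e) (fun e => tw_C _ _ e)
    (by
      rw [ι.hz, tw_za _ _ (by simp), map_zero])
    (by
      rw [ι.hz, tw_za _ _ (by simp), map_zero])
    (fun x => by
      ext q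
      rw [tw_coeff, tw_coeff]
      simp)
    (fun x => by
      ext q
      rw [tw_coeff, tw_coeff]
      simp)
  refine ⟨ψ, ?_, fun e => ?_⟩
  · apply ι.f.injective
    rw [hψ, ι.hz, tw_za _ _ (by simp), map_zero]
  · apply ι.f.injective
    rw [hψ, ι.hE, ι.hE, tw_C]
    rfl

end lifting

section sub

variable {Ω : Type} [Field Ω]

/-- transcendence inside a subfield -/
lemma tr_sub {Y X : Subfield Ω} (h : Y ≤ X) {x : Ω} (hx : x ∈ X) (ht : Transcendental Y x) :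
    letI := (Subfield.inclusion h).toAlgebra
    Transcendental Y (⟨x, hx⟩ : X) := by
  letI := (Subfield.inclusion h).toAlgebra
  haveI : IsScalarTower Y X Ω := IsScalarTower.of_algebraMap_eq fun _ => rfl
  intro h'
  exact ht ((isAlgebraic_algebraMap_iff (S := X) (A := Ω) (algebraMap X Ω).injective).2 h')

/-- algebraic equations inside a subfield -/
lemma algOver_sub {Y X : Subfield Ω} (h : Y ≤ X) {x : Ω} (hx : x ∈ X)
    (hq : ∀ e ∈ X, ∃ q : Polynomial (Polynomial Y), q ≠ 0 ∧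
      q.eval₂ ((Polynomial.aeval x : Polynomial Y →ₐ[Y] Ω) : Polynomial Y →+* Ω) e = 0) :
    letI := (Subfield.inclusion h).toAlgebra
    AlgOver Y (⟨x, hx⟩ : X) := by
  letI := (Subfield.inclusion h).toAlgebra
  haveI : IsScalarTower Y X Ω := IsScalarTower.of_algebraMap_eq fun _ => rfl
  intro e
  obtain ⟨q, hq0, hqe⟩ := hq e e.2
  refine ⟨q, hq0, (algebraMap X Ω).injective ?_⟩
  rw [map_zero, Polynomial.hom_eval₂, ← hqe]
  have h1 : (algebraMap X Ω).comp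
      ((Polynomial.aeval (⟨x, hx⟩ : X) : Polynomial Y →ₐ[Y] X) : Polynomial Y →+* X) =
      ((Polynomial.aeval x : Polynomial Y →ₐ[Y] Ω) : Polynomial Y →+* Ω) := by
    refine RingHom.ext fun p => ?_
    exact (Polynomial.aeval_algebraMap_apply Ω (⟨x, hx⟩ : X) p).symm
  rw [h1]
  rfl

end sub

section ctrl

variable {G Ω : Type} [Group G] [Field Ω] [MulSemiringAction G Ω]

theorem ctrl_of_lift (X Y : SS G Ω) (hYX : Y.F ≤ X.F) [IsAlgClosed X.F] (hfoY : FinO G Y.F)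
    {k : Subfield Ω} (hk : k ≤ X.F) (hkG : ∀ (g : G), ∀ c ∈ k, g • c = c)
    (halg : ∀ e ∈ X.F, IsAlgebraic k e)
    (hlift : ∀ φ : X.F ≃+* X.F, (∀ c : X.F, (c : Ω) ∈ k → φ c = c) → ∃ g : G, ∀ e : X.F, g • e = φ e) :
    Ctrl G X.F Y.F := by
  classical
  intro S hS
  -- the open subgroup
  let D : Subgroup G :=
    { carrier := {g | ∃ n ∈ kerN G Y.F, Agr S g n}
      mul_mem' := by
        rintro a b ⟨n, hn, h⟩ ⟨m, hm, h'⟩
        exact ⟨n * m, (kerN G Y.F).mul_mem hn hm, h.mul hS h'⟩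
      one_mem' := ⟨1, (kerN G Y.F).one_mem, Agr.refl _ _⟩
      inv_mem' := by
        rintro a ⟨n, hn, h⟩
        exact ⟨n⁻¹, (kerN G Y.F).inv_mem hn, h.inv hS⟩ }
  have hD : (stN S : Subgroup G) ≤ D := fun g hg => ⟨1, (kerN G Y.F).one_mem, hg⟩
  obtain ⟨q, hq⟩ := ExpChar.exists X.F
  -- separating elements
  have key : ∀ τ : G, ∃ T : Set Y.F, T.Finite ∧ (τ ∉ D → ∀ x : G, Agr T x 1 → x⁻¹ * τ ∉ D) := by
    intro τ
    by_cases hτ : τ ∈ D
    · exact ⟨∅, Set.finite_empty, fun h => absurd hτ h⟩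
    obtain ⟨θ, hθ, hτθ⟩ := exists_theta hS hD hτ
    letI : Algebra k X.F := (Subfield.inclusion hk).toAlgebra
    haveI : IsScalarTower k X.F Ω := IsScalarTower.of_algebraMap_eq fun _ => rfl
    haveI : Algebra.IsAlgebraic k X.F :=
      ⟨fun e => (isAlgebraic_algebraMap_iff (A := Ω) (algebraMap X.F Ω).injective).1 (halg e e.2)⟩
    let SY : Set X.F := {e | (e : Ω) ∈ Y.F}
    let A := IntermediateField.adjoin k SY
    haveI : ExpChar A q := by
      haveI : ExpChar X.F q := hq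
      exact RingHom.expChar (algebraMap A X.F) (algebraMap A X.F).injective q
    obtain ⟨n, c, hc⟩ := pinsep_of_fixed (F := A) q θ (by
      intro σ
      obtain ⟨g, hg⟩ := hlift σ.toRingEquiv (by
        intro c hc
        exact σ.commutes (algebraMap k A ⟨c, hc⟩))
      have hgN : g ∈ kerN G Y.F := by
        intro y
        have h1 := hg ⟨y, hYX y.2⟩
        have h2 : σ ⟨y, hYX y.2⟩ = ⟨y, hYX y.2⟩ :=
          σ.commutes ⟨⟨y, hYX y.2⟩, IntermediateField.subset_adjoin k SY y.2⟩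
        have h3 : g • (⟨y, hYX y.2⟩ : X.F) = ⟨y, hYX y.2⟩ := h1.trans h2
        exact Subtype.ext (congrArg (Subtype.val : X.F → Ω) h3)
      have h1 := hθ g ⟨g, hgN, Agr.refl _ _⟩
      rw [hg] at h1
      exact h1)
    obtain ⟨T, hTS, hcT⟩ := IntermediateField.exists_finset_of_mem_adjoin c.2
    have hmem : ∀ t : T, ((t : X.F) : Ω) ∈ Y.F := fun t => hTS t.2
    let T' : Set Y.F := Set.range fun t : T => (⟨((t : X.F) : Ω), hmem t⟩ : Y.F)
    refine ⟨T', Set.finite_range _, fun _ x hx hxτ => ?_⟩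
    -- x fixes θ
    have hxθ : x • θ = θ := by
      have h1 : ∀ e : X.F, e ∈ IntermediateField.adjoin k (T : Set X.F) → x • e = e := by
        intro e he
        induction he using IntermediateField.adjoin_induction with
        | mem e he =>
          have h2 := hx ⟨((e : X.F) : Ω), hmem ⟨e, he⟩⟩ ⟨⟨e, he⟩, rfl⟩
          rw [one_smul] at h2
          exact Subtype.ext (congrArg (Subtype.val : Y.F → Ω) h2)
        | algebraMap c => exact Subtype.ext (hkG x c c.2)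
        | add a b _ _ ha hb => rw [smul_add, ha, hb]
        | inv a _ ha => rw [smul_inv'', ha]
        | mul a b _ _ ha hb => rw [smul_mul', ha, hb]
      have h2 := h1 _ hcT
      have h3 : x • (θ ^ q ^ n) = θ ^ q ^ n := by
        rw [← hc]
        exact h2
      rw [smul_pow'] at h3
      haveI : ExpChar X.F q := hq
      exact iterateFrobenius_inj X.F q n h3
    apply hτθ
    have h4 := hθ _ hxτ
    rw [mul_smul, inv_smul_eq_iff, hxθ] at h4
    exact h4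
  choose T hT hTD using key
  haveI := stN_finite (P := G) hS
  haveI : (stN S : Subgroup G).FiniteIndex := Subgroup.finiteIndex_of_finite_quotient
  haveI : D.FiniteIndex := Subgroup.finiteIndex_of_le hD
  haveI : Finite (G ⧸ D) := Subgroup.finite_quotient_of_finiteIndex
  obtain ⟨S', hS'1, hS'2⟩ := hfoY.exists_stb (S := ⋃ c : G ⧸ D, T (Quotient.out c))
    (Set.finite_iUnion fun c => hT _)
  refine ⟨S', hS'2, fun x hx => ?_⟩
  by_contra hcon
  have hxD : x ∉ D := hcon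
  obtain ⟨d, hd⟩ := QuotientGroup.mk_out_eq_mul D x
  set τ : G := Quotient.out (QuotientGroup.mk x : G ⧸ D) with hτdef
  have hτ : τ = x * d := hd
  have hτD : τ ∉ D := by
    intro h
    apply hxD
    rw [hτ] at h
    have h2 := D.mul_mem h (D.inv_mem d.2)
    rwa [mul_inv_cancel_right] at h2
  refine hTD τ hτD x (fun t ht => hx t (hS'1 (Set.mem_iUnion.2 ⟨_, ht⟩))) ?_
  rw [hτ, inv_mul_cancel_left]
  exact d.2

end ctrl

section tower

variable {G Ω M : Type} [Group G] [Field Ω] [MulSemiringAction G Ω] [IsAlgClosed Ω]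
  [AddCommGroup M] [DistribMulAction G M] {K : Subfield Ω}

/-- the tower `F₀ ⊂ k₀ ⊂ k₀(y, z)` -/
structure Twr {Ω : Type} [Field Ω] (K : Subfield Ω) where
  /-- the finite field -/
  F0 : Subfield Ω
  /-- the function field in one variable -/
  k0 : Subfield Ω
  /-- first variable -/
  x : Ω
  /-- second variable -/
  y : Ω
  /-- third variable -/
  z : Ω
  fin : Finite F0
  hF : F0 ≤ k0
  hx : x ∈ k0
  trx : Transcendental F0 x
  algx : ∀ c ∈ k0, IsAlgebraic (adj F0 x) c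
  tr_y : Transcendental k0 y
  tr_zy : Transcendental (adj k0 y) z
  tr_z : Transcendental k0 z
  tr_yz : Transcendental (adj k0 z) y
  hK1 : K = adj (adj k0 y) z
  hK2 : K = adj (adj k0 z) y

variable (T : Twr K) (hG : IsGal G K)

lemma Twr.h1 (T : Twr K) : adj T.k0 T.y ≤ K := by
  have := le_adj (adj T.k0 T.y) T.z
  rwa [← T.hK1] at this

lemma Twr.h2 (T : Twr K) : adj T.k0 T.z ≤ K := by
  have := le_adj (adj T.k0 T.z) T.y
  rwa [← T.hK2] at this

lemma Twr.h0 (T : Twr K) : T.k0 ≤ K := (le_adj _ _).trans T.h1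

lemma Twr.hf (T : Twr K) : T.F0 ≤ K := T.hF.trans T.h0

/-- algebraic closure of `k₀` -/
def Twr.E0 : SS G Ω := SS.ac hG T.k0 T.h0
/-- algebraic closure of `k₀(y)` -/
def Twr.E1 : SS G Ω := SS.ac hG (adj T.k0 T.y) T.h1
/-- algebraic closure of `k₀(z)` -/
def Twr.E2 : SS G Ω := SS.ac hG (adj T.k0 T.z) T.h2
/-- algebraic closure of `F₀` -/
def Twr.Eb : SS G Ω := SS.ac hG T.F0 T.hf

instance : IsAlgClosed (T.E0 hG).F := SS.ac_isAlgClosed hG
instance : IsAlgClosed (T.E1 hG).F := SS.ac_isAlgClosed hG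
instance : IsAlgClosed (T.E2 hG).F := SS.ac_isAlgClosed hG
instance : IsAlgClosed (T.Eb hG).F := SS.ac_isAlgClosed hG

lemma Twr.b0 : (T.Eb hG).F ≤ (T.E0 hG).F := SS.ac_mono hG T.hF
lemma Twr.l01 : (T.E0 hG).F ≤ (T.E1 hG).F := SS.ac_mono hG (le_adj _ _)
lemma Twr.l02 : (T.E0 hG).F ≤ (T.E2 hG).F := SS.ac_mono hG (le_adj _ _)

/-- lifting automorphisms of `E0` -/
theorem Twr.lift0 (φ : (T.E0 hG).F ≃+* (T.E0 hG).F)
    (hφ : ∀ c : (T.E0 hG).F, (c : Ω) ∈ T.k0 → φ c = c) : ∃ g : G, ∀ e : (T.E0 hG).F, g • e = φ e := by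
  have hyE : T.y ∈ (T.E1 hG).F := SS.le_ac hG T.h1 (mem_adj _ _)
  letI A1 : Algebra (T.E0 hG).F (T.E1 hG).F := (Subfield.inclusion (T.l01 hG)).toAlgebra
  obtain ⟨φ1, h1y, h1⟩ := lift_aut (E := (T.E0 hG).F) (Ω' := (T.E1 hG).F) (z := ⟨T.y, hyE⟩)
    (tr_sub (T.l01 hG) hyE (SS.tr hG T.h0 T.tr_y))
    (algOver_sub (T.l01 hG) hyE fun e he => SS.exists_q hG T.h0 ((SS.mem_ac hG).1 he)) φ
  obtain ⟨φ2, h2z, h2⟩ := lift_aut (E := (T.E1 hG).F) (Ω' := Ω) (z := T.z)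
    (SS.tr hG T.h1 T.tr_zy) (hG.full T.hK1 T.h1 T.tr_zy).alg φ1
  have hc1 : ∀ (e : Ω) (he : e ∈ (T.E0 hG).F), φ2 e = (φ ⟨e, he⟩ : (T.E0 hG).F) := by
    intro e he
    have h3 := h2 ⟨e, T.l01 hG he⟩
    have h4 := h1 ⟨e, he⟩
    have h5 : φ1 ⟨e, T.l01 hG he⟩ = ⟨(φ ⟨e, he⟩ : (T.E0 hG).F), T.l01 hG (φ ⟨e, he⟩).2⟩ := h4
    rw [h5] at h3
    exact h3
  have hc2 : φ2 T.y = T.y := by
    have h3 := h2 ⟨T.y, hyE⟩
    rw [h1y] at h3
    exact h3
  obtain ⟨g, hg⟩ := hG.ex φ2 (by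
    intro c hc
    rw [T.hK1] at hc
    refine adj_le (L := (φ2 : Ω →+* Ω).eqLocusField (RingHom.id Ω)) (adj_le ?_ hc2) h2z hc
    intro c hc
    change φ2 c = c
    rw [hc1 c (SS.le_ac hG T.h0 hc), hφ _ hc])
  refine ⟨g, fun e => Subtype.ext ?_⟩
  exact (hg (e : Ω)).trans (hc1 e e.2)

theorem Twr.ctrl0 : Ctrl G (T.E0 hG).F (T.Eb hG).F :=
  ctrl_of_lift (T.E0 hG) (T.Eb hG) (T.b0 hG) (SS.finO _ hG.finO) (SS.le_ac hG T.h0)
    (fun g c hc => hG.fix g c (T.h0 hc)) (fun _ he => (SS.mem_ac hG).1 he) (T.lift0 hG)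

variable {l : ℕ} (cf : Cf G Ω M l)

lemma natCast_ne {F : Subfield Ω} (hl0 : (l : Ω) ≠ 0) : (l : F) ≠ 0 := by
  intro h
  apply hl0
  have := congrArg (Subtype.val : F → Ω) h
  simpa using this

lemma Cf.smA (X : SS G Ω) (hfo : FinO G X.F) (hX : ∀ m, cf.v m ∈ X.F) : SmA G X.F M := by
  intro m
  obtain ⟨S, hSm, hS⟩ := hfo.exists_stb (Set.finite_singleton (⟨cf.v m, hX m⟩ : X.F))
  refine ⟨S, hS, fun g hg => cf.v_inj ?_⟩
  have h1 : g • cf.v m = cf.v m := by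
    have := hg _ (hSm rfl)
    rw [one_smul] at this
    exact congrArg Subtype.val this
  rw [cf.v_act, h1, h1]

lemma _root_.Subfield.inst_fin_alg {k F : Subfield Ω} (h : k ≤ F) (hF : ∀ e ∈ F, IsAlgebraic k e) :
    letI := (Subfield.inclusion h).toAlgebra
    Algebra.IsAlgebraic k F := by
  letI := (Subfield.inclusion h).toAlgebra
  haveI : IsScalarTower k F Ω := IsScalarTower.of_algebraMap_eq fun _ => rfl
  exact ⟨fun e => (isAlgebraic_algebraMap_iff (A := Ω) (algebraMap F Ω).injective).1 (hF e e.2)⟩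

include cf in
/-- the cohomology of the field `k₀` vanishes in degree three -/
theorem Twr.van0 (hl : l.Prime) (hl0 : (l : Ω) ≠ 0) {α : G → G → G → G → M}
    (hα : Sm4 (T.E0 hG).F α) (hαe : Eq4 ⊤ α) (hαd : d4 α = 0) :
    ∃ ω : G → G → G → M, Sm3 (T.E0 hG).F ω ∧ Eq3 ⊤ ω ∧ α = d3 ω := by
  have hvX : ∀ m, cf.v m ∈ (T.Eb hG).F := by
    intro m
    obtain ⟨n, hn⟩ := cf.v_tor m
    exact (SS.mem_ac hG).2 (alg_of_pow_one _ (pow_pos hl.pos n) hn)
  have hxE : T.x ∈ (T.E0 hG).F := SS.le_ac hG T.h0 T.hx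
  refine vanish3 (G := G) (Ω := (T.E0 hG).F) (E := (T.Eb hG).F) hl (natCast_ne hl0) (natCast_ne hl0)
    (SS.finO _ hG.finO) (SS.finO _ hG.finO) (T.ctrl0 hG) (SS.sub _ _ (T.b0 hG))
    (cf.smA _ (SS.finO _ hG.finO) hvX) ?_ ?_ ?_ hα hαe hαd
  · intro m
    obtain ⟨n, hn⟩ := cf.v_tor m
    have h0 : cf.v 0 = 1 := by
      have h1 := cf.v_add 0 0
      rw [add_zero] at h1
      obtain ⟨n, hn⟩ := cf.v_tor 0
      have h2 : cf.v 0 ≠ 0 := by
        intro h
        rw [h, zero_pow (pow_ne_zero n hl.ne_zero)] at hn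
        exact zero_ne_one hn
      exact (mul_right_cancel₀ h2 (by rw [one_mul]; exact h1)).symm
    have hp : ∀ k : ℕ, cf.v (k • m) = cf.v m ^ k := by
      intro k
      induction k with
      | zero => rw [zero_smul, pow_zero, h0]
      | succ k ih => rw [succ_nsmul, cf.v_add, ih, pow_succ]
    exact ⟨n, cf.v_inj (by rw [hp, hn, h0])⟩
  · intro P hP
    letI A1 : Algebra (T.Eb hG).F (T.E0 hG).F := (Subfield.inclusion (T.b0 hG)).toAlgebra
    refine isC1_fixed_tr1 (k := (T.Eb hG).F) P ?_ ⟨T.x, hxE⟩ ?_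
      (tr_sub (T.b0 hG) hxE (SS.tr hG T.hf T.trx)) (algOver_sub (T.b0 hG) hxE fun e he => ?_)
    · intro g hg c
      exact Subtype.ext (congrArg (Subtype.val : (T.Eb hG).F → Ω) (hP hg c))
    · intro g _
      exact Subtype.ext (hG.fix g T.x (T.h0 T.hx))
    · refine SS.exists_q hG T.hf ?_
      exact alg_trans (adj_le T.hF T.hx) T.algx ((SS.mem_ac hG).1 he)
  · intro P
    haveI := T.fin
    letI A1 : Algebra T.F0 (T.Eb hG).F := (Subfield.inclusion (SS.le_ac hG T.hf)).toAlgebra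
    haveI : Algebra.IsAlgebraic T.F0 (T.Eb hG).F :=
      Subfield.inst_fin_alg (SS.le_ac hG T.hf) fun e he => (SS.mem_ac hG).1 he
    refine isC1_fixed_fin (F := T.F0) P ?_
    intro g _ c
    exact Subtype.ext (hG.fix g c (T.hf c.2))

/-- coefficients of elements algebraic over `k₀(z)` -/
theorem Twr.coeff_mem (ι : Iota (T.E1 hG).F Ω T.z 0) {e : Ω} (he : IsAlgebraic (adj T.k0 T.z) e)
    (q : ℚ) : ((ι.f e).coeff q : Ω) ∈ (T.E0 hG).F := by
  obtain ⟨P, hP, hPe⟩ := SS.exists_q hG T.h0 he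
  let incl : (T.E0 hG).F →+* (T.E1 hG).F := Subfield.inclusion (T.l01 hG)
  let Φ : Hah (T.E0 hG).F →+* Hah (T.E1 hG).F := tw incl 1
  let ψ : Polynomial (T.E0 hG).F →+* Hah (T.E0 hG).F := Polynomial.eval₂RingHom HahnSeries.C (za 0)
  have hψ : Function.Injective ψ := by
    rw [injective_iff_map_eq_zero]
    intro r hr
    by_contra h0
    exact za_transc 0 h0 hr
  have hcomp : Φ.comp ψ = ι.f.comp
      ((Polynomial.aeval T.z : Polynomial (T.E0 hG).F →ₐ[(T.E0 hG).F] Ω) :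
        Polynomial (T.E0 hG).F →+* Ω) := by
    apply Polynomial.ringHom_ext
    · intro c
      change Φ (Polynomial.eval₂ HahnSeries.C (za 0) (Polynomial.C c)) = ι.f (Polynomial.aeval T.z (Polynomial.C c))
      rw [Polynomial.eval₂_C, Polynomial.aeval_C, tw_C]
      exact (ι.hE (incl c)).symm
    · change Φ (Polynomial.eval₂ HahnSeries.C (za 0) Polynomial.X) = ι.f (Polynomial.aeval T.z Polynomial.X)
      rw [Polynomial.eval₂_X, Polynomial.aeval_X, ι.hz, tw_za _ _ (by simp), map_zero]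
  haveI : IsAlgClosed (Hah (T.E0 hG).F) := hah_isAlgClosed
  obtain ⟨x, hx⟩ := mem_range_of_root (Ω' := Hah (T.E0 hG).F) Φ (p := P.map ψ)
    ((Polynomial.map_ne_zero_iff hψ).2 hP) (y := ι.f e) (by
      rw [Polynomial.eval₂_map, hcomp, ← Polynomial.hom_eval₂]
      exact (congrArg ι.f hPe).trans (map_zero _))
  rw [← hx, tw_coeff]
  have h1 : (1 : AddChar ℚ (T.E1 hG).F) q = 1 := rfl
  rw [h1, one_mul]
  exact (x.coeff q).2

include cf in
/-- **the final vanishing** -/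
theorem Twr.van (hl : l.Prime) (hl0 : (l : Ω) ≠ 0) {α : G → G → G → G → M}
    (hα : Sm4 Ω α) (hαe : Eq4 ⊤ α) (hαd : d4 α = 0)
    (hun1 : ∀ a, (cf.kd hG hl hl0 T.hK1 T.h1 T.tr_zy).Unr a α)
    (hun2 : ∀ a, (cf.kd hG hl hl0 T.hK2 T.h2 T.tr_yz).Unr a α) :
    ∃ ω : G → G → G → M, Sm3 Ω ω ∧ Eq3 ⊤ ω ∧ α = d3 ω := by
  let K1 : KD G (T.E1 hG).F Ω M l := cf.kd hG hl hl0 T.hK1 T.h1 T.tr_zy
  let K2 : KD G (T.E2 hG).F Ω M l := cf.kd hG hl hl0 T.hK2 T.h2 T.tr_yz
  obtain ⟨mz, hmz, hmze, hmzd, ωz, hωz, hωze, hαz⟩ := K1.hi hα hαe hαd hun1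
  obtain ⟨my, hmy, hmye, hmyd, ωy, hωy, hωye, hαy⟩ := K2.hi hα hαe hαd hun2
  -- the section
  let s : G → G := fun g => K1.sec 0 g (smul_zero g)
  have hs_mul : ∀ g h, s (g * h) = s g * s h := fun g h => K1.sec_mul 0 g h _ _ _
  have hsE : ∀ (g : G) (e : (T.E1 hG).F), s g • e = g • e := fun g e => K1.sec_E 0 g _ e
  have hsM : ∀ (g : G) (m : M), s g • m = g • m := by
    intro g m
    apply K1.v_inj
    rw [K1.v_act, K1.v_act, hsE, hsE]
  have hs0 : ∀ (g : G) (e : (T.E0 hG).F), s g • e = g • e := by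
    intro g e
    have h1 := hsE g ⟨e, T.l01 hG e.2⟩
    exact Subtype.ext (congrArg (Subtype.val : (T.E1 hG).F → Ω) h1)
  -- smoothness of the section
  have hsS : ∀ S : Set Ω, Stb G S → ∃ S' : Set Ω, Stb G S' ∧ ∀ g g' : G, Agr S' g g' →
      Agr S (s g) (s g') := by
    intro S hS
    obtain ⟨S₁, hS₁, h₁⟩ := K1.sec_smooth 0 hS
    obtain ⟨S₂, hS₂, h₂⟩ := K1.sub S₁ hS₁
    exact ⟨S₂, hS₂, fun g g' h => h₁ g g' _ _ (h₂ g g' h)⟩
  -- the section on `E2` only depends on the action on `E0`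
  have hs2 : ∀ S : Set (T.E2 hG).F, Stb G S → ∃ S' : Set (T.E0 hG).F, Stb G S' ∧
      ∀ g g' : G, Agr S' g g' → Agr S (s g) (s g') := by
    intro S hS
    have hS₁ : ((Subtype.val : (T.E2 hG).F → Ω) '' S).Finite := hS.1.image _
    obtain ⟨Q, hQ, hQS⟩ := K1.exists_sep 0 hS₁
    have hmem : ∀ p : (T.E2 hG).F × ℚ, (((K1.ι 0).f (p.1 : Ω)).coeff p.2 : Ω) ∈ (T.E0 hG).F :=
      fun p => T.coeff_mem hG (K1.ι 0) ((SS.mem_ac hG).1 p.1.2) p.2
    obtain ⟨S', hS'1, hS'2⟩ := (SS.finO (T.E0 hG) hG.finO).exists_stb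
      (S := (fun p : (T.E2 hG).F × ℚ => (⟨_, hmem p⟩ : (T.E0 hG).F)) '' (S ×ˢ Q))
      ((hS.1.prod hQ).image _)
    refine ⟨S', hS'2, fun g g' h e he => Subtype.ext ?_⟩
    refine hQS _ ⟨s g • e, hS.2 _ e he, rfl⟩ _ ⟨s g' • e, hS.2 _ e he, rfl⟩ fun q hq => ?_
    change ((K1.ι 0).f (s g • (e : Ω))).coeff q = ((K1.ι 0).f (s g' • (e : Ω))).coeff q
    rw [K1.sec_spec, K1.sec_spec, tw_coeff, tw_coeff]
    congr 1
    have h1 := h _ (hS'1 ⟨(e, q), ⟨he, hq⟩, rfl⟩)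
    exact Subtype.ext (congrArg (Subtype.val : (T.E0 hG).F → Ω) h1)
  let n : G → G → G → G → M := fun x y z w => my (s x) (s y) (s z) (s w)
  have hn : Sm4 (T.E0 hG).F n := by
    obtain ⟨S, hS, h⟩ := hmy
    obtain ⟨S', hS', h'⟩ := hs2 S hS
    exact ⟨S', hS', fun x x' y y' z z' w w' hx hy hz hw =>
      h _ _ _ _ _ _ _ _ (h' _ _ hx) (h' _ _ hy) (h' _ _ hz) (h' _ _ hw)⟩
  have hne : Eq4 ⊤ n := by
    intro g _ x y z w
    change my (s (g * x)) (s (g * y)) (s (g * z)) (s (g * w)) = g • my (s x) (s y) (s z) (s w)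
    rw [hs_mul, hs_mul, hs_mul, hs_mul, hmye (s g) (Subgroup.mem_top _), hsM]
  have hnd : d4 n = 0 := by
    funext x y z w v
    exact congrFun (congrFun (congrFun (congrFun (congrFun hmyd (s x)) (s y)) (s z)) (s w)) (s v)
  obtain ⟨ω0, hω0, hω0e, hnω⟩ := T.van0 hG cf hl hl0 hn hne hnd
  have hsub0 : Sub G Ω (T.E0 hG).F := by
    intro S' hS'
    refine ⟨Subtype.val '' S', ⟨hS'.1.image _, ?_⟩, fun x x' hx e he => ?_⟩
    · rintro g _ ⟨e, he, rfl⟩
      exact ⟨g • e, hS'.2 g e he, rfl⟩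
    · exact Subtype.ext (hx _ ⟨e, he, rfl⟩)
  obtain ⟨R0, hR0, h0⟩ := hsub0.sm3 hω0
  obtain ⟨Rz, hRz, hz⟩ := hωz
  obtain ⟨Ry, hRy, hy⟩ := hωy
  obtain ⟨R1, hR1, h1⟩ := hsS (Rz ∪ Ry) (hRz.union hRy)
  refine ⟨fun x y z => ω0 x y z + (ωy (s x) (s y) (s z) - ωz (s x) (s y) (s z)) + ωz x y z,
    ⟨(R0 ∪ Rz) ∪ R1, (hR0.union hRz).union hR1, ?_⟩, ?_, ?_⟩
  · intro x x' y y' z z' hx hy' hz'
    have hx0 := hx.mono (Set.subset_union_left.trans Set.subset_union_left : R0 ⊆ (R0 ∪ Rz) ∪ R1)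
    have hy0 := hy'.mono (Set.subset_union_left.trans Set.subset_union_left : R0 ⊆ (R0 ∪ Rz) ∪ R1)
    have hz0 := hz'.mono (Set.subset_union_left.trans Set.subset_union_left : R0 ⊆ (R0 ∪ Rz) ∪ R1)
    have hxz := hx.mono (Set.subset_union_right.trans Set.subset_union_left : Rz ⊆ (R0 ∪ Rz) ∪ R1)
    have hyz := hy'.mono (Set.subset_union_right.trans Set.subset_union_left : Rz ⊆ (R0 ∪ Rz) ∪ R1)
    have hzz := hz'.mono (Set.subset_union_right.trans Set.subset_union_left : Rz ⊆ (R0 ∪ Rz) ∪ R1)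
    have hx1 := h1 _ _ (hx.mono Set.subset_union_right)
    have hy1 := h1 _ _ (hy'.mono Set.subset_union_right)
    have hz1 := h1 _ _ (hz'.mono Set.subset_union_right)
    change ω0 x y z + (ωy (s x) (s y) (s z) - ωz (s x) (s y) (s z)) + ωz x y z =
      ω0 x' y' z' + (ωy (s x') (s y') (s z') - ωz (s x') (s y') (s z')) + ωz x' y' z'
    rw [h0 _ _ _ _ _ _ hx0 hy0 hz0, hz _ _ _ _ _ _ hxz hyz hzz,
      hy _ _ _ _ _ _ (hx1.mono Set.subset_union_right) (hy1.mono Set.subset_union_right)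
        (hz1.mono Set.subset_union_right),
      hz _ _ _ _ _ _ (hx1.mono Set.subset_union_left) (hy1.mono Set.subset_union_left)
        (hz1.mono Set.subset_union_left)]
  · intro g hg x y z
    change ω0 (g * x) (g * y) (g * z) + (ωy (s (g * x)) (s (g * y)) (s (g * z)) -
      ωz (s (g * x)) (s (g * y)) (s (g * z))) + ωz (g * x) (g * y) (g * z) =
      g • (ω0 x y z + (ωy (s x) (s y) (s z) - ωz (s x) (s y) (s z)) + ωz x y z)
    rw [hω0e g hg, hωze g hg, hs_mul, hs_mul, hs_mul, hωye (s g) (Subgroup.mem_top _),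
      hωze (s g) (Subgroup.mem_top _), hsM, hsM, smul_add, smul_add, smul_sub]
  · funext x y z w
    -- `mz` is invariant under the section
    obtain ⟨Sz, _, hmz'⟩ := hmz
    have e1 : mz (s x) (s y) (s z) (s w) = mz x y z w :=
      hmz' _ _ _ _ _ _ _ _ (fun e _ => hsE x e) (fun e _ => hsE y e) (fun e _ => hsE z e)
        (fun e _ => hsE w e)
    have e2 := congrFun (congrFun (congrFun (congrFun hαz (s x)) (s y)) (s z)) (s w)
    have e3 := congrFun (congrFun (congrFun (congrFun hαy (s x)) (s y)) (s z)) (s w)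
    have e4 := congrFun (congrFun (congrFun (congrFun hαz x) y) z) w
    have e5 := congrFun (congrFun (congrFun (congrFun hnω x) y) z) w
    have e6 : n x y z w = my (s x) (s y) (s z) (s w) := rfl
    simp only [Pi.add_apply, d3] at e2 e3 e4 e5 ⊢
    rw [e6] at e5
    rw [e1] at e2
    rw [e2] at e3
    linear_combination (norm := abel) e4 + e5 + e3

end tower

end Run7.h333
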