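import Pool.Agent.Run7.h333.Tow

/-! Valuation rings, decomposition and inertia groups, and the local condition. -/

set_option autoImplicit false
set_option linter.style.haveILetI false
set_option linter.unusedSectionVars false

namespace Run7.h333

open Pool.Agent.TH952

section vr

variable {Ω : Type} [Field Ω]

lemma mem_nonunits' (B : ValuationSubring Ω) (a : Ω) : a ∈ B.nonunits ↔ a = 0 ∨ a⁻¹ ∉ B := by
  rw [B.mem_nonunits_iff]
  by_cases ha : a = 0
  · subst ha
    simp
  · have hv : B.valuation a ≠ 0 := (Valuation.ne_zero_iff _).2 ha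
    constructor
    · intro h
      right
      intro h'
      have h1 := (B.valuation_le_one_iff _).2 h'
      rw [map_inv₀] at h1
      have h2 : 1 < (B.valuation a)⁻¹ := (one_lt_inv₀ (zero_lt_iff.2 hv)).2 h
      exact absurd h1 (not_le.2 h2)
    · rintro (h | h)
      · exact absurd h ha
      · by_contra hcon
        apply h
        rw [← B.valuation_le_one_iff, map_inv₀]
        exact inv_le_one_of_one_le₀ (not_lt.1 hcon)

end vr

section grp

variable (G : Type) {Ω : Type} [Group G] [Field Ω] [MulSemiringAction G Ω]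

/-- decomposition group -/
def dcp (B : ValuationSubring Ω) : Subgroup G where
  carrier := {g | ∀ x : Ω, g • x ∈ B ↔ x ∈ B}
  one_mem' x := by rw [one_smul]
  mul_mem' {a b} ha hb x := by rw [mul_smul, ha, hb]
  inv_mem' {a} ha x := by rw [← ha, smul_inv_smul]

/-- inertia group -/
def ine (B : ValuationSubring Ω) : Subgroup G where
  carrier := {g | (∀ x : Ω, g • x ∈ B ↔ x ∈ B) ∧ ∀ x ∈ B, g • x - x ∈ B.nonunits}
  one_mem' := ⟨fun x => by rw [one_smul], fun x _ => by rw [one_smul, sub_self]; exact B.nonunits.zero_mem⟩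
  mul_mem' {a b} ha hb := ⟨fun x => by rw [mul_smul, ha.1, hb.1], fun x hx => by
    have h1 := ha.2 (b • x) ((hb.1 x).2 hx)
    have h2 := hb.2 x hx
    have h3 := B.nonunits.add_mem h1 h2
    rwa [sub_add_sub_cancel, ← mul_smul] at h3⟩
  inv_mem' {a} ha := ⟨fun x => by rw [← ha.1, smul_inv_smul], fun x hx => by
    have h1 : a⁻¹ • x ∈ B := by rw [← ha.1, smul_inv_smul]; exact hx
    have h2 := ha.2 _ h1
    rw [smul_inv_smul] at h2
    have h3 := B.nonunits.neg_mem h2
    rwa [neg_sub] at h3⟩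

variable {G}

lemma mem_dcp {B : ValuationSubring Ω} {g : G} : g ∈ dcp G B ↔ ∀ x : Ω, g • x ∈ B ↔ x ∈ B := Iff.rfl

lemma mem_ine {B : ValuationSubring Ω} {g : G} : g ∈ ine G B ↔
    (∀ x : Ω, g • x ∈ B ↔ x ∈ B) ∧ ∀ x ∈ B, g • x - x ∈ B.nonunits := Iff.rfl

lemma smul_nonunits {B : ValuationSubring Ω} {g : G} (hg : g ∈ dcp G B) {x : Ω}
    (hx : x ∈ B.nonunits) : g • x ∈ B.nonunits := by
  rw [mem_nonunits'] at hx ⊢
  rcases hx with rfl | h
  · exact Or.inl (smul_zero g)
  · right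
    rw [← smul_inv'', hg]
    exact h

lemma ine_conj {B : ValuationSubring Ω} {d i : G} (hd : d ∈ dcp G B) (hi : i ∈ ine G B) :
    d⁻¹ * i * d ∈ ine G B := by
  have hd' : d⁻¹ ∈ dcp G B := (dcp G B).inv_mem hd
  refine ⟨fun x => ?_, fun x hx => ?_⟩
  · rw [mul_smul, mul_smul, hd', hi.1, hd]
  · have h1 := smul_nonunits hd' (hi.2 (d • x) ((hd x).2 hx))
    rwa [smul_sub, inv_smul_smul, ← mul_smul, ← mul_smul] at h1

variable {M : Type} [AddCommGroup M] [DistribMulAction G M]

/-- the local condition at a valuation ring -/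
def LU (B : ValuationSubring Ω) (f : G → G → G → G → M) : Prop :=
  ∃ (c : dcp G B → dcp G B → dcp G B → dcp G B → M) (ω : dcp G B → dcp G B → dcp G B → M),
    Sm4 Ω c ∧ (∀ g x y z w, c (g * x) (g * y) (g * z) (g * w) = g • c x y z w) ∧ d4 c = 0 ∧
    (∀ x x' y y' z z' w w' : dcp G B, ((x⁻¹ * x' : dcp G B) : G) ∈ ine G B →
      ((y⁻¹ * y' : dcp G B) : G) ∈ ine G B → ((z⁻¹ * z' : dcp G B) : G) ∈ ine G B →
      ((w⁻¹ * w' : dcp G B) : G) ∈ ine G B → c x y z w = c x' y' z' w') ∧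
    Sm3 Ω ω ∧ (∀ g x y z, ω (g * x) (g * y) (g * z) = g • ω x y z) ∧
    (∀ x y z w : dcp G B, f x y z w = c x y z w + d3 ω x y z w)

/-- a class is in the subgroup of unramified ones -/
lemma LU.add {B : ValuationSubring Ω} {f f' : G → G → G → G → M} (h : LU B f) (h' : LU B f') :
    LU B (f + f') := by
  obtain ⟨c, ω, ⟨S, hS, hcS⟩, hce, hcd, hcI, ⟨T, hT, hωT⟩, hωe, hf⟩ := h
  obtain ⟨c', ω', ⟨S', hS', hcS'⟩, hce', hcd', hcI', ⟨T', hT', hωT'⟩, hωe', hf'⟩ := h'
  refine ⟨c + c', ω + ω', ⟨S ∪ S', hS.union hS', ?_⟩, ?_, ?_, ?_, ⟨T ∪ T', hT.union hT', ?_⟩, ?_, ?_⟩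
  · intro x x' y y' z z' w w' hx hy hz hw
    change c _ _ _ _ + c' _ _ _ _ = c _ _ _ _ + c' _ _ _ _
    rw [hcS _ _ _ _ _ _ _ _ (hx.mono Set.subset_union_left) (hy.mono Set.subset_union_left)
      (hz.mono Set.subset_union_left) (hw.mono Set.subset_union_left),
      hcS' _ _ _ _ _ _ _ _ (hx.mono Set.subset_union_right) (hy.mono Set.subset_union_right)
      (hz.mono Set.subset_union_right) (hw.mono Set.subset_union_right)]
  · intro g x y z w
    change c _ _ _ _ + c' _ _ _ _ = g • (c _ _ _ _ + c' _ _ _ _)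
    rw [hce, hce', smul_add]
  · funext x y z w v
    have e1 := congrFun (congrFun (congrFun (congrFun (congrFun hcd x) y) z) w) v
    have e2 := congrFun (congrFun (congrFun (congrFun (congrFun hcd' x) y) z) w) v
    simp only [d4, Pi.add_apply, Pi.zero_apply] at e1 e2 ⊢
    linear_combination (norm := abel) e1 + e2
  · intro x x' y y' z z' w w' hx hy hz hw
    change c _ _ _ _ + c' _ _ _ _ = c _ _ _ _ + c' _ _ _ _
    rw [hcI _ _ _ _ _ _ _ _ hx hy hz hw, hcI' _ _ _ _ _ _ _ _ hx hy hz hw]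
  · intro x x' y y' z z' hx hy hz
    change ω _ _ _ + ω' _ _ _ = ω _ _ _ + ω' _ _ _
    rw [hωT _ _ _ _ _ _ (hx.mono Set.subset_union_left) (hy.mono Set.subset_union_left)
      (hz.mono Set.subset_union_left), hωT' _ _ _ _ _ _ (hx.mono Set.subset_union_right)
      (hy.mono Set.subset_union_right) (hz.mono Set.subset_union_right)]
  · intro g x y z
    change ω _ _ _ + ω' _ _ _ = g • (ω _ _ _ + ω' _ _ _)
    rw [hωe, hωe', smul_add]
  · intro x y z w
    change f _ _ _ _ + f' _ _ _ _ = _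
    rw [hf, hf']
    simp only [d3, Pi.add_apply]
    abel

lemma LU.zero (B : ValuationSubring Ω) : LU B (0 : G → G → G → G → M) :=
  ⟨0, 0, ⟨∅, Stb.empty, fun _ _ _ _ _ _ _ _ _ _ _ _ => rfl⟩, fun g _ _ _ _ => (smul_zero g).symm,
    by funext x y z w v; simp [d4], fun _ _ _ _ _ _ _ _ _ _ _ _ => rfl,
    ⟨∅, Stb.empty, fun _ _ _ _ _ _ _ _ _ => rfl⟩, fun g _ _ _ => (smul_zero g).symm,
    fun x y z w => by simp [d3]⟩

lemma LU.sum {B : ValuationSubring Ω} {κ : Type} (s : Finset κ) (f : κ → G → G → G → G → M)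
    (h : ∀ i ∈ s, LU B (f i)) : LU B (∑ i ∈ s, f i) := by
  classical
  induction s using Finset.induction_on with
  | empty => rw [Finset.sum_empty]; exact LU.zero B
  | insert a s ha ih =>
    rw [Finset.sum_insert ha]
    exact (h a (Finset.mem_insert_self _ _)).add (ih fun i hi => h i (Finset.mem_insert_of_mem hi))

/-- modification by a coboundary -/
lemma LU.cobound {B : ValuationSubring Ω} {f f' : G → G → G → G → M} (h : LU B f)
    {β : G → G → G → M} (hβ : Sm3 Ω β) (hβe : ∀ g x y z, β (g * x) (g * y) (g * z) = g • β x y z)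
    (hf' : f' = f + d3 β) : LU B f' := by
  obtain ⟨c, ω, hcS, hce, hcd, hcI, ⟨T, hT, hωT⟩, hωe, hf⟩ := h
  obtain ⟨S, hS, hβS⟩ := hβ
  refine ⟨c, fun x y z => ω x y z + β x y z, hcS, hce, hcd, hcI,
    ⟨T ∪ S, hT.union (hS.restrict _), ?_⟩, ?_, ?_⟩
  · intro x x' y y' z z' hx hy hz
    change ω _ _ _ + β _ _ _ = ω _ _ _ + β _ _ _
    rw [hωT _ _ _ _ _ _ (hx.mono Set.subset_union_left) (hy.mono Set.subset_union_left)
      (hz.mono Set.subset_union_left), hβS _ _ _ _ _ _ (fun s hs => hx s (Or.inr hs))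
      (fun s hs => hy s (Or.inr hs)) (fun s hs => hz s (Or.inr hs))]
  · intro g x y z
    change ω _ _ _ + β (g * x) (g * y) (g * z) = g • (ω _ _ _ + β _ _ _)
    rw [hωe, hβe, smul_add]
    rfl
  · intro x y z w
    rw [hf']
    change f _ _ _ _ + d3 β x y z w = _
    rw [hf]
    simp only [d3]
    abel

end grp

section hahn

variable {E : Type} [Field E]

lemma order_inv' {x : Hah E} (hx : x ≠ 0) : x⁻¹.order = -x.order := by
  have h1 := HahnSeries.order_mul hx (inv_ne_zero hx)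
  rw [mul_inv_cancel₀ hx, HahnSeries.order_one] at h1
  exact (neg_eq_of_add_eq_zero_right h1.symm).symm

/-- the ring of Hahn series of nonnegative order -/
noncomputable def oV (E : Type) [Field E] : ValuationSubring (Hah E) where
  carrier := {x | x = 0 ∨ 0 ≤ x.order}
  mul_mem' := by
    rintro a b ha hb
    by_cases h : a * b = 0
    · exact Or.inl h
    · right
      have ha0 := left_ne_zero_of_mul h
      have hb0 := right_ne_zero_of_mul h
      rw [HahnSeries.order_mul ha0 hb0]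
      exact add_nonneg (ha.resolve_left ha0) (hb.resolve_left hb0)
  one_mem' := Or.inr (by rw [HahnSeries.order_one])
  add_mem' := by
    rintro a b ha hb
    by_cases h : a + b = 0
    · exact Or.inl h
    · by_cases ha0 : a = 0
      · subst ha0; rw [zero_add]; exact hb
      by_cases hb0 : b = 0
      · subst hb0; rw [add_zero]; exact ha
      right
      exact (le_min (ha.resolve_left ha0) (hb.resolve_left hb0)).trans
        (HahnSeries.min_order_le_order_add h)
  zero_mem' := Or.inl rfl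
  neg_mem' := by
    rintro a ha
    rcases ha with rfl | h
    · exact Or.inl neg_zero
    · right
      rw [HahnSeries.order_neg]
      exact h
  mem_or_inv_mem' := by
    intro x
    by_cases hx : x = 0
    · exact Or.inl (Or.inl hx)
    rcases le_total 0 x.order with h | h
    · exact Or.inl (Or.inr h)
    · right; right
      rw [order_inv' hx]
      exact neg_nonneg.2 h

lemma mem_oV {x : Hah E} : x ∈ oV E ↔ x = 0 ∨ 0 ≤ x.order := Iff.rfl

lemma nonunits_oV {x : Hah E} : x ∈ (oV E).nonunits ↔ x = 0 ∨ 0 < x.order := by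
  rw [mem_nonunits']
  by_cases hx : x = 0
  · simp [hx]
  · rw [mem_oV, order_inv' hx, inv_eq_zero]
    simp [hx]

lemma nonunits_oV' {x : Hah E} (hx : x ∈ oV E) (h0 : x.coeff 0 = 0) : x ∈ (oV E).nonunits := by
  rw [nonunits_oV]
  rcases hx with h | h
  · exact Or.inl h
  · by_cases hx0 : x = 0
    · exact Or.inl hx0
    right
    refine lt_of_le_of_ne h fun h' => ?_
    apply HahnSeries.coeff_order_eq_zero.not.2 hx0
    rw [← h', h0]

end hahn

section comap

variable {Ω Λ : Type} [Field Ω] [Field Λ]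

lemma nonunits_comap (B : ValuationSubring Λ) (f : Ω →+* Λ) (x : Ω) :
    x ∈ (B.comap f).nonunits ↔ f x ∈ B.nonunits := by
  rw [mem_nonunits', mem_nonunits', ValuationSubring.mem_comap, map_inv₀, map_eq_zero]

end comap

section kdval

variable {G E Ω M : Type} [Group G] [Field E] [IsAlgClosed E] [Field Ω] [IsAlgClosed Ω] [Algebra E Ω]
  [MulSemiringAction G E] [MulSemiringAction G Ω] [AddCommGroup M] [DistribMulAction G M]

namespace KD

variable {l : ℕ} (K : KD G E Ω M l)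

/-- the valuation ring attached to `a` -/
noncomputable def B (a : E) : ValuationSubring Ω := (oV E).comap (K.ι a).f

lemma mem_B (a : E) (x : Ω) : x ∈ K.B a ↔ (K.ι a).f x ∈ oV E := Iff.rfl

lemma tw_mem {g : E →+* E} {χ : AddChar ℚ E} {x : Hah E} : tw g χ x ∈ oV E ↔ x ∈ oV E := by
  rw [mem_oV, mem_oV, tw_order, map_eq_zero]

lemma sec_dcp (a : E) (g : G) (hg : g • a = a) : K.sec a g hg ∈ dcp G (K.B a) := by
  intro x
  rw [K.mem_B, K.mem_B, K.sec_spec, tw_mem]

lemma rt_ine (a : E) (ψ : AddChar ℚ E) (hψ : ψ 1 = 1) : K.rt a ψ hψ ∈ ine G (K.B a) := by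
  have h1 : ∀ x : Ω, K.rt a ψ hψ • x ∈ K.B a ↔ x ∈ K.B a := by
    intro x
    rw [K.mem_B, K.mem_B, K.rt_spec, tw_mem]
  refine ⟨h1, fun x hx => ?_⟩
  change _ ∈ ((oV E).comap (K.ι a).f).nonunits
  rw [nonunits_comap]
  refine nonunits_oV' ?_ ?_
  · exact (K.B a).sub_mem ((h1 x).2 hx) hx
  · rw [map_sub, HahnSeries.coeff_sub, K.rt_spec, tw_coeff, AddChar.map_zero_eq_one, one_mul]
    exact sub_self _

lemma ine_ker (a : E) {g : G} (hg : g ∈ ine G (K.B a)) : g ∈ kerN G E := by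
  intro e
  have h1 : algebraMap E Ω e ∈ K.B a := by
    rw [K.mem_B, (K.ι a).hE, mem_oV]
    right
    rw [HahnSeries.order_C]
  have h2 := hg.2 _ h1
  rw [K.full.comp, ← map_sub] at h2
  have h3 : algebraMap E Ω (g • e - e) ∈ ((oV E).comap (K.ι a).f).nonunits := h2
  rw [nonunits_comap, (K.ι a).hE, nonunits_oV, HahnSeries.order_C] at h3
  rcases h3 with h | h
  · have h4 : g • e - e = 0 := by
      have := congrArg (fun y : Hah E => y.coeff 0) h
      simpa using this
    exact sub_eq_zero.1 h4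
  · exact absurd h (lt_irrefl _)

/-- roots of characters -/
lemma exists_root (p : ℕ) [Fact p.Prime] [CharP E p] (n : ℕ) (ψ : AddChar ℚ E) (hψ : ψ 1 = 1) :
    ∃ ψ' : AddChar ℚ E, ψ' 1 = 1 ∧ ψ' ^ (p ^ n) = ψ := by
  haveI : ExpChar E p := ExpChar.prime Fact.out
  haveI : PerfectRing E p := inferInstance
  let e := iterateFrobeniusEquiv E p n
  refine ⟨((e.symm : E →+* E) : E →* E).compAddChar ψ, ?_, ?_⟩
  · change e.symm (ψ 1) = 1
    rw [hψ, map_one]
  · ext q
    rw [AddChar.pow_apply]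
    change (e.symm (ψ q)) ^ p ^ n = ψ q
    rw [← iterateFrobenius_def, ← coe_iterateFrobeniusEquiv]
    exact e.apply_symm_apply _

lemma rt_pow (a : E) (ψ : AddChar ℚ E) (hψ : ψ 1 = 1) (k : ℕ) (hk : (ψ ^ k) 1 = 1) :
    K.rt a (ψ ^ k) hk = K.rt a ψ hψ ^ k := by
  induction k with
  | zero =>
    refine K.eq_of_iota a fun x => ?_
    have h0 : K.rt a ψ hψ ^ 0 = 1 := pow_zero _
    rw [K.rt_spec, h0, one_smul]
    ext q
    rw [tw_coeff, AddChar.pow_apply, pow_zero]
    simp
  | succ k ih =>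
    have hk' : (ψ ^ k) 1 = 1 := by rw [AddChar.pow_apply, hψ, one_pow]
    have h1 := K.rt_mul a (ψ ^ k) ψ hk' hψ (by rw [← pow_succ]; exact hk)
    have h2 : K.rt a (ψ ^ (k + 1)) hk = K.rt a (ψ ^ k * ψ) (by rw [← pow_succ]; exact hk) := by
      congr 1
      exact pow_succ ψ k
    rw [h2, h1, ih hk', pow_succ]

lemma rt_mem (p : ℕ) [Fact p.Prime] [CharP E p] (N : Subgroup G) [N.Normal] {n : ℕ}
    (hN : N.index = p ^ n) (a : E) (ψ : AddChar ℚ E) (hψ : ψ 1 = 1) : K.rt a ψ hψ ∈ N := by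
  obtain ⟨ψ', hψ', rfl⟩ := exists_root p n ψ hψ
  rw [K.rt_pow a ψ' hψ', ← hN]
  exact N.pow_index_mem _

/-- the section as a homomorphism -/
noncomputable def secHom (a : E) : MulAction.stabilizer G a →* G where
  toFun j := K.sec a j j.2
  map_one' := K.sec_one a _
  map_mul' i j := K.sec_mul a i j i.2 j.2 _

/-- from the local condition at a valuation ring to the local condition at `a` -/
theorem unr_of_LU (p : ℕ) [Fact p.Prime] [CharP E p] (N : Subgroup G) [N.Normal] {n : ℕ}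
    (hN : N.index = p ^ n) (a : E) {α : G → G → G → G → M}
    (h : LU (G := N) (K.B a) fun x y z w => α x y z w) : K.Unr a α := by
  have hp : p.Prime := Fact.out
  obtain ⟨c, ω, ⟨S, hS, hcS⟩, hce, hcd, hcI, ⟨T, hT, hωT⟩, hωe, hf⟩ := h
  let D : Subgroup G := dcp G (K.B a) ⊓ N
  let κ : D →* dcp N (K.B a) :=
    { toFun := fun d => ⟨⟨d, d.2.2⟩, d.2.1⟩
      map_one' := rfl
      map_mul' := fun _ _ => rfl }
  obtain ⟨S', hSS', hS'⟩ := K.foΩ.exists_stb hS.1
  obtain ⟨T', hTT', hT'⟩ := K.foΩ.exists_stb hT.1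
  have hlp : p.Coprime l := by
    rw [Nat.coprime_primes hp K.pr]
    rintro rfl
    exact K.l0 (CharP.cast_eq_zero E p)
  refine ⟨D, (ine G (K.B a)).subgroupOf D, N.comap (K.secHom a), ?_, ?_, ?_, ?_, ?_, ?_,
    fun x y z w => c (κ x) (κ y) (κ z) (κ w), fun x y z => ω (κ x) (κ y) (κ z), ?_, ?_, ?_, ?_, ?_, ?_, ?_⟩
  · rw [Subgroup.index_comap]
    intro h
    have h1 := Subgroup.relIndex_dvd_index_of_normal N (K.secHom a).range
    rw [h, hN, zero_dvd_iff] at h1
    exact pow_ne_zero n hp.ne_zero h1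
  · rw [Subgroup.index_comap]
    have h1 := Subgroup.relIndex_dvd_index_of_normal N (K.secHom a).range
    rw [hN] at h1
    exact Nat.Coprime.coprime_dvd_left h1 (hlp.pow_left n)
  · intro i hi
    exact K.ine_ker a hi
  · intro d i hi
    exact ine_conj (B := K.B a) (d := (d : G)) (i := (i : G)) d.2.1 hi
  · intro g hg hgN
    exact ⟨K.sec_dcp a g hg, hgN⟩
  · intro ψ hψ
    have h1 := K.rt_ine a ψ hψ
    exact ⟨⟨h1.1, K.rt_mem p N hN a ψ hψ⟩, h1⟩
  · exact ⟨S', hS'.restrict D, fun x x' y y' z z' w w' hx hy hz hw =>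
      hcS _ _ _ _ _ _ _ _ (fun s hs => hx s (hSS' hs)) (fun s hs => hy s (hSS' hs))
        (fun s hs => hz s (hSS' hs)) (fun s hs => hw s (hSS' hs))⟩
  · intro g x y z w
    change c (κ (g * x)) (κ (g * y)) (κ (g * z)) (κ (g * w)) = _
    rw [map_mul, map_mul, map_mul, map_mul, hce]
    rfl
  · funext x y z w v
    exact congrFun (congrFun (congrFun (congrFun (congrFun hcd (κ x)) (κ y)) (κ z)) (κ w)) (κ v)
  · intro x x' y y' z z' w w' hx hy hz hw
    exact hcI _ _ _ _ _ _ _ _ hx hy hz hw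
  · exact ⟨T', hT'.restrict D, fun x x' y y' z z' hx hy hz =>
      hωT _ _ _ _ _ _ (fun s hs => hx s (hTT' hs)) (fun s hs => hy s (hTT' hs))
        (fun s hs => hz s (hTT' hs))⟩
  · intro g x y z
    change ω (κ (g * x)) (κ (g * y)) (κ (g * z)) = _
    rw [map_mul, map_mul, map_mul, hωe]
    rfl
  · intro x y z w
    exact hf (κ x) (κ y) (κ z) (κ w)

end KD

end kdval

end Run7.h333
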