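import Pool.Agent.Run7.h333.Dvr

/-! Vanishing for intermediate groups from towers. -/

set_option autoImplicit false
set_option linter.style.haveILetI false
set_option linter.unusedSectionVars false

namespace Run7.h333

section pull

variable {G₁ G₂ Ω M : Type} [Group G₁] [Group G₂] [Field Ω] [MulSemiringAction G₁ Ω]
  [MulSemiringAction G₂ Ω] [AddCommGroup M] [DistribMulAction G₁ M] [DistribMulAction G₂ M]

/-- pulling back the local condition -/
lemma LU.pull (φ : G₁ →* G₂) (hφ : ∀ (g : G₁) (x : Ω), φ g • x = g • x)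
    (hφM : ∀ (g : G₁) (m : M), φ g • m = g • m) (hfo : FinO G₁ Ω) {B : ValuationSubring Ω}
    {f : G₂ → G₂ → G₂ → G₂ → M} (h : LU B f) :
    LU (G := G₁) B fun x y z w => f (φ x) (φ y) (φ z) (φ w) := by
  obtain ⟨c, ω, ⟨S, hS, hcS⟩, hce, hcd, hcI, ⟨T, hT, hωT⟩, hωe, hf⟩ := h
  obtain ⟨S', hSS', hS'⟩ := hfo.exists_stb hS.1
  obtain ⟨T', hTT', hT'⟩ := hfo.exists_stb hT.1
  let κ : dcp G₁ B →* dcp G₂ B :=
    { toFun := fun d => ⟨φ d, fun x => by rw [hφ]; exact d.2 x⟩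
      map_one' := Subtype.ext (map_one φ)
      map_mul' := fun a b => Subtype.ext (map_mul φ _ _) }
  have hκi : ∀ a b : dcp G₁ B, ((a⁻¹ * b : dcp G₁ B) : G₁) ∈ ine G₁ B →
      (((κ a)⁻¹ * κ b : dcp G₂ B) : G₂) ∈ ine G₂ B := by
    intro a b hab
    rw [← map_inv, ← map_mul]
    refine ⟨fun x => ?_, fun x hx => ?_⟩
    · change φ _ • x ∈ B ↔ _
      rw [hφ]
      exact hab.1 x
    · change φ _ • x - x ∈ _
      rw [hφ]
      exact hab.2 x hx
  have hagr : ∀ {S S' : Set Ω}, S ⊆ S' → ∀ a b : dcp G₁ B, Agr S' a b → Agr S (κ a) (κ b) := by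
    intro S S' hSS' a b hab s hs
    change φ _ • s = φ _ • s
    rw [hφ, hφ]
    exact hab s (hSS' hs)
  refine ⟨fun x y z w => c (κ x) (κ y) (κ z) (κ w), fun x y z => ω (κ x) (κ y) (κ z),
    ⟨S', hS'.restrict _, ?_⟩, ?_, ?_, ?_, ⟨T', hT'.restrict _, ?_⟩, ?_, ?_⟩
  · intro x x' y y' z z' w w' hx hy hz hw
    exact hcS _ _ _ _ _ _ _ _ (hagr hSS' _ _ hx) (hagr hSS' _ _ hy) (hagr hSS' _ _ hz) (hagr hSS' _ _ hw)
  · intro g x y z w
    change c (κ (g * x)) (κ (g * y)) (κ (g * z)) (κ (g * w)) = _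
    rw [map_mul, map_mul, map_mul, map_mul, hce]
    exact hφM _ _
  · funext x y z w v
    exact congrFun (congrFun (congrFun (congrFun (congrFun hcd (κ x)) (κ y)) (κ z)) (κ w)) (κ v)
  · intro x x' y y' z z' w w' hx hy hz hw
    exact hcI _ _ _ _ _ _ _ _ (hκi _ _ hx) (hκi _ _ hy) (hκi _ _ hz) (hκi _ _ hw)
  · intro x x' y y' z z' hx hy hz
    exact hωT _ _ _ _ _ _ (hagr hTT' _ _ hx) (hagr hTT' _ _ hy) (hagr hTT' _ _ hz)
  · intro g x y z
    change ω (κ (g * x)) (κ (g * y)) (κ (g * z)) = _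
    rw [map_mul, map_mul, map_mul, hωe]
    exact hφM _ _
  · intro x y z w
    exact hf (κ x) (κ y) (κ z) (κ w)

end pull

section inv

variable {G Ω M : Type} [Group G] [Field Ω] [MulSemiringAction G Ω] [AddCommGroup M]
  [DistribMulAction G M]

/-- averaging and dividing -/
theorem inv_avg3 {l : ℕ} (hMl : ∀ a : M, ∃ n : ℕ, (l ^ n) • a = 0) {J : Subgroup G}
    {P : Subgroup J} (hP0 : P.index ≠ 0) (hPl : P.index.Coprime l) {f : G → G → G → G → M}
    (hf : Sm4 Ω f) (hfe : Eq4 J f) {β : G → G → G → M}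
    (hβ : ∀ p ∈ P, ∀ x y z, β (p * x) (p * y) (p * z) = p • β x y z) (h : f = d3 β)
    {T : Set Ω} (hT0 : Stb G T) (hT : Lv3 T β) :
    ∃ γ : G → G → G → M, Sm3 Ω γ ∧ Eq3 J γ ∧ f = d3 γ := by
  haveI : P.FiniteIndex := ⟨hP0⟩
  haveI : Finite (J ⧸ P) := Subgroup.finite_quotient_of_finiteIndex
  letI : Fintype (J ⧸ P) := Fintype.ofFinite _
  obtain ⟨γ, hγ1, hγ2, hγ3⟩ := average3 hfe hβ h hT
  have hcard : Fintype.card (J ⧸ P) = P.index := by
    rw [← Nat.card_eq_fintype_card]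
    rfl
  rw [hcard] at hγ3
  obtain ⟨S, hS, hfS⟩ := hf
  obtain ⟨N, hN⟩ := exists_exp (A := M) (l := l) hMl (hfS.finite hS)
  obtain ⟨m', hm'⟩ := exists_inv_smul hPl N
  have hzs : ∀ (g : G) (k : ℤ) (a : M), g • (k • a) = k • (g • a) := fun g k a =>
    (DistribSMul.toAddMonoidHom M g).map_zsmul k a
  refine ⟨m' • γ, ⟨T, hT0, ?_⟩, ?_, ?_⟩
  · intro x x' y y' z z' hx hy hz
    change m' • γ x y z = m' • γ x' y' z'
    rw [hγ1 _ _ _ _ _ _ hx hy hz]
  · intro g hg x y z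
    change m' • γ (g * x) (g * y) (g * z) = g • (m' • γ x y z)
    rw [hγ2 g hg, hzs]
  · funext x y z w
    have h1 := congrFun (congrFun (congrFun (congrFun hγ3 x) y) z) w
    have h3 := hm' (f x y z w) (hN _ ⟨x, y, z, w, rfl⟩)
    rw [← h3]
    have h4 : γ y z w - γ x z w + γ x y w - γ x y z = P.index • f x y z w := h1
    rw [← h4]
    change _ = m' • γ y z w - m' • γ x z w + m' • γ x y w - m' • γ x y z
    rw [smul_sub, smul_add, smul_sub]

end inv

section tower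

variable {G Ω M : Type} [Group G] [Field Ω] [MulSemiringAction G Ω] [IsAlgClosed Ω]
  [AddCommGroup M] [DistribMulAction G M]

/-- restriction of the coefficient data -/
def Cf.res {l : ℕ} (cf : Cf G Ω M l) (H : Subgroup G) : Cf H Ω M l where
  v := cf.v
  v_add := cf.v_add
  v_inj := cf.v_inj
  v_sur := cf.v_sur
  v_tor := cf.v_tor
  v_act g m := cf.v_act (g : G) m

omit [IsAlgClosed Ω] in
lemma Cf.tor {l : ℕ} (hl : l.Prime) (cf : Cf G Ω M l) (m : M) : ∃ n : ℕ, (l ^ n) • m = 0 := by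
  obtain ⟨n, hn⟩ := cf.v_tor m
  have h0 : cf.v 0 = 1 := by
    have h1 := cf.v_add 0 0
    rw [add_zero] at h1
    obtain ⟨n, hn⟩ := cf.v_tor 0
    have h2 : cf.v 0 ≠ 0 := by
      intro h
      rw [h, zero_pow (pow_ne_zero n hl.ne_zero)] at hn
      exact zero_ne_one hn
    exact (mul_right_cancel₀ h2 (by rw [one_mul]; exact h1)).symm
  have hp : ∀ k : ℕ, cf.v (k • m) = cf.v m ^ k := by
    intro k
    induction k with
    | zero => rw [zero_smul, pow_zero, h0]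
    | succ k ih => rw [succ_nsmul, cf.v_add, ih, pow_succ]
  exact ⟨n, cf.v_inj (by rw [hp, hn, h0])⟩

/-- the set of valuation rings all of whose translates are discrete on `Kb` -/
def BsOf (G : Type) {Ω Kb : Type} [Group G] [Field Ω] [MulSemiringAction G Ω] [Field Kb]
    (j : Kb →+* Ω) : Set (ValuationSubring Ω) :=
  {B | ∀ g : G, IsDiscreteValuationRing ((trB g B).comap j)}

lemma dvr_congr {F : Type} [Field F] {A B : ValuationSubring F} (h : A = B)
    (hB : IsDiscreteValuationRing B) : IsDiscreteValuationRing A := by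
  subst h
  exact hB

lemma BsOf_tr {Kb : Type} [Field Kb] (j : Kb →+* Ω) {B : ValuationSubring Ω} (hB : B ∈ BsOf G j)
    (g : G) : trB g B ∈ BsOf G j := by
  intro h
  have h1 : trB h (trB g B) = trB (g * h) B := by
    ext x
    rw [mem_trB, mem_trB, mem_trB, mul_smul]
  exact dvr_congr (by rw [h1]) (hB (g * h))

theorem B_mem {E : Type} [Field E] [IsAlgClosed E] [Algebra E Ω] {H : Subgroup G}
    [MulSemiringAction H E] {l : ℕ} (K : KD H E Ω M l) (a : E) {P : Subfield Ω} (hG : IsGal G P)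
    {Kb : Type} [Field Kb] (j : Kb →+* Ω)
    (hP : ∀ x ∈ P, x ∈ IntermediateField.adjoin E {K.z}) (n : ℕ)
    (hj : ∀ y : Kb, ∃ p : Polynomial P, p ≠ 0 ∧ p.natDegree ≤ n ∧ Polynomial.aeval (j y) p = 0)
    (halg : ∀ ω : Ω, ∃ p : Polynomial Kb, p ≠ 0 ∧ p.eval₂ j ω = 0) : K.B a ∈ BsOf G j := by
  intro g
  change IsDiscreteValuationRing ((K.B a).comap ((MulSemiringAction.toRingHom G Ω g).comp j))
  refine K.B_dvr a _ hP n (fun y => ?_) (fun ω => ?_)
  · obtain ⟨p, hp, hpn, hpy⟩ := hj y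
    refine ⟨p, hp, hpn, ?_⟩
    have h1 := smul_aeval_of_fix g (hG.fix g) p (j y)
    rw [hpy, smul_zero] at h1
    exact h1.symm
  · obtain ⟨p, hp, hpω⟩ := halg (g⁻¹ • ω)
    refine ⟨p, hp, ?_⟩
    have h1 := congrArg (MulSemiringAction.toRingHom G Ω g) hpω
    rw [Polynomial.hom_eval₂, map_zero] at h1
    have h2 : (MulSemiringAction.toRingHom G Ω g) (g⁻¹ • ω) = ω := smul_inv_smul g ω
    rwa [h2] at h1

/-- vanishing for an intermediate group from a tower over a subgroup of index prime to `l` -/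
theorem van_of_tower {l : ℕ} (hl : l.Prime) (hl0 : (l : Ω) ≠ 0) (cf : Cf G Ω M l) (p : ℕ)
    [Fact p.Prime] [CharP Ω p] {P : Subfield Ω} (hG : IsGal G P) (N : Subgroup G) [N.Normal]
    {n : ℕ} (hN : N.index = p ^ n) {H H' : Subgroup G} (hH : H' ≤ H)
    (hH0 : (H'.subgroupOf H).index ≠ 0) (hHl : (H'.subgroupOf H).index.Coprime l)
    {K0 : Subfield Ω} (hG' : IsGal H' K0) (T : Twr K0) (hPK : P ≤ K0)
    {Kb : Type} [Field Kb] (j : Kb →+* Ω) (d : ℕ)
    (hj : ∀ y : Kb, ∃ p : Polynomial P, p ≠ 0 ∧ p.natDegree ≤ d ∧ Polynomial.aeval (j y) p = 0)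
    (halg : ∀ ω : Ω, ∃ p : Polynomial Kb, p ≠ 0 ∧ p.eval₂ j ω = 0) :
    Van N M (BsOf G j) H := by
  intro t ht hte htd htL
  have hp : p.Prime := Fact.out
  have hfo := hG.finO
  have hchar : ∀ E : Subfield Ω, CharP E p := fun E => (algebraMap E Ω).charP (algebraMap E Ω).injective p
  -- the group `N ∩ H'`
  let N' : Subgroup H' := N.subgroupOf H'
  haveI : N'.Normal := Subgroup.normal_subgroupOf
  have hN' : ∃ k, N'.index = p ^ k := by
    have h1 : N'.index ∣ N.index := Subgroup.relIndex_dvd_index_of_normal N H'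
    rw [hN] at h1
    obtain ⟨k, _, hk⟩ := (Nat.dvd_prime_pow hp).1 h1
    exact ⟨k, hk⟩
  obtain ⟨k, hN'⟩ := hN'
  let α' : H' → H' → H' → H' → M := fun x y z w => t x y z w
  obtain ⟨S, hS, htS⟩ := ht
  have hα' : Sm4 Ω α' := ⟨S, hS.restrict H', fun x x' y y' z z' w w' hx hy hz hw =>
    htS _ _ _ _ _ _ _ _ hx hy hz hw⟩
  have hα'e : Eq4 ⊤ α' := by
    intro g _ x y z w
    exact hte g (hH g.2) x y z w
  have hα'd : d4 α' = 0 := by
    funext x y z w v
    exact congrFun (congrFun (congrFun (congrFun (congrFun htd x) y) z) w) v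
  have hLU : ∀ B ∈ BsOf G j, LU (G := N') B fun x y z w => α' x y z w := by
    intro B hB
    let φ : N' →* N :=
      { toFun := fun g => ⟨((g : H') : G), g.2⟩
        map_one' := rfl
        map_mul' := fun _ _ => rfl }
    exact LU.pull φ (fun _ _ => rfl) (fun _ _ => rfl) ((hfo.restrict H').restrict N') (htL B hB)
  let cf' := cf.res H'
  let K1 := cf'.kd hG' hl hl0 T.hK1 T.h1 T.tr_zy
  let K2 := cf'.kd hG' hl hl0 T.hK2 T.h2 T.tr_yz
  haveI := hchar (SS.ac hG' (adj T.k0 T.y) T.h1).F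
  haveI := hchar (SS.ac hG' (adj T.k0 T.z) T.h2).F
  obtain ⟨ω, ⟨S₁, hS₁, hωS⟩, hωe, hω⟩ := T.van hG' cf' hl hl0 hα' hα'e hα'd
    (fun a => K1.unr_of_LU p N' hN' a (hLU _ (B_mem K1 a hG j (fun x hx => by
      have h1 : x ∈ adj (adj T.k0 T.y) T.z := T.hK1 ▸ hPK hx
      exact adj_le ((SS.le_ac hG' T.h1).trans (le_adj _ _)) (mem_adj _ _) h1) d hj halg)))
    (fun a => K2.unr_of_LU p N' hN' a (hLU _ (B_mem K2 a hG j (fun x hx => by
      have h1 : x ∈ adj (adj T.k0 T.z) T.y := T.hK2 ▸ hPK hx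
      exact adj_le ((SS.le_ac hG' T.h2).trans (le_adj _ _)) (mem_adj _ _) h1) d hj halg)))
  obtain ⟨S₂, hSS₂, hS₂⟩ := hfo.exists_stb hS₁.1
  obtain ⟨β, hβ1, hβ2, hβ3⟩ := lemmaA3 (A := M) (J := H') H'.subtype hS hS₂ htS
    (fun g x y z w => hte g (hH g.2) x y z w) htd (b := ω)
    (fun x x' y y' z z' hx hy hz => hωS _ _ _ _ _ _ (fun s hs => hx s (hSS₂ hs))
      (fun s hs => hy s (hSS₂ hs)) (fun s hs => hz s (hSS₂ hs)))
    (fun g x y z => hωe g (Subgroup.mem_top _) x y z)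
    (fun x y z w => congrFun (congrFun (congrFun (congrFun hω x) y) z) w)
  exact inv_avg3 (cf.tor hl) hH0 hHl ⟨S, hS, htS⟩ hte
    (fun q hq x y z => hβ2 ⟨q, hq⟩ x y z) hβ3 (hS.union hS₂) hβ1

end tower

end Run7.h333
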